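import Pool.Agent.Lib.H23D.Basic

/-!
# H23D, A1: sums of codegrees

Module C of H93B, see `H93B/PROOF.md` and `README.md`.
-/

set_option autoImplicit false

open Finset
open scoped Classical

namespace Pool.Agent.Lib.H23D

open Pool.Agent.Lib.Prob48
open Pool.Agent.Lib.H93B

variable {V : Type} [Fintype V] {G : SimpleGraph V} {k : ℕ} {φ : V → Option (Fin k)} {c : Cst}
  {r : ℝ} {D : ℕ} {x C1 C3 L : ℝ}

/-- `∑_w cd u w ≤ D² = r ^ 6`. Proof: `cd u w = ∑_{y ∈ N(u)} 1[w ∈ N(y)]` (as a sum over `y ∈ nb G u` of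
`if G.Adj w y then 1 else 0`), exchange the sums: `∑_{y ∈ N(u)} |N(y)| ≤ D * D`; `(D : ℝ) = r ^ 3`. -/
theorem a1_sum (hdeg : ∀ v, (nb G v).card ≤ D) (hr : r ^ 3 = D) (u : V) :
    ∑ w, cd G u w ≤ r ^ 6 := by
  have h1 : ∀ w, cd G u w = ∑ y ∈ nb G u, (if G.Adj w y then (1 : ℝ) else 0) := by
    intro w
    unfold cd co
    rw [← Finset.sum_filter, Finset.sum_const, nsmul_eq_mul, mul_one]
    congr 2
    ext y
    rw [mem_inter, mem_filter, mem_nb, mem_nb]
  have h2 : ∑ w, cd G u w = ∑ y ∈ nb G u, ((nb G y).card : ℝ) := by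
    rw [Finset.sum_congr rfl fun w _ => h1 w, Finset.sum_comm]
    refine Finset.sum_congr rfl fun y _ => ?_
    rw [← Finset.sum_filter, Finset.sum_const, nsmul_eq_mul, mul_one]
    congr 2
    ext w
    rw [mem_filter, mem_nb]
    exact ⟨fun h => h.2.symm, fun h => ⟨mem_univ _, h.symm⟩⟩
  rw [h2]
  calc ∑ y ∈ nb G u, ((nb G y).card : ℝ) ≤ ∑ y ∈ nb G u, (D : ℝ) :=
        sum_le_sum fun y _ => by exact_mod_cast hdeg y
    _ = (nb G u).card * D := by rw [sum_const, nsmul_eq_mul]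
    _ ≤ D * D := by
        have h3 : ((nb G u).card : ℝ) ≤ D := by exact_mod_cast hdeg u
        exact mul_le_mul_of_nonneg_right h3 (Nat.cast_nonneg D)
    _ = r ^ 6 := by rw [← hr]; ring

/-- `cd² ≤ l cd` on the filter; then `a1_sum` (all terms are nonnegative). -/
theorem a1_sq (hdeg : ∀ v, (nb G v).card ≤ D) (hr : r ^ 3 = D) (u : V) (l : ℝ) (hl : 0 ≤ l) :
    ∑ w ∈ univ.filter (fun w => cd G u w ≤ l), cd G u w ^ 2 ≤ l * r ^ 6 := by
  have h1 : ∑ w ∈ univ.filter (fun w => cd G u w ≤ l), cd G u w ^ 2 ≤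
      ∑ w ∈ univ.filter (fun w => cd G u w ≤ l), l * cd G u w := by
    refine sum_le_sum fun w hw => ?_
    rw [pow_two]
    exact mul_le_mul_of_nonneg_right (mem_filter.1 hw).2 (cd_nonneg u w)
  have h2 : ∑ w ∈ univ.filter (fun w => cd G u w ≤ l), cd G u w ≤ ∑ w, cd G u w :=
    sum_le_sum_of_subset_of_nonneg (filter_subset _ _) fun w _ _ => cd_nonneg u w
  rw [← mul_sum] at h1
  exact h1.trans (mul_le_mul_of_nonneg_left (h2.trans (a1_sum hdeg hr u)) hl)

/-- `h ≤ cd u w` on the filter; then `a1_sum`. -/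
theorem a1_card (hdeg : ∀ v, (nb G v).card ≤ D) (hr : r ^ 3 = D) (u : V) (h : ℝ) :
    h * ((univ.filter fun w => h ≤ cd G u w).card : ℝ) ≤ r ^ 6 := by
  have h1 : h * ((univ.filter fun w => h ≤ cd G u w).card : ℝ) ≤
      ∑ w ∈ univ.filter (fun w => h ≤ cd G u w), cd G u w := by
    rw [mul_comm, ← nsmul_eq_mul]
    exact card_nsmul_le_sum _ _ _ fun w hw => (mem_filter.1 hw).2
  have h2 : ∑ w ∈ univ.filter (fun w => h ≤ cd G u w), cd G u w ≤ ∑ w, cd G u w :=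
    sum_le_sum_of_subset_of_nonneg (filter_subset _ _) fun w _ _ => cd_nonneg u w
  exact h1.trans (h2.trans (a1_sum hdeg hr u))

end Pool.Agent.Lib.H23D
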