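/-
MP_273810_co, H25D part V: real vectors which are linearly independent over the real algebraic numbers are dense.
-/
import Mathlib

namespace Pool.Agent.Lib.H23D

open Set

/-- linear independence over the real algebraic numbers -/
def AlgIndep {ι : Type*} [Fintype ι] (h : ι → ℝ) : Prop :=
  ∀ c : ι → ℝ, (∀ i, IsAlgebraic ℚ (c i)) → ∑ i, c i * h i = 0 → ∀ i, c i = 0

private theorem Dense_count {n : ℕ} (h : Fin n → ℝ) :
    {x : ℝ | ∃ c : Fin (n + 1) → ℝ, (∀ i, IsAlgebraic ℚ (c i)) ∧ c (Fin.last n) ≠ 0 ∧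
      (∑ i : Fin n, c i.castSucc * h i) + c (Fin.last n) * x = 0}.Countable := by
  have hA : {x : ℝ | IsAlgebraic ℚ x}.Countable := Algebraic.countable ℚ ℝ
  have hP : {c : Fin (n + 1) → ℝ | ∀ i, c i ∈ {x : ℝ | IsAlgebraic ℚ x}}.Countable := by
    have := Set.countable_univ_pi (α := Fin (n + 1)) (s := fun _ => {x : ℝ | IsAlgebraic ℚ x}) fun _ => hA
    refine this.mono ?_
    intro c hc i _
    exact hc i
  refine (hP.image fun c => -(∑ i : Fin n, c i.castSucc * h i) / c (Fin.last n)).mono ?_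
  rintro x ⟨c, hc, h0, hx⟩
  refine ⟨c, hc, ?_⟩
  simp only
  field_simp
  linarith

private theorem Dense_fin : ∀ (n : ℕ) (h : Fin n → ℝ) (ε : ℝ), 0 < ε →
    ∃ h' : Fin n → ℝ, (∀ i, |h' i - h i| < ε) ∧ AlgIndep h'
  | 0, h, ε, hε => ⟨h, fun i => i.elim0, fun c _ _ i => i.elim0⟩
  | n + 1, h, ε, hε => by
    obtain ⟨g, hg, hI⟩ := Dense_fin n (fun i => h i.castSucc) ε hε
    have hu : ¬ (Ioo (h (Fin.last n) - ε) (h (Fin.last n) + ε)).Countable := by
      rw [← Cardinal.le_aleph0_iff_set_countable, not_le, Cardinal.mk_Ioo_real (by linarith)]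
      exact Cardinal.aleph0_lt_continuum
    have hex : ∃ x ∈ Ioo (h (Fin.last n) - ε) (h (Fin.last n) + ε),
        ¬ ∃ c : Fin (n + 1) → ℝ, (∀ i, IsAlgebraic ℚ (c i)) ∧ c (Fin.last n) ≠ 0 ∧
          (∑ i : Fin n, c i.castSucc * g i) + c (Fin.last n) * x = 0 := by
      by_contra hno
      push Not at hno
      exact hu ((Dense_count g).mono fun x hx => hno x hx)
    obtain ⟨x, hx, hno⟩ := hex
    refine ⟨Fin.snoc g x, ?_, ?_⟩
    · intro i
      refine Fin.lastCases ?_ (fun j => ?_) i
      · rw [Fin.snoc_last, abs_lt]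
        exact ⟨by linarith [hx.1], by linarith [hx.2]⟩
      · rw [Fin.snoc_castSucc]
        exact hg j
    · intro c hc hs
      have hl : c (Fin.last n) = 0 := by
        by_contra h0
        refine hno ⟨c, hc, h0, ?_⟩
        rw [Fin.sum_univ_castSucc] at hs
        simpa using hs
      have hs' : ∑ i : Fin n, c i.castSucc * g i = 0 := by
        rw [Fin.sum_univ_castSucc, hl] at hs
        simpa using hs
      have := hI (fun i => c i.castSucc) (fun i => hc _) hs'
      intro i
      refine Fin.lastCases hl (fun j => this j) i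

/-- vectors independent over the real algebraic numbers are dense -/
theorem dense_algIndep {ι : Type*} [Fintype ι] (h : ι → ℝ) {ε : ℝ} (hε : 0 < ε) :
    ∃ h' : ι → ℝ, (∀ i, |h' i - h i| < ε) ∧ AlgIndep h' := by
  classical
  let e := Fintype.equivFin ι
  obtain ⟨g, hg, hI⟩ := Dense_fin (Fintype.card ι) (fun j => h (e.symm j)) ε hε
  refine ⟨fun i => g (e i), fun i => ?_, ?_⟩
  · have := hg (e i)
    simpa using this
  · intro c hc hs i
    have h1 : ∑ j, (fun j => c (e.symm j)) j * g j = 0 := by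
      rw [← hs]
      refine (Fintype.sum_equiv e _ _ fun x => ?_).symm
      simp
    have := hI (fun j => c (e.symm j)) (fun j => hc _) h1 (e i)
    simpa using this

end Pool.Agent.Lib.H23D
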