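/-
MP_273810_co, H25D part V: near every n-gon (a closed polygonal line v : ZMod n -> C with n >= 3, v i <> v (i+1)) there is one
whose sides have directions exp (pi k_i / N), N an arbitrarily large odd prime, consecutive sides not parallel, and whose support
numbers h_i = cross t_i v_i are linearly independent over the real algebraic numbers.
-/
import Mathlib
import Pool.Agent.Lib.H23D.Dense

namespace Pool.Agent.Lib.H23D

open Set Filter Topology

/-- the determinant of two plane vectors -/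
def cr (a b : ℂ) : ℝ := a.re * b.im - a.im * b.re

/-- the unit vector of angle a -/
noncomputable def tv (a : ℝ) : ℂ := Complex.exp (a * Complex.I)

theorem tv_re (a : ℝ) : (tv a).re = Real.cos a := by
  unfold tv
  rw [Complex.exp_ofReal_mul_I_re]

theorem tv_im (a : ℝ) : (tv a).im = Real.sin a := by
  unfold tv
  rw [Complex.exp_ofReal_mul_I_im]

theorem cr_tv (a b : ℝ) : cr (tv a) (tv b) = Real.sin (b - a) := by
  unfold cr
  rw [tv_re, tv_re, tv_im, tv_im, Real.sin_sub]
  ring

/-- the intersection of the lines {cr s z = g} and {cr t z = h} -/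
noncomputable def cut (s t : ℂ) (g h : ℝ) : ℂ := ((g : ℂ) * t - (h : ℂ) * s) / (cr s t : ℝ)

theorem cr_cut_left {s t : ℂ} (g h : ℝ) (hst : cr s t ≠ 0) : cr s (cut s t g h) = g := by
  unfold cut
  have : cr s (((g : ℂ) * t - (h : ℂ) * s) / (cr s t : ℝ)) = (cr s ((g : ℂ) * t - (h : ℂ) * s)) / cr s t := by
    unfold cr
    rw [Complex.div_ofReal_im, Complex.div_ofReal_re]
    ring
  rw [this]
  rw [div_eq_iff hst]
  unfold cr
  simp
  ring

theorem cr_cut_right {s t : ℂ} (g h : ℝ) (hst : cr s t ≠ 0) : cr t (cut s t g h) = h := by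
  unfold cut
  have : cr t (((g : ℂ) * t - (h : ℂ) * s) / (cr s t : ℝ)) = (cr t ((g : ℂ) * t - (h : ℂ) * s)) / cr s t := by
    unfold cr
    rw [Complex.div_ofReal_im, Complex.div_ofReal_re]
    ring
  rw [this]
  rw [div_eq_iff hst]
  unfold cr
  simp
  ring

theorem eq_cut {s t z : ℂ} (hst : cr s t ≠ 0) : z = cut s t (cr s z) (cr t z) := by
  unfold cut
  have h0 : ((cr s t : ℝ) : ℂ) ≠ 0 := by exact_mod_cast hst
  rw [eq_div_iff h0]
  unfold cr
  apply Complex.ext
  · simp
    ring
  · simp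
    ring

/-- a vector parallel to the unit vector of angle a is a real multiple of it -/
theorem exists_mul_tv {a : ℝ} {z : ℂ} (h : cr (tv a) z = 0) : z = ((z.re * Real.cos a + z.im * Real.sin a : ℝ) : ℂ) * tv a := by
  unfold cr at h
  rw [tv_re, tv_im] at h
  have h1 := Real.sin_sq_add_cos_sq a
  apply Complex.ext
  · rw [Complex.re_ofReal_mul, tv_re]
    linear_combination (-z.re) * h1 - Real.sin a * h
  · rw [Complex.im_ofReal_mul, tv_im]
    linear_combination (-z.im) * h1 + Real.cos a * h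

/-- general position: no two consecutive sides are parallel -/
theorem PartV_general {n : ℕ} (hn : 3 ≤ n) (v : ZMod n → ℂ) {ε : ℝ} (hε : 0 < ε) :
    ∃ v' : ZMod n → ℂ, (∀ i, ‖v' i - v i‖ < ε) ∧
      ∀ i, cr (v' (i + 1) - v' i) (v' (i + 1 + 1) - v' (i + 1)) ≠ 0 := by
  have : NeZero n := ⟨by omega⟩
  let w : ZMod n → ℂ := fun i => ⟨i.val, (i.val : ℝ) ^ 2⟩
  have hw : ∀ i, cr (w (i + 1) - w i) (w (i + 1 + 1) - w (i + 1)) ≠ 0 := by
    intro i
    have e : cr (w (i + 1) - w i) (w (i + 1 + 1) - w (i + 1)) =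
        (((i + 1).val : ℝ) - i.val) * (((i + 1 + 1).val : ℝ) - (i + 1).val) * (((i + 1 + 1).val : ℝ) - i.val) := by
      simp only [cr, w, Complex.sub_re, Complex.sub_im]
      ring
    rw [e]
    have hne : ∀ a b : ZMod n, a ≠ b → ((a.val : ℝ) - b.val) ≠ 0 := by
      intro a b hab h
      apply hab
      apply ZMod.val_injective n
      exact_mod_cast (sub_eq_zero.1 h)
    have h1 : (1 : ZMod n) ≠ 0 := by
      intro h
      have := (ZMod.natCast_eq_zero_iff 1 n).1 (by exact_mod_cast h)
      have := Nat.le_of_dvd (by norm_num) this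
      omega
    have h2 : (2 : ZMod n) ≠ 0 := by
      intro h
      have := (ZMod.natCast_eq_zero_iff 2 n).1 (by exact_mod_cast h)
      have := Nat.le_of_dvd (by norm_num) this
      omega
    refine mul_ne_zero (mul_ne_zero (hne _ _ ?_) (hne _ _ ?_)) (hne _ _ ?_)
    · intro h
      exact h1 (by linear_combination h)
    · intro h
      exact h1 (by linear_combination h)
    · intro h
      exact h2 (by linear_combination h)
  -- the bad parameters
  let B : Set ℝ := ⋃ i, {s : ℝ | cr ((v (i + 1) + s * w (i + 1)) - (v i + s * w i))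
    ((v (i + 1 + 1) + s * w (i + 1 + 1)) - (v (i + 1) + s * w (i + 1))) = 0}
  have hB : B.Finite := by
    refine Set.finite_iUnion fun i => ?_
    set A0 := cr (v (i + 1) - v i) (v (i + 1 + 1) - v (i + 1))
    set A1 := cr (v (i + 1) - v i) (w (i + 1 + 1) - w (i + 1)) + cr (w (i + 1) - w i) (v (i + 1 + 1) - v (i + 1))
    set A2 := cr (w (i + 1) - w i) (w (i + 1 + 1) - w (i + 1)) with hA2
    let p : Polynomial ℝ := Polynomial.C A0 + Polynomial.C A1 * Polynomial.X + Polynomial.C A2 * Polynomial.X ^ 2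
    have hp : p ≠ 0 := by
      intro h
      have := congrArg (fun q => Polynomial.coeff q 2) h
      simp [p] at this
      exact hw i this
    refine (p.rootSet_finite ℝ).subset ?_
    intro s hs
    rw [Polynomial.mem_rootSet]
    refine ⟨hp, ?_⟩
    have hs' : cr ((v (i + 1) + s * w (i + 1)) - (v i + s * w i))
      ((v (i + 1 + 1) + s * w (i + 1 + 1)) - (v (i + 1) + s * w (i + 1))) = 0 := hs
    simp only [p, map_add, map_mul, map_pow, Polynomial.aeval_X, Polynomial.aeval_C]
    simp only [A0, A1, A2, cr, Complex.sub_re, Complex.sub_im, Complex.add_re, Complex.add_im,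
      Complex.re_ofReal_mul, Complex.im_ofReal_mul, Algebra.algebraMap_self, RingHom.id_apply] at hs' ⊢
    linear_combination hs'
  -- a small good parameter
  let C : ℝ := 1 + ∑ i, ‖w i‖
  have hC : 0 < C := by
    have : 0 ≤ ∑ i, ‖w i‖ := Finset.sum_nonneg fun i _ => norm_nonneg _
    positivity
  have hCi : ∀ i, ‖w i‖ < C := by
    intro i
    have : ‖w i‖ ≤ ∑ i, ‖w i‖ := Finset.single_le_sum (fun i _ => norm_nonneg (w i)) (Finset.mem_univ i)
    linarith
  obtain ⟨s, hs, hsB⟩ := ((Set.Ioo_infinite (show (0 : ℝ) < ε / C by positivity)).sdiff hB).nonempty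
  refine ⟨fun i => v i + s * w i, fun i => ?_, fun i => ?_⟩
  · have e : v i + s * w i - v i = s * w i := by ring
    rw [e, norm_mul, Complex.norm_real, Real.norm_eq_abs, abs_of_pos hs.1]
    have h1 : s * ‖w i‖ ≤ s * C := mul_le_mul_of_nonneg_left (hCi i).le hs.1.le
    have h2 : s * C < ε := by
      have := hs.2
      rwa [lt_div_iff₀ hC] at this
    linarith
  · intro h
    exact hsB (Set.mem_iUnion.2 ⟨i, h⟩)

/-- the data of a polygon of the dense class: directions pi k_i / N, N an odd prime, consecutive sides not parallel, support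
numbers linearly independent over the real algebraic numbers -/
structure Cls {n : ℕ} [NeZero n] (v : ZMod n → ℂ) (N : ℕ) (k : ZMod n → ℤ) : Prop where
  prime : N.Prime
  odd : N ≠ 2
  len : ∀ i, ∃ r : ℝ, 0 < r ∧ v (i + 1) - v i = r * tv (Real.pi * k i / N)
  turn : ∀ i, ¬ (N : ℤ) ∣ k (i + 1) - k i
  indep : AlgIndep fun i => cr (tv (Real.pi * k i / N)) (v i)

theorem dense_cls {n : ℕ} [NeZero n] (hn : 3 ≤ n) (v : ZMod n → ℂ) (hv : ∀ i, v (i + 1) ≠ v i) {ε : ℝ} (hε : 0 < ε) (M : ℕ) :
    ∃ (v' : ZMod n → ℂ) (N : ℕ) (k : ZMod n → ℤ), M ≤ N ∧ Cls v' N k ∧ ∀ i, ‖v' i - v i‖ < ε := by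
  -- lower bound of the side lengths
  have hm : ∃ m : ℝ, 0 < m ∧ ∀ i, m ≤ ‖v (i + 1) - v i‖ := by
    obtain ⟨i0, hi0⟩ := Finite.exists_min fun i => ‖v (i + 1) - v i‖
    exact ⟨‖v (i0 + 1) - v i0‖, norm_pos_iff.2 (sub_ne_zero.2 (hv i0)), hi0⟩
  obtain ⟨m, hm0, hm1⟩ := hm
  set e1 : ℝ := min (ε / 2) (m / 8) with he1
  have he1p : 0 < e1 := by positivity
  obtain ⟨u, hu, hg⟩ := PartV_general hn v he1p
  -- side lengths of u
  have hul : ∀ i, m / 2 ≤ ‖u (i + 1) - u i‖ := by
    intro i
    have h1 := hm1 i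
    have h2 := hu i
    have h3 := hu (i + 1)
    have h4 : ‖v (i + 1) - v i‖ ≤ ‖u (i + 1) - u i‖ + ‖u (i + 1) - v (i + 1)‖ + ‖u i - v i‖ := by
      have e : v (i + 1) - v i = (u (i + 1) - u i) - (u (i + 1) - v (i + 1)) + (u i - v i) := by ring
      calc ‖v (i + 1) - v i‖ = ‖(u (i + 1) - u i) - (u (i + 1) - v (i + 1)) + (u i - v i)‖ := by rw [← e]
        _ ≤ ‖(u (i + 1) - u i) - (u (i + 1) - v (i + 1))‖ + ‖u i - v i‖ := norm_add_le _ _
        _ ≤ _ := by
          gcongr
          exact norm_sub_le _ _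
    have h5 : e1 ≤ m / 8 := min_le_right _ _
    linarith
  have hu0 : ∀ i, u (i + 1) - u i ≠ 0 := fun i h => by
    have := hul i
    rw [h, norm_zero] at this
    linarith
  -- angles and support numbers of u
  let ps : ZMod n → ℝ := fun i => Complex.arg (u (i + 1) - u i)
  let hh : ZMod n → ℝ := fun i => cr (tv (ps i)) (u i)
  have hps : ∀ i, u (i + 1) - u i = ‖u (i + 1) - u i‖ * tv (ps i) := fun i => by
    unfold tv
    exact (Complex.norm_mul_exp_arg_mul_I _).symm
  have hcr : ∀ i, cr (tv (ps i)) (tv (ps (i + 1))) ≠ 0 := by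
    intro i h
    apply hg i
    rw [hps i, hps (i + 1)]
    have e : cr (‖u (i + 1) - u i‖ * tv (ps i)) (‖u (i + 1 + 1) - u (i + 1)‖ * tv (ps (i + 1))) =
        ‖u (i + 1) - u i‖ * ‖u (i + 1 + 1) - u (i + 1)‖ * cr (tv (ps i)) (tv (ps (i + 1))) := by
      simp only [cr, Complex.re_ofReal_mul, Complex.im_ofReal_mul]
      ring
    rw [e, h, mul_zero]
  have hh2 : ∀ i, cr (tv (ps i)) (u (i + 1)) = hh i := by
    intro i
    have e : cr (tv (ps i)) (u (i + 1)) = cr (tv (ps i)) (u i) + cr (tv (ps i)) (u (i + 1) - u i) := by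
      simp only [cr, Complex.sub_re, Complex.sub_im]
      ring
    rw [e, hps i]
    have e2 : cr (tv (ps i)) (‖u (i + 1) - u i‖ * tv (ps i)) = 0 := by
      simp only [cr, Complex.re_ofReal_mul, Complex.im_ofReal_mul]
      ring
    rw [e2, add_zero]
  -- the intersection map and its continuity
  let F : (ZMod n → ℝ) × (ZMod n → ℝ) → ZMod n → ℂ := fun x i =>
    cut (tv (x.1 i)) (tv (x.1 (i + 1))) (x.2 i) (x.2 (i + 1))
  have hF0 : ∀ i, F (ps, hh) i = u (i + 1) := by
    intro i
    have := eq_cut (z := u (i + 1)) (hcr i)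
    rw [hh2 i] at this
    exact this.symm
  have htvc : Continuous tv := by
    unfold tv
    fun_prop
  have hcrc : ∀ i, Continuous fun x : (ZMod n → ℝ) × (ZMod n → ℝ) => cr (tv (x.1 i)) (tv (x.1 (i + 1))) := by
    intro i
    unfold cr
    have h1 : Continuous fun x : (ZMod n → ℝ) × (ZMod n → ℝ) => tv (x.1 i) := htvc.comp (by fun_prop)
    have h2 : Continuous fun x : (ZMod n → ℝ) × (ZMod n → ℝ) => tv (x.1 (i + 1)) := htvc.comp (by fun_prop)
    exact ((Complex.continuous_re.comp h1).mul (Complex.continuous_im.comp h2)).sub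
      ((Complex.continuous_im.comp h1).mul (Complex.continuous_re.comp h2))
  have hFc : ∀ i, ContinuousAt (fun x => F x i) (ps, hh) := by
    intro i
    have h1 : Continuous fun x : (ZMod n → ℝ) × (ZMod n → ℝ) => tv (x.1 i) := htvc.comp (by fun_prop)
    have h2 : Continuous fun x : (ZMod n → ℝ) × (ZMod n → ℝ) => tv (x.1 (i + 1)) := htvc.comp (by fun_prop)
    have h3 : Continuous fun x : (ZMod n → ℝ) × (ZMod n → ℝ) => ((x.2 i : ℝ) : ℂ) :=
      Complex.continuous_ofReal.comp (by fun_prop)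
    have h4 : Continuous fun x : (ZMod n → ℝ) × (ZMod n → ℝ) => ((x.2 (i + 1) : ℝ) : ℂ) :=
      Complex.continuous_ofReal.comp (by fun_prop)
    refine ContinuousAt.div ((h3.mul h2).sub (h4.mul h1)).continuousAt
      (Complex.continuous_ofReal.comp (hcrc i)).continuousAt ?_
    have := hcr i
    exact_mod_cast this
  have hpos : ∀ i, ∀ᶠ x in 𝓝 (ps, hh), 0 < (F x i - F x (i - 1)).re * Real.cos (x.1 i) +
      (F x i - F x (i - 1)).im * Real.sin (x.1 i) := by
    intro i
    have hc1 : ContinuousAt (fun x => F x i - F x (i - 1)) (ps, hh) := (hFc i).sub (hFc (i - 1))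
    have hc2 : Continuous fun x : (ZMod n → ℝ) × (ZMod n → ℝ) => Real.cos (x.1 i) := Real.continuous_cos.comp (by fun_prop)
    have hc3 : Continuous fun x : (ZMod n → ℝ) × (ZMod n → ℝ) => Real.sin (x.1 i) := Real.continuous_sin.comp (by fun_prop)
    have hc : ContinuousAt (fun x : (ZMod n → ℝ) × (ZMod n → ℝ) => (F x i - F x (i - 1)).re * Real.cos (x.1 i) +
        (F x i - F x (i - 1)).im * Real.sin (x.1 i)) (ps, hh) :=
      ((Complex.continuous_re.continuousAt.comp hc1).mul hc2.continuousAt).add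
        ((Complex.continuous_im.continuousAt.comp hc1).mul hc3.continuousAt)
    have h0 : 0 < (F (ps, hh) i - F (ps, hh) (i - 1)).re * Real.cos (ps i) +
        (F (ps, hh) i - F (ps, hh) (i - 1)).im * Real.sin (ps i) := by
      rw [hF0 i, hF0 (i - 1), sub_add_cancel, hps i, Complex.re_ofReal_mul, Complex.im_ofReal_mul, tv_re, tv_im]
      have h1 := Real.sin_sq_add_cos_sq (ps i)
      have h2 : 0 < ‖u (i + 1) - u i‖ := norm_pos_iff.2 (hu0 i)
      have e : ‖u (i + 1) - u i‖ * Real.cos (ps i) * Real.cos (ps i) + ‖u (i + 1) - u i‖ * Real.sin (ps i) * Real.sin (ps i)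
          = ‖u (i + 1) - u i‖ := by
        linear_combination ‖u (i + 1) - u i‖ * h1
      rw [e]
      exact h2
    exact hc.tendsto.eventually_const_lt h0
  have hev : ∀ᶠ x in 𝓝 (ps, hh), ((∀ i, ‖F x i - u (i + 1)‖ < e1) ∧ ∀ i, cr (tv (x.1 i)) (tv (x.1 (i + 1))) ≠ 0) ∧
      ∀ i, 0 < (F x i - F x (i - 1)).re * Real.cos (x.1 i) + (F x i - F x (i - 1)).im * Real.sin (x.1 i) := by
    refine Filter.Eventually.and (Filter.Eventually.and ?_ ?_) (Filter.eventually_all.2 hpos)
    · rw [Filter.eventually_all]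
      intro i
      have := (hFc i).tendsto
      rw [hF0 i] at this
      have h2 := Metric.tendsto_nhds.1 this e1 he1p
      filter_upwards [h2] with x hx
      rwa [dist_eq_norm] at hx
    · rw [Filter.eventually_all]
      intro i
      exact (hcrc i).continuousAt.eventually_ne (hcr i)
  obtain ⟨d, hd, hball⟩ := Metric.eventually_nhds_iff.1 hev
  -- the prime
  obtain ⟨N0, hN0⟩ := exists_nat_gt (Real.pi / d)
  obtain ⟨N, hNle, hNp⟩ := Nat.exists_infinite_primes (max (max M N0) 3)
  have hN3 : 3 ≤ N := le_trans (le_max_right _ _) hNle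
  have hNM : M ≤ N := le_trans (le_trans (le_max_left _ _) (le_max_left _ _)) hNle
  have hNN0 : N0 ≤ N := le_trans (le_trans (le_max_right _ _) (le_max_left _ _)) hNle
  have hNpos : (0 : ℝ) < N := by
    have : 0 < N := by omega
    exact_mod_cast this
  have hpi := Real.pi_pos
  have hNd : Real.pi / N < d := by
    have h1 : Real.pi / d < N := lt_of_lt_of_le hN0 (by exact_mod_cast hNN0)
    rw [div_lt_iff₀ hd] at h1
    rw [div_lt_iff₀ hNpos]
    linarith
  let k : ZMod n → ℤ := fun i => round (ps i * N / Real.pi)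
  have hk : ∀ i, |Real.pi * k i / N - ps i| < d := by
    intro i
    have h1 := abs_sub_round (ps i * N / Real.pi)
    have e : Real.pi * k i / N - ps i = -(Real.pi / N) * (ps i * N / Real.pi - k i) := by
      field_simp
      ring
    rw [e, abs_mul, abs_neg, abs_of_pos (by positivity : (0 : ℝ) < Real.pi / N)]
    have h2 : Real.pi / N * |ps i * N / Real.pi - k i| ≤ Real.pi / N * (1 / 2) :=
      mul_le_mul_of_nonneg_left h1 (by positivity)
    have h3 : 0 < Real.pi / N := by positivity
    linarith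
  obtain ⟨g, hg1, hgI⟩ := dense_algIndep hh hd
  have hclose : dist ((fun i => Real.pi * k i / N, g) : (ZMod n → ℝ) × (ZMod n → ℝ)) (ps, hh) < d := by
    rw [Prod.dist_eq]
    apply max_lt
    · rw [dist_pi_lt_iff hd]
      intro i
      rw [Real.dist_eq]
      exact hk i
    · rw [dist_pi_lt_iff hd]
      intro i
      rw [Real.dist_eq]
      exact hg1 i
  obtain ⟨⟨hA, hB⟩, hP⟩ := hball hclose
  -- the new polygon
  let v' : ZMod n → ℂ := fun i => F (fun i => Real.pi * k i / N, g) (i - 1)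
  have hv'1 : ∀ i, ‖v' i - u i‖ < e1 := by
    intro i
    have := hA (i - 1)
    rwa [sub_add_cancel] at this
  have hB' : ∀ i, cr (tv (Real.pi * k i / N)) (tv (Real.pi * k (i + 1) / N)) ≠ 0 := hB
  have hcL : ∀ i, cr (tv (Real.pi * k i / N)) (v' (i + 1)) = g i := by
    intro i
    have h1 : v' (i + 1) = cut (tv (Real.pi * k i / N)) (tv (Real.pi * k (i + 1) / N)) (g i) (g (i + 1)) := by
      simp only [v', F]
      rw [add_sub_cancel_right]
    rw [h1]
    exact cr_cut_left _ _ (hB' i)
  have hcR : ∀ i, cr (tv (Real.pi * k i / N)) (v' i) = g i := by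
    intro i
    have h1 : v' i = cut (tv (Real.pi * k (i - 1) / N)) (tv (Real.pi * k (i - 1 + 1) / N)) (g (i - 1)) (g (i - 1 + 1)) := rfl
    have h2 := cr_cut_right (g (i - 1)) (g (i - 1 + 1)) (hB' (i - 1))
    rw [← h1] at h2
    simpa only [sub_add_cancel] using h2
  refine ⟨v', N, k, hNM, ⟨hNp, by omega, ?_, ?_, ?_⟩, ?_⟩
  · intro i
    have h0 : cr (tv (Real.pi * k i / N)) (v' (i + 1) - v' i) = 0 := by
      have e : cr (tv (Real.pi * k i / N)) (v' (i + 1) - v' i) =
          cr (tv (Real.pi * k i / N)) (v' (i + 1)) - cr (tv (Real.pi * k i / N)) (v' i) := by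
        simp only [cr, Complex.sub_re, Complex.sub_im]
        ring
      rw [e, hcL, hcR, sub_self]
    refine ⟨_, ?_, exists_mul_tv h0⟩
    have h1 := hP i
    have h2 : v' (i + 1) = F (fun i => Real.pi * k i / N, g) i := by
      simp only [v']
      rw [add_sub_cancel_right]
    have h3 : v' i = F (fun i => Real.pi * k i / N, g) (i - 1) := rfl
    rw [h2, h3]
    exact h1
  · intro i hdvd
    apply hB' i
    rw [cr_tv]
    obtain ⟨z, hz⟩ := hdvd
    have e : Real.pi * k (i + 1) / N - Real.pi * k i / N = z * Real.pi := by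
      have h1 : ((k (i + 1) : ℝ) - k i) = N * z := by exact_mod_cast hz
      field_simp
      linear_combination h1
    rw [e]
    exact Real.sin_int_mul_pi z
  · have e : (fun i => cr (tv (Real.pi * k i / N)) (v' i)) = g := funext hcR
    rw [e]
    exact hgI
  · intro i
    have h1 := hv'1 i
    have h2 := hu i
    have h3 : e1 ≤ ε / 2 := min_le_left _ _
    have h4 : ‖v' i - v i‖ ≤ ‖v' i - u i‖ + ‖u i - v i‖ := by
      have e : v' i - v i = (v' i - u i) + (u i - v i) := by ring
      rw [e]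
      exact norm_add_le _ _
    linarith

end Pool.Agent.Lib.H23D
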