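/-
MP_273810_co, H25D part A1: the unfolding relation.

Copies of the polygon = `ZMod N`. `E e = exp (2 pi i e / N)`. A line in copy `e` has the direction `I * E e`; side `i` has the
direction `E (kap i)`; a bounce on side `i` changes the copy `e` to `2 * kap i - e`.
-/
import Mathlib
import Pool.Agent.Lib.H34D.NumThy
import Pool.Agent.Lib.H23D.PartV

namespace Pool.Agent.Lib.H23D

open Pool.Agent.H34D

/-- the unit vector of angle `2 pi e / N` -/
noncomputable def E {N : ℕ} [NeZero N] (e : ZMod N) : ℂ := ZMod.stdAddChar e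

theorem cr_eq (a b : ℂ) : cr a b = ((starRingEnd ℂ) a * b).im := by
  unfold cr
  simp [Complex.mul_im]
  ring

theorem cr_sub_right (a b c : ℂ) : cr a (b - c) = cr a b - cr a c := by
  simp only [cr, Complex.sub_re, Complex.sub_im]
  ring

theorem cr_sub_left (a b c : ℂ) : cr (a - b) c = cr a c - cr b c := by
  simp only [cr, Complex.sub_re, Complex.sub_im]
  ring

theorem cr_smul_left (r : ℝ) (a b : ℂ) : cr (r * a) b = r * cr a b := by
  simp only [cr, Complex.re_ofReal_mul, Complex.im_ofReal_mul]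
  ring

theorem cr_smul_right (r : ℝ) (a b : ℂ) : cr a (r * b) = r * cr a b := by
  simp only [cr, Complex.re_ofReal_mul, Complex.im_ofReal_mul]
  ring

theorem cr_self (a : ℂ) : cr a a = 0 := by
  simp only [cr]
  ring

section
variable {N : ℕ} [NeZero N]

theorem E_add (a b : ZMod N) : E (a + b) = E a * E b := AddChar.map_add_eq_mul _ a b

theorem E_zero : E (0 : ZMod N) = 1 := AddChar.map_zero_eq_one _

theorem E_re (a : ZMod N) : (E a).re = cs a := by
  unfold E
  rw [char_eq]
  simp

theorem E_im (a : ZMod N) : (E a).im = sn a := by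
  unfold E
  rw [char_eq]
  simp

theorem E_conj (a : ZMod N) : (starRingEnd ℂ) (E a) = E (-a) := by
  apply Complex.ext
  · rw [Complex.conj_re, E_re, E_re, cs_neg]
  · rw [Complex.conj_im, E_im, E_im, sn_neg]

theorem E_ne_zero (a : ZMod N) : E a ≠ 0 := by
  intro h
  have h1 : E (a + -a) = E a * E (-a) := E_add a (-a)
  rw [add_neg_cancel, E_zero, h, zero_mul] at h1
  exact one_ne_zero h1

theorem cr_E_E (a b : ZMod N) : cr (E a) (E b) = sn (b - a) := by
  rw [cr_eq, E_conj, ← E_add, E_im]
  congr 1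
  ring

theorem cr_IE_E (a b : ZMod N) : cr (Complex.I * E a) (E b) = - cs (b - a) := by
  rw [cr_eq, map_mul, E_conj, Complex.conj_I, mul_assoc, ← E_add]
  have e : -a + b = b - a := by ring
  rw [e, ← E_re]
  simp

theorem cr_IE_IE (a b : ZMod N) : cr (Complex.I * E a) (Complex.I * E b) = sn (b - a) := by
  rw [← cr_E_E]
  simp only [cr, Complex.mul_re, Complex.mul_im, Complex.I_re, Complex.I_im]
  ring

omit [NeZero N] in
theorem cs_sq_add_sn_sq (a : ZMod N) : cs a ^ 2 + sn a ^ 2 = 1 := by
  unfold cs sn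
  exact Real.cos_sq_add_sin_sq _

/-- the change of copy -/
theorem E_refl (a e : ZMod N) : Complex.I * E (2 * a - e) = Complex.I * E e - ((2 * sn (a - e) : ℝ) : ℂ) * E a := by
  have h1 : E (2 * a - e) = E a * E (a - e) := by
    rw [← E_add]
    congr 1
    ring
  have h2 : E e = E a * E (-(a - e)) := by
    rw [← E_add]
    congr 1
    ring
  have h3 : E (a - e) - E (-(a - e)) = 2 * Complex.I * (sn (a - e) : ℂ) := by
    unfold E
    exact char_sub (a - e)
  have h4 : E (2 * a - e) - E e = E a * (2 * Complex.I * (sn (a - e) : ℂ)) := by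
    rw [h1, h2, ← mul_sub, h3]
  push_cast
  linear_combination Complex.I * h4 + 2 * E a * (sn (a - e) : ℂ) * Complex.I_sq

theorem E_alg (a : ZMod N) : IsAlgebraic ℚ (E a) := by
  have h1 : (E a) ^ N = 1 := by
    have : ∀ m : ℕ, (E a) ^ m = E ((m : ZMod N) * a) := by
      intro m
      induction m with
      | zero => simp [E_zero]
      | succ m ih =>
        rw [pow_succ, ih, ← E_add]
        congr 1
        push_cast
        ring
    rw [this, ZMod.natCast_self, zero_mul, E_zero]
  have h2 : IsIntegral ℚ (E a) := by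
    apply IsIntegral.of_pow (n := N) (Nat.pos_of_ne_zero (NeZero.ne N))
    rw [h1]
    exact isIntegral_one
  exact h2.isAlgebraic

theorem I_alg : IsAlgebraic ℚ Complex.I := by
  have h2 : IsIntegral ℚ Complex.I := by
    apply IsIntegral.of_pow (n := 4) (by norm_num)
    rw [Complex.I_pow_four]
    exact isIntegral_one
  exact h2.isAlgebraic

theorem alg_of_complex {x : ℝ} (h : IsAlgebraic ℚ (x : ℂ)) : IsAlgebraic ℚ x := by
  have h1 : IsAlgebraic ℚ (algebraMap ℝ ℂ x) := h
  exact (isAlgebraic_algebraMap_iff (algebraMap ℝ ℂ).injective).1 h1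

theorem two_alg : IsAlgebraic ℚ (2 : ℂ) := by
  have := isAlgebraic_algebraMap (R := ℚ) (A := ℂ) (2 : ℚ)
  simpa using this

theorem cs_alg (a : ZMod N) : IsAlgebraic ℚ (cs a) := by
  apply alg_of_complex
  have h : (cs a : ℂ) = (E a + E (-a)) * (2 : ℂ)⁻¹ := by
    have := char_add a
    unfold E
    rw [this]
    ring
  rw [h]
  exact ((E_alg a).add (E_alg (-a))).mul two_alg.inv

theorem sn_alg (a : ZMod N) : IsAlgebraic ℚ (sn a) := by
  apply alg_of_complex
  have h : (sn a : ℂ) = (E a - E (-a)) * ((2 : ℂ)⁻¹ * (Complex.I)⁻¹) := by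
    have := char_sub a
    unfold E
    rw [this]
    field_simp
  rw [h]
  exact ((E_alg a).sub (E_alg (-a))).mul (two_alg.inv.mul I_alg.inv)

/-- the dense class with side lines indexed by `ZMod N` -/
structure Gon {n : ℕ} [NeZero n] (v : ZMod n → ℂ) (kap : ZMod n → ZMod N) : Prop where
  prime : N.Prime
  odd : N ≠ 2
  par : ∀ i, ∃ r : ℝ, r ≠ 0 ∧ v (i + 1) - v i = r * E (kap i)
  turn : ∀ i, kap (i + 1) ≠ kap i
  indep : AlgIndep fun i => cr (E (kap i)) (v i)

/-- a path with `k` bounces: starts at `b 0`, bounces at `b (m+1)` on (the line of) side `j m`, `m < k`, ends at `b (k+1)`;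
`e m` = copy of the leg from `b m` to `b (m+1)` -/
structure Pth {n : ℕ} (v : ZMod n → ℂ) (kap : ZMod n → ZMod N) (k : ℕ) (b : ℕ → ℂ) (j : ℕ → ZMod n) (e : ℕ → ZMod N) :
    Prop where
  leg : ∀ m ≤ k, cr (Complex.I * E (e m)) (b (m + 1) - b m) = 0
  side : ∀ m < k, cr (E (kap (j m))) (b (m + 1)) = cr (E (kap (j m))) (v (j m))
  refl : ∀ m < k, e (m + 1) = 2 * kap (j m) - e m

theorem Pth.beta {n : ℕ} {v : ZMod n → ℂ} {kap : ZMod n → ZMod N} {k : ℕ} {b : ℕ → ℂ} {j : ℕ → ZMod n} {e : ℕ → ZMod N}
    (h : Pth v kap k b j e) : ∀ m ≤ k, cr (Complex.I * E (e m)) (b m) = cr (Complex.I * E (e 0)) (b 0) -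
      2 * ∑ i ∈ Finset.range m, cr (E (kap (j i))) (v (j i)) * sn (kap (j i) - e i) := by
  intro m
  induction m with
  | zero => simp
  | succ m ih =>
    intro hm
    have h1 := ih (by omega)
    have h2 := h.leg m (by omega)
    rw [cr_sub_right] at h2
    rw [h.refl m (by omega), E_refl, cr_sub_left, cr_smul_left, h.side m (by omega), Finset.sum_range_succ]
    linear_combination h2 + h1

theorem Pth.beta_end {n : ℕ} {v : ZMod n → ℂ} {kap : ZMod n → ZMod N} {k : ℕ} {b : ℕ → ℂ} {j : ℕ → ZMod n} {e : ℕ → ZMod N}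
    (h : Pth v kap k b j e) : cr (Complex.I * E (e k)) (b (k + 1)) = cr (Complex.I * E (e 0)) (b 0) -
      2 * ∑ i ∈ Finset.range k, cr (E (kap (j i))) (v (j i)) * sn (kap (j i) - e i) := by
  have h1 := h.beta k le_rfl
  have h2 := h.leg k le_rfl
  rw [cr_sub_right] at h2
  linear_combination h2 + h1

variable {n : ℕ} [NeZero n] {v : ZMod n → ℂ} {kap : ZMod n → ZMod N}

theorem sn_ne_zero (hN : N.Prime) (hodd : N ≠ 2) {a : ZMod N} (ha : a ≠ 0) : sn a ≠ 0 := by
  intro h
  have h1 : E a = E (-a) := by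
    apply Complex.ext
    · rw [E_re, E_re, cs_neg]
    · rw [E_im, E_im, sn_neg, h, neg_zero]
  have h2 : a = -a := ZMod.injective_stdAddChar h1
  have : Fact N.Prime := ⟨hN⟩
  have h3 : (2 : ZMod N) * a = 0 := by linear_combination h2
  rcases mul_eq_zero.1 h3 with h4 | h4
  · have h5 : ((2 : ℕ) : ZMod N) = 0 := by exact_mod_cast h4
    rw [ZMod.natCast_eq_zero_iff] at h5
    exact hodd ((Nat.prime_dvd_prime_iff_eq hN Nat.prime_two).mp h5)
  · exact ha h4

theorem Gon.sn_turn (h : Gon v kap) (a : ZMod n) : sn (kap a - kap (a - 1)) ≠ 0 := by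
  apply sn_ne_zero h.prime h.odd
  rw [sub_ne_zero]
  have := h.turn (a - 1)
  rwa [sub_add_cancel] at this

theorem Gon.side_end (h : Gon v kap) (i : ZMod n) : cr (E (kap i)) (v (i + 1)) = cr (E (kap i)) (v i) := by
  obtain ⟨r, -, hr⟩ := h.par i
  have h1 : cr (E (kap i)) (v (i + 1) - v i) = 0 := by
    rw [hr, cr_smul_right, cr_self, mul_zero]
  rw [cr_sub_right] at h1
  linarith

/-- the coefficient of `h_i` in `cr (I * E e) (v a)` -/
noncomputable def Vc (kap : ZMod n → ZMod N) (a : ZMod n) (e : ZMod N) (i : ZMod n) : ℝ :=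
  (if i = a then cs (kap (a - 1) - e) / sn (kap a - kap (a - 1)) else 0) -
    (if i = a - 1 then cs (kap a - e) / sn (kap a - kap (a - 1)) else 0)

theorem Gon.vertex (h : Gon v kap) (a : ZMod n) (e : ZMod N) : cr (Complex.I * E e) (v a) =
    ∑ i, Vc kap a e i * cr (E (kap i)) (v i) := by
  have h0 := h.sn_turn a
  have h1 : ∑ i, Vc kap a e i * cr (E (kap i)) (v i) = cs (kap (a - 1) - e) / sn (kap a - kap (a - 1)) * cr (E (kap a)) (v a) -
      cs (kap a - e) / sn (kap a - kap (a - 1)) * cr (E (kap (a - 1))) (v (a - 1)) := by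
    simp only [Vc, sub_mul, Finset.sum_sub_distrib, ite_mul, zero_mul, Finset.sum_ite_eq', Finset.mem_univ, if_true]
  rw [h1]
  have h2 := h.side_end (a - 1)
  rw [sub_add_cancel] at h2
  rw [← h2]
  have h3 : cr (E (kap (a - 1))) (E (kap a)) ≠ 0 := by rwa [cr_E_E]
  have h4 := eq_cut (z := v a) h3
  have h5 : cr (Complex.I * E e) (v a) = (cr (E (kap (a - 1))) (v a) * cr (Complex.I * E e) (E (kap a)) -
      cr (E (kap a)) (v a) * cr (Complex.I * E e) (E (kap (a - 1)))) / sn (kap a - kap (a - 1)) := by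
    conv_lhs => rw [h4]
    unfold cut
    rw [cr_E_E]
    have h6 : ∀ (z : ℂ) (r : ℝ), cr (Complex.I * E e) (z / (r : ℂ)) = cr (Complex.I * E e) z / r := by
      intro z r
      unfold cr
      rw [Complex.div_ofReal_im, Complex.div_ofReal_re]
      ring
    rw [h6, cr_sub_right, cr_smul_right, cr_smul_right]
  rw [h5, cr_IE_E, cr_IE_E]
  field_simp
  ring

omit [NeZero n] in
theorem Vc_alg (a : ZMod n) (e : ZMod N) (i : ZMod n) : IsAlgebraic ℚ (Vc kap a e i) := by
  unfold Vc
  have h0 : IsAlgebraic ℚ (0 : ℝ) := isAlgebraic_zero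
  refine IsAlgebraic.sub ?_ ?_
  · split_ifs
    · rw [div_eq_mul_inv]
      exact (cs_alg _).mul (sn_alg _).inv
    · exact h0
  · split_ifs
    · rw [div_eq_mul_inv]
      exact (cs_alg _).mul (sn_alg _).inv
    · exact h0

/-- THE RELATION: for a path from the vertex `v a` to the vertex `v b`, all coefficients vanish -/
theorem Gon.relation (h : Gon v kap) {k : ℕ} {b : ℕ → ℂ} {j : ℕ → ZMod n} {e : ℕ → ZMod N} (hp : Pth v kap k b j e)
    {a c : ZMod n} (ha : b 0 = v a) (hc : b (k + 1) = v c) (i : ZMod n) :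
    Vc kap c (e k) i - Vc kap a (e 0) i + 2 * ∑ m ∈ (Finset.range k).filter (fun m => j m = i), sn (kap i - e m) = 0 := by
  have h1 := hp.beta_end
  rw [ha, hc, h.vertex, h.vertex] at h1
  have h2 : ∑ m ∈ Finset.range k, cr (E (kap (j m))) (v (j m)) * sn (kap (j m) - e m) =
      ∑ i, (∑ m ∈ (Finset.range k).filter (fun m => j m = i), sn (kap i - e m)) * cr (E (kap i)) (v i) := by
    rw [← Finset.sum_fiberwise (Finset.range k) j]
    refine Finset.sum_congr rfl fun i _ => ?_
    rw [Finset.sum_mul]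
    refine Finset.sum_congr rfl fun m hm => ?_
    rw [(Finset.mem_filter.1 hm).2]
    ring
  rw [h2] at h1
  refine h.indep (fun i => Vc kap c (e k) i - Vc kap a (e 0) i +
    2 * ∑ m ∈ (Finset.range k).filter (fun m => j m = i), sn (kap i - e m)) ?_ ?_ i
  · intro i
    refine IsAlgebraic.add ((Vc_alg c _ i).sub (Vc_alg a _ i)) (IsAlgebraic.mul ?_ ?_)
    · have := isAlgebraic_algebraMap (R := ℚ) (A := ℝ) (2 : ℚ)
      simpa using this
    · have hA : ∀ S : Finset ℕ, IsAlgebraic ℚ (∑ m ∈ S, sn (kap i - e m)) := by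
        intro S
        induction S using Finset.induction_on with
        | empty =>
          rw [Finset.sum_empty]
          exact isAlgebraic_zero
        | insert a s ha ih =>
          rw [Finset.sum_insert ha]
          exact (sn_alg _).add ih
      exact hA _
  · simp only [add_mul, sub_mul, Finset.sum_add_distrib, Finset.sum_sub_distrib, mul_assoc, ← Finset.mul_sum]
    linarith

/-- A1 (a): no path from a vertex to another vertex -/
theorem Gon.no_path (h : Gon v kap) (hn : 3 ≤ n) {k : ℕ} {b : ℕ → ℂ} {j : ℕ → ZMod n} {e : ℕ → ZMod N}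
    (hp : Pth v kap k b j e) {a c : ZMod n} (ha : b 0 = v a) (hc : b (k + 1) = v c) : a = c := by
  by_contra hac
  have hs := h.sn_turn a
  have h1 : (1 : ZMod n) ≠ 0 := by
    intro h
    have := (ZMod.natCast_eq_zero_iff 1 n).1 (by exact_mod_cast h)
    have := Nat.le_of_dvd (by norm_num) this
    omega
  have h2 : (2 : ZMod n) ≠ 0 := by
    intro h
    have := (ZMod.natCast_eq_zero_iff 2 n).1 (by exact_mod_cast h)
    have := Nat.le_of_dvd (by norm_num) this
    omega
  have ha1 : a ≠ a - 1 := fun h => h1 (by linear_combination h)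
  by_cases hca : a = c - 1
  · -- use the side a - 1
    have hr := h.relation hp ha hc (a - 1)
    have e1 : Vc kap c (e k) (a - 1) = 0 := by
      unfold Vc
      have n1 : ¬ a - 1 = c := by
        rw [hca]
        intro h
        exact h2 (by linear_combination -h)
      have n2 : ¬ a - 1 = c - 1 := fun h => hac (by linear_combination h)
      rw [if_neg n1, if_neg n2, sub_zero]
    have e2 : Vc kap a (e 0) (a - 1) = -(cs (kap a - e 0) / sn (kap a - kap (a - 1))) := by
      unfold Vc
      rw [if_neg ha1.symm, if_pos rfl, zero_sub]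
    rw [e1, e2] at hr
    refine rel_ne_neg h.prime h.odd ((Finset.range k).filter (fun m => j m = a - 1)) (fun _ => 1)
      (fun m => kap (a - 1) - e m) (kap a - kap (a - 1)) (kap a - e 0) ?_
    rw [← Finset.sum_mul]
    simp only [Int.cast_one, one_mul]
    field_simp at hr
    linear_combination hr
  · have hr := h.relation hp ha hc a
    have e1 : Vc kap c (e k) a = 0 := by
      unfold Vc
      rw [if_neg hac, if_neg hca, sub_zero]
    have e2 : Vc kap a (e 0) a = cs (kap (a - 1) - e 0) / sn (kap a - kap (a - 1)) := by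
      unfold Vc
      rw [if_pos rfl, if_neg ha1, sub_zero]
    rw [e1, e2] at hr
    refine rel_ne h.prime h.odd ((Finset.range k).filter (fun m => j m = a)) (fun _ => 1)
      (fun m => kap a - e m) (kap a - kap (a - 1)) (kap (a - 1) - e 0) ?_
    rw [← Finset.sum_mul]
    simp only [Int.cast_one, one_mul]
    field_simp at hr
    linear_combination hr

/-- A1 (b), balance: for a path from `v a` to `v a` the passes of a far side from the copy `kap i - x` and from the copy
`kap i + x` are equally many -/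
theorem Gon.balanced (h : Gon v kap) {k : ℕ} {b : ℕ → ℂ} {j : ℕ → ZMod n} {e : ℕ → ZMod N}
    (hp : Pth v kap k b j e) {a : ZMod n} (ha : b 0 = v a) (hc : b (k + 1) = v a) {i : ZMod n} (hi : i ≠ a) (hi' : i ≠ a - 1)
    (x : ZMod N) :
    ((Finset.range k).filter (fun m => j m = i ∧ kap i - e m = x)).card =
      ((Finset.range k).filter (fun m => j m = i ∧ kap i - e m = -x)).card := by
  have hr := h.relation hp ha hc i
  have e1 : ∀ f, Vc kap a f i = 0 := by
    intro f
    unfold Vc
    rw [if_neg hi, if_neg hi', sub_zero]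
  rw [e1, e1, sub_zero, zero_add] at hr
  have hr' : ∑ m ∈ (Finset.range k).filter (fun m => j m = i), ((1 : ℤ) : ℝ) * sn (kap i - e m) = 0 := by
    simp only [Int.cast_one, one_mul]
    linarith
  have := balance_sum h.prime ((Finset.range k).filter (fun m => j m = i)) (fun _ => 1) (fun m => kap i - e m) hr' x
  rw [Finset.filter_filter, Finset.filter_filter, Finset.sum_const, Finset.sum_const] at this
  simp only [mul_one, nsmul_eq_mul] at this
  exact_mod_cast this

/-- the balance in the numbering `1, .., k` of the bounces -/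
theorem Gon.hbal (h : Gon v kap) {k : ℕ} {b : ℕ → ℂ} {j : ℕ → ZMod n} {e : ℕ → ZMod N}
    (hp : Pth v kap k b j e) {a : ZMod n} (ha : b 0 = v a) (hc : b (k + 1) = v a) {i : ZMod n} (hi : i ≠ a) (hi' : i ≠ a - 1)
    (f : ZMod N) :
    ((Finset.Icc 1 k).filter (fun m => j (m - 1) = i ∧ e m = f)).card =
      ((Finset.Icc 1 k).filter (fun m => j (m - 1) = i ∧ e (m - 1) = f)).card := by
  have h1 := h.balanced hp ha hc hi hi' (kap i - f)
  have e1 : ((Finset.Icc 1 k).filter (fun m => j (m - 1) = i ∧ e (m - 1) = f)).card =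
      ((Finset.range k).filter (fun m => j m = i ∧ kap i - e m = kap i - f)).card := by
    symm
    refine Finset.card_bij (fun m _ => m + 1) ?_ ?_ ?_
    · intro m hm
      simp only [Finset.mem_filter, Finset.mem_range, Finset.mem_Icc] at hm ⊢
      refine ⟨by omega, by simpa using hm.2.1, ?_⟩
      rw [Nat.add_sub_cancel]
      exact sub_right_injective hm.2.2
    · intro m _ m' _ h
      omega
    · intro m hm
      simp only [Finset.mem_filter, Finset.mem_Icc] at hm
      refine ⟨m - 1, ?_, by omega⟩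
      simp only [Finset.mem_filter, Finset.mem_range]
      refine ⟨by omega, hm.2.1, ?_⟩
      rw [hm.2.2]
  have e2 : ((Finset.Icc 1 k).filter (fun m => j (m - 1) = i ∧ e m = f)).card =
      ((Finset.range k).filter (fun m => j m = i ∧ kap i - e m = -(kap i - f))).card := by
    symm
    refine Finset.card_bij (fun m _ => m + 1) ?_ ?_ ?_
    · intro m hm
      simp only [Finset.mem_filter, Finset.mem_range, Finset.mem_Icc] at hm ⊢
      refine ⟨by omega, by simpa using hm.2.1, ?_⟩
      rw [hp.refl m hm.1, hm.2.1]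
      linear_combination hm.2.2
    · intro m _ m' _ h
      omega
    · intro m hm
      simp only [Finset.mem_filter, Finset.mem_Icc] at hm
      refine ⟨m - 1, ?_, by omega⟩
      simp only [Finset.mem_filter, Finset.mem_range]
      refine ⟨by omega, hm.2.1, ?_⟩
      have h2 := hp.refl (m - 1) (by omega)
      rw [Nat.sub_add_cancel hm.1.1, hm.2.1, hm.2.2] at h2
      linear_combination -h2
  rw [e1, e2, h1]

/-- from `Cls` to `Gon` -/
theorem Cls.gon {v : ZMod n → ℂ} {k : ZMod n → ℤ} (h : Cls v N k) :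
    ∃ kap : ZMod n → ZMod N, Gon v kap ∧ ∀ i, 2 * kap i = k i := by
  have hN2 : N % 2 = 1 := by
    rcases h.prime.eq_two_or_odd with h1 | h1
    · exact absurd h1 h.odd
    · exact h1
  have hNpos : (0 : ℝ) < N := by exact_mod_cast h.prime.pos
  have key : ∀ i, ∃ (x : ZMod N) (s : ℝ), (s = 1 ∨ s = -1) ∧ tv (Real.pi * k i / N) = s * E x ∧ 2 * x = k i := by
    intro i
    have hE : ∀ y : ℤ, E ((y : ℤ) : ZMod N) = tv (2 * Real.pi * y / N) := by
      intro y
      apply Complex.ext
      · rw [E_re, tv_re, cos_int]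
      · rw [E_im, tv_im, sin_int]
    rcases Int.even_or_odd' (k i) with ⟨y, hy | hy⟩
    · refine ⟨(y : ℤ), 1, Or.inl rfl, ?_, ?_⟩
      · rw [hE, hy]
        push_cast
        rw [one_mul]
        congr 1
        ring
      · rw [hy]
        push_cast
        ring
    · obtain ⟨M, hM⟩ : ∃ M : ℤ, (N : ℤ) = 2 * M + 1 := ⟨(N : ℤ) / 2, by omega⟩
      refine ⟨((y + M + 1 : ℤ)), -1, Or.inr rfl, ?_, ?_⟩
      · rw [hE]
        have e : 2 * Real.pi * ((y + M + 1 : ℤ) : ℝ) / N = Real.pi * k i / N + Real.pi := by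
          have h1 : ((N : ℤ) : ℝ) = 2 * M + 1 := by exact_mod_cast hM
          have h2 : ((k i : ℤ) : ℝ) = 2 * y + 1 := by exact_mod_cast hy
          have h3 : (N : ℝ) = 2 * M + 1 := by exact_mod_cast h1
          rw [h2]
          have h4 : (N : ℝ) ≠ 0 := hNpos.ne'
          field_simp
          push_cast
          linear_combination -h3
        rw [e]
        apply Complex.ext
        · rw [Complex.re_ofReal_mul, tv_re, tv_re, Real.cos_add_pi]
          ring
        · rw [Complex.im_ofReal_mul, tv_im, tv_im, Real.sin_add_pi]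
          ring
      · rw [hy]
        have h1 : ((N : ℕ) : ZMod N) = 0 := ZMod.natCast_self N
        have h2 : ((N : ℤ) : ZMod N) = 2 * M + 1 := by
          rw [hM]
          push_cast
          ring
        have h3 : ((2 * M + 1 : ℤ) : ZMod N) = 0 := by
          rw [← hM]
          exact_mod_cast h1
        push_cast at h3 ⊢
        linear_combination h3
  choose x s hs hE hx using key
  have hs2 : ∀ i, s i * s i = 1 := by
    intro i
    rcases hs i with h | h <;> rw [h] <;> norm_num
  have hs0 : ∀ i, s i ≠ 0 := fun i h0 => by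
    have := hs2 i
    rw [h0] at this
    norm_num at this
  refine ⟨x, ⟨h.prime, h.odd, ?_, ?_, ?_⟩, hx⟩
  · intro i
    obtain ⟨r, hr, hr2⟩ := h.len i
    refine ⟨r * s i, mul_ne_zero hr.ne' (hs0 i), ?_⟩
    rw [hr2, hE]
    push_cast
    ring
  · intro i hi
    apply h.turn i
    rw [← ZMod.intCast_zmod_eq_zero_iff_dvd]
    push_cast
    rw [← hx, ← hx, hi, sub_self]
  · intro c hc hsum i
    have h1 := h.indep (fun i => c i * s i) (fun i => (hc i).mul (by
      rcases hs i with h | h
      · rw [h]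
        exact isAlgebraic_one
      · rw [h]
        exact isAlgebraic_one.neg)) (by
      rw [← hsum]
      refine Finset.sum_congr rfl fun i _ => ?_
      change c i * s i * cr (tv (Real.pi * k i / N)) (v i) = c i * cr (E (x i)) (v i)
      rw [hE, cr_smul_left]
      linear_combination (c i * cr (E (x i)) (v i)) * hs2 i) i
    rcases mul_eq_zero.1 h1 with h2 | h2
    · exact h2
    · exact absurd h2 (hs0 i)

end

end Pool.Agent.Lib.H23D
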