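/-
MP_273810_co, H25D part A1: there is no billiard path with directions in D from a vertex to a vertex without perpendicular
hit (assembly).
-/
import Mathlib
import Pool.Agent.Lib.H23D.Unf
import Pool.Agent.Lib.H94D.Far
import Pool.Agent.Lib.H26D.Chord
import Pool.Agent.Lib.H94D.NI

namespace Pool.Agent.Lib.H23D

open Set
open Pool.Agent.H34D
open Pool.Agent.Lib.H42I (IsPolygon)
open Pool.Agent.Lib.H26D (VPath)
open Pool.Agent.Lib.H94D.Poly (bd bd_eq bd_int non_interleaving)

private theorem A1_refl {N : ℕ} [NeZero N] {r : ℝ} (hr : r ≠ 0) (k f : ZMod N) (t : ℝ) :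
    Pool.Agent.Lib.H42I.refl ((r : ℂ) * E k) ((t : ℂ) * (Complex.I * E f)) = ((-t : ℝ) : ℂ) * (Complex.I * E (2 * k - f)) := by
  unfold Pool.Agent.Lib.H42I.refl
  have hr' : (r : ℂ) ≠ 0 := by exact_mod_cast hr
  have h1 : E (2 * k - f) = E k * E k * E (-f) := by
    rw [← E_add, ← E_add]
    congr 1
    ring
  have h2 : E k * E (-k) = 1 := by
    rw [← E_add, add_neg_cancel, E_zero]
  have h3 : E (-k) ≠ 0 := E_ne_zero _
  simp only [map_mul, Complex.conj_ofReal, E_conj, Complex.conj_I]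
  rw [h1]
  push_cast
  have h4 : E k / E (-k) = E k * E k := by
    rw [div_eq_iff h3]
    linear_combination (-E k) * h2
  have h5 : (r : ℂ) * E k / ((r : ℂ) * E (-k)) = E k * E k := by
    rw [mul_div_mul_left _ _ hr', h4]
  rw [h5]
  ring

/-- shift of the numbering -/
theorem IsPolygon_shift {n : ℕ} {P : Set ℂ} {v : ZMod n → ℂ} (h : IsPolygon P v) (a : ZMod n) :
    IsPolygon P fun i => v (a + i) := by
  refine ⟨h.three_le, ?_, ?_, h.compact, h.connected, h.closure_interior, ?_⟩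
  · intro i j hij
    have := h.inj hij
    exact add_left_cancel this
  · intro i j hij
    have h1 := h.simple (a + i) (a + j) fun h => hij (add_left_cancel h)
    simpa only [add_assoc] using h1
  · rw [h.frontier_eq]
    ext z
    simp only [mem_iUnion]
    constructor
    · rintro ⟨i, hi⟩
      refine ⟨i - a, ?_⟩
      have e1 : a + (i - a) = i := by ring
      have e2 : a + (i - a + 1) = i + 1 := by ring
      rw [e1, e2]
      exact hi
    · rintro ⟨i, hi⟩
      refine ⟨a + i, ?_⟩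
      rw [add_assoc]
      exact hi

private theorem A1_cast {n x y : ℕ} (hx : 1 ≤ x) (hx' : x ≤ n) (hy : 1 ≤ y) (hy' : y ≤ n)
    (h : (x : ZMod n) = (y : ZMod n)) : x = y := by
  rw [ZMod.natCast_eq_natCast_iff'] at h
  rcases hx'.lt_or_eq with h1 | h1
  · rcases hy'.lt_or_eq with h2 | h2
    · rwa [Nat.mod_eq_of_lt h1, Nat.mod_eq_of_lt h2] at h
    · rw [Nat.mod_eq_of_lt h1, h2, Nat.mod_self] at h
      omega
  · rcases hy'.lt_or_eq with h2 | h2
    · rw [Nat.mod_eq_of_lt h2, h1, Nat.mod_self] at h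
      omega
    · omega

private theorem A1_half {a b c e : ℝ} (hab : a < b) (hac : a ≠ c) (hbe : b ≠ e)
    (H : (a < c ∧ c < b) ↔ (a < e ∧ e < b)) : (c < a ∧ a < e) ↔ (c < b ∧ b < e) := by
  constructor
  · rintro ⟨h1, h2⟩
    refine ⟨by linarith, ?_⟩
    by_contra h3
    have h4 : e < b := lt_of_le_of_ne (not_lt.1 h3) (Ne.symm hbe)
    have := (H.2 ⟨h2, h4⟩).1
    linarith
  · rintro ⟨h1, h2⟩
    refine ⟨?_, by linarith⟩
    by_contra h3
    have h4 : a < c := lt_of_le_of_ne (not_lt.1 h3) hac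
    have := (H.1 ⟨h4, h1⟩).2
    linarith

/-- interleaving is symmetric -/
private theorem A1_symm {a b c e : ℝ} (hab : a ≠ b) (hce : c ≠ e) (hac : a ≠ c) (hae : a ≠ e) (hbc : b ≠ c) (hbe : b ≠ e)
    (H : (min a b < c ∧ c < max a b) ↔ (min a b < e ∧ e < max a b)) :
    (min c e < a ∧ a < max c e) ↔ (min c e < b ∧ b < max c e) := by
  rcases lt_or_gt_of_ne hab with h1 | h1
  · rcases lt_or_gt_of_ne hce with h2 | h2
    · rw [min_eq_left h1.le, max_eq_right h1.le] at H
      rw [min_eq_left h2.le, max_eq_right h2.le]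
      exact A1_half h1 hac hbe H
    · rw [min_eq_left h1.le, max_eq_right h1.le] at H
      rw [min_eq_right h2.le, max_eq_left h2.le]
      exact A1_half h1 hae hbc H.symm
  · rcases lt_or_gt_of_ne hce with h2 | h2
    · rw [min_eq_right h1.le, max_eq_left h1.le] at H
      rw [min_eq_left h2.le, max_eq_right h2.le]
      exact (A1_half h1 hbc hae H).symm
    · rw [min_eq_right h1.le, max_eq_left h1.le] at H
      rw [min_eq_right h2.le, max_eq_left h2.le]
      exact (A1_half h1 hbe hac H.symm).symm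

private theorem A1_small (K : ℕ) (f : ℕ → ℝ) (hf : ∀ m, 1 ≤ m → m ≤ K → 0 < f m) :
    ∃ δ : ℝ, 0 < δ ∧ ∀ m, 1 ≤ m → m ≤ K → δ < f m := by
  induction K with
  | zero => exact ⟨1, one_pos, fun m h1 h2 => by omega⟩
  | succ K ih =>
    obtain ⟨δ, h1, h2⟩ := ih fun m h3 h4 => hf m h3 (by omega)
    have h5 := hf (K + 1) (by omega) le_rfl
    refine ⟨min δ (f (K + 1) / 2), lt_min h1 (by linarith), ?_⟩
    intro m hm hm'
    rcases Nat.lt_or_ge m (K + 1) with h6 | h6
    · exact lt_of_le_of_lt (min_le_left _ _) (h2 m hm (by omega))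
    · have : m = K + 1 := by omega
      rw [this]
      exact lt_of_le_of_lt (min_le_right _ _) (by linarith)

theorem no_vertex_path {n N : ℕ} [NeZero n] [NeZero N] {P : Set ℂ} {v : ZMod n → ℂ} {kap : ZMod n → ZMod N}
    (hP : IsPolygon P v) (hG : Gon v kap) {K : ℕ} {b D : ℕ → ℂ} {r : ℕ → ℝ} {j : ℕ → ZMod n} (h : VPath P v K j b D r)
    {a c : ZMod n} (ha : b 0 = v a) (hc : b (K + 1) = v c) {e0 : ZMod N} {s0 : ℝ} (hs0 : s0 ≠ 0)
    (hD0 : D 0 = s0 * (Complex.I * E e0)) : False := by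
  classical
  have hn := hP.three_le
  have hn0 : ((n : ℕ) : ZMod n) = 0 := ZMod.natCast_self n
  -- the copies
  obtain ⟨e, he0, hes⟩ : ∃ e : ℕ → ZMod N, e 0 = e0 ∧ ∀ m, e (m + 1) = 2 * kap (j (m + 1)) - e m :=
    ⟨fun m => Nat.rec e0 (fun m x => 2 * kap (j (m + 1)) - x) m, rfl, fun m => rfl⟩
  have hD : ∀ m ≤ K, D m = ((s0 * (-1) ^ m : ℝ) : ℂ) * (Complex.I * E (e m)) := by
    intro m
    induction m with
    | zero =>
      intro _
      rw [he0, hD0]
      simp
    | succ m ih =>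
      intro hm
      rw [h.bounce (m + 1) (by omega) hm, Nat.add_sub_cancel, ih (by omega)]
      obtain ⟨ρ, hρ, hρ2⟩ := hG.par (j (m + 1))
      rw [hρ2, A1_refl hρ, ← hes]
      congr 2
      ring
  have hDne : ∀ m ≤ K, D m ≠ 0 := by
    intro m hm
    rw [hD m hm]
    refine mul_ne_zero ?_ (mul_ne_zero Complex.I_ne_zero (E_ne_zero _))
    have : s0 * (-1) ^ m ≠ 0 := mul_ne_zero hs0 (pow_ne_zero _ (by norm_num))
    exact_mod_cast this
  have hbne : ∀ m ≤ K, b (m + 1) ≠ b m := by
    intro m hm h1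
    have h2 := h.step m hm
    rw [h1] at h2
    have h3 : (r m : ℂ) * D m = 0 := by linear_combination -h2
    rcases mul_eq_zero.1 h3 with h4 | h4
    · have := h.pos m hm
      have h5 : r m = 0 := by exact_mod_cast h4
      linarith
    · exact hDne m hm h4
  -- equal copies have parallel directions
  have hpar : ∀ m ≤ K, ∀ m' ≤ K, e m = e m' → D m' = D m ∨ D m' = - D m := by
    intro m hm m' hm' hee
    rw [hD m hm, hD m' hm', hee]
    rcases Nat.even_or_odd m with h1 | h1 <;> rcases Nat.even_or_odd m' with h2 | h2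
    · left
      rw [h1.neg_one_pow, h2.neg_one_pow]
    · right
      rw [h1.neg_one_pow, h2.neg_one_pow]
      push_cast
      ring
    · right
      rw [h1.neg_one_pow, h2.neg_one_pow]
      push_cast
      ring
    · left
      rw [h1.neg_one_pow, h2.neg_one_pow]
  -- the path of the unfolding relation
  have hp : Pth v kap K b (fun m => j (m + 1)) e := by
    refine ⟨?_, ?_, ?_⟩
    · intro m hm
      rw [h.step m hm, hD m hm, add_sub_cancel_left, ← mul_assoc, ← Complex.ofReal_mul, cr_smul_right, cr_self, mul_zero]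
    · intro m hm
      obtain ⟨t, t', -, -, htt, hb⟩ := h.side (m + 1) (by omega) (by omega)
      obtain ⟨ρ, -, hρ2⟩ := hG.par (j (m + 1))
      have e1 : b (m + 1) = v (j (m + 1)) + ((t' * ρ : ℝ) : ℂ) * E (kap (j (m + 1))) := by
        rw [← hb, Complex.real_smul, Complex.real_smul]
        have h1 : v (j (m + 1) + 1) = v (j (m + 1)) + ρ * E (kap (j (m + 1))) := by linear_combination hρ2
        rw [h1]
        have h2 : (t : ℂ) + t' = 1 := by exact_mod_cast htt
        push_cast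
        linear_combination (v (j (m + 1))) * h2
      have e2 : ∀ (x y z : ℂ), cr x (y + z) = cr x y + cr x z := by
        intro x y z
        simp only [cr, Complex.add_re, Complex.add_im]
        ring
      rw [e1, e2, cr_smul_right, cr_self, mul_zero, add_zero]
    · intro m hm
      exact hes m
  have hac : a = c := hG.no_path hn hp ha hc
  subst hac
  -- K = 0 is impossible
  have hK : 1 ≤ K := by
    by_contra h1
    have h2 : K = 0 := by omega
    subst h2
    apply hbne 0 le_rfl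
    rw [ha, ← hc]
  -- parameters
  have hpar1 : ∀ m, 1 ≤ m → m ≤ K → ∃ t : ℝ, 0 < t ∧ t < 1 ∧ b m = v (j m) + t * (v (j m + 1) - v (j m)) := by
    intro m h1 h2
    obtain ⟨s, t, hs, ht, hst, hb⟩ := h.side m h1 h2
    refine ⟨t, ht, by linarith, ?_⟩
    rw [← hb, Complex.real_smul, Complex.real_smul]
    have h2 : (s : ℂ) + t = 1 := by exact_mod_cast hst
    linear_combination (v (j m)) * h2
  let t : ℕ → ℝ := fun m => if h : 1 ≤ m ∧ m ≤ K then (hpar1 m h.1 h.2).choose else 0
  have ht : ∀ m, 1 ≤ m → m ≤ K → 0 < t m ∧ t m < 1 ∧ b m = v (j m) + t m * (v (j m + 1) - v (j m)) := by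
    intro m h1 h2
    have : t m = (hpar1 m h1 h2).choose := by
      simp only [t]
      rw [dif_pos ⟨h1, h2⟩]
    rw [this]
    exact (hpar1 m h1 h2).choose_spec
  let J : ℕ → ℕ := fun m => if j m = a then n else (j m - a).val
  have hJ1 : ∀ m, 1 ≤ J m ∧ J m ≤ n := by
    intro m
    simp only [J]
    split_ifs with h1
    · exact ⟨by omega, le_rfl⟩
    · refine ⟨?_, (ZMod.val_lt _).le⟩
      rw [Nat.one_le_iff_ne_zero]
      intro h2
      apply h1
      have := (ZMod.val_eq_zero _).1 h2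
      exact sub_eq_zero.1 this
  have hJ2 : ∀ m, j m = a + (J m : ZMod n) := by
    intro m
    simp only [J]
    split_ifs with h1
    · rw [h1, hn0, add_zero]
    · rw [ZMod.natCast_val, ZMod.cast_id]
      ring
  let u : ZMod n → ℂ := fun i => v (a + i)
  have hPu : IsPolygon P u := IsPolygon_shift hP a
  let p : ℕ → ℝ := fun m => if 1 ≤ m ∧ m ≤ K then J m + t m else n
  have hp1 : ∀ m, 1 ≤ m → m ≤ K → p m = J m + t m := by
    intro m h1 h2
    simp only [p]
    rw [if_pos ⟨h1, h2⟩]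
  have hp0 : p 0 = n := by
    simp only [p]
    rw [if_neg (by omega)]
  have hpK : p (K + 1) = n := by
    simp only [p]
    rw [if_neg (by omega)]
  have hbd : ∀ m ≤ K + 1, bd u (p m) = b m := by
    intro m hm
    have hvert : bd u (n : ℝ) = v a := by
      have h1 := bd_eq u (n : ℤ) (n : ℝ) (by simp) (by simp)
      rw [h1]
      simp only [u]
      push_cast
      rw [hn0]
      simp
    by_cases h1 : 1 ≤ m ∧ m ≤ K
    · rw [hp1 m h1.1 h1.2]
      obtain ⟨h2, h3, h4⟩ := ht m h1.1 h1.2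
      have h5 := bd_eq u (J m : ℤ) ((J m : ℝ) + t m) (by push_cast; linarith) (by push_cast; linarith)
      rw [h5, h4, hJ2 m]
      simp only [u]
      push_cast
      rw [add_sub_cancel_left, add_assoc]
    · have h2 : m = 0 ∨ m = K + 1 := by omega
      rcases h2 with rfl | rfl
      · rw [hp0, hvert, ha]
      · rw [hpK, hvert, hc]
  have hprange : ∀ m ≤ K + 1, 1 ≤ p m ∧ p m < n + 1 := by
    intro m hm
    by_cases h1 : 1 ≤ m ∧ m ≤ K
    · rw [hp1 m h1.1 h1.2]
      obtain ⟨h2, h3, -⟩ := ht m h1.1 h1.2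
      obtain ⟨h4, h5⟩ := hJ1 m
      have h6 : (1 : ℝ) ≤ J m := by exact_mod_cast h4
      have h7 : (J m : ℝ) ≤ n := by exact_mod_cast h5
      exact ⟨by linarith, by linarith⟩
    · have h3 : (3 : ℝ) ≤ n := by exact_mod_cast hn
      have h2 : m = 0 ∨ m = K + 1 := by omega
      rcases h2 with rfl | rfl
      · rw [hp0]
        exact ⟨by linarith, by linarith⟩
      · rw [hpK]
        exact ⟨by linarith, by linarith⟩
  have hpnz : ∀ m, 1 ≤ m → m ≤ K → ∀ z : ℤ, p m ≠ z := by
    intro m h1 h2 z hz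
    rw [hp1 m h1 h2] at hz
    obtain ⟨h3, h4, -⟩ := ht m h1 h2
    have h5 : (J m : ℝ) < z := by linarith
    have h6 : (z : ℝ) < J m + 1 := by linarith
    have h7 : (J m : ℤ) < z := by exact_mod_cast h5
    have h8 : z < (J m : ℤ) + 1 := by exact_mod_cast h6
    omega
  have hpn : ∀ m, 1 ≤ m → m ≤ K → p m ≠ n := by
    intro m h1 h2 h3
    exact hpnz m h1 h2 n (by rw [h3]; simp)
  -- distinct points
  have hchord : ∀ m ≤ K, ∀ m' ≤ K, m < m' → e m = e m' → ∀ z, z ∈ segment ℝ (b m) (b (m + 1)) →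
      z ∈ segment ℝ (b m') (b (m' + 1)) → m = 0 ∧ m' = K ∧ z = b 0 ∧ z = b (K + 1) := by
    intro m hm m' hm' hlt hee z hz hz'
    exact h.chord_disj hP hlt hm' (hpar m hm m' hm' hee) z hz hz'
  have hdist : ∀ m ≤ K, ∀ m' ≤ K, m < m' → e m = e m' → b m ≠ b m' ∧ b (m + 1) ≠ b (m' + 1) ∧ b (m + 1) ≠ b m' ∧
      ((m ≠ 0 ∨ m' ≠ K) → b m ≠ b (m' + 1)) := by
    intro m hm m' hm' hlt hee
    have L1 : ∀ i, b i ∈ segment ℝ (b i) (b (i + 1)) := fun i => left_mem_segment _ _ _
    have L2 : ∀ i, b (i + 1) ∈ segment ℝ (b i) (b (i + 1)) := fun i => right_mem_segment _ _ _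
    refine ⟨?_, ?_, ?_, ?_⟩
    · intro h1
      obtain ⟨h2, h3, h4, h5⟩ := hchord m hm m' hm' hlt hee (b m) (L1 m) (h1 ▸ L1 m')
      apply hbne K le_rfl
      rw [← h3, ← h1, h3, ← h5]
    · intro h1
      obtain ⟨h2, h3, h4, h5⟩ := hchord m hm m' hm' hlt hee (b (m + 1)) (L2 m) (h1 ▸ L2 m')
      apply hbne 0 (Nat.zero_le _)
      rw [← h2, h4, h2]
    · intro h1
      obtain ⟨h2, h3, h4, h5⟩ := hchord m hm m' hm' hlt hee (b (m + 1)) (L2 m) (h1 ▸ L1 m')
      apply hbne 0 (Nat.zero_le _)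
      rw [← h2, h4, h2]
    · intro h0 h1
      obtain ⟨h2, h3, h4, h5⟩ := hchord m hm m' hm' hlt hee (b m) (L1 m) (h1 ▸ L2 m')
      rcases h0 with h0 | h0
      · exact h0 h2
      · exact h0 h3
  -- the small shift of the last vertex
  obtain ⟨δ, hδ, hδ2⟩ := A1_small K (fun m => |p m - n|) (fun m h1 h2 => abs_pos.2 (sub_ne_zero.2 (hpn m h1 h2)))
  -- the sign of the shift
  let btw : ℝ → ℝ → ℝ → Prop := fun x y z => min x y < z ∧ z < max x y
  obtain ⟨w, hw, hwn⟩ : ∃ w : ℝ, (w = n + δ ∨ w = n - δ) ∧ (btw n (p 1) (p K) ↔ btw n (p 1) w) := by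
    have h1 := hδ2 1 le_rfl hK
    by_cases h2 : btw n (p 1) (p K)
    · rcases lt_or_gt_of_ne (hpn 1 le_rfl hK) with h3 | h3
      · refine ⟨n - δ, Or.inr rfl, ?_⟩
        rw [abs_of_neg (by linarith)] at h1
        refine ⟨fun _ => ⟨?_, ?_⟩, fun _ => h2⟩
        · rw [min_eq_right h3.le]
          linarith
        · rw [max_eq_left h3.le]
          linarith
      · refine ⟨n + δ, Or.inl rfl, ?_⟩
        rw [abs_of_pos (by linarith)] at h1
        refine ⟨fun _ => ⟨?_, ?_⟩, fun _ => h2⟩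
        · rw [min_eq_left h3.le]
          linarith
        · rw [max_eq_right h3.le]
          linarith
    · rcases lt_or_gt_of_ne (hpn 1 le_rfl hK) with h3 | h3
      · refine ⟨n + δ, Or.inl rfl, ⟨fun h4 => absurd h4 h2, fun h4 => ?_⟩⟩
        exfalso
        have h5 := h4.2
        rw [max_eq_left h3.le] at h5
        linarith
      · refine ⟨n - δ, Or.inr rfl, ⟨fun h4 => absurd h4 h2, fun h4 => ?_⟩⟩
        exfalso
        have h5 := h4.1
        rw [min_eq_left h3.le] at h5
        linarith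
  have hwlt : ∀ m, 1 ≤ m → m ≤ K → (p m < n ↔ p m < w) ∧ (n < p m ↔ w < p m) := by
    intro m h1 h2
    have h3 := hδ2 m h1 h2
    rcases lt_or_gt_of_ne (hpn m h1 h2) with h4 | h4
    · rw [abs_of_neg (by linarith)] at h3
      rcases hw with h5 | h5 <;> rw [h5] <;>
        exact ⟨⟨fun _ => by linarith, fun _ => h4⟩, ⟨fun h => by linarith, fun h => by linarith⟩⟩
    · rw [abs_of_pos (by linarith)] at h3
      rcases hw with h5 | h5 <;> rw [h5] <;>
        exact ⟨⟨fun h => by linarith, fun h => by linarith⟩, ⟨fun _ => by linarith, fun _ => h4⟩⟩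
  have hwn' : w ≠ n := by
    rcases hw with h5 | h5 <;> rw [h5] <;> intro h6 <;> linarith
  have hwp : ∀ m, 1 ≤ m → m ≤ K → p m ≠ w := by
    intro m h1 h2 h3
    rcases lt_or_gt_of_ne (hpn m h1 h2) with h4 | h4
    · have := ((hwlt m h1 h2).1).1 h4
      linarith
    · have := ((hwlt m h1 h2).2).1 h4
      linarith
  let x : ℕ → ℝ := fun m => if m = K + 1 then w else p m
  have hx1 : ∀ m ≤ K, x m = p m := by
    intro m hm
    simp only [x]
    rw [if_neg (by omega)]
  have hxK : x (K + 1) = w := by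
    simp [x]
  have hxp : ∀ i ≤ K + 1, ∀ m, 1 ≤ m → m ≤ K → (x i < p m ↔ p i < p m) ∧ (p m < x i ↔ p m < p i) := by
    intro i hi m h1 h2
    by_cases h3 : i = K + 1
    · rw [h3, hxK, hpK]
      exact ⟨(hwlt m h1 h2).2.symm, (hwlt m h1 h2).1.symm⟩
    · rw [hx1 i (by omega)]
      exact ⟨Iff.rfl, Iff.rfl⟩
  have hxbtw : ∀ i ≤ K, ∀ m, 1 ≤ m → m ≤ K → (btw (x i) (x (i + 1)) (p m) ↔ btw (p i) (p (i + 1)) (p m)) := by
    intro i hi m h1 h2
    simp only [btw]
    rw [min_lt_iff, min_lt_iff, lt_max_iff, lt_max_iff, (hxp i (by omega) m h1 h2).1, (hxp (i + 1) (by omega) m h1 h2).1,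
      (hxp i (by omega) m h1 h2).2, (hxp (i + 1) (by omega) m h1 h2).2]
  -- x distinct
  have hpb : ∀ i ≤ K + 1, ∀ i' ≤ K + 1, b i ≠ b i' → p i ≠ p i' := by
    intro i hi i' hi' h1 h2
    apply h1
    rw [← hbd i hi, ← hbd i' hi', h2]
  have hxne : ∀ i ≤ K + 1, ∀ i' ≤ K + 1, b i ≠ b i' → x i ≠ x i' := by
    intro i hi i' hi' h1
    have h2 := hpb i hi i' hi' h1
    by_cases h3 : i = K + 1
    · by_cases h4 : i' = K + 1
      · rw [h3, h4] at h1
        exact absurd rfl h1
      · rw [h3, hxK, hx1 i' (by omega)]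
        by_cases h5 : i' = 0
        · rw [h5, hp0]
          exact hwn'
        · exact (hwp i' (by omega) (by omega)).symm
    · by_cases h4 : i' = K + 1
      · rw [h4, hxK, hx1 i (by omega)]
        by_cases h5 : i = 0
        · rw [h5, hp0]
          exact hwn'.symm
        · exact hwp i (by omega) (by omega)
      · rw [hx1 i (by omega), hx1 i' (by omega)]
        exact h2
  have hx0K : x 0 ≠ x (K + 1) := by
    rw [hxK, hx1 0 (Nat.zero_le _), hp0]
    exact hwn'.symm
  have hself : ∀ m ≤ K, x m ≠ x (m + 1) := fun m hm =>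
    hxne m (by omega) (m + 1) (by omega) (hbne m hm).symm
  have hxd : ∀ m ≤ K, ∀ m' ≤ K, m < m' → e m = e m' → x m ≠ x m' ∧ x (m + 1) ≠ x (m' + 1) ∧ x (m + 1) ≠ x m' ∧
      x m ≠ x (m' + 1) := by
    intro m hm m' hm' hlt hee
    obtain ⟨h1, h2, h3, h4⟩ := hdist m hm m' hm' hlt hee
    refine ⟨hxne _ (by omega) _ (by omega) h1, hxne _ (by omega) _ (by omega) h2, hxne _ (by omega) _ (by omega) h3, ?_⟩
    by_cases h5 : m ≠ 0 ∨ m' ≠ K
    · exact hxne _ (by omega) _ (by omega) (h4 h5)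
    · push Not at h5
      rw [h5.1, h5.2]
      exact hx0K
  have hxd' : ∀ m ≤ K, ∀ m' ≤ K, m ≠ m' → e m = e m' → x m ≠ x m' ∧ x (m + 1) ≠ x (m' + 1) ∧ x (m + 1) ≠ x m' ∧
      x m ≠ x (m' + 1) := by
    intro m hm m' hm' hne hee
    rcases Nat.lt_or_gt_of_ne hne with h1 | h1
    · exact hxd m hm m' hm' h1 hee
    · obtain ⟨h2, h3, h4, h5⟩ := hxd m' hm' m hm h1 hee.symm
      exact ⟨h2.symm, h3.symm, h5.symm, h4.symm⟩
  -- non-interleaving
  have hNI1 : ∀ m ≤ K, ∀ m' ≤ K, m ≠ m' → e m = e m' → m' ≠ 0 → m' ≠ K →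
      (btw (x m) (x (m + 1)) (x m') ↔ btw (x m) (x (m + 1)) (x (m' + 1))) := by
    intro m hm m' hm' hne hee h0 h0'
    rw [hx1 m' hm', hx1 (m' + 1) (by omega), hxbtw m hm m' (by omega) hm', hxbtw m hm (m' + 1) (by omega) (by omega)]
    have hdj : ∀ z, z ∈ segment ℝ (b m) (b (m + 1)) → z ∈ segment ℝ (b m') (b (m' + 1)) → False := by
      intro z hz hz'
      rcases Nat.lt_or_gt_of_ne hne with h1 | h1
      · exact h0' (hchord m hm m' hm' h1 hee z hz hz').2.1
      · exact h0 (hchord m' hm' m hm h1 hee.symm z hz' hz).1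
    have r1 := hprange m (by omega)
    have r2 := hprange (m + 1) (by omega)
    have r3 := hprange m' (by omega)
    have r4 := hprange (m' + 1) (by omega)
    refine non_interleaving hPu r1.1 r1.2 r2.1 r2.2 r3.1 r3.2 r4.1 r4.2 (hpnz m' (by omega) hm')
      (hpnz (m' + 1) (by omega) (by omega)) ?_ ?_ ?_
    · rw [hbd m (by omega), hbd (m + 1) (by omega)]
      exact h.fly m hm
    · rw [hbd m' (by omega), hbd (m' + 1) (by omega)]
      exact h.fly m' hm'
    · rw [hbd m (by omega), hbd (m + 1) (by omega), hbd m' (by omega), hbd (m' + 1) (by omega)]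
      exact fun z hz hz' => hdj z hz hz'
  have hNIs : ∀ m ≤ K, ∀ m' ≤ K, m ≠ m' → e m = e m' →
      (btw (x m) (x (m + 1)) (x m') ↔ btw (x m) (x (m + 1)) (x (m' + 1))) →
      (btw (x m') (x (m' + 1)) (x m) ↔ btw (x m') (x (m' + 1)) (x (m + 1))) := by
    intro m hm m' hm' hne hee H
    obtain ⟨h1, h2, h3, h4⟩ := hxd' m hm m' hm' hne hee
    exact A1_symm (hself m hm) (hself m' hm') h1 h4 h3 h2 H
  have hNI : ∀ m ≤ K, ∀ m' ≤ K, m ≠ m' → e m = e m' →
      (btw (x m) (x (m + 1)) (x m') ↔ btw (x m) (x (m + 1)) (x (m' + 1))) := by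
    intro m hm m' hm' hne hee
    by_cases h1 : m' ≠ 0 ∧ m' ≠ K
    · exact hNI1 m hm m' hm' hne hee h1.1 h1.2
    by_cases h2 : m ≠ 0 ∧ m ≠ K
    · exact hNIs m' hm' m hm hne.symm hee.symm (hNI1 m' hm' m hm hne.symm hee.symm h2.1 h2.2)
    have h3 : (m = 0 ∧ m' = K) ∨ (m = K ∧ m' = 0) := by omega
    have H0 : e 0 = e K → (btw (x 0) (x (0 + 1)) (x K) ↔ btw (x 0) (x (0 + 1)) (x (K + 1))) := by
      intro _
      rw [hxK, hx1 0 (by omega), hx1 K le_rfl, hx1 (0 + 1) (by omega), hp0, zero_add]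
      exact hwn
    rcases h3 with ⟨h3, h4⟩ | ⟨h3, h4⟩
    · subst h3
      rw [h4] at hee ⊢
      exact H0 hee
    · rw [h3, h4] at hee ⊢
      exact hNIs 0 (by omega) K le_rfl (by omega) hee.symm (H0 hee.symm)
  -- the abstract lemma
  have hfar : ∀ m, 1 ≤ m → m ≤ K → n ≤ J m + 1 := by
    refine Pool.Agent.Lib.H94D.Far.far_free K n e J x (fun i f => 2 * kap (a + (i : ZMod n)) - f) ?_ ?_ ?_ ?_ ?_ ?_ hself ?_ ?_ ?_ ?_
    · intro i f
      ring
    · intro m h1 h2
      obtain ⟨m, rfl⟩ : ∃ i, m = i + 1 := ⟨m - 1, by omega⟩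
      rw [hes, Nat.add_sub_cancel, ← hJ2]
    · intro m h1 h2 h3
      obtain ⟨m, rfl⟩ : ∃ i, m = i + 1 := ⟨m - 1, by omega⟩
      rw [Nat.add_sub_cancel] at h3
      apply h.nperp (m + 1) h1 h2
      rw [Nat.add_sub_cancel, hD (m + 1) h2, hD m (by omega), h3]
      push_cast
      ring
    · intro m _ _
      exact hJ1 m
    · intro m m' h1 h2 h1' h2' hJJ
      rw [hx1 m h2, hx1 m' h2', hp1 m h1 h2, hp1 m' h1' h2']
      have h3 := (ht m h1 h2).2.1
      have h4 := (ht m' h1' h2').1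
      have h5 : (J m : ℝ) + 1 ≤ J m' := by exact_mod_cast hJJ
      linarith
    · intro m h1 h2
      rw [hx1 m h2, hx1 0 (by omega), hp0, hxK]
      have h3 := ht m h1 h2
      refine ⟨fun h4 => ?_, fun h4 => ?_⟩
      · have h5 : p m < n := by
          rw [hp1 m h1 h2]
          have h6 : (J m : ℝ) + 1 ≤ n := by exact_mod_cast h4
          linarith [h3.2.1]
        exact ⟨h5, ((hwlt m h1 h2).1).1 h5⟩
      · have h5 : n < p m := by
          rw [hp1 m h1 h2, h4]
          linarith [h3.1]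
        exact ⟨h5, ((hwlt m h1 h2).2).1 h5⟩
    · intro m hm m' hm' hne hee
      obtain ⟨h1, h2, h3, h4⟩ := hxd' m hm m' hm' hne hee
      exact ⟨h1, h2, h4⟩
    · intro m hm m' hm' hne hee
      exact hNI m hm m' hm' hne hee
    · intro i hi1 hi2 f
      have hia : a + (i : ZMod n) ≠ a := by
        intro h1
        have h2 : (i : ZMod n) = ((n : ℕ) : ZMod n) := by
          rw [hn0]
          linear_combination h1
        have := A1_cast hi1 (by omega) (by omega) le_rfl h2
        omega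
      have hia' : a + (i : ZMod n) ≠ a - 1 := by
        intro h1
        have h2 : ((i + 1 : ℕ) : ZMod n) = ((n : ℕ) : ZMod n) := by
          rw [hn0]
          push_cast
          linear_combination h1
        have := A1_cast (by omega) (by omega) (by omega) le_rfl h2
        omega
      have h1 := hG.hbal hp ha hc hia hia' f
      have key : ∀ m, 1 ≤ m → (J m = i ↔ j (m - 1 + 1) = a + (i : ZMod n)) := by
        intro m hm
        rw [Nat.sub_add_cancel hm, hJ2 m]
        constructor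
        · intro h2
          rw [h2]
        · intro h2
          exact A1_cast (hJ1 m).1 (hJ1 m).2 hi1 (by omega) (add_left_cancel h2)
      have k1 : (Finset.Icc 1 K).filter (fun m => J m = i ∧ e m = f) =
          (Finset.Icc 1 K).filter (fun m => j (m - 1 + 1) = a + (i : ZMod n) ∧ e m = f) := by
        ext m
        simp only [Finset.mem_filter, Finset.mem_Icc]
        constructor
        · rintro ⟨h2, h3, h4⟩
          exact ⟨h2, (key m h2.1).1 h3, h4⟩
        · rintro ⟨h2, h3, h4⟩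
          exact ⟨h2, (key m h2.1).2 h3, h4⟩
      have k2 : (Finset.Icc 1 K).filter (fun m => J m = i ∧ e (m - 1) = f) =
          (Finset.Icc 1 K).filter (fun m => j (m - 1 + 1) = a + (i : ZMod n) ∧ e (m - 1) = f) := by
        ext m
        simp only [Finset.mem_filter, Finset.mem_Icc]
        constructor
        · rintro ⟨h2, h3, h4⟩
          exact ⟨h2, (key m h2.1).1 h3, h4⟩
        · rintro ⟨h2, h3, h4⟩
          exact ⟨h2, (key m h2.1).2 h3, h4⟩
      rw [k1, k2]
      exact h1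
    · intro m m' h1 h2 h1' h2' hJJ hor
      have hjj : j m = j m' := by rw [hJ2 m, hJ2 m', hJJ]
      by_contra hpar2
      rcases hor with h3 | h3
      · apply VPath.dep_ne hP h h1 h2 h1' h2' hjj
        rw [hD m h2, hD m' h2', h3]
        rcases Nat.even_or_odd m with h4 | h4 <;> rcases Nat.even_or_odd m' with h5 | h5
        · exfalso
          rw [Nat.even_iff] at h4 h5
          omega
        · rw [h4.neg_one_pow, h5.neg_one_pow]
          push_cast
          ring
        · rw [h4.neg_one_pow, h5.neg_one_pow]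
          push_cast
          ring
        · exfalso
          rw [Nat.odd_iff] at h4 h5
          omega
      · apply VPath.arr_ne hP h h1 h2 h1' h2' hjj
        obtain ⟨m', rfl⟩ : ∃ i, m' = i + 1 := ⟨m' - 1, by omega⟩
        rw [Nat.add_sub_cancel] at h3 ⊢
        rw [hD m h2, hD m' (by omega), h3]
        rcases Nat.even_or_odd m with h4 | h4 <;> rcases Nat.even_or_odd m' with h5 | h5
        · rw [h4.neg_one_pow, h5.neg_one_pow]
        · exfalso
          rw [Nat.even_iff] at h4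
          rw [Nat.odd_iff] at h5
          omega
        · exfalso
          rw [Nat.odd_iff] at h4
          rw [Nat.even_iff] at h5
          omega
        · rw [h4.neg_one_pow, h5.neg_one_pow]
  -- all bounces are on the two sides at the vertex
  refine VPath.star_free hP h a ha hc ?_
  intro m h1 h2
  have h3 := hfar m h1 h2
  obtain ⟨h4, h5⟩ := hJ1 m
  have h6 : J m = n ∨ J m = n - 1 := by omega
  rw [hJ2 m]
  rcases h6 with h6 | h6
  · left
    rw [h6, hn0, add_zero]
  · right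
    rw [h6]
    have h7 : ((n - 1 + 1 : ℕ) : ZMod n) = 0 := by
      rw [Nat.sub_add_cancel (by omega), hn0]
    push_cast at h7
    linear_combination h7

end Pool.Agent.Lib.H23D
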