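import Pool.Agent.Lib.H23D.A1

/-!
# H23D, B1: (E1) and (E2): excluded colours

Module C of H93B, see `H93B/PROOF.md` and `README.md`.
-/

set_option autoImplicit false

open Finset
open scoped Classical

namespace Pool.Agent.Lib.H23D

open Pool.Agent.Lib.Prob48
open Pool.Agent.Lib.H93B

variable {V : Type} [Fintype V] {G : SimpleGraph V} {k : ℕ} {φ : V → Option (Fin k)} {c : Cst}
  {r : ℝ} {D : ℕ} {x C1 C3 L : ℝ}

theorem b1_gen (φ : V → Option (Fin k)) (W : Finset V) :
    (univ.filter fun col => ∃ w ∈ W, φ w = some col).card ≤ W.card := by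
  rw [← card_image_of_injective _ (Option.some_injective (Fin k))]
  refine le_trans (card_le_card (t := W.image φ) ?_) card_image_le
  intro o ho
  obtain ⟨col, hcol, rfl⟩ := mem_image.1 ho
  obtain ⟨w, hw, hw2⟩ := (mem_filter.1 hcol).2
  exact mem_image.2 ⟨w, hw, hw2⟩

/-- (E1): choose for every such colour a neighbour of `v` in the class: an injection into `nb G v`, at
most `D = r ^ 3` colours. -/
theorem b1_e1 (h : Gs c r D G φ x C1 C3 L) (v : V) :
    ((univ.filter fun col => ∃ w ∈ nb G v, φ w = some col).card : ℝ) ≤ r ^ 3 := by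
  rw [h.r_cube]
  exact_mod_cast (b1_gen φ (nb G v)).trans (h.deg v)

/-- (E2): choose for every such colour a `w` in its class with `K0 r² < cd v w`: an injection into
`{w | K0 r² ≤ cd v w}`, which has at most `r ^ 6 / (K0 r²) = r ^ 4 / K0 = ε r ^ 4 / 64` elements
(`a1_card`, `K0_ε`). -/
theorem b1_e2 (h : Gs c r D G φ x C1 C3 L) (v : V) :
    ((univ.filter fun col => ∃ w ∈ cl φ col, c.K0 * r ^ 2 < cd G v w).card : ℝ) ≤
      c.ε / 64 * r ^ 4 := by
  have h1 := a1_card (G := G) h.deg h.r_cube v (c.K0 * r ^ 2)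
  have h2 : ((univ.filter fun col => ∃ w ∈ cl φ col, c.K0 * r ^ 2 < cd G v w).card : ℝ) ≤
      ((univ.filter fun w => c.K0 * r ^ 2 ≤ cd G v w).card : ℝ) := by
    have h3 : (univ.filter fun col => ∃ w ∈ cl φ col, c.K0 * r ^ 2 < cd G v w).card ≤
        (univ.filter fun w => c.K0 * r ^ 2 ≤ cd G v w).card := by
      refine (card_le_card ?_).trans (b1_gen φ (univ.filter fun w => c.K0 * r ^ 2 ≤ cd G v w))
      intro col hcol
      obtain ⟨w, hw, hw2⟩ := (mem_filter.1 hcol).2
      exact mem_filter.2 ⟨mem_univ _, w, mem_filter.2 ⟨mem_univ _, hw2.le⟩, mem_cl.1 hw⟩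
    exact Nat.cast_le.2 h3
  refine h2.trans ?_
  have hK := K0_pos h.hc
  have hr : 0 < r := lt_of_lt_of_le one_pos h.r_one
  have hKr : 0 < c.K0 * r ^ 2 := by positivity
  refine le_of_mul_le_mul_left (h1.trans (le_of_eq ?_)) hKr
  have h4 := K0_ε h.hc
  have h5 : c.K0 * r ^ 2 * (c.ε / 64 * r ^ 4) = (c.K0 * c.ε) / 64 * r ^ 6 := by ring
  rw [h5, h4]
  ring

end Pool.Agent.Lib.H23D
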