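import Pool.Agent.Lib.H23D.A1

/-!
# H23D, B2: (E3): excluded colours

Module C of H93B, see `H93B/PROOF.md` and `README.md`.
-/

set_option autoImplicit false

open Finset
open scoped Classical

namespace Pool.Agent.Lib.H23D

open Pool.Agent.Lib.Prob48
open Pool.Agent.Lib.H93B

variable {V : Type} [Fintype V] {G : SimpleGraph V} {k : ℕ} {φ : V → Option (Fin k)} {c : Cst}
  {r : ℝ} {D : ℕ} {x C1 C3 L : ℝ}

/-- (E3): let `F` be the set of these colours. For different colours the classes are disjoint and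
contained in `{w | cd v w ≤ K0 r²}`, so `K2 r ^ 4 |F| ≤ ∑_{col ∈ F} ∑_{w ∈ cl φ col} cd v w ^ 2 ≤
∑_{w : cd v w ≤ K0 r²} cd v w ^ 2 ≤ K0 r² r ^ 6` (`a1_sq`), i.e. `|F| ≤ (K0 / K2) r ^ 4 = ε r ^ 4 / 64`
(`K2_ε`: `K2 ε = 64 K0`). -/
theorem b2 (h : Gs c r D G φ x C1 C3 L) (v : V) :
    ((univ.filter fun col => (∀ w ∈ cl φ col, cd G v w ≤ c.K0 * r ^ 2) ∧
      c.K2 * r ^ 4 < ∑ w ∈ cl φ col, cd G v w ^ 2).card : ℝ) ≤ c.ε / 64 * r ^ 4 := by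
  obtain ⟨F, hF⟩ : ∃ F : Finset (Fin k), F = univ.filter fun col => (∀ w ∈ cl φ col, cd G v w ≤ c.K0 * r ^ 2) ∧
      c.K2 * r ^ 4 < ∑ w ∈ cl φ col, cd G v w ^ 2 := ⟨_, rfl⟩
  rw [← hF]
  have hFm : ∀ col ∈ F, (∀ w ∈ cl φ col, cd G v w ≤ c.K0 * r ^ 2) ∧
      c.K2 * r ^ 4 < ∑ w ∈ cl φ col, cd G v w ^ 2 := by
    intro col hcol
    rw [hF] at hcol
    exact (mem_filter.1 hcol).2
  have hK := K0_pos h.hc
  have hK2 := K2_pos h.hc
  have hr : 0 < r := lt_of_lt_of_le one_pos h.r_one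
  have h1 : c.K2 * r ^ 4 * (F.card : ℝ) ≤ ∑ col ∈ F, ∑ w ∈ cl φ col, cd G v w ^ 2 := by
    rw [mul_comm, ← nsmul_eq_mul]
    exact card_nsmul_le_sum _ _ _ fun col hcol => (hFm col hcol).2.le
  have h2 : ∑ col ∈ F, ∑ w ∈ cl φ col, cd G v w ^ 2 = ∑ w ∈ F.biUnion fun col => cl φ col, cd G v w ^ 2 := by
    rw [sum_biUnion]
    intro a _ b _ hab
    rw [Function.onFun, Finset.disjoint_left]
    intro w hw hw'
    have h3 := (mem_cl.1 hw).symm.trans (mem_cl.1 hw')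
    exact hab (Option.some_injective _ h3)
  have h3 : ∑ w ∈ F.biUnion (fun col => cl φ col), cd G v w ^ 2 ≤
      ∑ w ∈ univ.filter (fun w => cd G v w ≤ c.K0 * r ^ 2), cd G v w ^ 2 := by
    refine sum_le_sum_of_subset_of_nonneg ?_ fun w _ _ => sq_nonneg _
    intro w hw
    obtain ⟨col, hcol, hw2⟩ := mem_biUnion.1 hw
    exact mem_filter.2 ⟨mem_univ _, (hFm col hcol).1 w hw2⟩
  have h4 := a1_sq (G := G) h.deg h.r_cube v (c.K0 * r ^ 2) (by positivity)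
  have h5 : c.K2 * r ^ 4 * (F.card : ℝ) ≤ c.K0 * r ^ 2 * r ^ 6 := by
    rw [h2] at h1
    exact h1.trans (h3.trans h4)
  have hKr : 0 < c.K2 * r ^ 4 := by positivity
  refine le_of_mul_le_mul_left (h5.trans (le_of_eq ?_)) hKr
  have h6 := K2_ε h.hc
  have h7 : c.K2 * r ^ 4 * (c.ε / 64 * r ^ 4) = (c.K2 * c.ε) / 64 * r ^ 8 := by ring
  rw [h7, h6]
  ring

end Pool.Agent.Lib.H23D
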