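import Pool.Agent.Lib.H23D.Basic

/-!
# H23D, B3: (E4): excluded colours

Module C of H93B, see `H93B/PROOF.md` and `README.md`.
-/

set_option autoImplicit false

open Finset
open scoped Classical

namespace Pool.Agent.Lib.H23D

open Pool.Agent.Lib.Prob48
open Pool.Agent.Lib.H93B

variable {V : Type} [Fintype V] {G : SimpleGraph V} {k : ℕ} {φ : V → Option (Fin k)} {c : Cst}
  {r : ℝ} {D : ℕ} {x C1 C3 L : ℝ}

/-- (E4): the set is contained in the union over the mono pairs `(y, z)` in `N(v)` (at most `C1 r²` by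
`h.i1`) with `cd y z < ρ0 r²` of the colours of the vertices of `co y z` (at most `cd y z` colours).
So at most `C1 r² * ρ0 r² ≤ (ρ0 C1m) r ^ 4 ≤ ε r ^ 4 / 64` colours (`hc.ρ0_C1`, `h.C1_le`). -/
theorem b3 (h : Gs c r D G φ x C1 C3 L) (v : V) :
    ((univ.filter fun col => ∃ y ∈ nb G v, ∃ z ∈ nb G v, Mono φ y z ∧ cd G y z < c.ρ0 * r ^ 2 ∧
      ∃ w ∈ co G y z, φ w = some col).card : ℝ) ≤ c.ε / 64 * r ^ 4 := by
  have hgen : ∀ W : Finset V, (univ.filter fun col => ∃ w ∈ W, φ w = some col).card ≤ W.card := by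
    intro W
    rw [← card_image_of_injective _ (Option.some_injective (Fin k))]
    refine le_trans (card_le_card (t := W.image φ) ?_) card_image_le
    intro o ho
    obtain ⟨col, hcol, rfl⟩ := mem_image.1 ho
    obtain ⟨w, hw, hw2⟩ := (mem_filter.1 hcol).2
    exact mem_image.2 ⟨w, hw, hw2⟩
  obtain ⟨P, hP⟩ : ∃ P : Finset (V × V), P = univ.filter fun f : V × V =>
    f.1 ∈ nb G v ∧ f.2 ∈ nb G v ∧ Mono φ f.1 f.2 := ⟨_, rfl⟩
  have h1 := h.i1 v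
  rw [← hP] at h1
  have h2 : (univ.filter fun col => ∃ y ∈ nb G v, ∃ z ∈ nb G v, Mono φ y z ∧ cd G y z < c.ρ0 * r ^ 2 ∧
      ∃ w ∈ co G y z, φ w = some col) ⊆ (P.filter fun f => cd G f.1 f.2 < c.ρ0 * r ^ 2).biUnion
        fun f => univ.filter fun col => ∃ w ∈ co G f.1 f.2, φ w = some col := by
    intro col hcol
    obtain ⟨y, hy, z, hz, h3, h4, h5⟩ := (mem_filter.1 hcol).2
    refine mem_biUnion.2 ⟨(y, z), mem_filter.2 ⟨?_, h4⟩, mem_filter.2 ⟨mem_univ _, h5⟩⟩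
    rw [hP]
    exact mem_filter.2 ⟨mem_univ _, hy, hz, h3⟩
  have h3 : ((univ.filter fun col => ∃ y ∈ nb G v, ∃ z ∈ nb G v, Mono φ y z ∧ cd G y z < c.ρ0 * r ^ 2 ∧
      ∃ w ∈ co G y z, φ w = some col).card : ℝ) ≤ ∑ f ∈ P.filter fun f => cd G f.1 f.2 < c.ρ0 * r ^ 2, cd G f.1 f.2 := by
    have h4 := (card_le_card h2).trans (card_biUnion_le.trans (sum_le_sum fun f _ => hgen (co G f.1 f.2)))
    have h5 : ((univ.filter fun col => ∃ y ∈ nb G v, ∃ z ∈ nb G v, Mono φ y z ∧ cd G y z < c.ρ0 * r ^ 2 ∧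
      ∃ w ∈ co G y z, φ w = some col).card : ℝ) ≤
        ((∑ f ∈ P.filter fun f => cd G f.1 f.2 < c.ρ0 * r ^ 2, (co G f.1 f.2).card : ℕ) : ℝ) := by exact_mod_cast h4
    rw [Nat.cast_sum] at h5
    exact h5
  have h4 : ∑ f ∈ P.filter (fun f => cd G f.1 f.2 < c.ρ0 * r ^ 2), cd G f.1 f.2 ≤ (P.card : ℝ) * (c.ρ0 * r ^ 2) := by
    have h5 : ∑ f ∈ P.filter (fun f => cd G f.1 f.2 < c.ρ0 * r ^ 2), cd G f.1 f.2 ≤
        ∑ f ∈ P.filter (fun f => cd G f.1 f.2 < c.ρ0 * r ^ 2), (c.ρ0 * r ^ 2) :=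
      sum_le_sum fun f hf => (mem_filter.1 hf).2.le
    rw [sum_const, nsmul_eq_mul] at h5
    refine h5.trans ?_
    have h6 : ((P.filter (fun f => cd G f.1 f.2 < c.ρ0 * r ^ 2)).card : ℝ) ≤ (P.card : ℝ) := by
      exact_mod_cast card_le_card (filter_subset _ _)
    have h7 := h.hc.ρ0_pos
    exact mul_le_mul_of_nonneg_right h6 (by positivity)
  refine h3.trans (h4.trans ?_)
  have h5 := h.hc.ρ0_pos
  have h6 := h.hc.ρ0_C1
  have h7 := h.C1_le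
  calc (P.card : ℝ) * (c.ρ0 * r ^ 2) ≤ (C1 * r ^ 2) * (c.ρ0 * r ^ 2) := mul_le_mul_of_nonneg_right h1 (by positivity)
    _ ≤ (c.C1m * r ^ 2) * (c.ρ0 * r ^ 2) := by gcongr
    _ = (c.ρ0 * c.C1m) * r ^ 4 := by ring
    _ ≤ c.ε / 64 * r ^ 4 := by gcongr

end Pool.Agent.Lib.H23D
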