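import Pool.Agent.Lib.H23D.C1

/-!
# H23D, B4: (E5): excluded colours

Module C of H93B, see `H93B/PROOF.md` and `README.md`.
-/

set_option autoImplicit false

open Finset
open scoped Classical

namespace Pool.Agent.Lib.H23D

open Pool.Agent.Lib.Prob48
open Pool.Agent.Lib.H93B

variable {V : Type} [Fintype V] {G : SimpleGraph V} {k : ℕ} {φ : V → Option (Fin k)} {c : Cst}
  {r : ℝ} {D : ℕ} {x C1 C3 L : ℝ}

/-- (E5): let `F` be the set of these colours. `c.j0 |F| ≤ ∑_col |J (v, col)| = #{(col, f) : v ∈ labA f,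
col ∈ labB f} = ∑_{f : v ∈ labA f} |labB f| ≤ C1 r² * K0 r²` (`mem_J`, `c1_lab`, `c1_B`); and
`64 C1m K0 / ε ≤ j0` (`hc.j0_ge`), so `|F| ≤ ε r ^ 4 / 64`. -/
theorem b4 (h : Gs c r D G φ x C1 C3 L) (v : V) :
    ((univ.filter fun col => c.j0 < ((dat c r G φ).J (v, col)).card).card : ℝ) ≤
      c.ε / 64 * r ^ 4 := by
  obtain ⟨F, hF⟩ : ∃ F : Finset (Fin k), F = univ.filter fun col => c.j0 < ((dat c r G φ).J (v, col)).card := ⟨_, rfl⟩
  rw [← hF]
  have hFm : ∀ col ∈ F, c.j0 < ((dat c r G φ).J (v, col)).card := by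
    intro col hcol
    rw [hF] at hcol
    exact (mem_filter.1 hcol).2
  have hj := j0_one h.hc
  have h1 : (c.j0 : ℝ) * (F.card : ℝ) ≤ ∑ col ∈ F, (((dat c r G φ).J (v, col)).card : ℝ) := by
    rw [mul_comm, ← nsmul_eq_mul]
    exact card_nsmul_le_sum _ _ _ fun col hcol => by exact_mod_cast (hFm col hcol).le
  have h2 : ∑ col ∈ F, (((dat c r G φ).J (v, col)).card : ℝ) ≤ ∑ col, (((dat c r G φ).J (v, col)).card : ℝ) :=
    sum_le_sum_of_subset_of_nonneg (subset_univ _) fun _ _ _ => Nat.cast_nonneg _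
  have h3 : ∑ col, (((dat c r G φ).J (v, col)).card : ℝ) =
      ∑ f ∈ univ.filter (fun f : V × V => v ∈ labA c r G φ f), ((labB c r G φ f).card : ℝ) := by
    have e1 : ∀ col : Fin k, (((dat c r G φ).J (v, col)).card : ℝ) =
        ∑ f ∈ univ.filter (fun f : V × V => v ∈ labA c r G φ f), (if col ∈ labB c r G φ f then (1 : ℝ) else 0) := by
      intro col
      rw [← sum_filter, sum_const, nsmul_eq_mul, mul_one]
      congr 2
      ext f
      rw [mem_J, mem_filter, mem_filter]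
      exact ⟨fun h => ⟨⟨mem_univ _, h.1⟩, h.2⟩, fun h => ⟨h.1.2, h.2⟩⟩
    rw [sum_congr rfl fun col _ => e1 col, sum_comm]
    refine sum_congr rfl fun f _ => ?_
    rw [← sum_filter, sum_const, nsmul_eq_mul, mul_one]
    congr 2
    ext col
    rw [mem_filter]
    exact ⟨fun h => h.2, fun h => ⟨mem_univ _, h⟩⟩
  have hK := K0_pos h.hc
  have h4 : ∑ f ∈ univ.filter (fun f : V × V => v ∈ labA c r G φ f), ((labB c r G φ f).card : ℝ) ≤
      (C1 * r ^ 2) * (c.K0 * r ^ 2) := by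
    have h5 : ∑ f ∈ univ.filter (fun f : V × V => v ∈ labA c r G φ f), ((labB c r G φ f).card : ℝ) ≤
        ∑ f ∈ univ.filter (fun f : V × V => v ∈ labA c r G φ f), (c.K0 * r ^ 2) :=
      sum_le_sum fun f _ => c1_B h f
    rw [sum_const, nsmul_eq_mul] at h5
    exact h5.trans (mul_le_mul_of_nonneg_right (c1_lab h v) (by positivity))
  have h5 : (c.j0 : ℝ) * (F.card : ℝ) ≤ (C1 * r ^ 2) * (c.K0 * r ^ 2) := by
    rw [h3] at h2
    exact h1.trans (h2.trans h4)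
  have hε := h.hc.ε_pos
  have h6 : c.C1m * c.K0 ≤ c.j0 * (c.ε / 64) := by
    have h7 := h.hc.j0_ge
    rw [div_le_iff₀ hε] at h7
    linarith
  have h7 := h.C1_le
  have hj' : (0 : ℝ) < c.j0 := by exact_mod_cast hj
  refine le_of_mul_le_mul_left (h5.trans ?_) hj'
  calc (C1 * r ^ 2) * (c.K0 * r ^ 2) ≤ (c.C1m * r ^ 2) * (c.K0 * r ^ 2) := by gcongr
    _ = (c.C1m * c.K0) * r ^ 4 := by ring
    _ ≤ (c.j0 * (c.ε / 64)) * r ^ 4 := by gcongr
    _ = (c.j0 : ℝ) * (c.ε / 64 * r ^ 4) := by ring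

end Pool.Agent.Lib.H23D
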