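import Pool.Agent.Lib.H23D.B1
import Pool.Agent.Lib.H23D.B2
import Pool.Agent.Lib.H23D.B3
import Pool.Agent.Lib.H23D.B4

/-!
# H23D, B5: Lemma 1.1: every uncoloured vertex has at least k/2 colours

Module C of H93B, see `H93B/PROOF.md` and `README.md`.
-/

set_option autoImplicit false

open Finset
open scoped Classical

namespace Pool.Agent.Lib.H23D

open Pool.Agent.Lib.Prob48
open Pool.Agent.Lib.H93B

variable {V : Type} [Fintype V] {G : SimpleGraph V} {k : ℕ} {φ : V → Option (Fin k)} {c : Cst}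
  {r : ℝ} {D : ℕ} {x C1 C3 L : ℝ}

/-- Lemma 1.1. The colours `col` with `(v, col) ∉ H` are in one of the five sets of `b1_e1`, `b1_e2`,
`b2`, `b3`, `b4` (if (E2) holds for all `w` of the class then failure of (E3) is the event of `b2`;
the failure of `IsCand.e4` is the event of `b3`). So at most `r ^ 3 + 4 * (ε / 64) r ^ 4` colours are bad,
`r ^ 3 ≤ (ε / 8) r ^ 4` since `8 / ε ≤ r`, and `(1/8 + 1/16) ε r ^ 4 ≤ (1/5) ε r ^ 4 ≤ k / 2` (`h.k_ge`). -/
theorem b5 (h : Gs c r D G φ x C1 C3 L) (hr : 8 / c.ε ≤ r) (v : V) (hv : φ v = none) :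
    (k : ℝ) / 2 ≤ ((univ.filter fun col : Fin k => (v, col) ∈ (dat c r G φ).H).card : ℝ) := by
  have hbad : (univ.filter fun col : Fin k => ¬ (v, col) ∈ (dat c r G φ).H) ⊆
      ((((univ.filter fun col => ∃ w ∈ nb G v, φ w = some col) ∪
        (univ.filter fun col => ∃ w ∈ cl φ col, c.K0 * r ^ 2 < cd G v w)) ∪
        (univ.filter fun col => (∀ w ∈ cl φ col, cd G v w ≤ c.K0 * r ^ 2) ∧
          c.K2 * r ^ 4 < ∑ w ∈ cl φ col, cd G v w ^ 2)) ∪
        (univ.filter fun col => ∃ y ∈ nb G v, ∃ z ∈ nb G v, Mono φ y z ∧ cd G y z < c.ρ0 * r ^ 2 ∧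
          ∃ w ∈ co G y z, φ w = some col)) ∪
        (univ.filter fun col => c.j0 < ((dat c r G φ).J (v, col)).card) := by
    intro col hcol
    have hn := (mem_filter.1 hcol).2
    rw [mem_H] at hn
    simp only [mem_union, mem_filter, mem_univ, true_and]
    by_contra hcon
    push Not at hcon
    obtain ⟨⟨⟨⟨a1, a2⟩, a3⟩, a4⟩, a5⟩ := hcon
    refine hn ⟨hv, a1, a2, a3 a2, ?_, a5⟩
    intro y hy z hz hm hlt w hw
    exact a4 y hy z hz hm hlt w hw
  have h1 : ((univ.filter fun col : Fin k => ¬ (v, col) ∈ (dat c r G φ).H).card : ℝ) ≤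
      r ^ 3 + c.ε / 64 * r ^ 4 + c.ε / 64 * r ^ 4 + c.ε / 64 * r ^ 4 + c.ε / 64 * r ^ 4 := by
    have h2 : ((univ.filter fun col : Fin k => ¬ (v, col) ∈ (dat c r G φ).H).card : ℝ) ≤ _ :=
      Nat.cast_le.2 ((card_le_card hbad).trans ((card_union_le _ _).trans (Nat.add_le_add_right ((card_union_le _ _).trans
        (Nat.add_le_add_right ((card_union_le _ _).trans (Nat.add_le_add_right (card_union_le _ _) _)) _)) _)))
    push_cast at h2
    have e1 := b1_e1 h v
    have e2 := b1_e2 h v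
    have e3 := b2 h v
    have e4 := b3 h v
    have e5 := b4 h v
    linarith
  have h2 : ((univ.filter fun col : Fin k => (v, col) ∈ (dat c r G φ).H).card : ℝ) +
      ((univ.filter fun col : Fin k => ¬ (v, col) ∈ (dat c r G φ).H).card : ℝ) = k := by
    have h3 := card_filter_add_card_filter_not (s := (univ : Finset (Fin k))) (fun col => (v, col) ∈ (dat c r G φ).H)
    rw [card_univ, Fintype.card_fin] at h3
    exact_mod_cast h3
  have hr0 : 0 < r := lt_of_lt_of_le one_pos h.r_one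
  have hε := h.hc.ε_pos
  have h3 : r ^ 3 ≤ c.ε / 8 * r ^ 4 := by
    have h4 : 8 ≤ c.ε * r := by
      rw [div_le_iff₀ hε] at hr
      linarith
    have h5 : 0 < r ^ 3 := by positivity
    nlinarith [mul_le_mul_of_nonneg_right h4 h5.le]
  have h4 := h.k_ge
  have h5 : 0 < c.ε * r ^ 4 := by positivity
  nlinarith

end Pool.Agent.Lib.H23D
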