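import Pool.Agent.Lib.H93B.Defs

/-!
# H23D, Basic: membership lemmas and symmetries (proved), the structure `Gs`

Module C of H93B (`H93B/PROOF.md`, sections 1 and 6). `r ^ 3 = D`, `N = r ^ 4`.
-/

set_option autoImplicit false
set_option linter.unusedSectionVars false
set_option linter.unusedVariables false

open Finset
open scoped Classical

namespace Pool.Agent.Lib.H23D

open Pool.Agent.Lib.Prob48
open Pool.Agent.Lib.H93B

/-- The deterministic part of the situation in a round: constants, graph, state (without `om`; `L`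
bounds the numbers `|N(v) ∩ class|`). Used by all counting chunks. -/
structure Gs {V : Type} [Fintype V] {k : ℕ} (c : Cst) (r : ℝ) (D : ℕ) (G : SimpleGraph V)
    (φ : V → Option (Fin k)) (x C1 C3 L : ℝ) : Prop where
  hc : CstHyp c
  r_one : 1 ≤ r
  r_cube : r ^ 3 = D
  k_le : (k : ℝ) ≤ c.ε / 2 * r ^ 4
  k_ge : 2 / 5 * c.ε * r ^ 4 ≤ k
  deg : ∀ v, (nb G v).card ≤ D
  v1 : ∀ u v, G.Adj u v → ∀ col, φ u = some col → φ v ≠ some col
  v2 : ∀ p q s t, G.Adj p q → G.Adj q s → G.Adj s t → G.Adj t p → Mono φ p s → ¬ Mono φ q t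
  v3 : ∀ y z, Mono φ y z → cd G y z ≤ c.K0 * r ^ 2
  i1 : ∀ v, ((univ.filter fun f : V × V =>
    f.1 ∈ nb G v ∧ f.2 ∈ nb G v ∧ Mono φ f.1 f.2).card : ℝ) ≤ C1 * r ^ 2
  i2 : ∀ w w', w ≠ w' → c.ρ0 * r ^ 2 ≤ cd G w w' →
    ((unc φ ∩ co G w w').card : ℝ) ≤ x * cd G w w'
  i3 : ∀ w w', w ≠ w' → c.ρ0 * r ^ 2 ≤ cd G w w' →
    ((univ.filter fun f : V × V =>
      f.1 ∈ co G w w' ∧ Mono φ f.1 f.2 ∧ c.ρ0 * r ^ 2 ≤ cd G f.1 f.2).card : ℝ) ≤
      C3 * cd G w w'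
  nc : ∀ v col, ((nb G v ∩ cl φ col).card : ℝ) ≤ L
  x_ge : c.γ ≤ x
  x_le : x ≤ 1
  C1_nonneg : 0 ≤ C1
  C3_nonneg : 0 ≤ C3
  C1_le : C1 ≤ c.C1m
  C3_le : C3 ≤ c.C3m
  L_one : 1 ≤ L

section consts

variable {c : Cst}

theorem K0_ge (hc : CstHyp c) : 64 ≤ c.K0 := by
  rw [hc.K0_eq, le_div_iff₀ hc.ε_pos]
  nlinarith [hc.ε_le]

theorem K0_pos (hc : CstHyp c) : 0 < c.K0 := lt_of_lt_of_le (by norm_num) (K0_ge hc)

theorem K0_ε (hc : CstHyp c) : c.K0 * c.ε = 64 := by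
  rw [hc.K0_eq]
  exact div_mul_cancel₀ _ hc.ε_pos.ne'

theorem K2_ε (hc : CstHyp c) : c.K2 * c.ε = 64 * c.K0 := by
  rw [hc.K2_eq]
  exact div_mul_cancel₀ _ hc.ε_pos.ne'

theorem K2_ge (hc : CstHyp c) : 64 * c.K0 ≤ c.K2 := by
  rw [hc.K2_eq, le_div_iff₀ hc.ε_pos]
  nlinarith [hc.ε_le, K0_pos hc]

theorem K2_pos (hc : CstHyp c) : 0 < c.K2 := by
  have h1 := K0_pos hc
  have h2 := K2_ge hc
  linarith

theorem j0_one (hc : CstHyp c) : 1 ≤ c.j0 := by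
  have h1 := hc.j0_ge
  have h2 : 0 < 64 * c.C1m * c.K0 / c.ε := by
    have := K0_pos hc
    have := hc.C1_one
    have := hc.ε_pos
    positivity
  have h3 : (0 : ℝ) < c.j0 := lt_of_lt_of_le h2 h1
  exact_mod_cast h3

theorem K_one (hc : CstHyp c) : 1 ≤ c.K := by
  have h0 := K0_pos hc
  have h1 : 0 ≤ 1 / c.K0 := by positivity
  have h2 : 0 ≤ c.C1m * c.K0 := mul_nonneg (by linarith [hc.C1_one]) h0.le
  have h3 := K2_pos hc
  unfold Cst.K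
  linarith

theorem K0_le_K (hc : CstHyp c) : c.K0 ≤ c.K := by
  have h0 := K0_pos hc
  have h1 : 0 ≤ 1 / c.K0 := by positivity
  have h2 : 0 ≤ c.C1m * c.K0 := mul_nonneg (by linarith [hc.C1_one]) h0.le
  have h3 := K2_pos hc
  unfold Cst.K
  linarith

theorem Iof_pos (j : ℕ) : 0 < Iof j := by
  unfold Iof
  positivity

theorem sig_a_pos (hc : CstHyp c) : 0 < c.sig * c.a := by
  have h1 := Iof_pos c.j0
  have h2 := hc.Λ_one
  have h3 := hc.a_pos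
  unfold Cst.sig
  have h4 : 0 < c.Λ := by linarith
  positivity

theorem lam_a_pos (hc : CstHyp c) : 0 < c.lam * c.a := by
  have h1 := Iof_pos c.j0
  have h2 := hc.Λ_one
  have h3 := hc.a_pos
  unfold Cst.lam
  have h4 : 0 < c.Λ := by linarith
  positivity

theorem sig_eq (c : Cst) : c.sig = 32 * c.lam := by
  unfold Cst.sig Cst.lam
  ring

/-- `C3m * kill * a ≤ γ ε lam a / 20` -/
theorem kill_le (hc : CstHyp c) : c.C3m * (c.kill * c.a) ≤ c.γ * c.ε * (c.lam * c.a) / 20 := by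
  have h1 := hc.Λ_ge
  have h2 := Iof_pos c.j0
  have h3 := hc.a_pos
  unfold Cst.kill Cst.lam
  have h4 : 0 < Iof c.j0 * c.a := mul_pos h2 h3
  nlinarith [mul_le_mul_of_nonneg_left h1 h4.le]

/-- `(sig a) ^ 3 ≤ ε lam a / 2000` -/
theorem cube_le (hc : CstHyp c) : 2000 * (c.sig * c.a) ^ 3 ≤ c.ε * (c.lam * c.a) := by
  have h1 := hc.a_cube
  have h3 := hc.a_pos
  nlinarith [mul_le_mul_of_nonneg_right h1 h3.le]

end consts

variable {V : Type} [Fintype V] {G : SimpleGraph V} {k : ℕ} {φ : V → Option (Fin k)} {c : Cst}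
  {r : ℝ} {D : ℕ} {x C1 C3 L : ℝ}

theorem mem_nb {v w : V} : w ∈ nb G v ↔ G.Adj v w := by simp [nb]

theorem mem_co {y z u : V} : u ∈ co G y z ↔ G.Adj y u ∧ G.Adj z u := by simp [co, mem_nb]

theorem co_comm (y z : V) : co G y z = co G z y := by
  unfold co
  rw [inter_comm]

theorem cd_comm (y z : V) : cd G y z = cd G z y := by
  unfold cd
  rw [co_comm]

theorem cd_nonneg (y z : V) : 0 ≤ cd G y z := by
  unfold cd
  positivity

theorem mem_cl {w : V} {col : Fin k} : w ∈ cl φ col ↔ φ w = some col := by simp [cl]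

theorem mem_unc {w : V} : w ∈ unc φ ↔ φ w = none := by simp [unc]

theorem mono_symm {y z : V} (h : Mono φ y z) : Mono φ z y := by
  obtain ⟨h1, col, h2, h3⟩ := h
  exact ⟨h1.symm, col, h3, h2⟩

theorem hm_symm {y z : V} (h : HM c r G φ y z) : HM c r G φ z y :=
  ⟨mono_symm h.1, by rw [cd_comm]; exact h.2⟩

theorem mem_labA {f : V × V} {v : V} :
    v ∈ labA c r G φ f ↔ HM c r G φ f.1 f.2 ∧ φ v = none ∧ G.Adj f.1 v ∧ G.Adj f.2 v := by
  unfold labA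
  by_cases h : HM c r G φ f.1 f.2
  · rw [if_pos h, mem_inter, mem_unc, mem_co]
    exact ⟨fun h' => ⟨h, h'⟩, fun h' => h'.2⟩
  · rw [if_neg h]
    exact ⟨fun h' => absurd h' (notMem_empty _), fun h' => absurd h'.1 h⟩

theorem mem_labB {f : V × V} {col : Fin k} :
    col ∈ labB c r G φ f ↔ HM c r G φ f.1 f.2 ∧ ∃ w, φ w = some col ∧ G.Adj f.1 w ∧ G.Adj f.2 w := by
  unfold labB
  by_cases h : HM c r G φ f.1 f.2
  · rw [if_pos h, mem_filter]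
    constructor
    · rintro ⟨_, w, hw, hw2⟩
      exact ⟨h, w, hw2, mem_co.1 hw⟩
    · rintro ⟨_, w, hw2, hw⟩
      exact ⟨mem_univ _, w, mem_co.2 hw, hw2⟩
  · rw [if_neg h]
    exact ⟨fun h' => absurd h' (notMem_empty _), fun h' => absurd h'.1 h⟩

theorem mem_Jset {Q R M : Type} [Fintype M] (A : M → Finset Q) (B : M → Finset R) (x : Q × R)
    (f : M) : f ∈ H93A.Jset A B x ↔ x.1 ∈ A f ∧ x.2 ∈ B f := by simp [H93A.Jset]

theorem mem_J {z : V × Fin k} {f : V × V} :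
    f ∈ (dat c r G φ).J z ↔ z.1 ∈ labA c r G φ f ∧ z.2 ∈ labB c r G φ f := by
  unfold SelData.J
  rw [mem_Jset]
  rfl

theorem mem_J' {z : V × Fin k} {f : V × V} :
    f ∈ (dat c r G φ).J z ↔ HM c r G φ f.1 f.2 ∧ (φ z.1 = none ∧ G.Adj f.1 z.1 ∧ G.Adj f.2 z.1) ∧
      ∃ w, φ w = some z.2 ∧ G.Adj f.1 w ∧ G.Adj f.2 w := by
  rw [mem_J, mem_labA, mem_labB]
  constructor
  · rintro ⟨⟨h1, h2⟩, _, h3⟩
    exact ⟨h1, h2, h3⟩
  · rintro ⟨h1, h2, h3⟩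
    exact ⟨⟨h1, h2⟩, h1, h3⟩

theorem J_swap {u : V × Fin k} {y z : V} (h : (y, z) ∈ (dat c r G φ).J u) :
    (z, y) ∈ (dat c r G φ).J u := by
  rw [mem_J'] at h ⊢
  obtain ⟨h1, ⟨h2, h3, h4⟩, w, h5, h6, h7⟩ := h
  exact ⟨hm_symm h1, ⟨h2, h4, h3⟩, w, h5, h7, h6⟩

theorem mem_H {z : V × Fin k} : z ∈ (dat c r G φ).H ↔ IsCand c r G φ z := by
  unfold dat
  simp

theorem H_unc {z : V × Fin k} (h : z ∈ (dat c r G φ).H) : φ z.1 = none := (mem_H.1 h).e0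

theorem J_card {z : V × Fin k} (h : z ∈ (dat c r G φ).H) :
    ((dat c r G φ).J z).card ≤ c.j0 := (mem_H.1 h).e5

theorem share_iff {y z : V × Fin k} :
    (dat c r G φ).Share y z ↔ ∃ f, f ∈ (dat c r G φ).J y ∧ f ∈ (dat c r G φ).J z := by
  unfold SelData.Share
  rw [Finset.not_disjoint_iff]

theorem share_symm {y z : V × Fin k} (h : (dat c r G φ).Share y z) : (dat c r G φ).Share z y :=
  fun h' => h h'.symm

theorem dat_conf {y z : V × Fin k} : (dat c r G φ).conf y z ↔ Conf c r G φ y z := Iff.rfl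

theorem conf_symm' {y z : V × Fin k} (h : Conf c r G φ y z) : Conf c r G φ z y := by
  obtain ⟨h0, h | ⟨h1, h⟩ | ⟨w, w', h1, h2, h3, h4, h5, h6⟩⟩ := h
  · exact ⟨h0.symm, Or.inl h.symm⟩
  · refine ⟨h0.symm, Or.inr (Or.inl ⟨h1.symm, ?_⟩)⟩
    rcases h with h | h | ⟨p, hp, q, hq, h⟩
    · exact Or.inl h.symm
    · exact Or.inr (Or.inl (by rw [cd_comm]; exact h))
    · exact Or.inr (Or.inr ⟨p, by rw [co_comm]; exact hp, q, by rw [co_comm]; exact hq, h⟩)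
  · exact ⟨h0.symm, Or.inr (Or.inr ⟨w', w, h2, h1, h3.symm, h6.symm, h5.symm, h4.symm⟩)⟩

theorem mem_Sm {S : Finset (V × Fin k)} {z : V × Fin k} :
    z ∈ Sm c r G φ S ↔ z ∈ S ∧ z ∉ Sp c r G φ S := by
  unfold Sm
  rw [mem_sdiff]

theorem Sm_sub (S : Finset (V × Fin k)) : Sm c r G φ S ⊆ S := by
  unfold Sm
  exact sdiff_subset

theorem C4_rot {v1 v2 v3 v4 : V} (h : C4 c r G v1 v2 v3 v4) : C4 c r G v2 v3 v4 v1 := by
  obtain ⟨h1, h2, h3, h4, h5, h6, h7, h8⟩ := h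
  exact ⟨h2, h3, h4, h1, h6, h5.symm, h8, by rw [cd_comm]; exact h7⟩

/-- reflection `v1 ↔ v3` -/
theorem C4_refl {v1 v2 v3 v4 : V} (h : C4 c r G v1 v2 v3 v4) : C4 c r G v3 v2 v1 v4 := by
  obtain ⟨h1, h2, h3, h4, h5, h6, h7, h8⟩ := h
  exact ⟨h2.symm, h1.symm, h4.symm, h3.symm, h5.symm, h6, by rw [cd_comm]; exact h7, h8⟩

/-- reflection `v2 ↔ v4` -/
theorem C4_refl' {v1 v2 v3 v4 : V} (h : C4 c r G v1 v2 v3 v4) : C4 c r G v1 v4 v3 v2 := by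
  obtain ⟨h1, h2, h3, h4, h5, h6, h7, h8⟩ := h
  exact ⟨h4.symm, h3.symm, h2.symm, h1.symm, h5, h6.symm, h7, by rw [cd_comm]; exact h8⟩

end Pool.Agent.Lib.H23D
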