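import Pool.Agent.Lib.H23D.Basic

/-!
# H23D, C1: the sizes of A_f, B_f

Module C of H93B, see `H93B/PROOF.md` and `README.md`.
-/

set_option autoImplicit false

open Finset
open scoped Classical

namespace Pool.Agent.Lib.H23D

open Pool.Agent.Lib.Prob48
open Pool.Agent.Lib.H93B

variable {V : Type} [Fintype V] {G : SimpleGraph V} {k : ℕ} {φ : V → Option (Fin k)} {c : Cst}
  {r : ℝ} {D : ℕ} {x C1 C3 L : ℝ}

theorem c1_gen (φ : V → Option (Fin k)) (W : Finset V) :
    (univ.filter fun col => ∃ w ∈ W, φ w = some col).card ≤ W.card := by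
  rw [← card_image_of_injective _ (Option.some_injective (Fin k))]
  refine le_trans (card_le_card (t := W.image φ) ?_) card_image_le
  intro o ho
  obtain ⟨col, hcol, rfl⟩ := mem_image.1 ho
  obtain ⟨w, hw, hw2⟩ := (mem_filter.1 hcol).2
  exact mem_image.2 ⟨w, hw, hw2⟩

/-- `labA f ⊆ co f.1 f.2`, `cd f.1 f.2 ≤ K0 r²` by `h.v3` (or `labA f = ∅`). -/
theorem c1_A (h : Gs c r D G φ x C1 C3 L) (f : V × V) :
    ((labA c r G φ f).card : ℝ) ≤ c.K0 * r ^ 2 := by
  have hK := K0_pos h.hc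
  unfold labA
  by_cases hf : HM c r G φ f.1 f.2
  · rw [if_pos hf]
    refine le_trans ?_ (h.v3 f.1 f.2 hf.1)
    unfold cd
    exact_mod_cast card_le_card inter_subset_right
  · rw [if_neg hf, card_empty, Nat.cast_zero]
    positivity

/-- every colour of `labB f` is the colour of a vertex of `co f.1 f.2`: injection, `h.v3`. -/
theorem c1_B (h : Gs c r D G φ x C1 C3 L) (f : V × V) :
    ((labB c r G φ f).card : ℝ) ≤ c.K0 * r ^ 2 := by
  have hK := K0_pos h.hc
  unfold labB
  by_cases hf : HM c r G φ f.1 f.2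
  · rw [if_pos hf]
    refine le_trans ?_ (h.v3 f.1 f.2 hf.1)
    unfold cd
    exact Nat.cast_le.2 (c1_gen φ (co G f.1 f.2))
  · rw [if_neg hf, card_empty, Nat.cast_zero]
    positivity

/-- the labels `f` with `v ∈ labA f` are mono pairs in `N(v)`: at most `C1 r²` (`h.i1`, `mem_labA`). -/
theorem c1_lab (h : Gs c r D G φ x C1 C3 L) (v : V) :
    ((univ.filter fun f : V × V => v ∈ labA c r G φ f).card : ℝ) ≤ C1 * r ^ 2 := by
  refine le_trans (Nat.cast_le.2 (card_le_card ?_)) (h.i1 v)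
  intro f hf
  have h1 := mem_labA.1 (mem_filter.1 hf).2
  exact mem_filter.2 ⟨mem_univ _, mem_nb.2 h1.2.2.1.symm, mem_nb.2 h1.2.2.2.symm, h1.1.1⟩

end Pool.Agent.Lib.H23D
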