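import Pool.Agent.Lib.H23D.A1

/-!
# H23D, C2: number of conflicts (b)

Module C of H93B, see `H93B/PROOF.md` and `README.md`.
-/

set_option autoImplicit false

open Finset
open scoped Classical

namespace Pool.Agent.Lib.H23D

open Pool.Agent.Lib.Prob48
open Pool.Agent.Lib.H93B

variable {V : Type} [Fintype V] {G : SimpleGraph V} {k : ℕ} {φ : V → Option (Fin k)} {c : Cst}
  {r : ℝ} {D : ℕ} {x C1 C3 L : ℝ}

/-- Conflict (b): the three sets have at most `D = r ^ 3`, `r ^ 6 / (K0 r²) = r ^ 4 / K0` (`a1_card`), and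
`∑ over the mono pairs (p, q) in N(v)` (at most `C1 r²`, `h.i1`) of `|co p q| = cd p q ≤ K0 r²` (`h.v3`)
elements: `p, q ∈ co v v'` means that `p, q ∈ N(v)` and `v' ∈ co p q`. -/
theorem c2 (h : Gs c r D G φ x C1 C3 L) (v : V) :
    ((univ.filter fun v' => G.Adj v v' ∨ c.K0 * r ^ 2 < cd G v v' ∨
      ∃ p ∈ co G v v', ∃ q ∈ co G v v', Mono φ p q).card : ℝ) ≤
      r ^ 3 + r ^ 4 / c.K0 + c.C1m * c.K0 * r ^ 4 := by
  obtain ⟨P, hP⟩ : ∃ P : Finset (V × V), P = univ.filter fun f : V × V =>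
    f.1 ∈ nb G v ∧ f.2 ∈ nb G v ∧ Mono φ f.1 f.2 := ⟨_, rfl⟩
  have h1 := h.i1 v
  rw [← hP] at h1
  have hK := K0_pos h.hc
  have hr : 0 < r := lt_of_lt_of_le one_pos h.r_one
  have h2 : (univ.filter fun v' => G.Adj v v' ∨ c.K0 * r ^ 2 < cd G v v' ∨
      ∃ p ∈ co G v v', ∃ q ∈ co G v v', Mono φ p q) ⊆
      (nb G v ∪ univ.filter fun w => c.K0 * r ^ 2 ≤ cd G v w) ∪ P.biUnion fun f => co G f.1 f.2 := by
    intro v' hv'
    rcases (mem_filter.1 hv').2 with h3 | h3 | ⟨p, hp, q, hq, h3⟩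
    · exact mem_union_left _ (mem_union_left _ (mem_nb.2 h3))
    · exact mem_union_left _ (mem_union_right _ (mem_filter.2 ⟨mem_univ _, h3.le⟩))
    · obtain ⟨p1, p2⟩ := mem_co.1 hp
      obtain ⟨q1, q2⟩ := mem_co.1 hq
      refine mem_union_right _ (mem_biUnion.2 ⟨(p, q), ?_, mem_co.2 ⟨p2.symm, q2.symm⟩⟩)
      rw [hP]
      exact mem_filter.2 ⟨mem_univ _, mem_nb.2 p1, mem_nb.2 q1, h3⟩
  have h3 := (card_le_card h2).trans ((card_union_le _ _).trans (Nat.add_le_add (card_union_le _ _) card_biUnion_le))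
  have h4 : ((univ.filter fun v' => G.Adj v v' ∨ c.K0 * r ^ 2 < cd G v v' ∨
      ∃ p ∈ co G v v', ∃ q ∈ co G v v', Mono φ p q).card : ℝ) ≤
      (((nb G v).card + (univ.filter fun w => c.K0 * r ^ 2 ≤ cd G v w).card + ∑ f ∈ P, (co G f.1 f.2).card : ℕ) : ℝ) :=
    Nat.cast_le.2 h3
  rw [Nat.cast_add, Nat.cast_add, Nat.cast_sum] at h4
  have h5 : ((nb G v).card : ℝ) ≤ r ^ 3 := by
    rw [h.r_cube]
    exact_mod_cast h.deg v
  have h6 : ((univ.filter fun w => c.K0 * r ^ 2 ≤ cd G v w).card : ℝ) ≤ r ^ 4 / c.K0 := by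
    have h7 := a1_card (G := G) h.deg h.r_cube v (c.K0 * r ^ 2)
    have hKr : 0 < c.K0 * r ^ 2 := by positivity
    refine le_of_mul_le_mul_left (h7.trans (le_of_eq ?_)) hKr
    field_simp
  have h7 : ∑ f ∈ P, ((co G f.1 f.2).card : ℝ) ≤ c.C1m * c.K0 * r ^ 4 := by
    have h8 : ∑ f ∈ P, ((co G f.1 f.2).card : ℝ) ≤ ∑ f ∈ P, (c.K0 * r ^ 2) := by
      refine sum_le_sum fun f hf => ?_
      rw [hP] at hf
      exact h.v3 f.1 f.2 (mem_filter.1 hf).2.2.2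
    rw [sum_const, nsmul_eq_mul] at h8
    refine h8.trans ?_
    have h9 := h.C1_le
    calc (P.card : ℝ) * (c.K0 * r ^ 2) ≤ (C1 * r ^ 2) * (c.K0 * r ^ 2) := mul_le_mul_of_nonneg_right h1 (by positivity)
      _ ≤ (c.C1m * r ^ 2) * (c.K0 * r ^ 2) := by gcongr
      _ = c.C1m * c.K0 * r ^ 4 := by ring
  linarith

end Pool.Agent.Lib.H23D
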