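import Pool.Agent.Lib.H23D.Basic

/-!
# H23D, C3: number of conflicts (c)

Module C of H93B, see `H93B/PROOF.md` and `README.md`.
-/

set_option autoImplicit false

open Finset
open scoped Classical

namespace Pool.Agent.Lib.H23D

open Pool.Agent.Lib.Prob48
open Pool.Agent.Lib.H93B

variable {V : Type} [Fintype V] {G : SimpleGraph V} {k : ℕ} {φ : V → Option (Fin k)} {c : Cst}
  {r : ℝ} {D : ℕ} {x C1 C3 L : ℝ}

/-- Conflict (c): `y = (v', c')` is determined by `(w, v', w')` with `w ∈ cl φ z.2`, `v', w' ∈ co z.1 w`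
(`c'` is the colour of `w'`), so the number is at most `∑_{w ∈ cl φ z.2} cd z.1 w ^ 2 ≤ K2 r ^ 4` by (E3) for
`z ∈ H`. -/
theorem c3 (h : Gs c r D G φ x C1 C3 L) (z : V × Fin k) (hz : z ∈ (dat c r G φ).H) :
    ((univ.filter fun y : V × Fin k => ∃ w w', φ w = some z.2 ∧ φ w' = some y.2 ∧
      G.Adj z.1 y.1 ∧ G.Adj y.1 w ∧ G.Adj w w' ∧ G.Adj w' z.1).card : ℝ) ≤ c.K2 * r ^ 4 := by
  have hinj : Function.Injective fun y : V × Fin k => ((y.1, some y.2) : V × Option (Fin k)) := by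
    intro y y' hy
    have hy' : ((y.1, some y.2) : V × Option (Fin k)) = (y'.1, some y'.2) := hy
    obtain ⟨h1, h2⟩ := Prod.mk.inj hy'
    exact Prod.ext h1 (Option.some_injective _ h2)
  have h1 : (univ.filter fun y : V × Fin k => ∃ w w', φ w = some z.2 ∧ φ w' = some y.2 ∧
      G.Adj z.1 y.1 ∧ G.Adj y.1 w ∧ G.Adj w w' ∧ G.Adj w' z.1).card ≤
      ∑ w ∈ cl φ z.2, (co G z.1 w).card ^ 2 := by
    rw [← card_image_of_injective _ hinj]
    refine le_trans (card_le_card (t := (cl φ z.2).biUnion fun w =>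
      (co G z.1 w ×ˢ co G z.1 w).image fun p => (p.1, φ p.2)) ?_) ?_
    · intro o ho
      obtain ⟨y, hy, rfl⟩ := mem_image.1 ho
      obtain ⟨w, w', h1, h2, h3, h4, h5, h6⟩ := (mem_filter.1 hy).2
      refine mem_biUnion.2 ⟨w, mem_cl.2 h1, mem_image.2 ⟨(y.1, w'), mem_product.2 ⟨?_, ?_⟩, ?_⟩⟩
      · exact mem_co.2 ⟨h3, h4.symm⟩
      · exact mem_co.2 ⟨h6.symm, h5⟩
      · show (y.1, φ w') = (y.1, some y.2)
        rw [h2]
    · refine card_biUnion_le.trans (sum_le_sum fun w _ => ?_)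
      refine card_image_le.trans (le_of_eq ?_)
      rw [card_product, pow_two]
  have h2 := (mem_H.1 hz).e3
  refine le_trans (Nat.cast_le.2 h1) (le_trans (le_of_eq ?_) h2)
  rw [Nat.cast_sum]
  refine sum_congr rfl fun w _ => ?_
  unfold cd
  rw [Nat.cast_pow]

end Pool.Agent.Lib.H23D
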