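import Pool.Agent.Lib.H23D.Basic

/-!
# H23D, C4: (H3)

Module C of H93B, see `H93B/PROOF.md` and `README.md`.
-/

set_option autoImplicit false

open Finset
open scoped Classical

namespace Pool.Agent.Lib.H23D

open Pool.Agent.Lib.Prob48
open Pool.Agent.Lib.H93B

variable {V : Type} [Fintype V] {G : SimpleGraph V} {k : ℕ} {φ : V → Option (Fin k)} {c : Cst}
  {r : ℝ} {D : ℕ} {x C1 C3 L : ℝ}

/-- (H3): conflict (a) is excluded by `z.1 ≠ y.1`, (b) by `z.2 ≠ y.2`; (c) gives a neighbour `w'` of `z.1`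
with `φ w' = some y.2`, contradiction to (E1) for the candidate `(z.1, y.2)`. -/
theorem c4 (z y : V × Fin k) (h1 : z.1 ≠ y.1) (h2 : z.2 ≠ y.2)
    (h3 : (z.1, y.2) ∈ (dat c r G φ).H) : ¬ Conf c r G φ z y := by
  rintro ⟨_, h | ⟨h, _⟩ | ⟨w, w', _, a2, _, _, _, a6⟩⟩
  · exact h1 h
  · exact h2 h
  · exact (mem_H.1 h3).e1 w' (mem_nb.2 a6.symm) a2

end Pool.Agent.Lib.H23D
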