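import Pool.Agent.Lib.H23D.C1
import Pool.Agent.Lib.H23D.C2
import Pool.Agent.Lib.H23D.C3
import Pool.Agent.Lib.H23D.C4

/-!
# H23D, C5: the hypotheses of the selection theorem

Module C of H93B, see `H93B/PROOF.md` and `README.md`.
-/

set_option autoImplicit false

open Finset
open scoped Classical

namespace Pool.Agent.Lib.H23D

open Pool.Agent.Lib.Prob48
open Pool.Agent.Lib.H93B

variable {V : Type} [Fintype V] {G : SimpleGraph V} {k : ℕ} {φ : V → Option (Fin k)} {c : Cst}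
  {r : ℝ} {D : ℕ} {x C1 C3 L : ℝ}

/-- `sqrt (r ^ 4) = r ^ 2`; `c1_A`, `c1_B`, `K0_le_K`; `J_card`; `conf_symm'`; irreflexive by definition.
`conf_card`: a conflict of `z` is `(z.1, col)` (at most `k ≤ r ^ 4` elements), `(v', z.2)` with `v'` in the set
of `c2` (`r ^ 3 + r ^ 4 / K0 + C1m K0 r ^ 4`, `r ^ 3 ≤ r ^ 4`), or in the set of `c3` (`K2 r ^ 4`): total
`(2 + 1 / K0 + C1m K0 + K2) r ^ 4 ≤ K r ^ 4` (`Cst.K`). `conf_not`: `c4`. -/
theorem c5 (h : Gs c r D G φ x C1 C3 L) : SelHyp (dat c r G φ) c.K (r ^ 4) c.j0 := by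
  have hK := K0_pos h.hc
  have hr : 0 < r := lt_of_lt_of_le one_pos h.r_one
  have hs : Real.sqrt (r ^ 4) = r ^ 2 := by
    have e : r ^ 4 = (r ^ 2) ^ 2 := by ring
    rw [e, Real.sqrt_sq (by positivity)]
  have hKr : c.K0 * r ^ 2 ≤ c.K * r ^ 2 := mul_le_mul_of_nonneg_right (K0_le_K h.hc) (by positivity)
  refine ⟨K_one h.hc, one_le_pow₀ h.r_one, ?_, ?_, ?_, ?_, ?_, ?_, ?_⟩
  · intro f
    rw [hs]
    exact (c1_A h f).trans hKr
  · intro f
    rw [hs]
    exact (c1_B h f).trans hKr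
  · intro z hz
    exact J_card hz
  · intro y z hyz
    exact conf_symm' hyz
  · intro y hy
    exact hy.1 rfl
  · intro z hz
    have h2 : ((dat c r G φ).H.filter fun y => (dat c r G φ).conf z y) ⊆
        ((univ.image fun col : Fin k => (z.1, col)) ∪ ((univ.filter fun v' => G.Adj z.1 v' ∨ c.K0 * r ^ 2 < cd G z.1 v' ∨
          ∃ p ∈ co G z.1 v', ∃ q ∈ co G z.1 v', Mono φ p q).image fun v' => (v', z.2))) ∪
        (univ.filter fun y : V × Fin k => ∃ w w', φ w = some z.2 ∧ φ w' = some y.2 ∧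
          G.Adj z.1 y.1 ∧ G.Adj y.1 w ∧ G.Adj w w' ∧ G.Adj w' z.1) := by
      intro y hy
      obtain ⟨_, h1 | ⟨h1, h2⟩ | h1⟩ := (mem_filter.1 hy).2
      · refine mem_union_left _ (mem_union_left _ (mem_image.2 ⟨y.2, mem_univ _, ?_⟩))
        rw [h1]
      · refine mem_union_left _ (mem_union_right _ (mem_image.2 ⟨y.1, mem_filter.2 ⟨mem_univ _, h2⟩, ?_⟩))
        rw [h1]
      · exact mem_union_right _ (mem_filter.2 ⟨mem_univ _, h1⟩)
    have h3 := (card_le_card h2).trans ((card_union_le _ _).trans (Nat.add_le_add_right ((card_union_le _ _).trans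
      (Nat.add_le_add card_image_le card_image_le)) _))
    have h4 := c2 h z.1
    have h5 := c3 h z hz
    have h6 : (((dat c r G φ).H.filter fun y => (dat c r G φ).conf z y).card : ℝ) ≤ _ := Nat.cast_le.2 h3
    rw [Nat.cast_add, Nat.cast_add, card_univ, Fintype.card_fin] at h6
    have h7 : (k : ℝ) ≤ r ^ 4 := by
      have h8 := h.k_le
      have h9 := h.hc.ε_le
      have h10 : 0 < r ^ 4 := by positivity
      nlinarith
    have h8 : r ^ 3 ≤ r ^ 4 := pow_le_pow_right₀ h.r_one (by norm_num)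
    have h9 : c.K * r ^ 4 = 3 * r ^ 4 + r ^ 4 / c.K0 + c.C1m * c.K0 * r ^ 4 + c.K2 * r ^ 4 + c.K0 * r ^ 4 := by
      unfold Cst.K
      ring
    have h10 : 0 < c.K0 * r ^ 4 := by positivity
    have h11 : 0 < r ^ 4 := by positivity
    rw [h9]
    linarith
  · intro y hy z hz h1 h2 h3
    exact c4 y z h1 h2 h3

end Pool.Agent.Lib.H23D
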