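import Pool.Agent.Lib.H23D.Basic

/-!
# H23D, Consts: one constant `B` above all the constants of the statistics (proved)
-/

set_option autoImplicit false

open Finset
open scoped Classical

namespace Pool.Agent.Lib.H23D

open Pool.Agent.Lib.Prob48
open Pool.Agent.Lib.H93B

/-- `B` is larger than every constant which occurs in the bounds for `Q_0`, `Q_1` -/
structure BH (c : Cst) (Cw B : ℝ) : Prop where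
  one : 1 ≤ B
  j0 : (c.j0 : ℝ) ≤ B
  K : c.K ^ 2 * Cw * c.C3m ≤ B
  a1 : Cw ≤ B
  a2 : Cw ^ 2 ≤ B
  b1 : c.K0 * Cw ≤ B
  b2 : c.K0 * Cw ^ 2 ≤ B
  b3 : c.K0 * Cw ^ 3 ≤ B
  b4 : c.K0 * Cw ^ 4 ≤ B
  d1 : c.K0 ^ 2 * Cw ≤ B
  d2 : c.K0 ^ 2 * Cw ^ 2 ≤ B
  e2 : c.K2 * Cw ^ 2 ≤ B
  f1 : Cw / c.ρ0 ≤ B
  f2 : Cw ^ 2 / c.ρ0 ≤ B
  g : c.K2 / c.ρ0 ^ 2 ≤ B

theorem exists_BH {c : Cst} (hc : CstHyp c) {Cw : ℝ} (hCw : 0 ≤ Cw) : ∃ B, BH c Cw B := by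
  have hK0 := K0_pos hc
  have hK2 := K2_pos hc
  have hρ := hc.ρ0_pos
  have hC3 : 0 ≤ c.C3m := by linarith [hc.C3_one]
  have hj : (0 : ℝ) ≤ c.j0 := Nat.cast_nonneg _
  have t1 : 0 ≤ c.K ^ 2 * Cw * c.C3m := by positivity
  have t2 : 0 ≤ Cw ^ 2 := by positivity
  have t3 : 0 ≤ c.K0 * Cw := by positivity
  have t4 : 0 ≤ c.K0 * Cw ^ 2 := by positivity
  have t5 : 0 ≤ c.K0 * Cw ^ 3 := by positivity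
  have t6 : 0 ≤ c.K0 * Cw ^ 4 := by positivity
  have t7 : 0 ≤ c.K0 ^ 2 * Cw := by positivity
  have t8 : 0 ≤ c.K0 ^ 2 * Cw ^ 2 := by positivity
  have t9 : 0 ≤ c.K2 * Cw ^ 2 := by positivity
  have t10 : 0 ≤ Cw / c.ρ0 := by positivity
  have t11 : 0 ≤ Cw ^ 2 / c.ρ0 := by positivity
  have t12 : 0 ≤ c.K2 / c.ρ0 ^ 2 := by positivity
  refine ⟨1 + c.j0 + c.K ^ 2 * Cw * c.C3m + Cw + Cw ^ 2 + c.K0 * Cw + c.K0 * Cw ^ 2 +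
    c.K0 * Cw ^ 3 + c.K0 * Cw ^ 4 + c.K0 ^ 2 * Cw + c.K0 ^ 2 * Cw ^ 2 + c.K2 * Cw ^ 2 +
    Cw / c.ρ0 + Cw ^ 2 / c.ρ0 + c.K2 / c.ρ0 ^ 2, ?_, ?_, ?_, ?_, ?_, ?_, ?_, ?_, ?_, ?_, ?_, ?_,
    ?_, ?_, ?_⟩ <;> linarith

end Pool.Agent.Lib.H23D
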