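import Pool.Agent.Lib.H23D.Basic

/-!
# H23D, D1: the values of the new colouring

Module C of H93B, see `H93B/PROOF.md` and `README.md`.
-/

set_option autoImplicit false

open Finset
open scoped Classical

namespace Pool.Agent.Lib.H23D

open Pool.Agent.Lib.Prob48
open Pool.Agent.Lib.H93B

variable {V : Type} [Fintype V] {G : SimpleGraph V} {k : ℕ} {φ : V → Option (Fin k)} {c : Cst}
  {r : ℝ}

/-- `(v, col), (v, col') ∈ S` and `col ≠ col'` would be a conflict (a). -/
theorem d1_unique {S : Finset (V × Fin k)} (hno : ∀ y ∈ S, ∀ z ∈ S, ¬ Conf c r G φ y z) {v : V}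
    {col col' : Fin k} (h1 : (v, col) ∈ S) (h2 : (v, col') ∈ S) : col = col' := by
  by_contra hne
  refine hno _ h1 _ h2 ⟨?_, Or.inl rfl⟩
  intro h
  exact hne (Prod.mk.injEq _ _ _ _ ▸ h).2

/-- From the definition of `newφ`. If `φ v = some col` then no `(v, col')` is in `S ⊆ H` (`H_unc`). -/
theorem d1_iff {S : Finset (V × Fin k)} (hS : S ⊆ (dat c r G φ).H)
    (hno : ∀ y ∈ S, ∀ z ∈ S, ¬ Conf c r G φ y z) (v : V) (col : Fin k) :
    newφ c r G φ S v = some col ↔
      (v, col) ∈ Sm c r G φ S ∨ (φ v = some col ∧ ¬ Killed c r G φ (Sm c r G φ S) v) := by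
  unfold newφ
  by_cases h : ∃ col, (v, col) ∈ Sm c r G φ S
  · rw [dif_pos h]
    have hun : φ v = none := H_unc (hS (Sm_sub S h.choose_spec))
    constructor
    · intro h1
      left
      rw [← Option.some.inj h1]
      exact h.choose_spec
    · rintro (h1 | ⟨h1, _⟩)
      · rw [d1_unique hno (Sm_sub S h.choose_spec) (Sm_sub S h1)]
      · rw [hun] at h1
        exact absurd h1 (by simp)
  · rw [dif_neg h]
    by_cases hk : Killed c r G φ (Sm c r G φ S) v
    · rw [if_pos hk]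
      constructor
      · intro h1
        exact absurd h1 (by simp)
      · rintro (h1 | ⟨_, h1⟩)
        · exact absurd ⟨col, h1⟩ h
        · exact absurd hk h1
    · rw [if_neg hk]
      constructor
      · intro h1
        exact Or.inr ⟨h1, hk⟩
      · rintro (h1 | ⟨h1, _⟩)
        · exact absurd ⟨col, h1⟩ h
        · exact h1

theorem d1_none {S : Finset (V × Fin k)} (hS : S ⊆ (dat c r G φ).H)
    (hno : ∀ y ∈ S, ∀ z ∈ S, ¬ Conf c r G φ y z) (v : V) :
    newφ c r G φ S v = none ↔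
      (∀ col, (v, col) ∉ Sm c r G φ S) ∧ (φ v = none ∨ Killed c r G φ (Sm c r G φ S) v) := by
  rw [Option.eq_none_iff_forall_ne_some]
  constructor
  · intro h
    have h' : ∀ col, ¬ ((v, col) ∈ Sm c r G φ S ∨
        (φ v = some col ∧ ¬ Killed c r G φ (Sm c r G φ S) v)) :=
      fun col h1 => h col ((d1_iff hS hno v col).2 h1)
    refine ⟨fun col h1 => h' col (Or.inl h1), ?_⟩
    by_contra hcon
    rw [not_or] at hcon
    obtain ⟨col, hcol⟩ := Option.ne_none_iff_exists'.1 hcon.1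
    exact h' col (Or.inr ⟨hcol, hcon.2⟩)
  · rintro ⟨h1, h2⟩ col h3
    rcases (d1_iff hS hno v col).1 h3 with h4 | ⟨h4, h5⟩
    · exact h1 col h4
    · rcases h2 with h2 | h2
      · rw [h2] at h4
        exact absurd h4 (by simp)
      · exact h5 h2

/-- The mono pairs of the new colouring. -/
theorem d1_mono {S : Finset (V × Fin k)} (hS : S ⊆ (dat c r G φ).H)
    (hno : ∀ y ∈ S, ∀ z ∈ S, ¬ Conf c r G φ y z) {y z : V} (h : Mono (newφ c r G φ S) y z) :
    Mono φ y z ∨ (∃ col, (y, col) ∈ Sm c r G φ S ∧ φ z = some col) ∨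
      (∃ col, (z, col) ∈ Sm c r G φ S ∧ φ y = some col) ∨
      ∃ col, (y, col) ∈ Sm c r G φ S ∧ (z, col) ∈ Sm c r G φ S := by
  obtain ⟨hne, col, h1, h2⟩ := h
  rcases (d1_iff hS hno y col).1 h1 with h1 | ⟨h1, _⟩
  · rcases (d1_iff hS hno z col).1 h2 with h2 | ⟨h2, _⟩
    · exact Or.inr (Or.inr (Or.inr ⟨col, h1, h2⟩))
    · exact Or.inr (Or.inl ⟨col, h1, h2⟩)
  · rcases (d1_iff hS hno z col).1 h2 with h2 | ⟨h2, _⟩
    · exact Or.inr (Or.inr (Or.inl ⟨col, h2, h1⟩))
    · exact Or.inl ⟨hne, col, h1, h2⟩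

end Pool.Agent.Lib.H23D
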