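import Pool.Agent.Lib.H23D.D1

/-!
# H23D, D2: the new colouring is proper

Module C of H93B, see `H93B/PROOF.md` and `README.md`.
-/

set_option autoImplicit false

open Finset
open scoped Classical

namespace Pool.Agent.Lib.H23D

open Pool.Agent.Lib.Prob48
open Pool.Agent.Lib.H93B

variable {V : Type} [Fintype V] {G : SimpleGraph V} {k : ℕ} {φ : V → Option (Fin k)} {c : Cst}
  {r : ℝ} {D : ℕ} {x C1 C3 L : ℝ}

/-- Two adjacent vertices of the new colour `col`: both old: `h.v1`; one in `Sm S ⊆ S ⊆ H`: (E1)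
(`IsCand.e1`); both in `S`: conflict (b) (`u ≠ v` as they are adjacent). Use `d1_iff`. -/
theorem d2 (h : Gs c r D G φ x C1 C3 L) {S : Finset (V × Fin k)} (hS : S ⊆ (dat c r G φ).H)
    (hno : ∀ y ∈ S, ∀ z ∈ S, ¬ Conf c r G φ y z) (u v : V) (huv : G.Adj u v) (col : Fin k)
    (hu : newφ c r G φ S u = some col) : newφ c r G φ S v ≠ some col := by
  intro hv
  rcases (d1_iff hS hno u col).1 hu with h1 | ⟨h1, _⟩
  · rcases (d1_iff hS hno v col).1 hv with h2 | ⟨h2, _⟩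
    · refine hno _ (Sm_sub S h1) _ (Sm_sub S h2) ⟨?_, Or.inr (Or.inl ⟨rfl, Or.inl huv⟩)⟩
      intro h3
      exact huv.ne (Prod.mk.injEq _ _ _ _ ▸ h3).1
    · exact (mem_H.1 (hS (Sm_sub S h1))).e1 v (mem_nb.2 huv) h2
  · rcases (d1_iff hS hno v col).1 hv with h2 | ⟨h2, _⟩
    · exact (mem_H.1 (hS (Sm_sub S h2))).e1 u (mem_nb.2 huv.symm) h1
    · exact h.v1 u v huv col h1 h2

end Pool.Agent.Lib.H23D
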