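import Pool.Agent.Lib.H23D.D1

/-!
# H23D, D3: codegrees of the new mono pairs

Module C of H93B, see `H93B/PROOF.md` and `README.md`.
-/

set_option autoImplicit false

open Finset
open scoped Classical

namespace Pool.Agent.Lib.H23D

open Pool.Agent.Lib.Prob48
open Pool.Agent.Lib.H93B

variable {V : Type} [Fintype V] {G : SimpleGraph V} {k : ℕ} {φ : V → Option (Fin k)} {c : Cst}
  {r : ℝ} {D : ℕ} {x C1 C3 L : ℝ}

/-- `d1_mono`: old pairs: `h.v3`; one new vertex: (E2) (`IsCand.e2`, `cd_comm`); two new vertices: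
otherwise they are in conflict (b). -/
theorem d3 (h : Gs c r D G φ x C1 C3 L) {S : Finset (V × Fin k)} (hS : S ⊆ (dat c r G φ).H)
    (hno : ∀ y ∈ S, ∀ z ∈ S, ¬ Conf c r G φ y z) (y z : V) (hm : Mono (newφ c r G φ S) y z) :
    cd G y z ≤ c.K0 * r ^ 2 := by
  rcases d1_mono hS hno hm with h1 | ⟨col, h1, h2⟩ | ⟨col, h1, h2⟩ | ⟨col, h1, h2⟩
  · exact h.v3 y z h1
  · exact (mem_H.1 (hS (Sm_sub S h1))).e2 z (mem_cl.2 h2)
  · rw [cd_comm]
    exact (mem_H.1 (hS (Sm_sub S h1))).e2 y (mem_cl.2 h2)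
  · by_contra hcon
    refine hno _ (Sm_sub S h1) _ (Sm_sub S h2)
      ⟨?_, Or.inr (Or.inl ⟨rfl, Or.inr (Or.inl (not_le.1 hcon))⟩)⟩
    intro h3
    exact hm.1 (Prod.mk.injEq _ _ _ _ ▸ h3).1

end Pool.Agent.Lib.H23D
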