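import Pool.Agent.Lib.H23D.Basic

/-!
# H23D, D4: 4-cycles with one new vertex

Module C of H93B, see `H93B/PROOF.md` and `README.md`.
-/

set_option autoImplicit false

open Finset
open scoped Classical

namespace Pool.Agent.Lib.H23D

open Pool.Agent.Lib.Prob48
open Pool.Agent.Lib.H93B

variable {V : Type} [Fintype V] {G : SimpleGraph V} {k : ℕ} {φ : V → Option (Fin k)} {c : Cst}
  {r : ℝ} {D : ℕ} {x C1 C3 L : ℝ}

/-- Exactly one new vertex `v` (colour `a`), `w` the opposite old vertex of colour `a`, `y`, `z` old of colour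
`b`. `(y, z)` is a mono pair in `N(v)` with the common neighbour `w` in class `a`: if it is light this
contradicts (E4) (`IsCand.e4`) for `(v, a) ∈ H`; if it is heavy then `(y, z) ∈ J (v, a)` (`mem_J'`; `φ v = none` by
`H_unc`), so `y` is killed, contradiction. -/
theorem d4 {S : Finset (V × Fin k)} (hS : S ⊆ (dat c r G φ).H) {v y w z : V} {a b : Fin k}
    (hv : (v, a) ∈ Sm c r G φ S) (hy : φ y = some b) (hw : φ w = some a) (hz : φ z = some b)
    (hyz : y ≠ z) (h1 : G.Adj v y) (h2 : G.Adj y w) (h3 : G.Adj w z) (h4 : G.Adj z v) :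
    Killed c r G φ (Sm c r G φ S) y := by
  have hH := hS (Sm_sub S hv)
  have hm : Mono φ y z := ⟨hyz, b, hy, hz⟩
  refine ⟨z, (v, a), hv, mem_J'.2 ⟨⟨hm, ?_⟩, ⟨H_unc hH, h1.symm, h4⟩, w, hw, h2, h3.symm⟩⟩
  by_contra hlt
  exact (mem_H.1 hH).e4 y (mem_nb.2 h1) z (mem_nb.2 h4.symm) hm (not_le.1 hlt) w (mem_co.2 ⟨h2, h3.symm⟩) hw

end Pool.Agent.Lib.H23D
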