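import Pool.Agent.Lib.H23D.Basic

/-!
# H23D, D5: 4-cycles with two new vertices

Module C of H93B, see `H93B/PROOF.md` and `README.md`.
-/

set_option autoImplicit false

open Finset
open scoped Classical

namespace Pool.Agent.Lib.H23D

open Pool.Agent.Lib.Prob48
open Pool.Agent.Lib.H93B

variable {V : Type} [Fintype V] {G : SimpleGraph V} {k : ℕ} {φ : V → Option (Fin k)} {c : Cst}
  {r : ℝ}

/-- Two new vertices `v ≠ v'` of the same colour, opposite; `y`, `z` old: conflict (b), the mono pair lies in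
`co v v'`. -/
theorem d5_opp {S : Finset (V × Fin k)} (hno : ∀ y ∈ S, ∀ z ∈ S, ¬ Conf c r G φ y z)
    {v v' y z : V} {a b : Fin k} (hv : (v, a) ∈ S) (hv' : (v', a) ∈ S) (hne : v ≠ v')
    (hy : φ y = some b) (hz : φ z = some b) (hyz : y ≠ z) (h1 : G.Adj v y) (h2 : G.Adj y v')
    (h3 : G.Adj v' z) (h4 : G.Adj z v) : False := by
  refine hno _ hv _ hv' ⟨?_, Or.inr (Or.inl ⟨rfl, Or.inr (Or.inr
    ⟨y, mem_co.2 ⟨h1, h2.symm⟩, z, mem_co.2 ⟨h4.symm, h3⟩, hyz, b, hy, hz⟩)⟩)⟩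
  intro h
  exact hne (Prod.mk.injEq _ _ _ _ ▸ h).1

/-- Two new vertices, adjacent, `w` opposite of `v`, `w'` opposite of `v'`: conflict (c)
(`(v, a) ≠ (v', b)` because `v`, `v'` are adjacent). -/
theorem d5_adj {S : Finset (V × Fin k)} (hno : ∀ y ∈ S, ∀ z ∈ S, ¬ Conf c r G φ y z)
    {v v' w w' : V} {a b : Fin k} (hv : (v, a) ∈ S) (hv' : (v', b) ∈ S)
    (hw : φ w = some a) (hw' : φ w' = some b) (h1 : G.Adj v v') (h2 : G.Adj v' w)
    (h3 : G.Adj w w') (h4 : G.Adj w' v) : False := by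
  refine hno _ hv _ hv' ⟨?_, Or.inr (Or.inr ⟨w, w', hw, hw', h1, h2, h3, h4⟩)⟩
  intro h
  exact h1.ne (Prod.mk.injEq _ _ _ _ ▸ h).1

end Pool.Agent.Lib.H23D
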