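import Pool.Agent.Lib.H23D.Basic

/-!
# H23D, D6: structures contain a spoiled element

Module C of H93B, see `H93B/PROOF.md` and `README.md`.
-/

set_option autoImplicit false

open Finset
open scoped Classical

namespace Pool.Agent.Lib.H23D

open Pool.Agent.Lib.Prob48
open Pool.Agent.Lib.H93B

variable {V : Type} [Fintype V] {G : SimpleGraph V} {k : ℕ} {φ : V → Option (Fin k)} {c : Cst}
  {r : ℝ} {D : ℕ} {x C1 C3 L : ℝ}

/-- Three new vertices. If the three sites are pairwise label-disjoint, or `(v1, a)` shares a label with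
`(v2, b)` or `(v3, a)`, then `(v1, a) ∈ Sp S` (take `v2, v3, v4, b` in the definition of `Sp`; first
alternative). Otherwise `(v2, b)` and `(v3, a)` share a label and `(v3, a) ∈ Sp S`: take `v2, v1, v4, b`
(`C4_refl`). `x.2 = a` holds by `rfl` for `x = (v1, a)`. -/
theorem d6_three {S : Finset (V × Fin k)} {v1 v2 v3 v4 : V} {a b : Fin k} (hab : a ≠ b)
    (hC : C4 c r G v1 v2 v3 v4) (h1 : (v1, a) ∈ S) (h2 : (v2, b) ∈ S) (h3 : (v3, a) ∈ S)
    (h4 : φ v4 = some b) : (v1, a) ∈ Sp c r G φ S ∨ (v3, a) ∈ Sp c r G φ S := by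
  by_cases hD : Des3 c r G φ (v1, a) (v2, b) (v3, a)
  · left
    exact mem_filter.2 ⟨h1, v2, v3, v4, b, h2, h3, Or.inl ⟨hD, hC, hab, h4⟩⟩
  · right
    have h5 : (dat c r G φ).Share (v2, b) (v3, a) := by
      by_contra h23
      exact hD (Or.inl ⟨fun h => hD (Or.inr (Or.inr h)), fun h => hD (Or.inr (Or.inl h)), h23⟩)
    exact mem_filter.2 ⟨h3, v2, v1, v4, b, h2, h1, Or.inl ⟨Or.inr (Or.inr (share_symm h5)), C4_refl hC, hab, h4⟩⟩

/-- Four new vertices. If the sites are pairwise label-disjoint or `(v1, a)` shares a label with `(v2, b)` or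
`(v3, a)`: `(v1, a) ∈ Sp S`. In the other cases use a symmetry of the 4-cycle (`C4_rot`, `C4_refl`,
`C4_refl'`) which brings a sharing pair to the positions `1, 3` or `1, 2`: pair `{1, 4}`: reflection
`(v1, v4, v3, v2)`; `{2, 3}`: rotation `(v2, v3, v4, v1)` with the colours `b, a`; `{2, 4}`: the same
rotation; `{3, 4}`: `(v3, v4, v1, v2)`. Second alternative in `Sp`. -/
theorem d6_four {S : Finset (V × Fin k)} {v1 v2 v3 v4 : V} {a b : Fin k} (hab : a ≠ b)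
    (hC : C4 c r G v1 v2 v3 v4) (h1 : (v1, a) ∈ S) (h2 : (v2, b) ∈ S) (h3 : (v3, a) ∈ S)
    (h4 : (v4, b) ∈ S) : (v1, a) ∈ Sp c r G φ S ∨ (v2, b) ∈ Sp c r G φ S ∨
      (v3, a) ∈ Sp c r G φ S := by
  by_cases hD : Des4 c r G φ (v1, a) (v2, b) (v3, a) (v4, b)
  · left
    exact mem_filter.2 ⟨h1, v2, v3, v4, b, h2, h3, Or.inr ⟨h4, hD, hC, hab⟩⟩
  by_cases h14 : (dat c r G φ).Share (v1, a) (v4, b)
  · left
    exact mem_filter.2 ⟨h1, v4, v3, v2, b, h4, h3, Or.inr ⟨h2, Or.inr (Or.inr h14), C4_refl' hC, hab⟩⟩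
  by_cases h23 : (dat c r G φ).Share (v2, b) (v3, a)
  · right; left
    exact mem_filter.2 ⟨h2, v3, v4, v1, a, h3, h4, Or.inr ⟨h1, Or.inr (Or.inr h23), C4_rot hC, hab.symm⟩⟩
  by_cases h24 : (dat c r G φ).Share (v2, b) (v4, b)
  · right; left
    exact mem_filter.2 ⟨h2, v3, v4, v1, a, h3, h4, Or.inr ⟨h1, Or.inr (Or.inl h24), C4_rot hC, hab.symm⟩⟩
  by_cases h34 : (dat c r G φ).Share (v3, a) (v4, b)
  · right; right
    exact mem_filter.2 ⟨h3, v4, v1, v2, b, h4, h1, Or.inr ⟨h2, Or.inr (Or.inr h34), C4_rot (C4_rot hC), hab⟩⟩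
  · exfalso
    exact hD (Or.inl ⟨fun h => hD (Or.inr (Or.inr h)), fun h => hD (Or.inr (Or.inl h)), h14, h23, h24, h34⟩)

end Pool.Agent.Lib.H23D
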