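import Pool.Agent.Lib.H23D.D2
import Pool.Agent.Lib.H23D.D3
import Pool.Agent.Lib.H23D.D4
import Pool.Agent.Lib.H23D.D5
import Pool.Agent.Lib.H23D.D6

/-!
# H23D, D7: no two-coloured 4-cycles in the new colouring

Module C of H93B, see `H93B/PROOF.md` and `README.md`.
-/

set_option autoImplicit false

open Finset
open scoped Classical

namespace Pool.Agent.Lib.H23D

open Pool.Agent.Lib.Prob48
open Pool.Agent.Lib.H93B

variable {V : Type} [Fintype V] {G : SimpleGraph V} {k : ℕ} {φ : V → Option (Fin k)} {c : Cst}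
  {r : ℝ} {D : ℕ} {x C1 C3 L : ℝ}

theorem d7_key {S : Finset (V × Fin k)} (hS : S ⊆ (dat c r G φ).H)
    (hno : ∀ y ∈ S, ∀ z ∈ S, ¬ Conf c r G φ y z) {v1 v2 v3 v4 : V} {a b : Fin k} (hab : a ≠ b)
    (hC : C4 c r G v1 v2 v3 v4) (n1 : (v1, a) ∈ Sm c r G φ S)
    (n2 : (v2, b) ∈ Sm c r G φ S ∨ (φ v2 = some b ∧ ¬ Killed c r G φ (Sm c r G φ S) v2))
    (n3 : (v3, a) ∈ Sm c r G φ S ∨ (φ v3 = some a ∧ ¬ Killed c r G φ (Sm c r G φ S) v3))
    (n4 : (v4, b) ∈ Sm c r G φ S ∨ (φ v4 = some b ∧ ¬ Killed c r G φ (Sm c r G φ S) v4)) : False := by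
  have hC' := hC
  obtain ⟨e12, e23, e34, e41, h13, h24, _, _⟩ := hC'
  rcases n2 with n2 | ⟨n2, k2⟩ <;> rcases n3 with n3 | ⟨n3, k3⟩ <;> rcases n4 with n4 | ⟨n4, k4⟩
  · rcases d6_four hab hC (Sm_sub S n1) (Sm_sub S n2) (Sm_sub S n3) (Sm_sub S n4) with h | h | h
    · exact (mem_Sm.1 n1).2 h
    · exact (mem_Sm.1 n2).2 h
    · exact (mem_Sm.1 n3).2 h
  · rcases d6_three hab hC (Sm_sub S n1) (Sm_sub S n2) (Sm_sub S n3) n4 with h | h
    · exact (mem_Sm.1 n1).2 h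
    · exact (mem_Sm.1 n3).2 h
  · rcases d6_three hab.symm (C4_rot (C4_rot (C4_rot hC))) (Sm_sub S n4) (Sm_sub S n1) (Sm_sub S n2) n3 with h | h
    · exact (mem_Sm.1 n4).2 h
    · exact (mem_Sm.1 n2).2 h
  · exact d5_adj hno (Sm_sub S n1) (Sm_sub S n2) n3 n4 e12 e23 e34 e41
  · rcases d6_three hab (C4_rot (C4_rot hC)) (Sm_sub S n3) (Sm_sub S n4) (Sm_sub S n1) n2 with h | h
    · exact (mem_Sm.1 n3).2 h
    · exact (mem_Sm.1 n1).2 h
  · exact d5_opp hno (Sm_sub S n1) (Sm_sub S n3) h13 n2 n4 h24 e12 e23 e34 e41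
  · exact d5_adj hno (Sm_sub S n1) (Sm_sub S n4) n3 n2 e41.symm e34.symm e23.symm e12.symm
  · exact k2 (d4 hS n1 n2 n3 n4 h24 e12 e23 e34 e41)

/-- Lemma 1.3, (V2). Let `a`, `b` be the colours of `p, s` and `q, t`; `a ≠ b` by `d2`. By `d1_iff` each of the
four vertices is new (`∈ Sm S`) or old and not killed. No new vertex: `h.v2`. One new vertex: `d4` (put
the new vertex first; the cycle read from any vertex is again a cycle; the neighbour `y` is not killed).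
Two: `d5_opp`, `d5_adj` with `Sm_sub`. Three or four: the opposite pairs have codegree at most `K0 r²` by
`d3`, so they form a `C4`; read the cycle so that the old vertex (if any) is `v4`; `d6_three`, `d6_four` give
an element of `Sp S`, contradiction to `mem_Sm`. -/
theorem d7 (h : Gs c r D G φ x C1 C3 L) {S : Finset (V × Fin k)} (hS : S ⊆ (dat c r G φ).H)
    (hno : ∀ y ∈ S, ∀ z ∈ S, ¬ Conf c r G φ y z) (p q s t : V) (h1 : G.Adj p q)
    (h2 : G.Adj q s) (h3 : G.Adj s t) (h4 : G.Adj t p) (hps : Mono (newφ c r G φ S) p s) :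
    ¬ Mono (newφ c r G φ S) q t := by
  intro hqt
  have hd1 := d3 h hS hno p s hps
  have hd2 := d3 h hS hno q t hqt
  obtain ⟨hpsne, a, hp, hs⟩ := hps
  obtain ⟨hqtne, b, hq, ht⟩ := hqt
  have hab : a ≠ b := by
    rintro rfl
    exact d2 h hS hno p q h1 a hp hq
  have hC : C4 c r G p q s t := ⟨h1, h2, h3, h4, hpsne, hqtne, hd1, hd2⟩
  rw [d1_iff hS hno] at hp hs hq ht
  rcases hp with np | np
  · exact d7_key hS hno hab hC np hq hs ht
  rcases hq with nq | nq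
  · exact d7_key hS hno hab.symm (C4_rot hC) nq hs ht (Or.inr np)
  rcases hs with ns | ns
  · exact d7_key hS hno hab (C4_rot (C4_rot hC)) ns ht (Or.inr np) (Or.inr nq)
  rcases ht with nt | nt
  · exact d7_key hS hno hab.symm (C4_rot (C4_rot (C4_rot hC))) nt (Or.inr np) (Or.inr nq) (Or.inr ns)
  · exact h.v2 p q s t h1 h2 h3 h4 ⟨hpsne, a, np.1, ns.1⟩ ⟨hqtne, b, nq.1, nt.1⟩

end Pool.Agent.Lib.H23D
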