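/-
MP_273810_co, H25D: how a leaf of the surface of a polygon dies (it runs straight into a vertex).
-/
import Mathlib
import Pool.Agent.Lib.H25D.RetDefs
import Pool.Agent.Lib.H25D.PS
import Pool.Agent.Lib.H32W.Corner

namespace Pool.Agent.Lib.H23D

open Set Metric Filter Topology
open Pool.Agent.Lib.H42I (IsPolygon)
open Pool.Agent.H52W (cdet)
open Pool.Agent.Lib.H45Z
open Pool.Agent.Lib.H25D
open Pool.Agent.Lib.H25D.TSurf

private theorem dth_cast {X : Type} {M : TSurf X} {x y : X} {W W' : ℂ} (h : M.Seg x W y) (e : W = W') : M.Seg x W' y := e ▸ h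

/-- the path of a leaf up to its death -/
theorem death_path {X : Type} {M : TSurf X} {ϑ : ℂ} (hϑ : ‖ϑ‖ = 1) {x : X} {T : ℝ} (hT : 0 < T) (hd : M.Dead ϑ x T) :
    ∃ τ : ℝ, 0 < τ ∧ τ ≤ T ∧ ∃ z : ℝ → X, z 0 = x ∧ (∀ t ∈ Ico (0 : ℝ) τ, M.Seg x ((t : ℂ) * ϑ) (z t)) ∧
      ∀ t ∈ Ico (0 : ℝ) τ, M.rad (z t) ≤ τ - t := by
  classical
  set S : Set ℝ := {t : ℝ | 0 ≤ t ∧ t ≤ T ∧ ¬ M.Dead ϑ x t} with hS
  have hbdd : BddAbove S := ⟨T, fun t ht => ht.2.1⟩
  have hnorm : ∀ t : ℝ, 0 ≤ t → ‖(t : ℂ) * ϑ‖ = t := by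
    intro t ht
    rw [norm_mul, hϑ, mul_one, Complex.norm_real, Real.norm_eq_abs, abs_of_nonneg ht]
  have h0 : (0 : ℝ) ∈ S := by
    refine ⟨le_rfl, hT.le, fun h => h ⟨x, ?_⟩⟩
    exact dth_cast (seg_refl x) (by simp)
  have hlt : ∀ t, 0 ≤ t → t < sSup S → ¬ M.Dead ϑ x t := by
    intro t ht hts
    obtain ⟨s, hs, hts'⟩ := exists_lt_of_lt_csSup ⟨0, h0⟩ hts
    intro hdt
    exact hs.2.2 (dead_mono hdt (Or.inl ⟨ht, hts'.le⟩))
  -- extension
  have hext : ∀ (t : ℝ) (y : X), 0 ≤ t → M.Seg x ((t : ℂ) * ϑ) y → ∀ s : ℝ, 0 ≤ s → s < M.rad y →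
      t + s ≤ T ∧ ¬ M.Dead ϑ x (t + s) := by
    intro t y ht hy s hs hsr
    have h1 : ¬ M.Dead ϑ x (t + s) := by
      intro h
      exact h ⟨_, seg_line hy (seg_add (x := y) (u := (s : ℂ) * ϑ) (by rw [hnorm s hs]; exact hsr))⟩
    refine ⟨?_, h1⟩
    by_contra hcon
    rw [not_le] at hcon
    exact h1 (dead_mono hd (Or.inl ⟨hT.le, hcon.le⟩))
  have hτ : 0 < sSup S := by
    have h1 := M.rad_pos x
    have h2 := hext 0 x le_rfl (dth_cast (seg_refl x) (by simp)) (M.rad x / 2) (by linarith) (by linarith)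
    rw [zero_add] at h2
    have h3 : M.rad x / 2 ≤ sSup S := le_csSup hbdd ⟨by linarith, h2.1, h2.2⟩
    linarith
  have hex : ∀ t : ℝ, ∃ y, (0 ≤ t → t < sSup S → M.Seg x ((t : ℂ) * ϑ) y) := by
    intro t
    by_cases h : 0 ≤ t ∧ t < sSup S
    · have h1 := hlt t h.1 h.2
      unfold Dead at h1
      rw [not_not] at h1
      obtain ⟨y, hy⟩ := h1
      exact ⟨y, fun _ _ => hy⟩
    · exact ⟨x, fun h1 h2 => absurd ⟨h1, h2⟩ h⟩
  choose z hz using hex
  refine ⟨sSup S, hτ, csSup_le ⟨0, h0⟩ fun t ht => ht.2.1, z, ?_, fun t ht => hz t ht.1 ht.2, ?_⟩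
  · have h1 := hz 0 le_rfl hτ
    exact seg_unique (dth_cast h1 (by simp)) (seg_refl x)
  · intro t ht
    by_contra hcon
    rw [not_le] at hcon
    set s := (sSup S - t + M.rad (z t)) / 2 with hs
    have h1 := hext t (z t) ht.1 (hz t ht.1 ht.2) s (by linarith [ht.2, M.rad_pos (z t)]) (by linarith)
    have h2 : t + s ≤ sSup S := le_csSup hbdd ⟨by linarith [ht.1, ht.2, M.rad_pos (z t)], h1.1, h1.2⟩
    linarith

theorem path_seg {X : Type} {M : TSurf X} {ϑ : ℂ} {x : X} {z : ℝ → X} {S : Set ℝ}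
    (hz : ∀ t ∈ S, M.Seg x ((t : ℂ) * ϑ) (z t)) {t t' : ℝ} (ht : t ∈ S) (ht' : t' ∈ S) :
    M.Seg (z t) (((t' - t : ℝ) : ℂ) * ϑ) (z t') := by
  have h1 := seg_symm (hz t ht)
  have h2 : M.Seg (z t) (((-t : ℝ) : ℂ) * ϑ) x := dth_cast h1 (by push_cast; ring)
  exact dth_cast (seg_line h2 (hz t' ht')) (by push_cast; ring)

theorem path_add {X : Type} {M : TSurf X} {ϑ : ℂ} (hϑ : ‖ϑ‖ = 1) {x : X} {z : ℝ → X} {S : Set ℝ}
    (hz : ∀ t ∈ S, M.Seg x ((t : ℂ) * ϑ) (z t)) {t t' : ℝ} (ht : t ∈ S) (ht' : t' ∈ S) (h : |t' - t| < M.rad (z t)) :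
    z t' = M.add (z t) (((t' - t : ℝ) : ℂ) * ϑ) := by
  refine seg_unique (path_seg hz ht ht') (seg_add ?_)
  rw [norm_mul, hϑ, mul_one, Complex.norm_real, Real.norm_eq_abs]
  exact h

/-- locally constant on a connected set -/
theorem const_on {α : Type*} {f : ℝ → α} {S : Set ℝ} (hS : IsPreconnected S)
    (h : ∀ t ∈ S, ∃ δ > 0, ∀ t' ∈ S, |t' - t| < δ → f t' = f t) {a b : ℝ} (ha : a ∈ S) (hb : b ∈ S) : f a = f b := by
  have : PreconnectedSpace S := Subtype.preconnectedSpace hS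
  have h1 : IsLocallyConstant fun t : S => f t := by
    rw [IsLocallyConstant.iff_eventually_eq]
    intro t
    obtain ⟨δ, hδ, h2⟩ := h t t.2
    filter_upwards [ball_mem_nhds t hδ] with t' ht'
    exact h2 t' t'.2 (by rwa [mem_ball, Subtype.dist_eq, Real.dist_eq] at ht')
  exact h1.apply_eq_of_preconnectedSpace ⟨a, ha⟩ ⟨b, hb⟩

section
variable {n N : ℕ} [NeZero N] {P : Set ℂ} {v : ZMod n → ℂ} {kap : ZMod n → ZMod N}

/-- the point moves at most by the displacement -/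
theorem seg_dist (hP : IsPolygon P v) (hk : Par v kap) {x y : SPt P v N} {W : ℂ} (h : (H25D.PS hP hk).Seg x W y) :
    ‖y.p - x.p‖ ≤ ‖W‖ := by
  obtain ⟨z, ρ, hρ, h0, h1, -, -, hp⟩ := seg_path h
  obtain ⟨m, hm⟩ := exists_nat_gt (‖W‖ / ρ)
  have hm0 : 0 < (m : ℝ) := lt_of_le_of_lt (div_nonneg (norm_nonneg _) hρ.le) hm
  have hstep : 1 / (m : ℝ) * ‖W‖ < ρ := by
    rw [one_div, inv_mul_eq_div, div_lt_iff₀ hm0]
    rwa [div_lt_iff₀ hρ, mul_comm] at hm
  have key : ∀ k : ℕ, k ≤ m → ‖(z (k / m)).p - x.p‖ ≤ (k / m : ℝ) * ‖W‖ := by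
    intro k
    induction k with
    | zero =>
      intro _
      rw [Nat.cast_zero, zero_div, h0, sub_self, norm_zero, zero_mul]
    | succ k ih =>
      intro hk'
      have hmem : ∀ k : ℕ, k ≤ m → (k : ℝ) / m ∈ Icc (0 : ℝ) 1 := fun k hk =>
        ⟨by positivity, (div_le_one hm0).2 (by exact_mod_cast hk)⟩
      have h3 : ((k + 1 : ℕ) : ℝ) / m - k / m = 1 / m := by
        push_cast
        ring
      have h4 : |((k + 1 : ℕ) : ℝ) / m - k / m| * ‖W‖ < ρ := by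
        rw [h3, abs_of_pos (by positivity)]
        exact hstep
      have h5 := hp _ (hmem k (by omega)) _ (hmem (k + 1) hk') h4
      have h6 := sadd_dist hP hk (z (k / m)) ((((((k + 1 : ℕ) : ℝ) / m - k / m : ℝ)) : ℂ) * W)
      have h7 : (H25D.PS hP hk).add (z (k / m)) ((((((k + 1 : ℕ) : ℝ) / m - k / m : ℝ)) : ℂ) * W) =
        sadd hP hk (z (k / m)) ((((((k + 1 : ℕ) : ℝ) / m - k / m : ℝ)) : ℂ) * W) := rfl
      rw [← h7, ← h5, norm_mul, Complex.norm_real, Real.norm_eq_abs, h3, abs_of_pos (by positivity : (0 : ℝ) < 1 / m)] at h6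
      have h8 : (z (((k + 1 : ℕ) : ℝ) / m)).p - x.p = ((z (((k + 1 : ℕ) : ℝ) / m)).p - (z (k / m)).p) + ((z (k / m)).p - x.p) := by ring
      rw [h8]
      refine (norm_add_le _ _).trans ?_
      have h9 : (((k + 1 : ℕ) : ℝ) / m) * ‖W‖ = 1 / m * ‖W‖ + k / m * ‖W‖ := by
        push_cast
        ring
      rw [h9]
      exact add_le_add h6 (ih (by omega))
  have h2 := key m le_rfl
  rwa [div_self hm0.ne', h1, one_mul] at h2

/-- only the two sides at the vertex `c` meet the ball -/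
def Vb (v : ZMod n → ℂ) (c : ZMod n) (r : ℝ) : Prop :=
  ∀ j, j ≠ c → j ≠ c - 1 → Disjoint (ball (v c) r) (segment ℝ (v j) (v (j + 1)))

theorem mir_vertex (hk : Par v kap) {c i : ZMod n} (h : i = c ∨ i = c - 1) : mir v kap i (v c) = v c := by
  rcases h with rfl | rfl
  · exact mir_side hk i _ (left_mem_segment ℝ _ _)
  · refine mir_side hk _ _ ?_
    have := right_mem_segment ℝ (v (c - 1)) (v (c - 1 + 1))
    simpa using this

theorem fri_sub (g : Fr N) (z w : ℂ) : fri g (z - w) = fri g z - fri g w := by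
  have h := fri_add g (z - w) w
  rw [sub_add_cancel] at h
  rw [h]
  ring

theorem norm_fri (g : Fr N) (z : ℂ) : ‖fri g z‖ = ‖z‖ := by
  rw [← norm_fr g (fri g z), fr_fri]

/-- the developing map at a vertex -/
theorem om_add (hP : IsPolygon P v) (hk : Par v kap) {c : ZMod n} {r : ℝ} (hb : Vb v c r) (x : SPt P v N) (u : ℂ)
    (hu : ‖u‖ < rho2 v x.p) (hr : ‖x.p - v c‖ + ‖u‖ < r) :
    fri (sadd hP hk x u).g ((sadd hP hk x u).p - v c) = fri x.g (x.p - v c) + u := by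
  have hpos := rho2_pos hP x.p x.nv
  have hbase : fri x.g (x.p + fr x.g u - v c) = fri x.g (x.p - v c) + u := by
    have e : x.p + fr x.g u - v c = (x.p - v c) + fr x.g u := by ring
    rw [e, fri_add, fri_fr]
  have hmirror : ∀ i : ZMod n, (i = c ∨ i = c - 1) → ∀ z : ℂ, fri (rf kap i x.g) (mir v kap i z - v c) = fri x.g (z - v c) := by
    intro i hi z
    have h1 : mir v kap i z - v c = mir v kap i z - mir v kap i (v c) := by rw [mir_vertex hk hi]
    rw [h1, fri_sub, fri_mir, fri_mir, fri_sub]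
    ring
  by_cases h1 : x.p + fr x.g u ∈ interior P
  · obtain ⟨h2, h3⟩ := sadd_int hP hk x u hu h1
    rw [h2, h3, hbase]
  -- the side that is met
  have hside : ns v x.p = c ∨ ns v x.p = c - 1 := by
    rcases ball_cases hP x.p x.mem x.nv with h | ⟨σ, h⟩
    · exact absurd (h (ball_fr hu)) h1
    have hσp := h.nonneg x.mem (mem_ball_self hpos)
    have hσz : σ * cdet (v (ns v x.p + 1) - v (ns v x.p)) (x.p + fr x.g u - v (ns v x.p)) ≤ 0 := by
      by_contra hcon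
      rw [not_le] at hcon
      exact h1 ((h.2 _ (ball_fr hu)).1 hcon)
    obtain ⟨t, ht0, ht1, ht⟩ : ∃ t : ℝ, 0 ≤ t ∧ t ≤ 1 ∧
        cdet (v (ns v x.p + 1) - v (ns v x.p)) (x.p + (t : ℂ) * fr x.g u - v (ns v x.p)) = 0 := by
      set A := σ * cdet (v (ns v x.p + 1) - v (ns v x.p)) (x.p - v (ns v x.p)) with hA
      set B := σ * cdet (v (ns v x.p + 1) - v (ns v x.p)) (x.p + fr x.g u - v (ns v x.p)) with hB
      have hlin : ∀ t : ℝ, σ * cdet (v (ns v x.p + 1) - v (ns v x.p)) (x.p + (t : ℂ) * fr x.g u - v (ns v x.p))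
          = A + t * (B - A) := by
        intro t
        have e : x.p + (t : ℂ) * fr x.g u - v (ns v x.p) = (x.p - v (ns v x.p)) +
          (t : ℂ) * ((x.p + fr x.g u - v (ns v x.p)) - (x.p - v (ns v x.p))) := by ring
        rw [e, cdet_add, cdet_real, cdet_sub _ (x.p + fr x.g u - v (ns v x.p)) (x.p - v (ns v x.p)), hA, hB]
        ring
      have hσ0 : σ ≠ 0 := by
        rcases h.1 with h3 | h3 <;> rw [h3] <;> norm_num
      rcases eq_or_lt_of_le hσp with h0 | h0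
      · refine ⟨0, le_rfl, zero_le_one, ?_⟩
        have := hlin 0
        rw [← h0, zero_mul, _root_.add_zero] at this
        exact (mul_eq_zero.1 this).resolve_left hσ0
      · have hAB : 0 < A - B := by linarith
        refine ⟨A / (A - B), by positivity, by rw [div_le_one hAB]; linarith, ?_⟩
        have := hlin (A / (A - B))
        have e : A + A / (A - B) * (B - A) = 0 := by
          field_simp
          ring
        rw [e] at this
        exact (mul_eq_zero.1 this).resolve_left hσ0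
    have hn2 : ‖(t : ℂ) * fr x.g u‖ ≤ ‖u‖ := by
      rw [norm_mul, norm_fr, Complex.norm_real, Real.norm_eq_abs, abs_of_nonneg ht0]
      exact mul_le_of_le_one_left (norm_nonneg _) ht1
    have hin : x.p + (t : ℂ) * fr x.g u ∈ ball x.p (rho2 v x.p) := by
      rw [mem_ball, dist_eq_norm, add_sub_cancel_left]
      exact hn2.trans_lt hu
    have hs := (h.side hP hin ht).1
    by_contra hcon
    rw [not_or] at hcon
    refine Set.disjoint_left.1 (hb _ hcon.1 hcon.2) ?_ (openSegment_subset_segment _ _ _ hs)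
    rw [mem_ball, dist_eq_norm]
    have e : x.p + (t : ℂ) * fr x.g u - v c = (x.p - v c) + (t : ℂ) * fr x.g u := by ring
    rw [e]
    exact (norm_add_le _ _).trans_lt (by linarith)
  by_cases h2 : x.p + fr x.g u ∈ P
  · obtain ⟨h3, h4⟩ := sadd_side hP hk x u hu h2 h1
    rw [h3, h4]
    cases hg : x.g.2
    · simp only [Bool.false_eq_true, if_false]
      exact hbase
    · simp only [if_true]
      have hm : mir v kap (ns v x.p) (x.p + fr x.g u) = x.p + fr x.g u := by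
        rcases ball_cases hP x.p x.mem x.nv with h | ⟨σ, h⟩
        · exact absurd (h (ball_fr hu)) h1
        have hcd : cdet (v (ns v x.p + 1) - v (ns v x.p)) (x.p + fr x.g u - v (ns v x.p)) = 0 := by
          rcases h.zero_or (x.p + fr x.g u) with h3 | h3 | h3
          · exact absurd ((h.2 _ (ball_fr hu)).1 h3) h1
          · exact h3
          · exact absurd h2 ((h.2 _ (ball_fr hu)).2.2 h3)
        exact mir_side hk _ _ (openSegment_subset_segment _ _ _ (h.side hP (ball_fr hu) hcd).1)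
      have h5 := hmirror _ hside (x.p + fr x.g u)
      rw [hm] at h5
      rw [h5, hbase]
  · obtain ⟨h3, h4⟩ := sadd_out hP hk x u hu h2
    rw [h3, h4, ← mir_add, hmirror _ hside, hbase]

/-- the direction `ϑ` is never parallel to a side -/
def Tr (v : ZMod n → ℂ) (N : ℕ) [NeZero N] (ϑ : ℂ) : Prop :=
  ∀ (i : ZMod n) (g : Fr N), cdet (v (i + 1) - v i) (fr g ϑ) ≠ 0

theorem seg_cdet {a b p q : ℂ} (hp : p ∈ segment ℝ a b) (hq : q ∈ segment ℝ a b) : cdet (b - a) (p - q) = 0 := by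
  obtain ⟨s, t, hs, ht, hst, rfl⟩ := hp
  obtain ⟨s', t', hs', ht', hst', rfl⟩ := hq
  have e1 : s = 1 - t := by linarith
  have e2 : s' = 1 - t' := by linarith
  subst e1 e2
  simp only [cdet, Complex.real_smul, Complex.sub_re, Complex.sub_im, Complex.add_re, Complex.add_im, Complex.mul_re, Complex.mul_im,
    Complex.ofReal_re, Complex.ofReal_im]
  ring

/-- the limit of a dying leaf is a vertex -/
theorem death_limit (hP : IsPolygon P v) (hk : Par v kap) {ϑ : ℂ} (hϑ : ‖ϑ‖ = 1) {x : SPt P v N} {τ : ℝ} (hτ : 0 < τ)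
    {z : ℝ → SPt P v N} (hz : ∀ t ∈ Ico (0 : ℝ) τ, (H25D.PS hP hk).Seg x ((t : ℂ) * ϑ) (z t))
    (hr : ∀ t ∈ Ico (0 : ℝ) τ, (H25D.PS hP hk).rad (z t) ≤ τ - t) : ∃ c, ∀ t ∈ Ico (0 : ℝ) τ, ‖(z t).p - v c‖ ≤ τ - t := by
  have hd : ∀ t ∈ Ico (0 : ℝ) τ, ∀ t' ∈ Ico (0 : ℝ) τ, ‖(z t').p - (z t).p‖ ≤ |t' - t| := by
    intro t ht t' ht'
    have h1 := seg_dist hP hk (path_seg hz ht ht')
    rwa [norm_mul, hϑ, mul_one, Complex.norm_real, Real.norm_eq_abs] at h1
  set a : ℕ → ℝ := fun k => τ * (1 - 1 / ((k : ℝ) + 1)) with ha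
  have ham : ∀ k, a k ∈ Ico (0 : ℝ) τ := by
    intro k
    have h1 : (0 : ℝ) < 1 / ((k : ℝ) + 1) := by positivity
    have h2 : 1 / ((k : ℝ) + 1) ≤ 1 := by
      rw [div_le_one (by positivity)]
      linarith [(Nat.cast_nonneg k : (0 : ℝ) ≤ k)]
    constructor
    · exact mul_nonneg hτ.le (by linarith)
    · have : τ * (1 - 1 / ((k : ℝ) + 1)) < τ * 1 := mul_lt_mul_of_pos_left (by linarith) hτ
      simpa [ha] using this
  have halim : Tendsto a atTop (𝓝 τ) := by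
    have h1 : Tendsto (fun k : ℕ => τ * (1 - 1 / ((k : ℝ) + 1))) atTop (𝓝 (τ * (1 - 0))) :=
      (tendsto_const_nhds.sub tendsto_one_div_add_atTop_nhds_zero_nat).const_mul τ
    rwa [sub_zero, mul_one] at h1
  obtain ⟨q, hq, φ, hφ, hlim⟩ := hP.compact.tendsto_subseq (x := fun k => (z (a k)).p) fun k => (z (a k)).mem
  have hb : ∀ t ∈ Ico (0 : ℝ) τ, ‖(z t).p - q‖ ≤ τ - t := by
    intro t ht
    have h1 : Tendsto (fun k => ‖(z t).p - (z (a (φ k))).p‖) atTop (𝓝 ‖(z t).p - q‖) :=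
      (tendsto_const_nhds.sub hlim).norm
    have h2 : Tendsto (fun k => |t - a (φ k)|) atTop (𝓝 |t - τ|) :=
      (tendsto_const_nhds.sub (halim.comp hφ.tendsto_atTop)).abs
    have h3 := le_of_tendsto_of_tendsto' h1 h2 fun k => hd _ (ham (φ k)) _ ht
    rwa [abs_of_neg (by linarith [ht.2]), neg_sub] at h3
  have h0 : rho2 v q ≤ 0 := by
    apply le_of_forall_pos_le_add
    intro ε hε
    obtain ⟨t, ht1, ht2⟩ : ∃ t ∈ Ico (0 : ℝ) τ, τ - t < ε / 2 := by
      rcases le_total τ (ε / 4) with h1 | h1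
      · exact ⟨0, ⟨le_rfl, hτ⟩, by linarith⟩
      · exact ⟨τ - ε / 4, ⟨by linarith, by linarith⟩, by linarith⟩
    have h1 := hr t ht1
    have h2 := rho2_le_add hP.three_le v q (z t).p
    have h3 := hb t ht1
    rw [norm_sub_rev] at h3
    have h4 : (H25D.PS hP hk).rad (z t) = rho2 v (z t).p := rfl
    rw [h4] at h1
    linarith
  have hc : ∃ c, q = v c := by
    by_contra hcon
    push Not at hcon
    exact absurd (rho2_pos hP q hcon) (not_lt.2 h0)
  obtain ⟨c, rfl⟩ := hc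
  exact ⟨c, hb⟩

/-- a dying leaf runs straight into a vertex -/
theorem death_end (hP : IsPolygon P v) (hk : Par v kap) {ϑ : ℂ} (hϑ : ‖ϑ‖ = 1) (htr : Tr v N ϑ) {x : SPt P v N} {τ : ℝ} (hτ : 0 < τ)
    {z : ℝ → SPt P v N} (hz : ∀ t ∈ Ico (0 : ℝ) τ, (H25D.PS hP hk).Seg x ((t : ℂ) * ϑ) (z t))
    (hr : ∀ t ∈ Ico (0 : ℝ) τ, (H25D.PS hP hk).rad (z t) ≤ τ - t) : ∃ c, ∃ g : Fr N, ∃ t₀ ∈ Ico (0 : ℝ) τ,
      ∀ t ∈ Ico t₀ τ, (z t).p ∈ interior P ∧ (z t).g = g ∧ (z t).p = v c - ((τ - t : ℝ) : ℂ) * fr g ϑ := by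
  obtain ⟨c, hc⟩ := death_limit hP hk hϑ hτ hz hr
  obtain ⟨r, hr0, hrb⟩ := Pool.Agent.Lib.H32W.vertex_ball hP c
  have hvb : Vb v c r := hrb
  obtain ⟨t₀, ht₀, ht₀'⟩ : ∃ t ∈ Ico (0 : ℝ) τ, τ - t < r / 2 := by
    rcases le_total τ (r / 4) with h1 | h1
    · exact ⟨0, ⟨le_rfl, hτ⟩, by linarith⟩
    · exact ⟨τ - r / 4, ⟨by linarith, by linarith⟩, by linarith⟩
  have hsub : ∀ t ∈ Ico t₀ τ, t ∈ Ico (0 : ℝ) τ := fun t ht => ⟨ht₀.1.trans ht.1, ht.2⟩
  have hadd : ∀ t ∈ Ico t₀ τ, ∀ t' ∈ Ico t₀ τ, |t' - t| < rho2 v (z t).p →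
      z t' = sadd hP hk (z t) (((t' - t : ℝ) : ℂ) * ϑ) := fun t ht t' ht' h => path_add hϑ hz (hsub t ht) (hsub t' ht') h
  have hnt : ∀ s : ℝ, ‖(s : ℂ) * ϑ‖ = |s| := fun s => by
    rw [norm_mul, hϑ, mul_one, Complex.norm_real, Real.norm_eq_abs]
  -- the developed leaf is straight
  have hF : ∀ t ∈ Ico t₀ τ, fri (z t).g ((z t).p - v c) - (t : ℂ) * ϑ = fri (z t₀).g ((z t₀).p - v c) - (t₀ : ℂ) * ϑ := by
    intro t ht
    refine const_on (f := fun t => fri (z t).g ((z t).p - v c) - (t : ℂ) * ϑ) isPreconnected_Ico ?_ ht ⟨le_rfl, ht₀.2⟩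
    intro t ht
    refine ⟨rho2 v (z t).p, rho2_pos hP _ (z t).nv, fun t' ht' hlt => ?_⟩
    have h1 := hadd t ht t' ht' hlt
    have h2 : |t' - t| ≤ τ - t₀ := by
      rw [abs_le]
      constructor <;> linarith [ht.1, ht.2, ht'.1, ht'.2]
    have h3 := om_add hP hk hvb (z t) (((t' - t : ℝ) : ℂ) * ϑ) (by rw [hnt]; exact hlt) (by
      rw [hnt]
      have := hc t (hsub t ht)
      linarith [ht.1])
    show fri (z t').g ((z t').p - v c) - (t' : ℂ) * ϑ = fri (z t).g ((z t).p - v c) - (t : ℂ) * ϑ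
    rw [h1, h3]
    push_cast
    ring
  have hF0 : fri (z t₀).g ((z t₀).p - v c) - (t₀ : ℂ) * ϑ = - ((τ : ℂ) * ϑ) := by
    rw [← sub_eq_zero, ← norm_eq_zero]
    refine le_antisymm ?_ (norm_nonneg _)
    apply le_of_forall_pos_le_add
    intro ε hε
    obtain ⟨t, ht, ht'⟩ : ∃ t ∈ Ico t₀ τ, τ - t < ε / 2 := by
      rcases le_total (τ - t₀) (ε / 4) with h1 | h1
      · exact ⟨t₀, ⟨le_rfl, ht₀.2⟩, by linarith⟩
      · exact ⟨τ - ε / 4, ⟨by linarith, by linarith⟩, by linarith⟩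
    rw [← hF t ht]
    have e : fri (z t).g ((z t).p - v c) - (t : ℂ) * ϑ - -((τ : ℂ) * ϑ) = fri (z t).g ((z t).p - v c) + ((τ - t : ℝ) : ℂ) * ϑ := by
      push_cast
      ring
    rw [e]
    have h1 := norm_add_le (fri (z t).g ((z t).p - v c)) (((τ - t : ℝ) : ℂ) * ϑ)
    rw [norm_fri, hnt, abs_of_pos (by linarith [ht.2])] at h1
    have h2 := hc t (hsub t ht)
    linarith
  have hpos : ∀ t ∈ Ico t₀ τ, (z t).p = v c - ((τ - t : ℝ) : ℂ) * fr (z t).g ϑ := by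
    intro t ht
    have h1 := hF t ht
    rw [hF0] at h1
    have h2 : fri (z t).g ((z t).p - v c) = ((-(τ - t) : ℝ) : ℂ) * ϑ := by
      push_cast
      linear_combination h1
    have h3 := congrArg (fr (z t).g) h2
    rw [fr_fri, fr_real] at h3
    push_cast at h3 ⊢
    linear_combination h3
  have hint : ∀ t ∈ Ico t₀ τ, (z t).p ∈ interior P := by
    intro t ht
    by_contra hcon
    have h1 : (z t).p ∈ frontier P := ⟨subset_closure (z t).mem, hcon⟩
    rw [hP.frontier_eq] at h1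
    obtain ⟨i, hi⟩ := mem_iUnion.1 h1
    have hball : (z t).p ∈ ball (v c) r := by
      rw [mem_ball, dist_eq_norm]
      have := hc t (hsub t ht)
      linarith [ht.1]
    have hic : v c ∈ segment ℝ (v i) (v (i + 1)) := by
      by_contra hcon2
      have h2 : i ≠ c := fun h => hcon2 (by rw [h]; exact left_mem_segment ℝ _ _)
      have h3 : i ≠ c - 1 := fun h => hcon2 (by
        rw [h]
        simpa using right_mem_segment ℝ (v (c - 1)) (v (c - 1 + 1)))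
      exact Set.disjoint_left.1 (hvb i h2 h3) hball hi
    have h2 := seg_cdet hi hic
    rw [hpos t ht] at h2
    have e : v c - ((τ - t : ℝ) : ℂ) * fr (z t).g ϑ - v c = ((-(τ - t) : ℝ) : ℂ) * fr (z t).g ϑ := by
      push_cast
      ring
    rw [e, cdet_real] at h2
    rcases mul_eq_zero.1 h2 with h3 | h3
    · linarith [ht.2]
    · exact htr i _ h3
  have hg : ∀ t ∈ Ico t₀ τ, (z t).g = (z t₀).g := by
    intro t ht
    refine const_on (f := fun t => (z t).g) isPreconnected_Ico ?_ ht ⟨le_rfl, ht₀.2⟩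
    intro t ht
    obtain ⟨δ, hδ, hδ'⟩ := Metric.isOpen_iff.1 isOpen_interior _ (hint t ht)
    refine ⟨min δ (rho2 v (z t).p), lt_min hδ (rho2_pos hP _ (z t).nv), fun t' ht' hlt => ?_⟩
    have h1 := hadd t ht t' ht' (hlt.trans_le (min_le_right _ _))
    show (z t').g = (z t).g
    rw [h1]
    refine (sadd_int hP hk (z t) _ (by rw [hnt]; exact hlt.trans_le (min_le_right _ _)) (hδ' ?_)).2
    rw [mem_ball, dist_eq_norm, add_sub_cancel_left, norm_fr, hnt]
    exact hlt.trans_le (min_le_left _ _)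
  refine ⟨c, (z t₀).g, t₀, ht₀, fun t ht => ⟨hint t ht, hg t ht, ?_⟩⟩
  rw [← hg t ht]
  exact hpos t ht

end

end Pool.Agent.Lib.H23D
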