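import Mathlib

/-!
# H23D: elementary counting lemmas (helper15)
-/

set_option autoImplicit false

open Finset

namespace Pool.Agent.Lib.H23D

/-- A filter covered by the filters `Q f`, `f ∈ F`. -/
theorem h15_cov {T A : Type} [Fintype T] (P : T → Prop) [iP : DecidablePred P] (F : Finset A)
    (Q : A → T → Prop) [iQ : ∀ f, DecidablePred (Q f)]
    (h : ∀ t, P t → ∃ f ∈ F, Q f t) (B : ℝ)
    (hB : ∀ f ∈ F, ((univ.filter (Q f)).card : ℝ) ≤ B) :
    ((univ.filter P).card : ℝ) ≤ F.card * B := by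
  classical
  have h1 : (univ.filter P).card ≤ ∑ f ∈ F, (univ.filter (Q f)).card := by
    refine le_trans (card_le_card ?_) card_biUnion_le
    intro t ht
    obtain ⟨f, hf, hq⟩ := h t (mem_filter.1 ht).2
    exact mem_biUnion.2 ⟨f, hf, mem_filter.2 ⟨mem_univ _, hq⟩⟩
  have h2 : ((univ.filter P).card : ℝ) ≤ ∑ f ∈ F, ((univ.filter (Q f)).card : ℝ) := by
    exact_mod_cast h1
  refine h2.trans ((sum_le_sum hB).trans ?_)
  rw [sum_const, nsmul_eq_mul]

/-- The same with a bound for the number of the `f`. -/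
theorem h15_cov' {T A : Type} [Fintype T] (P : T → Prop) [iP : DecidablePred P] (F : Finset A)
    (Q : A → T → Prop) [iQ : ∀ f, DecidablePred (Q f)]
    (h : ∀ t, P t → ∃ f ∈ F, Q f t) (B M : ℝ) (hB0 : 0 ≤ B) (hM : (F.card : ℝ) ≤ M)
    (hB : ∀ f ∈ F, ((univ.filter (Q f)).card : ℝ) ≤ B) :
    ((univ.filter P).card : ℝ) ≤ M * B :=
  (h15_cov P F Q h B hB).trans (mul_le_mul_of_nonneg_right hM hB0)

/-- A finite set covered by the sets `Y t`. -/
theorem h15_sum {T A : Type} [Fintype T] (X : Finset A) (Y : T → Finset A) (w : T → ℝ)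
    (hX : ∀ x ∈ X, ∃ t, x ∈ Y t) (hw : ∀ t, ((Y t).card : ℝ) ≤ w t) :
    (X.card : ℝ) ≤ ∑ t, w t := by
  classical
  have h1 : X.card ≤ ∑ t, (Y t).card := by
    refine le_trans (card_le_card ?_) card_biUnion_le
    intro a ha
    obtain ⟨t, ht⟩ := hX a ha
    exact mem_biUnion.2 ⟨t, mem_univ _, ht⟩
  have h2 : (X.card : ℝ) ≤ ∑ t, ((Y t).card : ℝ) := by exact_mod_cast h1
  exact h2.trans (sum_le_sum fun t _ => hw t)

/-- Injection of a filter into a finite set. -/
theorem h15_inj {T A : Type} [Fintype T] (P : T → Prop) [iP : DecidablePred P] (F : Finset A)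
    (g : T → A)
    (h : ∀ t, P t → g t ∈ F) (hi : ∀ t t', P t → P t' → g t = g t' → t = t') (B : ℝ)
    (hB : (F.card : ℝ) ≤ B) : ((univ.filter P).card : ℝ) ≤ B := by
  classical
  refine le_trans ?_ hB
  have h1 : (univ.filter P).card ≤ F.card := by
    apply card_le_card_of_injOn g
    · intro t ht
      exact h t (mem_filter.1 ht).2
    · intro t ht t' ht' e
      exact hi t t' (mem_filter.1 ht).2 (mem_filter.1 ht').2 e
  exact_mod_cast h1

/-- An empty filter. -/
theorem h15_empty {T : Type} [Fintype T] (P : T → Prop) [iP : DecidablePred P]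
    (h : ∀ t, ¬ P t) (B : ℝ) (hB : 0 ≤ B) :
    ((univ.filter P).card : ℝ) ≤ B := by
  have : univ.filter P = ∅ := by
    apply filter_eq_empty_iff.2
    intro t _
    exact h t
  rw [this, card_empty, Nat.cast_zero]
  exact hB

/-- Sum of an indicator. -/
theorem h15_ind {T : Type} [Fintype T] (P : T → Prop) [inst : DecidablePred P] :
    (∑ t, if P t then (1 : ℝ) else 0) = ((univ.filter P).card : ℝ) := by
  rw [Finset.sum_boole]

/-- Sum of two nested indicators. -/
theorem h15_ind2 {T : Type} [Fintype T] (P Q : T → Prop) [iP : DecidablePred P]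
    [iQ : DecidablePred Q] :
    (∑ t, if P t then (if Q t then (1 : ℝ) else 0) else 0) =
      ((univ.filter fun t => P t ∧ Q t).card : ℝ) := by
  rw [← h15_ind (fun t => P t ∧ Q t)]
  refine sum_congr rfl fun t _ => ?_
  by_cases h1 : P t
  · by_cases h2 : Q t
    · rw [if_pos h1, if_pos h2, if_pos ⟨h1, h2⟩]
    · rw [if_pos h1, if_neg h2, if_neg fun h => h2 h.2]
  · rw [if_neg h1, if_neg fun h => h1 h.1]

/-- Monotonicity of filters. -/
theorem h15_mono {T : Type} [Fintype T] (P Q : T → Prop) [iP : DecidablePred P]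
    [iQ : DecidablePred Q] (h : ∀ t, P t → Q t) :
    ((univ.filter P).card : ℝ) ≤ ((univ.filter Q).card : ℝ) := by
  have : (univ.filter P).card ≤ (univ.filter Q).card := by
    apply card_le_card
    intro t ht
    exact mem_filter.2 ⟨mem_univ _, h t (mem_filter.1 ht).2⟩
  exact_mod_cast this

/-- Union of two filters. -/
theorem h15_or {T : Type} [Fintype T] (P Q R : T → Prop) [iP : DecidablePred P]
    [iQ : DecidablePred Q] [iR : DecidablePred R] (h : ∀ t, P t → Q t ∨ R t) :
    ((univ.filter P).card : ℝ) ≤ ((univ.filter Q).card : ℝ) + ((univ.filter R).card : ℝ) := by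
  classical
  have : (univ.filter P).card ≤ (univ.filter Q).card + (univ.filter R).card := by
    refine le_trans (card_le_card ?_) (card_union_le _ _)
    intro t ht
    rcases h t (mem_filter.1 ht).2 with h1 | h1
    · exact mem_union_left _ (mem_filter.2 ⟨mem_univ _, h1⟩)
    · exact mem_union_right _ (mem_filter.2 ⟨mem_univ _, h1⟩)
  exact_mod_cast this

end Pool.Agent.Lib.H23D
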