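import Pool.Agent.Lib.H23D.Toks
import Pool.Agent.Lib.H23D.D1
import Pool.Agent.Lib.H23D.H15Cnt

/-!
# H23D, E1: new mono pairs in N(v)

Module C of H93B, see `H93B/PROOF.md` and `README.md`.
-/

set_option autoImplicit false

open Finset
open scoped Classical

namespace Pool.Agent.Lib.H23D

open Pool.Agent.Lib.Prob48
open Pool.Agent.Lib.H93B

variable {V : Type} [Fintype V] {G : SimpleGraph V} {k : ℕ} {φ : V → Option (Fin k)} {c : Cst}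
  {r : ℝ} {D : ℕ} {x C1 C3 L : ℝ}

/-- pairs with one new and one old vertex -/
theorem e1_old {S : Finset (V × Fin k)} (hS : S ⊆ (dat c r G φ).H) (v : V) (g : V → V → V × V)
    (X : Finset (V × V)) (hX : ∀ f ∈ X, ∃ u z, ∃ col : Fin k, f = g u z ∧ u ∈ nb G v ∧ z ∈ nb G v ∧
      (u, col) ∈ S ∧ φ z = some col) :
    (X.card : ℝ) ≤ ∑ t : V × Fin k, if t ∈ S then
      (if G.Adj v t.1 ∧ t ∈ (dat c r G φ).H then ((nb G v ∩ cl φ t.2).card : ℝ) else 0) else 0 := by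
  apply h15_sum _ (fun t : V × Fin k => if t ∈ S ∧ (G.Adj v t.1 ∧ t ∈ (dat c r G φ).H) then
    (nb G v ∩ cl φ t.2).image (fun z => g t.1 z) else ∅)
  · intro f hf
    obtain ⟨u, z, col, h1, h2, h3, h4, h5⟩ := hX f hf
    refine ⟨(u, col), ?_⟩
    rw [if_pos ⟨h4, mem_nb.1 h2, hS h4⟩]
    exact mem_image.2 ⟨z, mem_inter.2 ⟨h3, mem_cl.2 h5⟩, h1.symm⟩
  · intro t
    by_cases hc : t ∈ S ∧ (G.Adj v t.1 ∧ t ∈ (dat c r G φ).H)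
    · rw [if_pos hc, if_pos hc.1, if_pos hc.2]
      exact_mod_cast card_image_le
    · rw [if_neg hc, card_empty, Nat.cast_zero]
      split_ifs
      · exact Nat.cast_nonneg _
      · exact le_refl _
      · exact le_refl _

/-- By `d1_mono` a new mono pair `(y, z)` in `N(v)` is an old mono pair, or `(y, col) ∈ S` and `φ z = some col`
(for fixed `(y, col)` at most `|nb v ∩ cl φ col|` vertices `z`: altogether `(W1l v).Z S`, use `W1l_Z`, `S ⊆ H`),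
or the same with `y`, `z` exchanged, or `(y, col), (z, col) ∈ S` (the pairs inject into the triples
`(y, z, col)` counted by `W1p_Z`). -/
theorem e1 {S : Finset (V × Fin k)} (hS : S ⊆ (dat c r G φ).H)
    (hno : ∀ y ∈ S, ∀ z ∈ S, ¬ Conf c r G φ y z) (v : V) :
    ((univ.filter fun f : V × V => f.1 ∈ nb G v ∧ f.2 ∈ nb G v ∧
      Mono (newφ c r G φ S) f.1 f.2).card : ℝ) ≤
      ((univ.filter fun f : V × V => f.1 ∈ nb G v ∧ f.2 ∈ nb G v ∧ Mono φ f.1 f.2).card : ℝ) +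
        2 * (W1l c r G φ v).Z S + (W1p c r G φ v).Z S := by
  rw [W1l_Z, W1p_Z]
  have hA := e1_old hS v (fun u z => (u, z))
    (univ.filter fun f : V × V => (f.1 ∈ nb G v ∧ f.2 ∈ nb G v) ∧
      ∃ col, (f.1, col) ∈ S ∧ φ f.2 = some col) (by
      intro f hf
      obtain ⟨⟨h1, h2⟩, col, h3, h4⟩ := (mem_filter.1 hf).2
      exact ⟨f.1, f.2, col, rfl, h1, h2, h3, h4⟩)
  have hB := e1_old hS v (fun u z => (z, u))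
    (univ.filter fun f : V × V => (f.1 ∈ nb G v ∧ f.2 ∈ nb G v) ∧
      ∃ col, (f.2, col) ∈ S ∧ φ f.1 = some col) (by
      intro f hf
      obtain ⟨⟨h1, h2⟩, col, h3, h4⟩ := (mem_filter.1 hf).2
      exact ⟨f.2, f.1, col, rfl, h2, h1, h3, h4⟩)
  have hC : ((univ.filter fun f : V × V => (f.1 ∈ nb G v ∧ f.2 ∈ nb G v) ∧ f.1 ≠ f.2 ∧
      ∃ col, (f.1, col) ∈ S ∧ (f.2, col) ∈ S).card : ℝ) ≤
      ∑ t : V × V × Fin k, if (t.1, t.2.2) ∈ S ∧ (t.2.1, t.2.2) ∈ S then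
      (if t.1 ≠ t.2.1 ∧ (G.Adj v t.1 ∧ G.Adj v t.2.1) ∧
        (t.1, t.2.2) ∈ (dat c r G φ).H ∧ (t.2.1, t.2.2) ∈ (dat c r G φ).H then (1 : ℝ) else 0)
      else 0 := by
    apply h15_sum _ (fun t : V × V × Fin k => if ((t.1, t.2.2) ∈ S ∧ (t.2.1, t.2.2) ∈ S) ∧
      (t.1 ≠ t.2.1 ∧ (G.Adj v t.1 ∧ G.Adj v t.2.1) ∧
        (t.1, t.2.2) ∈ (dat c r G φ).H ∧ (t.2.1, t.2.2) ∈ (dat c r G φ).H)
      then {(t.1, t.2.1)} else ∅)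
    · intro f hf
      obtain ⟨⟨h1, h2⟩, h5, col, h3, h4⟩ := (mem_filter.1 hf).2
      refine ⟨(f.1, f.2, col), ?_⟩
      rw [if_pos ⟨⟨h3, h4⟩, h5, ⟨mem_nb.1 h1, mem_nb.1 h2⟩, hS h3, hS h4⟩]
      exact mem_singleton.2 rfl
    · intro t
      by_cases hc : ((t.1, t.2.2) ∈ S ∧ (t.2.1, t.2.2) ∈ S) ∧
      (t.1 ≠ t.2.1 ∧ (G.Adj v t.1 ∧ G.Adj v t.2.1) ∧
        (t.1, t.2.2) ∈ (dat c r G φ).H ∧ (t.2.1, t.2.2) ∈ (dat c r G φ).H)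
      · rw [if_pos hc, if_pos hc.1, if_pos hc.2, card_singleton, Nat.cast_one]
      · rw [if_neg hc, card_empty, Nat.cast_zero]
        split_ifs <;> norm_num
  have h1 := h15_or (fun f : V × V => f.1 ∈ nb G v ∧ f.2 ∈ nb G v ∧
      Mono (newφ c r G φ S) f.1 f.2) (fun f : V × V => f.1 ∈ nb G v ∧ f.2 ∈ nb G v ∧ Mono φ f.1 f.2)
      (fun f : V × V => ((f.1 ∈ nb G v ∧ f.2 ∈ nb G v) ∧
      ∃ col, (f.1, col) ∈ S ∧ φ f.2 = some col) ∨ ((f.1 ∈ nb G v ∧ f.2 ∈ nb G v) ∧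
      ∃ col, (f.2, col) ∈ S ∧ φ f.1 = some col) ∨ ((f.1 ∈ nb G v ∧ f.2 ∈ nb G v) ∧ f.1 ≠ f.2 ∧
      ∃ col, (f.1, col) ∈ S ∧ (f.2, col) ∈ S)) (by
      rintro f ⟨h1, h2, h3⟩
      rcases d1_mono hS hno h3 with h4 | ⟨col, h4, h5⟩ | ⟨col, h4, h5⟩ | ⟨col, h4, h5⟩
      · exact Or.inl ⟨h1, h2, h4⟩
      · exact Or.inr (Or.inl ⟨⟨h1, h2⟩, col, Sm_sub S h4, h5⟩)
      · exact Or.inr (Or.inr (Or.inl ⟨⟨h1, h2⟩, col, Sm_sub S h4, h5⟩))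
      · exact Or.inr (Or.inr (Or.inr ⟨⟨h1, h2⟩, h3.1, col, Sm_sub S h4, Sm_sub S h5⟩)))
  have h2 := h15_or (fun f : V × V => ((f.1 ∈ nb G v ∧ f.2 ∈ nb G v) ∧
      ∃ col, (f.1, col) ∈ S ∧ φ f.2 = some col) ∨ ((f.1 ∈ nb G v ∧ f.2 ∈ nb G v) ∧
      ∃ col, (f.2, col) ∈ S ∧ φ f.1 = some col) ∨ ((f.1 ∈ nb G v ∧ f.2 ∈ nb G v) ∧ f.1 ≠ f.2 ∧
      ∃ col, (f.1, col) ∈ S ∧ (f.2, col) ∈ S)) (fun f : V × V => (f.1 ∈ nb G v ∧ f.2 ∈ nb G v) ∧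
      ∃ col, (f.1, col) ∈ S ∧ φ f.2 = some col) (fun f : V × V => ((f.1 ∈ nb G v ∧ f.2 ∈ nb G v) ∧
      ∃ col, (f.2, col) ∈ S ∧ φ f.1 = some col) ∨ ((f.1 ∈ nb G v ∧ f.2 ∈ nb G v) ∧ f.1 ≠ f.2 ∧
      ∃ col, (f.1, col) ∈ S ∧ (f.2, col) ∈ S)) (fun f h => h)
  have h3 := h15_or (fun f : V × V => ((f.1 ∈ nb G v ∧ f.2 ∈ nb G v) ∧
      ∃ col, (f.2, col) ∈ S ∧ φ f.1 = some col) ∨ ((f.1 ∈ nb G v ∧ f.2 ∈ nb G v) ∧ f.1 ≠ f.2 ∧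
      ∃ col, (f.1, col) ∈ S ∧ (f.2, col) ∈ S)) (fun f : V × V => (f.1 ∈ nb G v ∧ f.2 ∈ nb G v) ∧
      ∃ col, (f.2, col) ∈ S ∧ φ f.1 = some col) (fun f : V × V => (f.1 ∈ nb G v ∧ f.2 ∈ nb G v) ∧ f.1 ≠ f.2 ∧
      ∃ col, (f.1, col) ∈ S ∧ (f.2, col) ∈ S) (fun f h => h)
  linarith

end Pool.Agent.Lib.H23D
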