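import Pool.Agent.Lib.H23D.Toks
import Pool.Agent.Lib.H23D.H15Cnt

/-!
# H23D, E2A: spoiled elements over N(w) ∩ N(w')

Module C of H93B, see `H93B/PROOF.md` and `README.md`.
-/

set_option autoImplicit false

open Finset
open scoped Classical

namespace Pool.Agent.Lib.H23D

open Pool.Agent.Lib.Prob48
open Pool.Agent.Lib.H93B

variable {V : Type} [Fintype V] {G : SimpleGraph V} {k : ℕ} {φ : V → Option (Fin k)} {c : Cst}
  {r : ℝ} {D : ℕ} {x C1 C3 L : ℝ}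

/-- Choose for every `z ∈ Sp S` with `z.1 ∈ co w w'` vertices `v2, v3, v4` and `b` as in the definition of `Sp`
and put `t = (z.1, v2, v3, v4, z.2, b)`; `z = t.s1` can be recovered from `t`. In the first case `t` has weight
one in `W2b` and its three sites are in `S`, in the second case the same with `W2d` (`S ⊆ H` gives the
memberships in `P3`, `P4`). Use `W2b_Z`, `W2d_Z`. -/
theorem e2a {S : Finset (V × Fin k)} (hS : S ⊆ (dat c r G φ).H) (w w' : V) :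
    (((Sp c r G φ S).filter fun z => z.1 ∈ co G w w').card : ℝ) ≤
      (W2b c r G φ w w').Z S + (W2d c r G φ w w').Z S := by
  rw [W2b_Z, W2d_Z, ← sum_add_distrib]
  apply h15_sum _ (fun t : Tup V k =>
    if (t.s1 ∈ S ∧ t.s2 ∈ S ∧ t.s3 ∈ S) ∧
        (t.v1 ∈ co G w w' ∧ P3 c r G φ t ∧ Des3 c r G φ t.s1 t.s2 t.s3) ∨
      (t.s1 ∈ S ∧ t.s2 ∈ S ∧ t.s3 ∈ S ∧ t.s4 ∈ S) ∧
        (t.v1 ∈ co G w w' ∧ P4 c r G φ t ∧ Des4 c r G φ t.s1 t.s2 t.s3 t.s4)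
    then {t.s1} else ∅)
  · intro z hz
    obtain ⟨hz1, hz2⟩ := mem_filter.1 hz
    unfold Sp at hz1
    obtain ⟨hzS, v2, v3, v4, b, h2, h3, h4⟩ := mem_filter.1 hz1
    refine ⟨(z.1, v2, v3, v4, z.2, b), ?_⟩
    rw [if_pos]
    · exact mem_singleton.2 rfl
    · rcases h4 with ⟨h5, h6⟩ | ⟨h5, h6, h7⟩
      · left
        exact ⟨⟨hzS, h2, h3⟩, hz2, ⟨⟨hS hzS, hS h2, hS h3⟩, h6⟩, h5⟩
      · right
        exact ⟨⟨hzS, h2, h3, h5⟩, hz2, ⟨⟨hS hzS, hS h2, hS h3, hS h5⟩, h7⟩, h6⟩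
  · intro t
    have n1 : (0 : ℝ) ≤ (if t.s1 ∈ S ∧ t.s2 ∈ S ∧ t.s3 ∈ S then
        (if t.v1 ∈ co G w w' ∧ P3 c r G φ t ∧ Des3 c r G φ t.s1 t.s2 t.s3 then (1 : ℝ) else 0)
        else 0) := by
      split_ifs <;> norm_num
    have n2 : (0 : ℝ) ≤ (if t.s1 ∈ S ∧ t.s2 ∈ S ∧ t.s3 ∈ S ∧ t.s4 ∈ S then
        (if t.v1 ∈ co G w w' ∧ P4 c r G φ t ∧ Des4 c r G φ t.s1 t.s2 t.s3 t.s4 then (1 : ℝ) else 0)
        else 0) := by
      split_ifs <;> norm_num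
    by_cases hc : (t.s1 ∈ S ∧ t.s2 ∈ S ∧ t.s3 ∈ S) ∧
        (t.v1 ∈ co G w w' ∧ P3 c r G φ t ∧ Des3 c r G φ t.s1 t.s2 t.s3) ∨
      (t.s1 ∈ S ∧ t.s2 ∈ S ∧ t.s3 ∈ S ∧ t.s4 ∈ S) ∧
        (t.v1 ∈ co G w w' ∧ P4 c r G φ t ∧ Des4 c r G φ t.s1 t.s2 t.s3 t.s4)
    · rw [if_pos hc, card_singleton, Nat.cast_one]
      rcases hc with ⟨h1, h2⟩ | ⟨h1, h2⟩
      · rw [if_pos h1, if_pos h2]
        linarith
      · rw [if_pos h1, if_pos h2]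
        linarith
    · rw [if_neg hc, card_empty, Nat.cast_zero]
      exact add_nonneg n1 n2

end Pool.Agent.Lib.H23D
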