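import Pool.Agent.Lib.H23D.E2A
import Pool.Agent.Lib.H23D.D1
import Pool.Agent.Lib.H23D.H15Cnt

/-!
# H23D, E2B: uncoloured vertices in N(w) ∩ N(w')

Module C of H93B, see `H93B/PROOF.md` and `README.md`.
-/

set_option autoImplicit false

open Finset
open scoped Classical

namespace Pool.Agent.Lib.H23D

open Pool.Agent.Lib.Prob48
open Pool.Agent.Lib.H93B

variable {V : Type} [Fintype V] {G : SimpleGraph V} {k : ℕ} {φ : V → Option (Fin k)} {c : Cst}
  {r : ℝ} {D : ℕ} {x C1 C3 L : ℝ}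

/-- Let `T = co G w w'`, `N = {v ∈ T | ∃ col, (v, col) ∈ Sm S}`, `K = {y ∈ T | Killed (Sm S) y}`. By `d1_none`
`unc φ' ∩ T ⊆ ((unc φ ∩ T) \ N) ∪ K`, and `N ⊆ unc φ ∩ T` (`H_unc`). By `d1_unique`
`|N| = #{z ∈ Sm S | z.1 ∈ T} = #{z ∈ S | z.1 ∈ T} - #{z ∈ Sp S | z.1 ∈ T}`, the first number is `(W2a).Z S`
(`W2a_Z`, `S ⊆ H`), the second is at most `(W2b).Z S + (W2d).Z S` by `e2a`. `|K| ≤ labZ`: choose for `y ∈ K` a `z`
and `u ∈ Sm S ⊆ S` with `(y, z) ∈ J u`; the label `(y, z)` has `wlab = 1` (`mem_J'`) and determines `y`. -/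
theorem e2b {S : Finset (V × Fin k)} (hS : S ⊆ (dat c r G φ).H)
    (hno : ∀ y ∈ S, ∀ z ∈ S, ¬ Conf c r G φ y z) (w w' : V) :
    ((unc (newφ c r G φ S) ∩ co G w w').card : ℝ) ≤
      ((unc φ ∩ co G w w').card : ℝ) - (W2a c r G φ w w').Z S + (W2b c r G φ w w').Z S +
        (W2d c r G φ w w').Z S + labZ (dat c r G φ).J (wlab c r G φ w w') S := by
  have hSp : Sp c r G φ S ⊆ S := filter_subset _ _
  -- the newly coloured vertices
  have hN1 : ((univ.filter fun v : V => v ∈ co G w w' ∧ ∃ col, (v, col) ∈ Sm c r G φ S).card : ℝ) =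
      (((Sm c r G φ S).filter fun z => z.1 ∈ co G w w').card : ℝ) := by
    have : (univ.filter fun v : V => v ∈ co G w w' ∧ ∃ col, (v, col) ∈ Sm c r G φ S) =
        ((Sm c r G φ S).filter fun z => z.1 ∈ co G w w').image Prod.fst := by
      ext v
      rw [mem_filter, mem_image]
      constructor
      · rintro ⟨_, h1, col, h2⟩
        exact ⟨(v, col), mem_filter.2 ⟨h2, h1⟩, rfl⟩
      · rintro ⟨z, hz, rfl⟩
        obtain ⟨h1, h2⟩ := mem_filter.1 hz
        exact ⟨mem_univ _, h2, z.2, h1⟩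
    rw [this, card_image_of_injOn]
    intro z hz z' hz' e
    have h1 := (mem_filter.1 hz).1
    have h2 := (mem_filter.1 hz').1
    have h3 : (z.1, z'.2) ∈ S := by
      have e' : z.1 = z'.1 := e
      rw [e']
      exact Sm_sub S h2
    have h4 : (z.1, z.2) ∈ S := Sm_sub S h1
    exact Prod.ext e (d1_unique hno h4 h3)
  have hN2 : ((S.filter fun z => z.1 ∈ co G w w').card : ℝ) =
      (((Sm c r G φ S).filter fun z => z.1 ∈ co G w w').card : ℝ) +
      (((Sp c r G φ S).filter fun z => z.1 ∈ co G w w').card : ℝ) := by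
    have h1 : (S.filter fun z => z.1 ∈ co G w w') =
        ((Sm c r G φ S).filter fun z => z.1 ∈ co G w w') ∪
          ((Sp c r G φ S).filter fun z => z.1 ∈ co G w w') := by
      rw [← filter_union]
      congr 1
      unfold Sm
      exact (sdiff_union_of_subset hSp).symm
    have h2 : Disjoint ((Sm c r G φ S).filter fun z => z.1 ∈ co G w w')
        ((Sp c r G φ S).filter fun z => z.1 ∈ co G w w') := by
      apply disjoint_filter_filter
      unfold Sm
      exact sdiff_disjoint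
    rw [h1, card_union_of_disjoint h2]
    push_cast
    rfl
  have hZ : (W2a c r G φ w w').Z S = ((S.filter fun z => z.1 ∈ co G w w').card : ℝ) := by
    rw [W2a_Z]
    have h1 : ∀ t : V × Fin k, (if t ∈ S then
        (if t.1 ∈ co G w w' ∧ t ∈ (dat c r G φ).H then (1 : ℝ) else 0) else 0) =
        if t ∈ S ∧ t.1 ∈ co G w w' then (1 : ℝ) else 0 := by
      intro t
      by_cases h2 : t ∈ S
      · rw [if_pos h2]
        by_cases h3 : t.1 ∈ co G w w'
        · rw [if_pos ⟨h3, hS h2⟩, if_pos ⟨h2, h3⟩]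
        · rw [if_neg fun h => h3 h.1, if_neg fun h => h3 h.2]
      · rw [if_neg h2, if_neg fun h => h2 h.1]
    rw [sum_congr rfl fun t _ => h1 t, h15_ind]
    congr 2
    ext t
    simp
  have hsp := e2a hS w w'
  -- the killed vertices
  have hK : ((univ.filter fun v : V => v ∈ co G w w' ∧
      Killed c r G φ (Sm c r G φ S) v).card : ℝ) ≤
      labZ (dat c r G φ).J (wlab c r G φ w w') S := by
    unfold labZ
    apply h15_sum _ (fun f : V × V => if (f.1 ∈ co G w w' ∧ HM c r G φ f.1 f.2) ∧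
      (∃ z ∈ S, f ∈ (dat c r G φ).J z) then {f.1} else ∅)
    · intro y hy
      obtain ⟨h1, z, u, h2, h3⟩ := (mem_filter.1 hy).2
      refine ⟨(y, z), ?_⟩
      rw [if_pos ⟨⟨h1, (mem_J'.1 h3).1⟩, u, Sm_sub S h2, h3⟩]
      exact mem_singleton.2 rfl
    · intro f
      unfold wlab
      by_cases hc : (f.1 ∈ co G w w' ∧ HM c r G φ f.1 f.2) ∧ (∃ z ∈ S, f ∈ (dat c r G φ).J z)
      · rw [if_pos hc, if_pos hc.1, if_pos hc.2, card_singleton]
        norm_num
      · rw [if_neg hc, card_empty, Nat.cast_zero]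
        apply mul_nonneg
        · split_ifs <;> norm_num
        · split_ifs <;> norm_num
  -- splitting
  have hU : ((unc φ ∩ co G w w').card : ℝ) =
      ((univ.filter fun v : V => (φ v = none ∧ v ∈ co G w w') ∧
        ∀ col, (v, col) ∉ Sm c r G φ S).card : ℝ) +
      ((univ.filter fun v : V => v ∈ co G w w' ∧ ∃ col, (v, col) ∈ Sm c r G φ S).card : ℝ) := by
    have h1 : unc φ ∩ co G w w' = (univ.filter fun v : V => (φ v = none ∧ v ∈ co G w w') ∧
        ∀ col, (v, col) ∉ Sm c r G φ S) ∪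
        (univ.filter fun v : V => v ∈ co G w w' ∧ ∃ col, (v, col) ∈ Sm c r G φ S) := by
      ext v
      rw [mem_inter, mem_unc, mem_union, mem_filter, mem_filter]
      constructor
      · rintro ⟨h1, h2⟩
        by_cases h3 : ∃ col, (v, col) ∈ Sm c r G φ S
        · exact Or.inr ⟨mem_univ _, h2, h3⟩
        · exact Or.inl ⟨mem_univ _, ⟨h1, h2⟩, fun col hcol => h3 ⟨col, hcol⟩⟩
      · rintro (⟨_, h1, _⟩ | ⟨_, h1, col, h2⟩)
        · exact h1
        · exact ⟨H_unc (hS (Sm_sub S h2)), h1⟩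
    have h2 : Disjoint (univ.filter fun v : V => (φ v = none ∧ v ∈ co G w w') ∧
        ∀ col, (v, col) ∉ Sm c r G φ S)
        (univ.filter fun v : V => v ∈ co G w w' ∧ ∃ col, (v, col) ∈ Sm c r G φ S) := by
      rw [disjoint_filter]
      rintro v _ ⟨_, h3⟩ ⟨_, col, h4⟩
      exact h3 col h4
    rw [h1, card_union_of_disjoint h2]
    push_cast
    rfl
  have hnew : ((unc (newφ c r G φ S) ∩ co G w w').card : ℝ) ≤
      ((univ.filter fun v : V => (φ v = none ∧ v ∈ co G w w') ∧
        ∀ col, (v, col) ∉ Sm c r G φ S).card : ℝ) +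
      ((univ.filter fun v : V => v ∈ co G w w' ∧
        Killed c r G φ (Sm c r G φ S) v).card : ℝ) := by
    have h1 : (unc (newφ c r G φ S) ∩ co G w w').card ≤
        (univ.filter fun v : V => (φ v = none ∧ v ∈ co G w w') ∧
        ∀ col, (v, col) ∉ Sm c r G φ S).card +
        (univ.filter fun v : V => v ∈ co G w w' ∧ Killed c r G φ (Sm c r G φ S) v).card := by
      refine le_trans (card_le_card ?_) (card_union_le _ _)
      intro v hv
      rw [mem_inter, mem_unc, d1_none hS hno] at hv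
      obtain ⟨⟨h2, h3⟩, h4⟩ := hv
      rcases h3 with h3 | h3
      · exact mem_union_left _ (mem_filter.2 ⟨mem_univ _, ⟨h3, h4⟩, h2⟩)
      · exact mem_union_right _ (mem_filter.2 ⟨mem_univ _, h4, h3⟩)
    exact_mod_cast h1
  linarith

end Pool.Agent.Lib.H23D
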