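import Pool.Agent.Lib.H23D.Toks
import Pool.Agent.Lib.H23D.D1
import Pool.Agent.Lib.H23D.H15Cnt

/-!
# H23D, E3: new heavy mono pairs

Module C of H93B, see `H93B/PROOF.md` and `README.md`.
-/

set_option autoImplicit false

open Finset
open scoped Classical

namespace Pool.Agent.Lib.H23D

open Pool.Agent.Lib.Prob48
open Pool.Agent.Lib.H93B

variable {V : Type} [Fintype V] {G : SimpleGraph V} {k : ℕ} {φ : V → Option (Fin k)} {c : Cst}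
  {r : ℝ} {D : ℕ} {x C1 C3 L : ℝ}

/-- As `e1`: by `d1_mono` a heavy mono pair `(y, z)` of the new colouring with `y ∈ co w w'` is an old one, or
`(y, col) ∈ S`, `z ∈ cl φ col` (counted by `W3l_Z`), or `(z, col) ∈ S`, `y ∈ co w w' ∩ cl φ col` (`W3m_Z`), or
`(y, col), (z, col) ∈ S` (`W3p_Z`). -/
theorem e3 {S : Finset (V × Fin k)} (hS : S ⊆ (dat c r G φ).H)
    (hno : ∀ y ∈ S, ∀ z ∈ S, ¬ Conf c r G φ y z) (w w' : V) :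
    ((univ.filter fun f : V × V => f.1 ∈ co G w w' ∧ Mono (newφ c r G φ S) f.1 f.2 ∧
      c.ρ0 * r ^ 2 ≤ cd G f.1 f.2).card : ℝ) ≤
      ((univ.filter fun f : V × V => f.1 ∈ co G w w' ∧ Mono φ f.1 f.2 ∧
        c.ρ0 * r ^ 2 ≤ cd G f.1 f.2).card : ℝ) +
        (W3l c r G φ w w').Z S + (W3m c r G φ w w').Z S + (W3p c r G φ w w').Z S := by
  rw [W3l_Z, W3m_Z, W3p_Z]
  have hA : ((univ.filter fun f : V × V => (f.1 ∈ co G w w' ∧ c.ρ0 * r ^ 2 ≤ cd G f.1 f.2) ∧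
      ∃ col, (f.1, col) ∈ S ∧ φ f.2 = some col).card : ℝ) ≤
      ∑ t : V × Fin k, if t ∈ S then
      (if t.1 ∈ co G w w' ∧ t ∈ (dat c r G φ).H then
        (((cl φ t.2).filter fun z => c.ρ0 * r ^ 2 ≤ cd G t.1 z).card : ℝ) else 0) else 0 := by
    apply h15_sum _ (fun t : V × Fin k => if t ∈ S ∧ (t.1 ∈ co G w w' ∧ t ∈ (dat c r G φ).H) then
      ((cl φ t.2).filter fun z => c.ρ0 * r ^ 2 ≤ cd G t.1 z).image (fun z => (t.1, z)) else ∅)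
    · intro f hf
      obtain ⟨⟨h1, h2⟩, col, h4, h5⟩ := (mem_filter.1 hf).2
      refine ⟨(f.1, col), ?_⟩
      rw [if_pos ⟨h4, h1, hS h4⟩]
      exact mem_image.2 ⟨f.2, mem_filter.2 ⟨mem_cl.2 h5, h2⟩, rfl⟩
    · intro t
      by_cases hc : t ∈ S ∧ (t.1 ∈ co G w w' ∧ t ∈ (dat c r G φ).H)
      · rw [if_pos hc, if_pos hc.1, if_pos hc.2]
        exact_mod_cast card_image_le
      · rw [if_neg hc, card_empty, Nat.cast_zero]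
        split_ifs
        · exact Nat.cast_nonneg _
        · exact le_refl _
        · exact le_refl _
  have hB : ((univ.filter fun f : V × V => (f.1 ∈ co G w w' ∧ c.ρ0 * r ^ 2 ≤ cd G f.1 f.2) ∧
      ∃ col, (f.2, col) ∈ S ∧ φ f.1 = some col).card : ℝ) ≤
      ∑ t : V × Fin k, if t ∈ S then
      (if t ∈ (dat c r G φ).H then
        (((co G w w' ∩ cl φ t.2).filter fun y => c.ρ0 * r ^ 2 ≤ cd G y t.1).card : ℝ) else 0)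
      else 0 := by
    apply h15_sum _ (fun t : V × Fin k => if t ∈ S ∧ t ∈ (dat c r G φ).H then
      ((co G w w' ∩ cl φ t.2).filter fun y => c.ρ0 * r ^ 2 ≤ cd G y t.1).image
        (fun z => (z, t.1)) else ∅)
    · intro f hf
      obtain ⟨⟨h1, h2⟩, col, h4, h5⟩ := (mem_filter.1 hf).2
      refine ⟨(f.2, col), ?_⟩
      rw [if_pos ⟨h4, hS h4⟩]
      exact mem_image.2 ⟨f.1, mem_filter.2 ⟨mem_inter.2 ⟨h1, mem_cl.2 h5⟩, h2⟩, rfl⟩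
    · intro t
      by_cases hc : t ∈ S ∧ t ∈ (dat c r G φ).H
      · rw [if_pos hc, if_pos hc.1, if_pos hc.2]
        exact_mod_cast card_image_le
      · rw [if_neg hc, card_empty, Nat.cast_zero]
        split_ifs
        · exact Nat.cast_nonneg _
        · exact le_refl _
        · exact le_refl _
  have hC : ((univ.filter fun f : V × V => (f.1 ∈ co G w w' ∧ c.ρ0 * r ^ 2 ≤ cd G f.1 f.2) ∧
      f.1 ≠ f.2 ∧ ∃ col, (f.1, col) ∈ S ∧ (f.2, col) ∈ S).card : ℝ) ≤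
      ∑ t : V × V × Fin k, if (t.1, t.2.2) ∈ S ∧ (t.2.1, t.2.2) ∈ S then
      (if t.1 ≠ t.2.1 ∧ (t.1 ∈ co G w w' ∧ c.ρ0 * r ^ 2 ≤ cd G t.1 t.2.1) ∧
        (t.1, t.2.2) ∈ (dat c r G φ).H ∧ (t.2.1, t.2.2) ∈ (dat c r G φ).H then (1 : ℝ) else 0)
      else 0 := by
    apply h15_sum _ (fun t : V × V × Fin k => if ((t.1, t.2.2) ∈ S ∧ (t.2.1, t.2.2) ∈ S) ∧
      (t.1 ≠ t.2.1 ∧ (t.1 ∈ co G w w' ∧ c.ρ0 * r ^ 2 ≤ cd G t.1 t.2.1) ∧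
        (t.1, t.2.2) ∈ (dat c r G φ).H ∧ (t.2.1, t.2.2) ∈ (dat c r G φ).H)
      then {(t.1, t.2.1)} else ∅)
    · intro f hf
      obtain ⟨⟨h1, h2⟩, h5, col, h3, h4⟩ := (mem_filter.1 hf).2
      refine ⟨(f.1, f.2, col), ?_⟩
      rw [if_pos ⟨⟨h3, h4⟩, h5, ⟨h1, h2⟩, hS h3, hS h4⟩]
      exact mem_singleton.2 rfl
    · intro t
      by_cases hc : ((t.1, t.2.2) ∈ S ∧ (t.2.1, t.2.2) ∈ S) ∧
      (t.1 ≠ t.2.1 ∧ (t.1 ∈ co G w w' ∧ c.ρ0 * r ^ 2 ≤ cd G t.1 t.2.1) ∧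
        (t.1, t.2.2) ∈ (dat c r G φ).H ∧ (t.2.1, t.2.2) ∈ (dat c r G φ).H)
      · rw [if_pos hc, if_pos hc.1, if_pos hc.2, card_singleton, Nat.cast_one]
      · rw [if_neg hc, card_empty, Nat.cast_zero]
        split_ifs <;> norm_num
  have h1 := h15_or (fun f : V × V => f.1 ∈ co G w w' ∧ Mono (newφ c r G φ S) f.1 f.2 ∧
      c.ρ0 * r ^ 2 ≤ cd G f.1 f.2) (fun f : V × V => f.1 ∈ co G w w' ∧ Mono φ f.1 f.2 ∧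
      c.ρ0 * r ^ 2 ≤ cd G f.1 f.2)
      (fun f : V × V => ((f.1 ∈ co G w w' ∧ c.ρ0 * r ^ 2 ≤ cd G f.1 f.2) ∧
      ∃ col, (f.1, col) ∈ S ∧ φ f.2 = some col) ∨ ((f.1 ∈ co G w w' ∧ c.ρ0 * r ^ 2 ≤ cd G f.1 f.2) ∧
      ∃ col, (f.2, col) ∈ S ∧ φ f.1 = some col) ∨ ((f.1 ∈ co G w w' ∧ c.ρ0 * r ^ 2 ≤ cd G f.1 f.2) ∧ f.1 ≠ f.2 ∧
      ∃ col, (f.1, col) ∈ S ∧ (f.2, col) ∈ S)) (by
      rintro f ⟨h1, h3, h2⟩
      rcases d1_mono hS hno h3 with h4 | ⟨col, h4, h5⟩ | ⟨col, h4, h5⟩ | ⟨col, h4, h5⟩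
      · exact Or.inl ⟨h1, h4, h2⟩
      · exact Or.inr (Or.inl ⟨⟨h1, h2⟩, col, Sm_sub S h4, h5⟩)
      · exact Or.inr (Or.inr (Or.inl ⟨⟨h1, h2⟩, col, Sm_sub S h4, h5⟩))
      · exact Or.inr (Or.inr (Or.inr ⟨⟨h1, h2⟩, h3.1, col, Sm_sub S h4, Sm_sub S h5⟩)))
  have h2 := h15_or (fun f : V × V => ((f.1 ∈ co G w w' ∧ c.ρ0 * r ^ 2 ≤ cd G f.1 f.2) ∧
      ∃ col, (f.1, col) ∈ S ∧ φ f.2 = some col) ∨ ((f.1 ∈ co G w w' ∧ c.ρ0 * r ^ 2 ≤ cd G f.1 f.2) ∧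
      ∃ col, (f.2, col) ∈ S ∧ φ f.1 = some col) ∨ ((f.1 ∈ co G w w' ∧ c.ρ0 * r ^ 2 ≤ cd G f.1 f.2) ∧ f.1 ≠ f.2 ∧
      ∃ col, (f.1, col) ∈ S ∧ (f.2, col) ∈ S)) (fun f : V × V => (f.1 ∈ co G w w' ∧ c.ρ0 * r ^ 2 ≤ cd G f.1 f.2) ∧
      ∃ col, (f.1, col) ∈ S ∧ φ f.2 = some col) (fun f : V × V => ((f.1 ∈ co G w w' ∧ c.ρ0 * r ^ 2 ≤ cd G f.1 f.2) ∧
      ∃ col, (f.2, col) ∈ S ∧ φ f.1 = some col) ∨ ((f.1 ∈ co G w w' ∧ c.ρ0 * r ^ 2 ≤ cd G f.1 f.2) ∧ f.1 ≠ f.2 ∧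
      ∃ col, (f.1, col) ∈ S ∧ (f.2, col) ∈ S)) (fun f h => h)
  have h3 := h15_or (fun f : V × V => ((f.1 ∈ co G w w' ∧ c.ρ0 * r ^ 2 ≤ cd G f.1 f.2) ∧
      ∃ col, (f.2, col) ∈ S ∧ φ f.1 = some col) ∨ ((f.1 ∈ co G w w' ∧ c.ρ0 * r ^ 2 ≤ cd G f.1 f.2) ∧ f.1 ≠ f.2 ∧
      ∃ col, (f.1, col) ∈ S ∧ (f.2, col) ∈ S)) (fun f : V × V => (f.1 ∈ co G w w' ∧ c.ρ0 * r ^ 2 ≤ cd G f.1 f.2) ∧
      ∃ col, (f.2, col) ∈ S ∧ φ f.1 = some col) (fun f : V × V => (f.1 ∈ co G w w' ∧ c.ρ0 * r ^ 2 ≤ cd G f.1 f.2) ∧ f.1 ≠ f.2 ∧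
      ∃ col, (f.1, col) ∈ S ∧ (f.2, col) ∈ S) (fun f h => h)
  linarith

end Pool.Agent.Lib.H23D
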