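import Pool.Agent.Lib.H23D.Basic
import Pool.Agent.Lib.H93B.Ball

/-!
# H23D, P7: balls

Module C of H93B, see `H93B/PROOF.md` and `README.md`.
-/

set_option autoImplicit false

open Finset
open scoped Classical

namespace Pool.Agent.Lib.H23D

open Pool.Agent.Lib.Prob48
open Pool.Agent.Lib.H93B

variable {V : Type} [Fintype V] {G : SimpleGraph V} {D : ℕ}

theorem p7_self (n : ℕ) (v : V) : v ∈ ball G n v := self_mem_ball n v

theorem p7_mono {n m : ℕ} (h : n ≤ m) (v : V) : ball G n v ⊆ ball G m v := ball_mono h v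

theorem p7_adj {n : ℕ} {v u w : V} (h : u ∈ ball G n v) (h' : G.Adj u w) : w ∈ ball G (n + 1) v :=
  mem_ball_succ.2 ⟨u, h, Or.inr h'⟩

theorem p7_trans {n m : ℕ} {v u w : V} (h : u ∈ ball G n v) (h' : w ∈ ball G m u) :
    w ∈ ball G (n + m) v := ball_triangle h h'

theorem p7_symm {n : ℕ} {v u : V} (h : u ∈ ball G n v) : v ∈ ball G n u := mem_ball_comm.1 h

/-- two vertices with positive codegree have distance at most two -/
theorem p7_cd {u w : V} (h : 0 < cd G u w) : w ∈ ball G 2 u := by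
  unfold cd at h
  have h1 : 0 < (co G u w).card := by exact_mod_cast h
  obtain ⟨y, hy⟩ := card_pos.1 h1
  obtain ⟨h2, h3⟩ := mem_co.1 hy
  exact p7_adj (p7_adj (p7_self 0 u) h2) h3.symm

theorem p7_card (hdeg : ∀ v, (nb G v).card ≤ D) (n : ℕ) (v : V) :
    (ball G n v).card ≤ (D + 1) ^ n := card_ball_le D hdeg n v

end Pool.Agent.Lib.H23D
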