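import Pool.Agent.Lib.H23D.Toks
import Pool.Agent.Lib.H23D.P7

/-!
# H23D, LDefs: the good events at a vertex and the location of coordinates (definitions)
-/

set_option autoImplicit false

open Finset
open scoped Classical

namespace Pool.Agent.Lib.H23D

open Pool.Agent.Lib.Prob48
open Pool.Agent.Lib.H93B

variable {V : Type} [Fintype V] {k : ℕ}

/-- the vertex of a location -/
def lv : (V × Fin k) ⊕ (V × V) → V
  | Sum.inl z => z.1
  | Sum.inr f => f.1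

/-- (I1) at `v` -/
def G1 (r : ℝ) (G : SimpleGraph V) (φ : V → Option (Fin k)) (C : ℝ) (v : V) : Prop :=
  ((univ.filter fun f : V × V =>
    f.1 ∈ nb G v ∧ f.2 ∈ nb G v ∧ Mono φ f.1 f.2).card : ℝ) ≤ C * r ^ 2

/-- (I2) at `w`, `w'` -/
def G2 (G : SimpleGraph V) (φ : V → Option (Fin k)) (x : ℝ) (w w' : V) : Prop :=
  ((unc φ ∩ co G w w').card : ℝ) ≤ x * cd G w w'

/-- (I3) at `w`, `w'` -/
def G3 (c : Cst) (r : ℝ) (G : SimpleGraph V) (φ : V → Option (Fin k)) (C : ℝ) (w w' : V) : Prop :=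
  ((univ.filter fun f : V × V =>
    f.1 ∈ co G w w' ∧ Mono φ f.1 f.2 ∧ c.ρ0 * r ^ 2 ≤ cd G f.1 f.2).card : ℝ) ≤ C * cd G w w'

/-- the bounds for the functionals anchored at `v` -/
def G4 (F : Fam V k) (om : V × Fin k → ℝ) (L : ℝ) (v : V) : Prop :=
  ∀ f, F.anc f = v → ∀ B, tf (F.w f) (F.ρ f) om B ≤ L * F.β f

/-- everything is good at `v` -/
def GoodAt (c : Cst) (r : ℝ) (G : SimpleGraph V) (F : Fam V k) (φ : V → Option (Fin k))
    (om : V × Fin k → ℝ) (x C1 C3 L : ℝ) (v : V) : Prop :=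
  G1 r G φ C1 v ∧
    (∀ w', v ≠ w' → c.ρ0 * r ^ 2 ≤ cd G v w' → G2 G φ x v w' ∧ G3 c r G φ C3 v w') ∧
    G4 F om L v

end Pool.Agent.Lib.H23D
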