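import Pool.Agent.Lib.H23D.P1
import Pool.Agent.Lib.H23D.LDefs

/-!
# H23D, F1: the functionals

Module C of H93B, see `H93B/PROOF.md` and `README.md`.
-/

set_option autoImplicit false

open Finset
open scoped Classical

namespace Pool.Agent.Lib.H23D

open Pool.Agent.Lib.Prob48
open Pool.Agent.Lib.H93B

variable {V : Type} [Fintype V] {G : SimpleGraph V} {k : ℕ} {φ : V → Option (Fin k)} {c : Cst}
  {r : ℝ} {D : ℕ} {x C1 C3 L : ℝ}

theorem f1_nonneg {X T : Type} [Fintype T] (w : T → ℝ) (ρ : T → Finset X) (om : X → ℝ)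
    (hw : ∀ t, 0 ≤ w t) (hom : ∀ z, 0 ≤ om z) (B : Finset X) : 0 ≤ tf w ρ om B := by
  unfold tf
  apply sum_nonneg
  intro t _
  split_ifs
  · exact mul_nonneg (hw t) (prod_nonneg fun x _ => hom x)
  · exact le_refl _

theorem f1_newom {V : Type} [Fintype V] {k : ℕ} (om : V × Fin k → ℝ) (hom : ∀ z, 0 ≤ om z)
    (A : Finset (V × Fin k)) (z : V × Fin k) : 0 ≤ newom om A z := by
  unfold newom
  have := hom z
  split_ifs <;> linarith

/-- `DomFor 6 (m1 * (m + 1)) (max 1 Cw) C'` with `om0 = 1 / r ^ 4` (`state.o1`), `β = L β_f` (`state.o3`), `act = s.act`; the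
hypothesis on `P(Mk ⊆ act)` is `p1` (`(Cw / r ^ 4) ^ |Mk| ≤ ∏ max 1 Cw * (1 / r ^ 4)`). Markov
(`Weights.P_le_of_le` for the power `r' = m1 * (m + 1)`; `tf ≥ 0`): the probability is at most
`(C' L β)^r' / (L Y β)^r' = C'^r' / Y^r' = C'^r' / r ^ (m + 1) ≤ 1 / r ^ m` for `r ≥ C'^r'`. `newom` is the function in
`DomFor`. -/
theorem f1 (c : Cst) (Cw : ℝ) (hCw : 0 ≤ Cw) (nc d m1 m2 : ℕ)
    (dom : ∀ (q r : ℕ) (C : ℝ), 1 ≤ C → ∃ C' : ℝ, 1 ≤ C' ∧ DomFor q r C C') (m : ℕ) : ∃ r0 : ℝ,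
    ∀ (V : Type) [Fintype V] (k D : ℕ) (r Y : ℝ) (G : SimpleGraph V) (F : Fam V k)
      (φ : V → Option (Fin k)) (om : V × Fin k → ℝ) (x C1 C3 L : ℝ) (s : Sel V (Fin k) (V × V)),
      RS c Cw nc d m1 m2 r Y D G F φ om x C1 C3 L s → r0 ≤ r →
      ∀ (f : F.Φ) (B : Finset (V × Fin k)),
        s.μ.P (fun u => ¬ tf (F.w f) (F.ρ f) (newom om (s.act u)) B ≤ L * Y * F.β f) ≤
          1 / r ^ m := by
  obtain ⟨C', hC'1, hdom⟩ := dom 6 (m1 * (m + 1)) (max 1 Cw) (le_max_left _ _)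
  refine ⟨C' ^ (m1 * (m + 1)), ?_⟩
  intro V _ k D r Y G F φ om x C1 C3 L s h hr f B
  have hr1 := h.r_one
  have hr0 : 0 < r := by linarith
  have hβ := h.fam.β_pos f
  have hL0 : 0 < L := by linarith [h.L_one]
  have hY0 : 0 < Y := by linarith [h.Y_one]
  have hC'0 : 0 < C' := by linarith
  have hom0 : ∀ z, 0 ≤ om z := fun z => le_trans (by positivity) (h.state.o1 z)
  have hp : ∀ Mk : Finset (V × Fin k), s.μ.P (fun v => Mk ⊆ s.act v) ≤
      ∏ z ∈ Mk, (max 1 Cw) * ((fun _ : V × Fin k => 1 / r ^ 4) z) := by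
    intro Mk
    refine (p1 h.base (by positivity) hCw Mk).trans ?_
    rw [prod_const]
    apply pow_le_pow_left₀ (by positivity)
    rw [mul_one_div]
    exact div_le_div_of_nonneg_right (le_max_right _ _) (by positivity)
  have hE := hdom (V × Fin k) s.ι s.Val s.μ s.act om (fun _ => 1 / r ^ 4) (F.T f) (F.w f) (F.ρ f)
    (fun _ => by positivity) h.state.o1 hp (h.fam.nonneg f) (h.fam.card_le f) B (L * F.β f)
    (fun B' _ => h.state.o3 f B')
  have hE' : s.μ.E (fun u => tf (F.w f) (F.ρ f) (newom om (s.act u)) B ^ (m1 * (m + 1))) ≤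
      (C' * (L * F.β f)) ^ (m1 * (m + 1)) := by
    convert hE using 6
    unfold newom
    congr
  have hc0 : 0 < (L * Y * F.β f) ^ (m1 * (m + 1)) := by positivity
  have h1 := s.μ.P_le_of_le
    (A := fun u => ¬ tf (F.w f) (F.ρ f) (newom om (s.act u)) B ≤ L * Y * F.β f)
    (f := fun u => tf (F.w f) (F.ρ f) (newom om (s.act u)) B ^ (m1 * (m + 1)))
    ((L * Y * F.β f) ^ (m1 * (m + 1))) hc0
    (fun u => pow_nonneg (f1_nonneg _ _ _ (h.fam.nonneg f) (f1_newom om hom0 _) B) _)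
    (fun u hu => pow_le_pow_left₀ (by positivity) (not_le.mp hu).le _)
  refine h1.trans ?_
  have hYN : Y ^ (m1 * (m + 1)) = r ^ (m + 1) := by rw [pow_mul, h.Y_pow]
  rw [div_le_div_iff₀ hc0 (by positivity), one_mul]
  calc s.μ.E (fun u => tf (F.w f) (F.ρ f) (newom om (s.act u)) B ^ (m1 * (m + 1))) * r ^ m
      ≤ (C' * (L * F.β f)) ^ (m1 * (m + 1)) * r ^ m :=
        mul_le_mul_of_nonneg_right hE' (by positivity)
    _ = C' ^ (m1 * (m + 1)) * ((L * F.β f) ^ (m1 * (m + 1)) * r ^ m) := by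
        rw [mul_pow]
        ring
    _ ≤ r * ((L * F.β f) ^ (m1 * (m + 1)) * r ^ m) :=
        mul_le_mul_of_nonneg_right hr (by positivity)
    _ = (L * F.β f) ^ (m1 * (m + 1)) * r ^ (m + 1) := by ring
    _ = (L * Y * F.β f) ^ (m1 * (m + 1)) := by
        rw [← hYN, ← mul_pow]
        congr 1
        ring

end Pool.Agent.Lib.H23D
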