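import Pool.Agent.Lib.H23D.Basic

/-!
# H23D, L0: RS gives Gs

Module C of H93B, see `H93B/PROOF.md` and `README.md`.
-/

set_option autoImplicit false

open Finset
open scoped Classical

namespace Pool.Agent.Lib.H23D

open Pool.Agent.Lib.Prob48
open Pool.Agent.Lib.H93B

variable {V : Type} [Fintype V] {G : SimpleGraph V} {k : ℕ} {φ : V → Option (Fin k)} {c : Cst}
  {r : ℝ} {D : ℕ} {x C1 C3 L : ℝ}

/-- the number of neighbours of a colour, from the functionals -/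
theorem l0_nc {F : Fam V k} {om : V × Fin k → ℝ} (hr : 1 ≤ r) (hF : FamHyp r G F)
    (hst : IsState c r G F φ om x C1 C3 L) (v : V) (col : Fin k) :
    ((nb G v ∩ cl φ col).card : ℝ) ≤ L := by
  have hom : ∀ z, 0 ≤ om z := fun z => le_trans (by positivity) (hst.o1 z)
  have h1 := hF.ctrl om L hom hst.o3 v col
  refine le_trans ?_ h1
  have h2 : ((nb G v ∩ cl φ col).card : ℝ) = ∑ _u ∈ nb G v ∩ cl φ col, (1 : ℝ) := by simp
  rw [h2]
  calc ∑ _u ∈ nb G v ∩ cl φ col, (1 : ℝ)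
      ≤ ∑ u ∈ nb G v ∩ cl φ col, om (u, col) :=
        sum_le_sum fun u hu => hst.o2 u col (mem_cl.1 (mem_inter.1 hu).2)
    _ ≤ ∑ u ∈ nb G v, om (u, col) :=
        sum_le_sum_of_subset_of_nonneg inter_subset_left fun u _ _ => hom _

/-- `Gs` from the hypotheses of `RoundFor` -/
theorem gs_of_state {F : Fam V k} {om : V × Fin k → ℝ} (hc : CstHyp c) (hr : 1 ≤ r)
    (hr3 : r ^ 3 = D) (hk : (k : ℝ) ≤ c.ε / 2 * r ^ 4) (hk' : 2 / 5 * c.ε * r ^ 4 ≤ k)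
    (hdeg : ∀ v, (nb G v).card ≤ D) (hF : FamHyp r G F)
    (hst : IsState c r G F φ om x C1 C3 L) (hx : c.γ ≤ x) (hx1 : x ≤ 1) (h1 : 0 ≤ C1)
    (h3 : 0 ≤ C3) (h1m : C1 ≤ c.C1m) (h3m : C3 ≤ c.C3m) (hL : 1 ≤ L) :
    Gs c r D G φ x C1 C3 L where
  hc := hc
  r_one := hr
  r_cube := hr3
  k_le := hk
  k_ge := hk'
  deg := hdeg
  v1 := hst.v1
  v2 := hst.v2
  v3 := hst.v3
  i1 := hst.i1
  i2 := hst.i2
  i3 := hst.i3
  nc := l0_nc hr hF hst
  x_ge := hx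
  x_le := hx1
  C1_nonneg := h1
  C3_nonneg := h3
  C1_le := h1m
  C3_le := h3m
  L_one := hL

/-- Everything is a field of `RS` or `IsState`, except `nc`: by `fam.ctrl` (with `state.o1`, `state.o3`)
`∑_(u ∈ nb v) om (u, col) ≤ L`, and every `u ∈ nb v` of colour `col` contributes at least one (`state.o2`), the
others at least `0`. -/
theorem rs_gs {Cw : ℝ} {nc d m1 m2 : ℕ} {Y : ℝ} {F : Fam V k} {om : V × Fin k → ℝ}
    {s : Sel V (Fin k) (V × V)} (h : RS c Cw nc d m1 m2 r Y D G F φ om x C1 C3 L s) :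
    Gs c r D G φ x C1 C3 L :=
  gs_of_state h.hc h.r_one h.r_cube h.k_le h.k_ge h.deg h.fam h.state h.x_ge h.x_le h.C1_nonneg
    h.C3_nonneg h.C1_le h.C3_le h.L_one

end Pool.Agent.Lib.H23D
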