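import Pool.Agent.Lib.H23D.NBase

/-!
# H23D, N1: counts for W1l

Module C of H93B, see `H93B/PROOF.md` and `README.md`.
-/

set_option autoImplicit false

open Finset
open scoped Classical

namespace Pool.Agent.Lib.H23D

open Pool.Agent.Lib.Prob48
open Pool.Agent.Lib.H93B

variable {V : Type} [Fintype V] {G : SimpleGraph V} {k : ℕ} {φ : V → Option (Fin k)} {c : Cst}
  {r : ℝ} {D : ℕ} {x C1 C3 L : ℝ}

/-- `∑_(u ∈ N(v)) ∑_col |nb v ∩ cl φ col| ≤ D * D = r ^ 6` (the classes are disjoint). -/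
theorem n1_sum (h : Gs c r D G φ x C1 C3 L) (v : V) : (W1l c r G φ v).sum ≤ r ^ 6 := by
  have h0 : ∑ col : Fin k, ((nb G v ∩ cl φ col).card : ℝ) ≤ r ^ 3 := by
    have h1 : ∑ col : Fin k, (nb G v ∩ cl φ col).card = (univ.biUnion fun col : Fin k => nb G v ∩ cl φ col).card := by
      rw [card_biUnion]
      intro a _ b _ hab
      rw [Function.onFun, Finset.disjoint_left]
      intro w hw hw'
      have h3 := (mem_cl.1 (mem_inter.1 hw).2).symm.trans (mem_cl.1 (mem_inter.1 hw').2)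
      exact hab (Option.some_injective _ h3)
    have h2 : (univ.biUnion fun col : Fin k => nb G v ∩ cl φ col).card ≤ (nb G v).card :=
      card_le_card (biUnion_subset.2 fun col _ => inter_subset_left)
    rw [h.r_cube, ← Nat.cast_sum, h1]
    exact_mod_cast h2.trans (h.deg v)
  show (∑ t : V × Fin k, if G.Adj v t.1 ∧ t ∈ (dat c r G φ).H then ((nb G v ∩ cl φ t.2).card : ℝ) else 0) ≤ r ^ 6
  rw [Fintype.sum_prod_type]
  have h1 : ∀ u : V, (∑ col : Fin k, if G.Adj v u ∧ (u, col) ∈ (dat c r G φ).H then ((nb G v ∩ cl φ col).card : ℝ) else 0) ≤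
      if u ∈ nb G v then r ^ 3 else 0 := by
    intro u
    by_cases hu : G.Adj v u
    · rw [if_pos (mem_nb.2 hu)]
      refine le_trans (sum_le_sum fun col _ => ?_) h0
      split_ifs
      · exact le_rfl
      · exact Nat.cast_nonneg _
    · rw [if_neg fun h => hu (mem_nb.1 h)]
      refine le_of_eq (sum_eq_zero fun col _ => ?_)
      rw [if_neg fun h => hu h.1]
  refine (sum_le_sum fun u _ => h1 u).trans ?_
  rw [sum_ite_mem, univ_inter, sum_const, nsmul_eq_mul]
  have h2 : ((nb G v).card : ℝ) ≤ r ^ 3 := by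
    rw [h.r_cube]
    exact_mod_cast h.deg v
  have hr : 0 < r := lt_of_lt_of_le one_pos h.r_one
  calc ((nb G v).card : ℝ) * r ^ 3 ≤ r ^ 3 * r ^ 3 := mul_le_mul_of_nonneg_right h2 (by positivity)
    _ = r ^ 6 := by ring

/-- `h.nc` -/
theorem n1_w (h : Gs c r D G φ x C1 C3 L) (v : V) (t : V × Fin k) : (W1l c r G φ v).w t ≤ L := by
  show (if G.Adj v t.1 ∧ t ∈ (dat c r G φ).H then ((nb G v ∩ cl φ t.2).card : ℝ) else 0) ≤ L
  split_ifs
  · exact h.nc v t.2
  · linarith [h.L_one]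

end Pool.Agent.Lib.H23D
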