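import Pool.Agent.Lib.H23D.NBase

/-!
# H23D, N2: counts for W1p

Module C of H93B, see `H93B/PROOF.md` and `README.md`.
-/

set_option autoImplicit false

open Finset
open scoped Classical

namespace Pool.Agent.Lib.H23D

open Pool.Agent.Lib.Prob48
open Pool.Agent.Lib.H93B

variable {V : Type} [Fintype V] {G : SimpleGraph V} {k : ℕ} {φ : V → Option (Fin k)} {c : Cst}
  {r : ℝ} {D : ℕ} {x C1 C3 L : ℝ}

/-- at most `D * D * k` triples -/
theorem n2_sum (h : Gs c r D G φ x C1 C3 L) (v : V) : (W1p c r G φ v).sum ≤ r ^ 6 * k := by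
  show (∑ t : V × V × Fin k, if t.1 ≠ t.2.1 ∧ (G.Adj v t.1 ∧ G.Adj v t.2.1) ∧
    (t.1, t.2.2) ∈ (dat c r G φ).H ∧ (t.2.1, t.2.2) ∈ (dat c r G φ).H then (1 : ℝ) else 0) ≤ _
  rw [nb_sum1]
  refine (nb_inj _ (nb G v ×ˢ nb G v ×ˢ (univ : Finset (Fin k))) (fun t => t) ?_ fun t _ t' _ e => e).trans ?_
  · intro t ht
    obtain ⟨_, ⟨h1, h2⟩, _⟩ := (mem_filter.1 ht).2
    exact mem_product.2 ⟨mem_nb.2 h1, mem_product.2 ⟨mem_nb.2 h2, mem_univ _⟩⟩
  · rw [card_product, card_product, card_univ, Fintype.card_fin, Nat.cast_mul, Nat.cast_mul]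
    have h2 : ((nb G v).card : ℝ) ≤ r ^ 3 := by
      rw [h.r_cube]
      exact_mod_cast h.deg v
    have hr : 0 < r := lt_of_lt_of_le one_pos h.r_one
    calc ((nb G v).card : ℝ) * ((nb G v).card * k) ≤ r ^ 3 * (r ^ 3 * k) := by gcongr
      _ = r ^ 6 * k := by ring

/-- one site fixed: at most `D` possibilities for the other vertex (`j = 0` or `j = 1`) -/
theorem n2_one (h : Gs c r D G φ x C1 C3 L) (v : V) (j : Fin 2) (z : V × Fin k) :
    (∑ t : V × V × Fin k, if (![(t.1, t.2.2), (t.2.1, t.2.2)] : Fin 2 → V × Fin k) j = z then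
      (W1p c r G φ v).w t else 0) ≤ r ^ 3 := by
  show (∑ t : V × V × Fin k, if (![(t.1, t.2.2), (t.2.1, t.2.2)] : Fin 2 → V × Fin k) j = z then
    (if t.1 ≠ t.2.1 ∧ (G.Adj v t.1 ∧ G.Adj v t.2.1) ∧
    (t.1, t.2.2) ∈ (dat c r G φ).H ∧ (t.2.1, t.2.2) ∈ (dat c r G φ).H then (1 : ℝ) else 0) else 0) ≤ _
  rw [nb_sum]
  have h2 : ((nb G v).card : ℝ) ≤ r ^ 3 := by
    rw [h.r_cube]
    exact_mod_cast h.deg v
  refine le_trans ?_ h2
  fin_cases j
  · refine nb_inj _ (nb G v) (fun t => t.2.1) ?_ ?_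
    · intro t ht
      exact mem_nb.2 (mem_filter.1 ht).2.2.2.1.2
    · intro t ht t' ht' e
      have e1 : ((t.1, t.2.2) : V × Fin k) = z := (mem_filter.1 ht).2.1
      have e2 : ((t'.1, t'.2.2) : V × Fin k) = z := (mem_filter.1 ht').2.1
      obtain ⟨e3, e4⟩ := Prod.mk.inj (e1.trans e2.symm)
      exact Prod.ext e3 (Prod.ext e e4)
  · refine nb_inj _ (nb G v) (fun t => t.1) ?_ ?_
    · intro t ht
      exact mem_nb.2 (mem_filter.1 ht).2.2.2.1.1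
    · intro t ht t' ht' e
      have e1 : ((t.2.1, t.2.2) : V × Fin k) = z := (mem_filter.1 ht).2.1
      have e2 : ((t'.2.1, t'.2.2) : V × Fin k) = z := (mem_filter.1 ht').2.1
      obtain ⟨e3, e4⟩ := Prod.mk.inj (e1.trans e2.symm)
      exact Prod.ext e (Prod.ext e3 e4)

/-- both sites fixed: one triple -/
theorem n2_two (v : V) (y z : V × Fin k) :
    (∑ t : V × V × Fin k, if (t.1, t.2.2) = y ∧ (t.2.1, t.2.2) = z then
      (W1p c r G φ v).w t else 0) ≤ 1 := by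
  show (∑ t : V × V × Fin k, if (t.1, t.2.2) = y ∧ (t.2.1, t.2.2) = z then
    (if t.1 ≠ t.2.1 ∧ (G.Adj v t.1 ∧ G.Adj v t.2.1) ∧
    (t.1, t.2.2) ∈ (dat c r G φ).H ∧ (t.2.1, t.2.2) ∈ (dat c r G φ).H then (1 : ℝ) else 0) else 0) ≤ _
  rw [nb_sum]
  refine (nb_inj _ ({()} : Finset Unit) (fun _ => ()) (fun _ _ => mem_singleton_self _) ?_).trans (by simp)
  intro t ht t' ht' _
  have e1 := (mem_filter.1 ht).2.1
  have e2 := (mem_filter.1 ht').2.1
  obtain ⟨e3, e4⟩ := Prod.mk.inj (e1.1.trans e2.1.symm)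
  obtain ⟨e5, _⟩ := Prod.mk.inj (e1.2.trans e2.2.symm)
  exact Prod.ext e3 (Prod.ext e5 e4)

end Pool.Agent.Lib.H23D
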