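import Pool.Agent.Lib.H23D.NBase
import Pool.Agent.Lib.H23D.C1

/-!
# H23D, N2B: label sharing pairs in W1p

Module C of H93B, see `H93B/PROOF.md` and `README.md`.
-/

set_option autoImplicit false

open Finset
open scoped Classical

namespace Pool.Agent.Lib.H23D

open Pool.Agent.Lib.Prob48
open Pool.Agent.Lib.H93B

variable {V : Type} [Fintype V] {G : SimpleGraph V} {k : ℕ} {φ : V → Option (Fin k)} {c : Cst}
  {r : ℝ} {D : ℕ} {x C1 C3 L : ℝ}

/-- A triple `(a, b, col)` with `a ∈ N(v)` whose two sites share a label `f`: `a ∈ labA f` (at most `C1 r²` such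
`f`, `c1_lab`), `col ∈ labB f`, `b ∈ labA f` (at most `K0 r²` each, `c1_A`, `c1_B`). With `|N(v)| ≤ r ^ 3`:
`r ^ 3 * C1 r² * (K0 r²)²`. (`∃ i j, i ≠ j ∧ Share ..` in `Fin 2` gives `Share` of the two sites in some order;
`share_symm`.) -/
theorem n2b (h : Gs c r D G φ x C1 C3 L) (v : V) :
    (W1p c r G φ v).sh (dat c r G φ).Share ≤ C1 * c.K0 ^ 2 * r ^ 9 := by
  show (∑ t : V × V × Fin k, if (∃ i j : Fin 2, i ≠ j ∧ (dat c r G φ).Share
      ((![(t.1, t.2.2), (t.2.1, t.2.2)] : Fin 2 → V × Fin k) i) ((![(t.1, t.2.2), (t.2.1, t.2.2)] : Fin 2 → V × Fin k) j)) then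
    (if t.1 ≠ t.2.1 ∧ (G.Adj v t.1 ∧ G.Adj v t.2.1) ∧
    (t.1, t.2.2) ∈ (dat c r G φ).H ∧ (t.2.1, t.2.2) ∈ (dat c r G φ).H then (1 : ℝ) else 0) else 0) ≤ _
  rw [nb_sum]
  have hK := K0_pos h.hc
  have hr : 0 < r := lt_of_lt_of_le one_pos h.r_one
  have hsub : (univ.filter fun t : V × V × Fin k => (∃ i j : Fin 2, i ≠ j ∧ (dat c r G φ).Share
      ((![(t.1, t.2.2), (t.2.1, t.2.2)] : Fin 2 → V × Fin k) i) ((![(t.1, t.2.2), (t.2.1, t.2.2)] : Fin 2 → V × Fin k) j)) ∧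
      (t.1 ≠ t.2.1 ∧ (G.Adj v t.1 ∧ G.Adj v t.2.1) ∧
      (t.1, t.2.2) ∈ (dat c r G φ).H ∧ (t.2.1, t.2.2) ∈ (dat c r G φ).H)) ⊆
      (nb G v).biUnion fun a => (univ.filter fun f : V × V => a ∈ labA c r G φ f).biUnion fun f =>
        (labA c r G φ f ×ˢ labB c r G φ f).image fun p => (a, p.1, p.2) := by
    intro t ht
    obtain ⟨⟨i, j, hij, hs⟩, _, ⟨h1, h2⟩, _⟩ := (mem_filter.1 ht).2
    have hs' : (dat c r G φ).Share (t.1, t.2.2) (t.2.1, t.2.2) := by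
      fin_cases i <;> fin_cases j
      · exact absurd rfl hij
      · exact hs
      · exact share_symm hs
      · exact absurd rfl hij
    obtain ⟨f, hf1, hf2⟩ := share_iff.1 hs'
    rw [mem_J] at hf1 hf2
    exact mem_biUnion.2 ⟨t.1, mem_nb.2 h1, mem_biUnion.2 ⟨f, mem_filter.2 ⟨mem_univ _, hf1.1⟩,
      mem_image.2 ⟨(t.2.1, t.2.2), mem_product.2 ⟨hf2.1, hf2.2⟩, rfl⟩⟩⟩
  have h1 := (card_le_card hsub).trans (card_biUnion_le.trans (sum_le_sum fun a _ => card_biUnion_le.trans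
    (sum_le_sum fun f _ => card_image_le.trans (card_product _ _).le)))
  refine (Nat.cast_le.2 h1).trans ?_
  rw [Nat.cast_sum]
  have h2 : ∀ a ∈ nb G v, ((∑ f ∈ univ.filter (fun f : V × V => a ∈ labA c r G φ f),
      (labA c r G φ f).card * (labB c r G φ f).card : ℕ) : ℝ) ≤ (C1 * r ^ 2) * ((c.K0 * r ^ 2) * (c.K0 * r ^ 2)) := by
    intro a _
    rw [Nat.cast_sum]
    have h3 : ∑ f ∈ univ.filter (fun f : V × V => a ∈ labA c r G φ f), (((labA c r G φ f).card * (labB c r G φ f).card : ℕ) : ℝ) ≤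
        ∑ f ∈ univ.filter (fun f : V × V => a ∈ labA c r G φ f), ((c.K0 * r ^ 2) * (c.K0 * r ^ 2)) := by
      refine sum_le_sum fun f _ => ?_
      rw [Nat.cast_mul]
      exact mul_le_mul (c1_A h f) (c1_B h f) (Nat.cast_nonneg _) (by positivity)
    rw [sum_const, nsmul_eq_mul] at h3
    exact h3.trans (mul_le_mul_of_nonneg_right (c1_lab h a) (by positivity))
  refine (sum_le_sum h2).trans ?_
  rw [sum_const, nsmul_eq_mul]
  have h3 : ((nb G v).card : ℝ) ≤ r ^ 3 := by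
    rw [h.r_cube]
    exact_mod_cast h.deg v
  have hC := h.C1_nonneg
  calc ((nb G v).card : ℝ) * ((C1 * r ^ 2) * ((c.K0 * r ^ 2) * (c.K0 * r ^ 2)))
      ≤ r ^ 3 * ((C1 * r ^ 2) * ((c.K0 * r ^ 2) * (c.K0 * r ^ 2))) := mul_le_mul_of_nonneg_right h3 (by positivity)
    _ = C1 * c.K0 ^ 2 * r ^ 9 := by ring

end Pool.Agent.Lib.H23D
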