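import Pool.Agent.Lib.H23D.P1

/-!
# H23D, P2: means of tuple statistics

Module C of H93B, see `H93B/PROOF.md` and `README.md`.
-/

set_option autoImplicit false

open Finset
open scoped Classical

namespace Pool.Agent.Lib.H23D

open Pool.Agent.Lib.Prob48
open Pool.Agent.Lib.H93B

variable {V : Type} [Fintype V] {G : SimpleGraph V} {k : ℕ} {φ : V → Option (Fin k)} {c : Cst}
  {r : ℝ} {D : ℕ} {x C1 C3 L : ℝ}

variable {Q R M : Type} [Fintype Q] [Fintype R] [Fintype M] {DD : SelData Q R M} {s : Sel Q R M}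
  {N Cw a lam sig kill : ℝ} {nc d : ℕ}


theorem p2_mem {X : Type} (F : Tk X) {t : F.T} {z : X} : z ∈ F.ρ t ↔ ∃ i, F.site t i = z := by
  unfold Tk.ρ
  rw [mem_image]
  exact ⟨fun ⟨i, _, h⟩ => ⟨i, h⟩, fun ⟨i, h⟩ => ⟨i, mem_univ i, h⟩⟩

theorem p2_EZ (F : Tk (Q × R)) : s.μ.E (fun v => F.Z (s.S v)) =
    ∑ t, F.w t * s.μ.P (fun v => F.ρ t ⊆ s.S v) := by
  unfold Tk.Z st
  rw [s.μ.E_sum]
  refine Finset.sum_congr rfl fun t _ => ?_
  unfold Weights.P
  rw [← s.μ.E_mul_left]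
  congr 1
  funext v
  split_ifs <;> simp

/-- `E Z = ∑_t w_t P(ρ t ⊆ S)` (`E_sum`, `E_mul_left`; `Z = st w ρ`). Only `t` with `w t ≠ 0` matter; then
`(ρ t).card = q` (`Tk.ρ_card`), `ρ t ⊆ H`. If no two sites share a label: `hp.joint`. Otherwise
`P(ρ t ⊆ S) ≤ P(ρ t ⊆ act) ≤ (Cw / N) ^ q` (`hb.act`, `p1`), and `t` is counted in `F.sh`. In both cases the
bound is at most the sum of the two terms (all terms are nonnegative). -/
theorem p2 (hb : SelBase DD s N Cw nc d) (hp : SelProb DD s N a lam sig kill) (hN : 0 < N)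
    (hC : 0 ≤ Cw) (hs : 0 ≤ sig * a) (F : Tk (Q × R)) (hq : F.q ≤ 4) (hw : ∀ t, 0 ≤ F.w t)
    (hinj : ∀ t, F.w t ≠ 0 → Function.Injective (F.site t))
    (hmem : ∀ t, F.w t ≠ 0 → ∀ j, F.site t j ∈ DD.H) :
    s.μ.E (fun v => F.Z (s.S v)) ≤
      2 * (sig * a / N) ^ F.q * F.sum + (Cw / N) ^ F.q * F.sh DD.Share := by
  have hcn : 0 ≤ Cw / N := div_nonneg hC hN.le
  have hsn : 0 ≤ sig * a / N := div_nonneg hs hN.le
  rw [p2_EZ]
  unfold Tk.sum Tk.sh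
  rw [Finset.mul_sum, Finset.mul_sum, ← Finset.sum_add_distrib]
  refine Finset.sum_le_sum fun t _ => ?_
  by_cases hwt : F.w t = 0
  · rw [hwt]
    simp
  have hcard := F.ρ_card (hinj t hwt)
  have hsub : F.ρ t ⊆ DD.H := F.ρ_sub.2 (hmem t hwt)
  by_cases hsh : ∃ i j, i ≠ j ∧ DD.Share (F.site t i) (F.site t j)
  · rw [if_pos hsh]
    have h1 : s.μ.P (fun v => F.ρ t ⊆ s.S v) ≤ (Cw / N) ^ F.q := by
      rw [← hcard]
      refine le_trans ?_ (p1 hb hN hC (F.ρ t))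
      exact s.μ.P_mono fun v hv => hv.trans (hb.act v)
    have h2 : F.w t * s.μ.P (fun v => F.ρ t ⊆ s.S v) ≤ (Cw / N) ^ F.q * F.w t := by
      rw [mul_comm]
      exact mul_le_mul_of_nonneg_right h1 (hw t)
    have h3 : 0 ≤ 2 * (sig * a / N) ^ F.q * F.w t := by
      have := hw t
      positivity
    linarith
  · rw [if_neg hsh, mul_zero, add_zero]
    have h1 : s.μ.P (fun v => F.ρ t ⊆ s.S v) ≤ 2 * (sig * a / N) ^ F.q := by
      rw [← hcard]
      refine hp.joint (F.ρ t) hsub (hcard.trans_le hq) ?_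
      intro x hx y hy hxy hxy'
      obtain ⟨i, rfl⟩ := (p2_mem F).1 hx
      obtain ⟨j, rfl⟩ := (p2_mem F).1 hy
      exact hsh ⟨i, j, fun h => hxy (by rw [h]), hxy'⟩
    rw [mul_comm]
    exact mul_le_mul_of_nonneg_right h1 (hw t)

end Pool.Agent.Lib.H23D
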