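import Pool.Agent.Lib.H23D.Toks

/-!
# H23D, P3: means of linear statistics and of the label statistic

Module C of H93B, see `H93B/PROOF.md` and `README.md`.
-/

set_option autoImplicit false

open Finset
open scoped Classical

namespace Pool.Agent.Lib.H23D

open Pool.Agent.Lib.Prob48
open Pool.Agent.Lib.H93B

variable {V : Type} [Fintype V] {G : SimpleGraph V} {k : ℕ} {φ : V → Option (Fin k)} {c : Cst}
  {r : ℝ} {D : ℕ} {x C1 C3 L : ℝ}

variable {Q R M : Type} [Fintype Q] [Fintype R] [Fintype M] {DD : SelData Q R M} {s : Sel Q R M}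
  {N Cw a lam sig kill : ℝ} {nc d : ℕ}


theorem p3_EZ {X ι Val : Type} [Fintype ι] [DecidableEq ι] [Fintype Val]
    (μ : Weights (fun _ : ι => Val)) (S : (ι → Val) → Finset X) (F : Tk X) :
    μ.E (fun v => F.Z (S v)) = ∑ t, F.w t * μ.P (fun v => F.ρ t ⊆ S v) := by
  unfold Tk.Z st
  rw [μ.E_sum]
  refine Finset.sum_congr rfl fun t _ => ?_
  unfold Weights.P
  rw [← μ.E_mul_left]
  congr 1
  funext v
  split_ifs <;> simp

theorem p3_P {X ι Val : Type} [Fintype ι] [DecidableEq ι] [Fintype Val]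
    (μ : Weights (fun _ : ι => Val)) (S : (ι → Val) → Finset X) (F : Tk X) (hq : F.q = 1)
    (t : F.T) (j : Fin F.q) :
    μ.P (fun v => F.ρ t ⊆ S v) = μ.P (fun v => F.site t j ∈ S v) := by
  refine μ.P_congr fun v => ?_
  rw [F.ρ_sub]
  refine ⟨fun h => h j, fun h i => ?_⟩
  have h1 : i = j := by
    apply Fin.ext
    have := i.2
    have := j.2
    omega
  rw [h1]
  exact h

/-- `E Z = ∑_t w_t P(ρ t ⊆ S)`; for `w t ≠ 0` the set `ρ t` has one element (`q = 1`) `z ∈ H`, so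
`P(ρ t ⊆ S) = P(z ∈ S) ≤ sig a / N` (`hp.upper`). -/
theorem p3_le (hp : SelProb DD s N a lam sig kill) (F : Tk (Q × R)) (hq : F.q = 1)
    (hw : ∀ t, 0 ≤ F.w t) (hmem : ∀ t, F.w t ≠ 0 → ∀ j, F.site t j ∈ DD.H) :
    s.μ.E (fun v => F.Z (s.S v)) ≤ sig * a / N * F.sum := by
  rw [p3_EZ]
  unfold Tk.sum
  rw [Finset.mul_sum]
  refine Finset.sum_le_sum fun t _ => ?_
  by_cases hwt : F.w t = 0
  · rw [hwt]
    simp
  have j : Fin F.q := ⟨0, by omega⟩
  rw [p3_P s.μ s.S F hq t j, mul_comm]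
  exact mul_le_mul_of_nonneg_right (hp.upper _ (hmem t hwt j)) (hw t)

/-- the same with `hp.lower` -/
theorem p3_ge (hp : SelProb DD s N a lam sig kill) (F : Tk (Q × R)) (hq : F.q = 1)
    (hw : ∀ t, 0 ≤ F.w t) (hmem : ∀ t, F.w t ≠ 0 → ∀ j, F.site t j ∈ DD.H) :
    lam * a / N * F.sum ≤ s.μ.E (fun v => F.Z (s.S v)) := by
  rw [p3_EZ]
  unfold Tk.sum
  rw [Finset.mul_sum]
  refine Finset.sum_le_sum fun t _ => ?_
  by_cases hwt : F.w t = 0
  · rw [hwt]
    simp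
  have j : Fin F.q := ⟨0, by omega⟩
  rw [p3_P s.μ s.S F hq t j, mul_comm]
  exact mul_le_mul_of_nonneg_left (hp.lower _ (hmem t hwt j)) (hw t)

/-- `hp.kills` -/
theorem p3_lab (hp : SelProb DD s N a lam sig kill) (w : M → ℝ) (hw : ∀ f, 0 ≤ w f) :
    s.μ.E (fun v => labZ DD.J w (s.S v)) ≤ kill * a * ∑ f, w f := by
  unfold labZ
  rw [s.μ.E_sum, Finset.mul_sum]
  refine Finset.sum_le_sum fun f _ => ?_
  rw [s.μ.E_mul_left, mul_comm]
  refine mul_le_mul_of_nonneg_right ?_ (hw f)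
  refine le_trans (le_of_eq ?_) (hp.kills f)
  unfold Weights.P
  congr 1
  funext v
  by_cases h : ∃ z ∈ s.S v, f ∈ DD.J z
  · rw [if_pos h, if_pos h]
  · rw [if_neg h, if_neg h]

end Pool.Agent.Lib.H23D
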