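import Pool.Agent.Lib.H23D.NFam
import Pool.Agent.Lib.H23D.P2
import Pool.Agent.Lib.H23D.P3
import Pool.Agent.Lib.H23D.N1
import Pool.Agent.Lib.H23D.N2
import Pool.Agent.Lib.H23D.N2B
import Pool.Agent.Lib.H23D.L0

/-!
# H23D, M1: means for (I1)

Module C of H93B, see `H93B/PROOF.md` and `README.md`.
-/

set_option autoImplicit false

open Finset
open scoped Classical

namespace Pool.Agent.Lib.H23D

open Pool.Agent.Lib.Prob48
open Pool.Agent.Lib.H93B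

variable {V : Type} [Fintype V] {G : SimpleGraph V} {k : ℕ} {φ : V → Option (Fin k)} {c : Cst}
  {r : ℝ} {D : ℕ} {x C1 C3 L : ℝ}

/-- `p3_le`: `(sig a / r ^ 4) * r ^ 6` (`n1_sum`). -/
theorem m1l {Cw : ℝ} {nc d m1 m2 : ℕ} {Y : ℝ} {F : Fam V k} {om : V × Fin k → ℝ}
    {s : Sel V (Fin k) (V × V)} (h : RS c Cw nc d m1 m2 r Y D G F φ om x C1 C3 L s)
    (hCw : 0 ≤ Cw) (v : V) :
    s.μ.E (fun u => (W1l c r G φ v).Z (s.S u)) ≤ c.sig * c.a * r ^ 2 := by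
  have hg := rs_gs h
  have hr : 0 < r := lt_of_lt_of_le one_pos h.r_one
  have hs := sig_a_pos h.hc
  have h1 := p3_le h.prob (W1l c r G φ v) rfl (W1l_nn v) (W1l_mem v)
  refine h1.trans ((mul_le_mul_of_nonneg_left (n1_sum hg v) (by positivity)).trans (le_of_eq ?_))
  field_simp

/-- `p2`: `2 (sig a / r ^ 4)² r ^ 6 k + (Cw / r ^ 4)² C1 K0² r ^ 9` (`n2_sum`, `n2b`); `k ≤ (ε/2) r ^ 4`, `ε ≤ 1`,
`sig a ≤ 1`, `C1 ≤ C1m`. -/
theorem m1p {Cw : ℝ} {nc d m1 m2 : ℕ} {Y : ℝ} {F : Fam V k} {om : V × Fin k → ℝ}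
    {s : Sel V (Fin k) (V × V)} (h : RS c Cw nc d m1 m2 r Y D G F φ om x C1 C3 L s)
    (hCw : 0 ≤ Cw) (v : V) :
    s.μ.E (fun u => (W1p c r G φ v).Z (s.S u)) ≤
      c.sig * c.a * r ^ 2 + Cw ^ 2 * c.C1m * c.K0 ^ 2 * r := by
  have hg := rs_gs h
  have hr : 0 < r := lt_of_lt_of_le one_pos h.r_one
  have hs := sig_a_pos h.hc
  have hK := K0_pos h.hc
  have h1 := p2 h.base h.prob (by positivity) hCw hs.le (W1p c r G φ v) (show (2 : ℕ) ≤ 4 by norm_num) (W1p_nn v)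
    (W1p_inj v) (W1p_mem v)
  have e1 : (W1p c r G φ v).q = 2 := rfl
  rw [e1] at h1
  have h2 : (W1p c r G φ v).sum ≤ c.ε / 2 * r ^ 10 := by
    refine (n2_sum hg v).trans ?_
    calc r ^ 6 * (k : ℝ) ≤ r ^ 6 * (c.ε / 2 * r ^ 4) := mul_le_mul_of_nonneg_left h.k_le (by positivity)
      _ = c.ε / 2 * r ^ 10 := by ring
  have h3 : (W1p c r G φ v).sh (dat c r G φ).Share ≤ c.C1m * c.K0 ^ 2 * r ^ 9 := by
    refine (n2b hg v).trans ?_
    have := h.C1_le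
    gcongr
  refine h1.trans (add_le_add ?_ ?_)
  · calc 2 * (c.sig * c.a / r ^ 4) ^ 2 * (W1p c r G φ v).sum ≤ 2 * (c.sig * c.a / r ^ 4) ^ 2 * (c.ε / 2 * r ^ 10) :=
          mul_le_mul_of_nonneg_left h2 (by positivity)
      _ = (c.ε * (c.sig * c.a)) * (c.sig * c.a * r ^ 2) := by field_simp
      _ ≤ 1 * (c.sig * c.a * r ^ 2) := by
          refine mul_le_mul_of_nonneg_right ?_ (by positivity)
          exact mul_le_one₀ h.hc.ε_le hs.le h.hc.a_sig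
      _ = c.sig * c.a * r ^ 2 := one_mul _
  · calc (Cw / r ^ 4) ^ 2 * (W1p c r G φ v).sh (dat c r G φ).Share ≤ (Cw / r ^ 4) ^ 2 * (c.C1m * c.K0 ^ 2 * r ^ 9) :=
          mul_le_mul_of_nonneg_left h3 (by positivity)
      _ = Cw ^ 2 * c.C1m * c.K0 ^ 2 * r := by field_simp

end Pool.Agent.Lib.H23D
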