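import Pool.Agent.Lib.H23D.N1
import Pool.Agent.Lib.H23D.Consts

/-!
# H23D, O1: W1l is admissible

Module C of H93B, see `H93B/PROOF.md` and `README.md`.
-/

set_option autoImplicit false

open Finset
open scoped Classical

namespace Pool.Agent.Lib.H23D

open Pool.Agent.Lib.Prob48
open Pool.Agent.Lib.H93B

variable {V : Type} [Fintype V] {G : SimpleGraph V} {k : ℕ} {φ : V → Option (Fin k)} {c : Cst}
  {r : ℝ} {D : ℕ} {x C1 C3 L : ℝ}

/-- `c0`: `r ^ 6 * (Cw / r ^ 4) = Cw r² ≤ B r²` (`n1_sum`). `c1`: `P = {0}`, `cnt P b` is the weight of the single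
tuple `b 0`, at most `L ≤ B L` (`n1_w`), `π ^ 0 = 1`. -/
theorem o1 (h : Gs c r D G φ x C1 C3 L) {Cw B : ℝ} (hCw : 0 ≤ Cw) (hB : BH c Cw B) (v : V) :
    (W1l c r G φ v).Ok (dat c r G φ).H (Cw / r ^ 4) (B * r ^ 2) (B * L) := by
  have hr : 0 < r := lt_of_lt_of_le one_pos h.r_one
  have hL := h.L_one
  refine ⟨le_rfl, by show 1 ≤ 4; norm_num, ?_, ?_, ?_, ?_, ?_⟩
  · intro (t : V × Fin k)
    show 0 ≤ (if G.Adj v t.1 ∧ t ∈ (dat c r G φ).H then ((nb G v ∩ cl φ t.2).card : ℝ) else 0)
    split_ifs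
    · positivity
    · exact le_rfl
  · intro t _ i j _
    exact Subsingleton.elim (α := Fin 1) i j
  · intro (t : V × Fin k) ht j
    by_contra hn
    apply ht
    show (if G.Adj v t.1 ∧ t ∈ (dat c r G φ).H then ((nb G v ∩ cl φ t.2).card : ℝ) else 0) = 0
    exact if_neg fun h' => hn h'.2
  · show (W1l c r G φ v).sum * (Cw / r ^ 4) ^ 1 ≤ B * r ^ 2
    rw [pow_one]
    calc (W1l c r G φ v).sum * (Cw / r ^ 4) ≤ r ^ 6 * (Cw / r ^ 4) :=
          mul_le_mul_of_nonneg_right (n1_sum h v) (by positivity)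
      _ = Cw * r ^ 2 := by field_simp
      _ ≤ B * r ^ 2 := mul_le_mul_of_nonneg_right hB.a1 (by positivity)
  · intro P hP b
    obtain ⟨p, hp⟩ := hP
    have hPc : P.card = 1 := by
      rw [Finset.card_eq_one]
      refine ⟨p, ?_⟩
      ext q
      rw [Finset.mem_singleton]
      constructor
      · intro _
        exact Subsingleton.elim (α := Fin 1) q p
      · rintro rfl
        exact hp
    have hq : (W1l c r G φ v).q = 1 := rfl
    rw [hPc, hq, Nat.sub_self, pow_zero, mul_one]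
    have h1 : (W1l c r G φ v).cnt P b = (W1l c r G φ v).w (b p) := by
      refine (Finset.sum_eq_single (b p) ?_ ?_).trans (if_pos ?_)
      · intro t _ ht
        exact if_neg fun h' => ht (h' p hp)
      · intro h'
        exact absurd (Finset.mem_univ _) h'
      · intro j _
        show b p = b j
        rw [Subsingleton.elim (α := Fin 1) p j]
    rw [h1]
    have h2 := n1_w h v (b p)
    have h3 := hB.one
    nlinarith

end Pool.Agent.Lib.H23D
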