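import Pool.Agent.Lib.H23D.N2
import Pool.Agent.Lib.H23D.Consts

/-!
# H23D, O2: W1p is admissible

Module C of H93B, see `H93B/PROOF.md` and `README.md`.
-/

set_option autoImplicit false

open Finset
open scoped Classical

namespace Pool.Agent.Lib.H23D

open Pool.Agent.Lib.Prob48
open Pool.Agent.Lib.H93B

variable {V : Type} [Fintype V] {G : SimpleGraph V} {k : ℕ} {φ : V → Option (Fin k)} {c : Cst}
  {r : ℝ} {D : ℕ} {x C1 C3 L : ℝ}

theorem o2_k (h : Gs c r D G φ x C1 C3 L) : (k : ℝ) ≤ r ^ 4 := by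
  have hr : 0 < r := lt_of_lt_of_le one_pos h.r_one
  have h1 := h.k_le
  have h2 := h.hc.ε_le
  have h3 : (0 : ℝ) < r ^ 4 := by positivity
  nlinarith

theorem o2_ite {P Q : Prop} (i1 : Decidable P) (i2 : Decidable Q) (h : P ↔ Q) (a : ℝ) : (@ite ℝ P i1 a 0) = (@ite ℝ Q i2 a 0) := by
  by_cases hP : P
  · rw [if_pos hP, if_pos (h.1 hP)]
  · rw [if_neg hP, if_neg fun h' => hP (h.2 h')]

/-- `c0`: `r ^ 6 k (Cw / r ^ 4)² ≤ Cw² r²` (`n2_sum`, `k ≤ r ^ 4`). `c1`: `P` has one element: `r ^ 3 Cw / r ^ 4 ≤ Cw ≤ B L`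
(`n2_one`); `P = univ`: at most one (`n2_two`). The two sites are different because the vertices are. -/
theorem o2 (h : Gs c r D G φ x C1 C3 L) {Cw B : ℝ} (hCw : 0 ≤ Cw) (hB : BH c Cw B) (v : V) :
    (W1p c r G φ v).Ok (dat c r G φ).H (Cw / r ^ 4) (B * r ^ 2) (B * L) := by
  have hr : 0 < r := lt_of_lt_of_le one_pos h.r_one
  have hr1 := h.r_one
  have hL := h.L_one
  have hB1 := hB.one
  have hk := o2_k h
  have hw : ∀ t : V × V × Fin k, (W1p c r G φ v).w t ≠ 0 → t.1 ≠ t.2.1 ∧ (G.Adj v t.1 ∧ G.Adj v t.2.1) ∧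
      (t.1, t.2.2) ∈ (dat c r G φ).H ∧ (t.2.1, t.2.2) ∈ (dat c r G φ).H := by
    intro t ht
    by_contra hn
    apply ht
    show (if t.1 ≠ t.2.1 ∧ (G.Adj v t.1 ∧ G.Adj v t.2.1) ∧
      (t.1, t.2.2) ∈ (dat c r G φ).H ∧ (t.2.1, t.2.2) ∈ (dat c r G φ).H then (1 : ℝ) else 0) = 0
    exact if_neg hn
  refine ⟨by show 1 ≤ 2; norm_num, by show 2 ≤ 4; norm_num, ?_, ?_, ?_, ?_, ?_⟩
  · intro t
    show 0 ≤ (if t.1 ≠ t.2.1 ∧ (G.Adj v t.1 ∧ G.Adj v t.2.1) ∧
      (t.1, t.2.2) ∈ (dat c r G φ).H ∧ (t.2.1, t.2.2) ∈ (dat c r G φ).H then (1 : ℝ) else 0)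
    split_ifs
    · exact zero_le_one
    · exact le_rfl
  · intro t ht
    have h1 := (hw t ht).1
    have h2 : ∀ i j : Fin 2, (![(t.1, t.2.2), (t.2.1, t.2.2)] : Fin 2 → V × Fin k) i =
        (![(t.1, t.2.2), (t.2.1, t.2.2)] : Fin 2 → V × Fin k) j → i = j := by
      intro i j hij
      fin_cases i <;> fin_cases j
      · rfl
      · exact absurd (congrArg Prod.fst hij) h1
      · exact absurd (congrArg Prod.fst hij).symm h1
      · rfl
    exact h2
  · intro t ht
    obtain ⟨-, -, h1, h2⟩ := hw t ht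
    have h3 : ∀ j : Fin 2, (![(t.1, t.2.2), (t.2.1, t.2.2)] : Fin 2 → V × Fin k) j ∈ (dat c r G φ).H := by
      intro j
      fin_cases j
      · exact h1
      · exact h2
    exact h3
  · show (W1p c r G φ v).sum * (Cw / r ^ 4) ^ 2 ≤ B * r ^ 2
    calc (W1p c r G φ v).sum * (Cw / r ^ 4) ^ 2 ≤ (r ^ 6 * r ^ 4) * (Cw / r ^ 4) ^ 2 := by
          refine mul_le_mul_of_nonneg_right ((n2_sum h v).trans ?_) (by positivity)
          exact mul_le_mul_of_nonneg_left hk (by positivity)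
      _ = Cw ^ 2 * r ^ 2 := by field_simp
      _ ≤ B * r ^ 2 := mul_le_mul_of_nonneg_right hB.a2 (by positivity)
  · have key : ∀ (P : Finset (Fin 2)), P.Nonempty → ∀ b : Fin 2 → V × Fin k,
        (∑ t : V × V × Fin k, if ∀ j ∈ P, (![(t.1, t.2.2), (t.2.1, t.2.2)] : Fin 2 → V × Fin k) j = b j then
          (W1p c r G φ v).w t else 0) * (Cw / r ^ 4) ^ (2 - P.card) ≤ B * L := by
      have hone : ∀ (j : Fin 2) (b : Fin 2 → V × Fin k),
          (∑ t : V × V × Fin k, if ∀ i ∈ ({j} : Finset (Fin 2)), (![(t.1, t.2.2), (t.2.1, t.2.2)] : Fin 2 → V × Fin k) i = b i then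
            (W1p c r G φ v).w t else 0) * (Cw / r ^ 4) ^ (2 - ({j} : Finset (Fin 2)).card) ≤ B * L := by
        intro j b
        have h1 : (∑ t : V × V × Fin k, if ∀ i ∈ ({j} : Finset (Fin 2)), (![(t.1, t.2.2), (t.2.1, t.2.2)] : Fin 2 → V × Fin k) i = b i then
            (W1p c r G φ v).w t else 0) ≤ r ^ 3 := by
          refine le_trans (le_of_eq ?_) (n2_one h v j (b j))
          refine Finset.sum_congr rfl fun t _ => ?_
          refine o2_ite _ _ ?_ _
          constructor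
          · intro h'
            exact h' j (Finset.mem_singleton_self j)
          · intro h' i hi
            rw [Finset.mem_singleton.1 hi]
            exact h'
        rw [Finset.card_singleton]
        show _ * (Cw / r ^ 4) ^ 1 ≤ B * L
        rw [pow_one]
        have h2 : r ^ 3 * (Cw / r ^ 4) ≤ Cw := by
          have e : r ^ 3 * (Cw / r ^ 4) = Cw / r := by field_simp
          rw [e, div_le_iff₀ hr]
          nlinarith
        have h3 := mul_le_mul_of_nonneg_right h1 (show 0 ≤ Cw / r ^ 4 by positivity)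
        have h4 := hB.a1
        nlinarith
      intro P hP b
      have hcases : P = {0} ∨ P = {1} ∨ P = Finset.univ := by
        revert hP
        clear b
        revert P
        decide
      rcases hcases with rfl | rfl | rfl
      · exact hone 0 b
      · exact hone 1 b
      · have h1 : (∑ t : V × V × Fin k, if ∀ i ∈ (Finset.univ : Finset (Fin 2)), (![(t.1, t.2.2), (t.2.1, t.2.2)] : Fin 2 → V × Fin k) i = b i then
            (W1p c r G φ v).w t else 0) ≤ 1 := by
          refine le_trans (le_of_eq ?_) (n2_two (c := c) (r := r) (φ := φ) (G := G) v (b 0) (b 1))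
          refine Finset.sum_congr rfl fun t _ => ?_
          refine o2_ite _ _ ?_ _
          simp [Fin.forall_fin_two]
        rw [Finset.card_univ, Fintype.card_fin, Nat.sub_self, pow_zero, mul_one]
        nlinarith
    intro P hP b
    refine le_trans (le_of_eq ?_) (key P hP b)
    show (W1p c r G φ v).cnt P b * (Cw / r ^ 4) ^ (2 - P.card) = _
    congr 1
    refine Finset.sum_congr rfl fun t _ => ?_
    exact o2_ite _ _ Iff.rfl _

end Pool.Agent.Lib.H23D
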