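import Pool.Agent.Lib.H23D.Basic

/-!
# H23D, Toks: token families (ordered tuples of sites) and the families of section 6 of PROOF.md

A `Tk X` is a finite family of weighted `q`-tuples `site t 0, .., site t (q - 1)`; `ρ t` is the set of the
sites, `Z S` the total weight of the tuples inside `S` (`= st F.w F.ρ S`).
-/

set_option autoImplicit false
set_option linter.unusedSectionVars false

open Finset
open scoped Classical

namespace Pool.Agent.Lib.H23D

open Pool.Agent.Lib.Prob48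
open Pool.Agent.Lib.H93B

/-- weighted `q`-tuples of elements of `X` -/
structure Tk (X : Type) where
  q : ℕ
  T : Type
  fin : Fintype T
  site : T → Fin q → X
  w : T → ℝ

attribute [instance] Tk.fin

namespace Tk

variable {X : Type} (F : Tk X)

/-- the set of the sites -/
noncomputable def ρ (t : F.T) : Finset X := univ.image (F.site t)

/-- the statistic -/
noncomputable def Z (S : Finset X) : ℝ := st F.w F.ρ S

/-- total weight -/
noncomputable def sum : ℝ := ∑ t, F.w t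

/-- total weight of the tuples with the prescribed sites `b j` at the positions `j ∈ P` -/
noncomputable def cnt (P : Finset (Fin F.q)) (b : Fin F.q → X) : ℝ :=
  ∑ t, if ∀ j ∈ P, F.site t j = b j then F.w t else 0

/-- total weight of the tuples two of whose sites have the relation `R` -/
noncomputable def sh (R : X → X → Prop) : ℝ :=
  ∑ t, if ∃ i j, i ≠ j ∧ R (F.site t i) (F.site t j) then F.w t else 0

/-- admissible families of tuples in `H`; `π` is the bound for the probability that an element is active -/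
structure Ok (H : Finset X) (π β0 β1 : ℝ) : Prop where
  q_pos : 1 ≤ F.q
  q_le : F.q ≤ 4
  w_nonneg : ∀ t, 0 ≤ F.w t
  inj : ∀ t, F.w t ≠ 0 → Function.Injective (F.site t)
  mem : ∀ t, F.w t ≠ 0 → ∀ j, F.site t j ∈ H
  c0 : F.sum * π ^ F.q ≤ β0
  c1 : ∀ P : Finset (Fin F.q), P.Nonempty → ∀ b, F.cnt P b * π ^ (F.q - P.card) ≤ β1

theorem ρ_sub {S : Finset X} {t : F.T} : F.ρ t ⊆ S ↔ ∀ j, F.site t j ∈ S := by
  unfold ρ
  constructor
  · intro h j
    exact h (mem_image_of_mem _ (mem_univ j))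
  · intro h z hz
    obtain ⟨j, _, rfl⟩ := mem_image.1 hz
    exact h j

theorem ρ_card_le (t : F.T) : (F.ρ t).card ≤ F.q := by
  unfold ρ
  refine card_image_le.trans ?_
  simp

theorem ρ_card {t : F.T} (h : Function.Injective (F.site t)) : (F.ρ t).card = F.q := by
  unfold ρ
  rw [card_image_of_injective _ h]
  simp

theorem Z_eq (S : Finset X) : F.Z S = ∑ t, if ∀ j, F.site t j ∈ S then F.w t else 0 := by
  unfold Z st
  refine sum_congr rfl fun t _ => ?_
  by_cases h : F.ρ t ⊆ S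
  · rw [if_pos h, if_pos (F.ρ_sub.1 h)]
  · rw [if_neg h, if_neg fun h' => h (F.ρ_sub.2 h')]

end Tk

/-- the statistic of weighted labels -/
noncomputable def labZ {X M : Type} [Fintype M] (J : X → Finset M) (w : M → ℝ) (S : Finset X) : ℝ :=
  ∑ f, w f * (if ∃ z ∈ S, f ∈ J z then 1 else 0)

/-! ### the families -/

/-- `(v1, v2, v3, v4, a, b)` -/
abbrev Tup (V : Type) (k : ℕ) : Type := V × V × V × V × Fin k × Fin k

namespace Tup

variable {V : Type} {k : ℕ} (t : Tup V k)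

abbrev v1 : V := t.1
abbrev v2 : V := t.2.1
abbrev v3 : V := t.2.2.1
abbrev v4 : V := t.2.2.2.1
abbrev a : Fin k := t.2.2.2.2.1
abbrev b : Fin k := t.2.2.2.2.2
abbrev s1 : V × Fin k := (t.v1, t.a)
abbrev s2 : V × Fin k := (t.v2, t.b)
abbrev s3 : V × Fin k := (t.v3, t.a)
abbrev s4 : V × Fin k := (t.v4, t.b)

/-- reflection -/
def refl : Tup V k := (t.v3, t.v2, t.v1, t.v4, t.a, t.b)

/-- rotation -/
def rot : Tup V k := (t.v2, t.v3, t.v4, t.v1, t.b, t.a)

end Tup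

section Fams

variable {V : Type} [Fintype V] {k : ℕ} (c : Cst) (r : ℝ) (G : SimpleGraph V)
  (φ : V → Option (Fin k))

/-- structures with three new sites -/
def P3 (t : Tup V k) : Prop :=
  (t.s1 ∈ (dat c r G φ).H ∧ t.s2 ∈ (dat c r G φ).H ∧ t.s3 ∈ (dat c r G φ).H) ∧
    Str3 c r G φ t.v1 t.v2 t.v3 t.v4 t.a t.b

/-- structures with four new sites -/
def P4 (t : Tup V k) : Prop :=
  (t.s1 ∈ (dat c r G φ).H ∧ t.s2 ∈ (dat c r G φ).H ∧ t.s3 ∈ (dat c r G φ).H ∧
    t.s4 ∈ (dat c r G φ).H) ∧ Str4 c r G t.v1 t.v2 t.v3 t.v4 t.a t.b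

/-- one new vertex `u ∈ N(v)`, weight = number of old vertices of the colour in `N(v)` -/
noncomputable def W1l (v : V) : Tk (V × Fin k) where
  q := 1
  T := V × Fin k
  fin := inferInstance
  site := fun t _ => t
  w := fun t => if G.Adj v t.1 ∧ t ∈ (dat c r G φ).H then ((nb G v ∩ cl φ t.2).card : ℝ) else 0

/-- two new vertices of the same colour in `N(v)` (ordered) -/
noncomputable def W1p (v : V) : Tk (V × Fin k) where
  q := 2
  T := V × V × Fin k
  fin := inferInstance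
  site := fun t => ![(t.1, t.2.2), (t.2.1, t.2.2)]
  w := fun t => if t.1 ≠ t.2.1 ∧ (G.Adj v t.1 ∧ G.Adj v t.2.1) ∧
    (t.1, t.2.2) ∈ (dat c r G φ).H ∧ (t.2.1, t.2.2) ∈ (dat c r G φ).H then 1 else 0

/-- one new vertex in `N(w) ∩ N(w')` -/
noncomputable def W2a (w w' : V) : Tk (V × Fin k) where
  q := 1
  T := V × Fin k
  fin := inferInstance
  site := fun t _ => t
  w := fun t => if t.1 ∈ co G w w' ∧ t ∈ (dat c r G φ).H then 1 else 0

/-- structures with three sites, the first one designated and in `N(w) ∩ N(w')` -/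
noncomputable def W2b (w w' : V) : Tk (V × Fin k) where
  q := 3
  T := Tup V k
  fin := inferInstance
  site := fun t => ![t.s1, t.s2, t.s3]
  w := fun t => if t.v1 ∈ co G w w' ∧ P3 c r G φ t ∧ Des3 c r G φ t.s1 t.s2 t.s3 then 1 else 0

/-- structures with four sites, the first one designated and in `N(w) ∩ N(w')` -/
noncomputable def W2d (w w' : V) : Tk (V × Fin k) where
  q := 4
  T := Tup V k
  fin := inferInstance
  site := fun t => ![t.s1, t.s2, t.s3, t.s4]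
  w := fun t => if t.v1 ∈ co G w w' ∧ P4 c r G φ t ∧ Des4 c r G φ t.s1 t.s2 t.s3 t.s4 then 1 else 0

/-- the labels `(y, z)` with `y ∈ N(w) ∩ N(w')` -/
noncomputable def wlab (w w' : V) (f : V × V) : ℝ :=
  if f.1 ∈ co G w w' ∧ HM c r G φ f.1 f.2 then 1 else 0

/-- new heavy mono pairs: `y ∈ N(w) ∩ N(w')` new, `z` old -/
noncomputable def W3l (w w' : V) : Tk (V × Fin k) where
  q := 1
  T := V × Fin k
  fin := inferInstance
  site := fun t _ => t
  w := fun t => if t.1 ∈ co G w w' ∧ t ∈ (dat c r G φ).H then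
    (((cl φ t.2).filter fun z => c.ρ0 * r ^ 2 ≤ cd G t.1 z).card : ℝ) else 0

/-- new heavy mono pairs: `y ∈ N(w) ∩ N(w')` old, `z` new -/
noncomputable def W3m (w w' : V) : Tk (V × Fin k) where
  q := 1
  T := V × Fin k
  fin := inferInstance
  site := fun t _ => t
  w := fun t => if t ∈ (dat c r G φ).H then
    (((co G w w' ∩ cl φ t.2).filter fun y => c.ρ0 * r ^ 2 ≤ cd G y t.1).card : ℝ) else 0

/-- new heavy mono pairs: `y ∈ N(w) ∩ N(w')` and `z` new -/
noncomputable def W3p (w w' : V) : Tk (V × Fin k) where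
  q := 2
  T := V × V × Fin k
  fin := inferInstance
  site := fun t => ![(t.1, t.2.2), (t.2.1, t.2.2)]
  w := fun t => if t.1 ≠ t.2.1 ∧ (t.1 ∈ co G w w' ∧ c.ρ0 * r ^ 2 ≤ cd G t.1 t.2.1) ∧
    (t.1, t.2.2) ∈ (dat c r G φ).H ∧ (t.2.1, t.2.2) ∈ (dat c r G φ).H then 1 else 0

end Fams

section

variable {V : Type} [Fintype V] {G : SimpleGraph V} {k : ℕ} {φ : V → Option (Fin k)} {c : Cst}
  {r : ℝ}

theorem P3.refl {t : Tup V k} (h : P3 c r G φ t) : P3 c r G φ t.refl :=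
  ⟨⟨h.1.2.2, h.1.2.1, h.1.1⟩, C4_refl h.2.1, h.2.2.1, h.2.2.2⟩

theorem P4.rot {t : Tup V k} (h : P4 c r G φ t) : P4 c r G φ t.rot :=
  ⟨⟨h.1.2.1, h.1.2.2.1, h.1.2.2.2, h.1.1⟩, C4_rot h.2.1, h.2.2.symm⟩

theorem ite_iff {P Q : Prop} {x y : ℝ} (i1 : Decidable P) (i2 : Decidable Q) (h : P ↔ Q)
    (hx : x = y) : (@ite ℝ P i1 x 0) = (@ite ℝ Q i2 y 0) := by
  by_cases hP : P
  · rw [if_pos hP, if_pos (h.1 hP), hx]
  · rw [if_neg hP, if_neg fun h' => hP (h.2 h')]

theorem W1l_Z (v : V) (S : Finset (V × Fin k)) : (W1l c r G φ v).Z S =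
    ∑ t : V × Fin k, if t ∈ S then
      (if G.Adj v t.1 ∧ t ∈ (dat c r G φ).H then ((nb G v ∩ cl φ t.2).card : ℝ) else 0) else 0 := by
  rw [Tk.Z_eq]
  exact sum_congr rfl fun t _ => by simp [W1l]

theorem W1p_Z (v : V) (S : Finset (V × Fin k)) : (W1p c r G φ v).Z S =
    ∑ t : V × V × Fin k, if (t.1, t.2.2) ∈ S ∧ (t.2.1, t.2.2) ∈ S then
      (if t.1 ≠ t.2.1 ∧ (G.Adj v t.1 ∧ G.Adj v t.2.1) ∧
        (t.1, t.2.2) ∈ (dat c r G φ).H ∧ (t.2.1, t.2.2) ∈ (dat c r G φ).H then (1 : ℝ) else 0)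
      else 0 := by
  rw [Tk.Z_eq]
  refine sum_congr rfl fun t _ => ?_
  simp only [W1p, Fin.forall_fin_two, Matrix.cons_val_zero, Matrix.cons_val_one]

theorem W2a_Z (w w' : V) (S : Finset (V × Fin k)) : (W2a c r G φ w w').Z S =
    ∑ t : V × Fin k, if t ∈ S then
      (if t.1 ∈ co G w w' ∧ t ∈ (dat c r G φ).H then (1 : ℝ) else 0) else 0 := by
  rw [Tk.Z_eq]
  exact sum_congr rfl fun t _ => by simp [W2a]

theorem W2b_Z (w w' : V) (S : Finset (V × Fin k)) : (W2b c r G φ w w').Z S =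
    ∑ t : Tup V k, if t.s1 ∈ S ∧ t.s2 ∈ S ∧ t.s3 ∈ S then
      (if t.v1 ∈ co G w w' ∧ P3 c r G φ t ∧ Des3 c r G φ t.s1 t.s2 t.s3 then (1 : ℝ) else 0)
      else 0 := by
  rw [Tk.Z_eq]
  refine sum_congr rfl fun t _ => ?_
  have e : (∀ j : Fin 3, (![t.s1, t.s2, t.s3] : Fin 3 → V × Fin k) j ∈ S) ↔
      (t.s1 ∈ S ∧ t.s2 ∈ S ∧ t.s3 ∈ S) := by
    simp [Fin.forall_fin_succ]
  exact ite_iff _ _ e rfl

theorem W2d_Z (w w' : V) (S : Finset (V × Fin k)) : (W2d c r G φ w w').Z S =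
    ∑ t : Tup V k, if t.s1 ∈ S ∧ t.s2 ∈ S ∧ t.s3 ∈ S ∧ t.s4 ∈ S then
      (if t.v1 ∈ co G w w' ∧ P4 c r G φ t ∧ Des4 c r G φ t.s1 t.s2 t.s3 t.s4 then (1 : ℝ) else 0)
      else 0 := by
  rw [Tk.Z_eq]
  refine sum_congr rfl fun t _ => ?_
  have e : (∀ j : Fin 4, (![t.s1, t.s2, t.s3, t.s4] : Fin 4 → V × Fin k) j ∈ S) ↔
      (t.s1 ∈ S ∧ t.s2 ∈ S ∧ t.s3 ∈ S ∧ t.s4 ∈ S) := by
    simp [Fin.forall_fin_succ]
  exact ite_iff _ _ e rfl

theorem W3l_Z (w w' : V) (S : Finset (V × Fin k)) : (W3l c r G φ w w').Z S =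
    ∑ t : V × Fin k, if t ∈ S then
      (if t.1 ∈ co G w w' ∧ t ∈ (dat c r G φ).H then
        (((cl φ t.2).filter fun z => c.ρ0 * r ^ 2 ≤ cd G t.1 z).card : ℝ) else 0) else 0 := by
  rw [Tk.Z_eq]
  exact sum_congr rfl fun t _ => by simp [W3l]

theorem W3m_Z (w w' : V) (S : Finset (V × Fin k)) : (W3m c r G φ w w').Z S =
    ∑ t : V × Fin k, if t ∈ S then
      (if t ∈ (dat c r G φ).H then
        (((co G w w' ∩ cl φ t.2).filter fun y => c.ρ0 * r ^ 2 ≤ cd G y t.1).card : ℝ) else 0)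
      else 0 := by
  rw [Tk.Z_eq]
  exact sum_congr rfl fun t _ => by simp [W3m]

theorem W3p_Z (w w' : V) (S : Finset (V × Fin k)) : (W3p c r G φ w w').Z S =
    ∑ t : V × V × Fin k, if (t.1, t.2.2) ∈ S ∧ (t.2.1, t.2.2) ∈ S then
      (if t.1 ≠ t.2.1 ∧ (t.1 ∈ co G w w' ∧ c.ρ0 * r ^ 2 ≤ cd G t.1 t.2.1) ∧
        (t.1, t.2.2) ∈ (dat c r G φ).H ∧ (t.2.1, t.2.2) ∈ (dat c r G φ).H then (1 : ℝ) else 0)
      else 0 := by
  rw [Tk.Z_eq]
  refine sum_congr rfl fun t _ => ?_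
  simp only [W3p, Fin.forall_fin_two, Matrix.cons_val_zero, Matrix.cons_val_one]

end

end Pool.Agent.Lib.H23D
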