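import Pool.Agent.Lib.H23D.NFam
import Pool.Agent.Lib.H23D.Toks
import Pool.Agent.Lib.H23D.P7

/-!
# H23D, P10: the sites of the families are near

Module C of H93B, see `H93B/PROOF.md` and `README.md`.
-/

set_option autoImplicit false

open Finset
open scoped Classical

namespace Pool.Agent.Lib.H23D

open Pool.Agent.Lib.Prob48
open Pool.Agent.Lib.H93B

variable {V : Type} [Fintype V] {G : SimpleGraph V} {k : ℕ} {φ : V → Option (Fin k)} {c : Cst}
  {r : ℝ} {D : ℕ} {x C1 C3 L : ℝ}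

theorem p10_1l (v : V) (t : V × Fin k) (h : (W1l c r G φ v).w t ≠ 0) (j : Fin 1) :
    ((W1l c r G φ v).site t j).1 ∈ ball G 6 v := by
  exact p7_mono (by norm_num) _ (p7_adj (p7_self 0 _) (nf_ite h).1)

theorem p10_1p (v : V) (t : V × V × Fin k) (h : (W1p c r G φ v).w t ≠ 0) (j : Fin 2) :
    ((W1p c r G φ v).site t j).1 ∈ ball G 6 v := by
  have h1 := (nf_ite h).2.1
  fin_cases j
  · exact p7_mono (by norm_num) _ (p7_adj (p7_self 0 _) h1.1)
  · exact p7_mono (by norm_num) _ (p7_adj (p7_self 0 _) h1.2)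

theorem p10_2a (w w' : V) (t : V × Fin k) (h : (W2a c r G φ w w').w t ≠ 0) (j : Fin 1) :
    ((W2a c r G φ w w').site t j).1 ∈ ball G 6 w := by
  exact p7_mono (by norm_num) _ (p7_adj (p7_self 0 _) (mem_co.1 (nf_ite h).1).1)

/-- `v1 ∈ nb w`, `v2` adjacent to `v1`, `v3` adjacent to `v2` -/
theorem p10_2b (w w' : V) (t : Tup V k) (h : (W2b c r G φ w w').w t ≠ 0) (j : Fin 3) :
    ((W2b c r G φ w w').site t j).1 ∈ ball G 6 w := by
  obtain ⟨h1, ⟨_, hC, _⟩, _⟩ := W2b_P w w' t h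
  have a1 := p7_adj (p7_self 0 _) (mem_co.1 h1).1
  have a2 := p7_adj a1 hC.1
  have a3 := p7_adj a2 hC.2.1
  fin_cases j
  · exact p7_mono (by norm_num) _ a1
  · exact p7_mono (by norm_num) _ a2
  · exact p7_mono (by norm_num) _ a3

theorem p10_2d (w w' : V) (t : Tup V k) (h : (W2d c r G φ w w').w t ≠ 0) (j : Fin 4) :
    ((W2d c r G φ w w').site t j).1 ∈ ball G 6 w := by
  obtain ⟨h1, ⟨_, hC, _⟩, _⟩ := W2d_P w w' t h
  have a1 := p7_adj (p7_self 0 _) (mem_co.1 h1).1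
  have a2 := p7_adj a1 hC.1
  have a3 := p7_adj a2 hC.2.1
  have a4 := p7_adj a3 hC.2.2.1
  fin_cases j
  · exact p7_mono (by norm_num) _ a1
  · exact p7_mono (by norm_num) _ a2
  · exact p7_mono (by norm_num) _ a3
  · exact p7_mono (by norm_num) _ a4

theorem p10_3l (w w' : V) (t : V × Fin k) (h : (W3l c r G φ w w').w t ≠ 0) (j : Fin 1) :
    ((W3l c r G φ w w').site t j).1 ∈ ball G 6 w := by
  exact p7_mono (by norm_num) _ (p7_adj (p7_self 0 _) (mem_co.1 (nf_ite h).1).1)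

/-- the filter is nonempty, and two vertices with codegree `≥ ρ0 r² > 0` have distance at most two (`p7_cd`) -/
theorem p10_3m (hc : CstHyp c) (hr : 1 ≤ r) (w w' : V) (t : V × Fin k)
    (h : (W3m c r G φ w w').w t ≠ 0) (j : Fin 1) :
    ((W3m c r G φ w w').site t j).1 ∈ ball G 6 w := by
  have hρ := hc.ρ0_pos
  have hr0 : 0 < r := lt_of_lt_of_le one_pos hr
  have h1 : (((co G w w' ∩ cl φ t.2).filter fun y => c.ρ0 * r ^ 2 ≤ cd G y t.1).card : ℝ) ≠ 0 := by
    intro h0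
    apply h
    show (if t ∈ (dat c r G φ).H then
      (((co G w w' ∩ cl φ t.2).filter fun y => c.ρ0 * r ^ 2 ≤ cd G y t.1).card : ℝ) else 0) = 0
    rw [h0, ite_self]
  have h2 : ((co G w w' ∩ cl φ t.2).filter fun y => c.ρ0 * r ^ 2 ≤ cd G y t.1).Nonempty := by
    rw [← card_pos]
    exact Nat.pos_of_ne_zero fun h3 => h1 (by rw [h3, Nat.cast_zero])
  obtain ⟨y, hy⟩ := h2
  obtain ⟨hy1, hy2⟩ := mem_filter.1 hy
  have a1 := p7_adj (p7_self 0 _) (mem_co.1 (mem_inter.1 hy1).1).1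
  have a2 := p7_cd (G := G) (u := y) (w := t.1) (lt_of_lt_of_le (by positivity) hy2)
  exact p7_mono (by norm_num) _ (p7_trans a1 a2)

theorem p10_3p (hc : CstHyp c) (hr : 1 ≤ r) (w w' : V) (t : V × V × Fin k)
    (h : (W3p c r G φ w w').w t ≠ 0) (j : Fin 2) :
    ((W3p c r G φ w w').site t j).1 ∈ ball G 6 w := by
  have hρ := hc.ρ0_pos
  have hr0 : 0 < r := lt_of_lt_of_le one_pos hr
  obtain ⟨_, ⟨h1, h2⟩, _⟩ := nf_ite h
  have a1 := p7_adj (p7_self 0 _) (mem_co.1 h1).1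
  have a2 := p7_cd (G := G) (u := t.1) (w := t.2.1) (lt_of_lt_of_le (by positivity) h2)
  fin_cases j
  · exact p7_mono (by norm_num) _ a1
  · exact p7_mono (by norm_num) _ (p7_trans a1 a2)

end Pool.Agent.Lib.H23D
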