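import Pool.Agent.Lib.H23D.Toks

/-!
# H23D, P5: the functionals tf of a tuple family

Module C of H93B, see `H93B/PROOF.md` and `README.md`.
-/

set_option autoImplicit false

open Finset
open scoped Classical

namespace Pool.Agent.Lib.H23D

open Pool.Agent.Lib.Prob48
open Pool.Agent.Lib.H93B

variable {V : Type} [Fintype V] {G : SimpleGraph V} {k : ℕ} {φ : V → Option (Fin k)} {c : Cst}
  {r : ℝ} {D : ℕ} {x C1 C3 L : ℝ}

/-- For `w t ≠ 0` the set `ρ t` has `q` elements (`Tk.ρ_card`), the product is `π ^ q`. -/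
theorem p5_zero {X : Type} (F : Tk X) (π : ℝ)
    (hinj : ∀ t, F.w t ≠ 0 → Function.Injective (F.site t)) :
    tf F.w F.ρ (fun _ => π) ∅ = F.sum * π ^ F.q := by
  unfold tf Tk.sum
  rw [Finset.sum_mul]
  refine Finset.sum_congr rfl fun t _ => ?_
  rw [if_pos (Finset.empty_subset _), Finset.sdiff_empty, Finset.prod_const]
  by_cases hwt : F.w t = 0
  · rw [hwt, zero_mul, zero_mul]
  · rw [F.ρ_card (hinj t hwt)]

/-- If `B ⊆ ρ t`, `w t ≠ 0`, there is for every `z ∈ B` a position `g z : Fin q` with `site t (g z) = z`, and `g` is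
injective; `|ρ t \ B| = q - |B|`, `|B| ≤ q ≤ 4`. So `tf B ≤ ∑_g cnt (P_g) (b_g) π ^ (q - |B|)`, the sum over the
injective functions `g` from `B` to `Fin q` (at most `q ^ |B| ≤ 256`), `P_g` the image of `g`, `b_g` its inverse on
`P_g` (any value outside `P_g`), `|P_g| = |B|`, `P_g` nonempty. (If `|B| > q` then `tf B = 0`.) -/
theorem p5_pos {X : Type} (F : Tk X) (π β : ℝ) (hq : F.q ≤ 4) (hπ : 0 ≤ π) (hβ : 0 ≤ β)
    (hw : ∀ t, 0 ≤ F.w t) (hinj : ∀ t, F.w t ≠ 0 → Function.Injective (F.site t))
    (h : ∀ P : Finset (Fin F.q), P.Nonempty → ∀ b, F.cnt P b * π ^ (F.q - P.card) ≤ β)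
    (B : Finset X) (hB : B.Nonempty) : tf F.w F.ρ (fun _ => π) B ≤ 256 * β := by
  have hcnt := h
  have hβ' : (0 : ℝ) ≤ 256 * β := by positivity
  by_cases hBc : B.card ≤ F.q
  swap
  · have h0 : tf F.w F.ρ (fun _ => π) B = 0 := by
      unfold tf
      refine sum_eq_zero fun t _ => ?_
      rw [if_neg]
      intro h
      exact hBc ((card_le_card h).trans (F.ρ_card_le t))
    rw [h0]
    exact hβ'
  obtain ⟨z0, hz0⟩ := hB
  let b : ({x // x ∈ B} → Fin F.q) → Fin F.q → X := fun h j =>
    if hj : ∃ z : {x // x ∈ B}, h z = j then (hj.choose : X) else z0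
  have hb : ∀ h : ({x // x ∈ B} → Fin F.q), Function.Injective h → ∀ z, b h (h z) = z := by
    intro h hh z
    have hj : ∃ z' : {x // x ∈ B}, h z' = h z := ⟨z, rfl⟩
    simp only [b]
    rw [dif_pos hj]
    exact congrArg _ (hh hj.choose_spec)
  have key : tf F.w F.ρ (fun _ => π) B ≤ ∑ h : ({x // x ∈ B} → Fin F.q),
      if Function.Injective h then F.cnt (univ.image h) (b h) * π ^ (F.q - B.card) else 0 := by
    unfold tf Tk.cnt
    have e : ∀ h : ({x // x ∈ B} → Fin F.q),
        (if Function.Injective h then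
          (∑ t, if ∀ j ∈ univ.image h, F.site t j = b h j then F.w t else 0) *
            π ^ (F.q - B.card) else 0) =
        ∑ t, if Function.Injective h ∧ ∀ z, F.site t (h z) = z then
          F.w t * π ^ (F.q - B.card) else 0 := by
      intro h
      by_cases hh : Function.Injective h
      · rw [if_pos hh, Finset.sum_mul]
        refine Finset.sum_congr rfl fun t _ => ?_
        by_cases h1 : ∀ z, F.site t (h z) = z
        · have h2 : ∀ j ∈ univ.image h, F.site t j = b h j := by
            intro j hj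
            obtain ⟨z, _, rfl⟩ := mem_image.1 hj
            rw [h1 z, hb h hh z]
          rw [if_pos h2, if_pos ⟨hh, h1⟩]
        · have h2 : ¬ ∀ j ∈ univ.image h, F.site t j = b h j := by
            intro h2
            apply h1
            intro z
            rw [h2 (h z) (mem_image_of_mem _ (mem_univ z)), hb h hh z]
          rw [if_neg h2, if_neg fun h3 => h1 h3.2, zero_mul]
      · rw [if_neg hh]
        symm
        exact Finset.sum_eq_zero fun t _ => if_neg fun h2 => hh h2.1
    simp only [e]
    rw [sum_comm]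
    refine sum_le_sum fun t _ => ?_
    have hnn : ∀ h : ({x // x ∈ B} → Fin F.q), 0 ≤
        (if Function.Injective h ∧ ∀ z, F.site t (h z) = z then
          F.w t * π ^ (F.q - B.card) else 0) := by
      intro h
      split_ifs
      · exact mul_nonneg (hw t) (pow_nonneg hπ _)
      · exact le_rfl
    by_cases hBt : B ⊆ F.ρ t
    · rw [if_pos hBt]
      by_cases hwt : F.w t = 0
      · rw [hwt, zero_mul]
        exact sum_nonneg fun h _ => by rw [zero_mul, ite_self]
      · have h1 : ∀ z : {x // x ∈ B}, ∃ j, F.site t j = z := fun z => by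
          have h3 := hBt z.2
          unfold Tk.ρ at h3
          rw [mem_image] at h3
          obtain ⟨j, _, hj⟩ := h3
          exact ⟨j, hj⟩
        choose g hg using h1
        have hgi : Function.Injective g := fun z z' hzz => by
          apply Subtype.ext
          rw [← hg z, ← hg z', hzz]
        have h2 : F.w t * ∏ x ∈ F.ρ t \ B, π = F.w t * π ^ (F.q - B.card) := by
          rw [prod_const, card_sdiff_of_subset hBt, F.ρ_card (hinj t hwt)]
        rw [h2]
        refine le_trans ?_ (single_le_sum (fun h _ => hnn h) (mem_univ g))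
        rw [if_pos ⟨hgi, hg⟩]
    · rw [if_neg hBt]
      exact sum_nonneg fun h _ => hnn h
  refine key.trans ?_
  have h1 : ∀ h ∈ (univ : Finset ({x // x ∈ B} → Fin F.q)),
      (if Function.Injective h then F.cnt (univ.image h) (b h) * π ^ (F.q - B.card) else 0) ≤
        β := by
    intro h _
    split_ifs with hh
    · have h2 : (univ.image h).card = B.card := by
        rw [card_image_of_injective _ hh]
        simp
      rw [← h2]
      exact hcnt (univ.image h) ⟨h ⟨z0, hz0⟩, mem_image_of_mem _ (mem_univ _)⟩ (b h)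
    · exact hβ
  refine (sum_le_card_nsmul _ _ _ h1).trans ?_
  rw [nsmul_eq_mul]
  refine mul_le_mul_of_nonneg_right ?_ hβ
  have h3 : (univ : Finset ({x // x ∈ B} → Fin F.q)).card ≤ 256 := by
    rw [Finset.card_univ, Fintype.card_fun, Fintype.card_fin, Fintype.card_coe]
    calc F.q ^ B.card ≤ 4 ^ B.card := Nat.pow_le_pow_left hq _
      _ ≤ 4 ^ 4 := Nat.pow_le_pow_right (by norm_num) (hBc.trans hq)
      _ = 256 := by norm_num
  exact_mod_cast h3

end Pool.Agent.Lib.H23D
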