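import Pool.Agent.Lib.H23D.Toks

/-!
# H23D, P6: the functionals tf of the label statistic

Module C of H93B, see `H93B/PROOF.md` and `README.md`.
-/

set_option autoImplicit false

open Finset
open scoped Classical

namespace Pool.Agent.Lib.H23D

open Pool.Agent.Lib.Prob48
open Pool.Agent.Lib.H93B

variable {V : Type} [Fintype V] {G : SimpleGraph V} {k : ℕ} {φ : V → Option (Fin k)} {c : Cst}
  {r : ℝ} {D : ℕ} {x C1 C3 L : ℝ}

theorem p6_tf_zero {X : Type} [Fintype X] (w : X → ℝ) (π : ℝ) :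
    tf w (fun z => {z}) (fun _ => π) ∅ = π * ∑ z, w z := by
  unfold tf
  rw [Finset.mul_sum]
  refine Finset.sum_congr rfl fun z _ => ?_
  rw [if_pos (Finset.empty_subset _), Finset.sdiff_empty, Finset.prod_singleton, mul_comm]

theorem p6_tf_pos {X : Type} [Fintype X] (w : X → ℝ) (π β : ℝ) (hw : ∀ z, w z ≤ β)
    (hβ : 0 ≤ β) (B : Finset X) (hB : B.Nonempty) :
    tf w (fun z => {z}) (fun _ => π) B ≤ β := by
  obtain ⟨z0, hz0⟩ := hB
  unfold tf
  have h1 : ∀ z : X, z ≠ z0 → (if B ⊆ ({z} : Finset X) then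
      w z * ∏ x ∈ ({z} : Finset X) \ B, π else 0) = 0 := by
    intro z hz
    rw [if_neg]
    intro h
    exact hz (Finset.mem_singleton.1 (h hz0)).symm
  rw [Finset.sum_eq_single z0 (fun z _ hz => h1 z hz) (fun h => (h (mem_univ z0)).elim)]
  split_ifs with h
  · have h2 : ({z0} : Finset X) \ B = ∅ := by
      rw [Finset.sdiff_eq_empty_iff_subset, Finset.singleton_subset_iff]
      exact hz0
    rw [h2, Finset.prod_empty, mul_one]
    exact hw z0
  · exact hβ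

theorem p6_J {Q R M : Type} [Fintype M] (DD : SelData Q R M) (z : Q × R) (f : M) :
    f ∈ DD.J z ↔ z.1 ∈ DD.A f ∧ z.2 ∈ DD.B f := by
  unfold SelData.J H93A.Jset
  rw [Finset.mem_filter]
  exact ⟨fun h => h.2, fun h => ⟨Finset.mem_univ _, h⟩⟩

/-- `tf ∅ = ∑_(z ∈ H) ∑_(f ∈ J z) w f * π = π ∑_f w f |{z ∈ H | f ∈ J z}|` and
`{z ∈ H | f ∈ J z} ⊆ A f ×ˢ B f` has at most `(K √N)² = K² N` elements. -/
theorem p6_zero {Q R M : Type} [Fintype Q] [Fintype R] [Fintype M] {DD : SelData Q R M}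
    {K N : ℝ} {j0 : ℕ} (hh : SelHyp DD K N j0) (w : M → ℝ) (hw : ∀ f, 0 ≤ w f) (π : ℝ)
    (hπ : 0 ≤ π) :
    tf (fun z : Q × R => if z ∈ DD.H then ∑ f ∈ DD.J z, w f else 0) (fun z => {z})
      (fun _ => π) ∅ ≤ π * (K ^ 2 * N) * ∑ f, w f := by
  rw [p6_tf_zero, mul_assoc]
  refine mul_le_mul_of_nonneg_left ?_ hπ
  have hN0 : 0 ≤ N := zero_le_one.trans hh.hN
  have hK0 : 0 ≤ K := zero_le_one.trans hh.hK
  have h1 : (∑ z : Q × R, if z ∈ DD.H then ∑ f ∈ DD.J z, w f else 0) =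
      ∑ f, w f * ((univ.filter fun z => z ∈ DD.H ∧ f ∈ DD.J z).card : ℝ) := by
    have h2 : ∀ z : Q × R, (if z ∈ DD.H then ∑ f ∈ DD.J z, w f else 0) =
        ∑ f, if z ∈ DD.H ∧ f ∈ DD.J z then w f else 0 := by
      intro z
      by_cases hz : z ∈ DD.H
      · rw [if_pos hz]
        have h3 : ∀ f, (z ∈ DD.H ∧ f ∈ DD.J z) ↔ f ∈ DD.J z := fun f => by simp [hz]
        simp only [h3]
        rw [Finset.sum_ite_mem, Finset.univ_inter]
      · rw [if_neg hz]
        symm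
        exact Finset.sum_eq_zero fun f _ => if_neg fun h => hz h.1
    simp only [h2]
    rw [Finset.sum_comm]
    refine Finset.sum_congr rfl fun f _ => ?_
    rw [← Finset.sum_filter, Finset.sum_const, nsmul_eq_mul, mul_comm]
  rw [h1, Finset.mul_sum]
  refine Finset.sum_le_sum fun f _ => ?_
  rw [mul_comm]
  refine mul_le_mul_of_nonneg_right ?_ (hw f)
  have h3 : (univ.filter fun z => z ∈ DD.H ∧ f ∈ DD.J z) ⊆ DD.A f ×ˢ DD.B f := by
    intro z hz
    rw [Finset.mem_filter] at hz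
    rw [Finset.mem_product]
    exact (p6_J DD z f).1 hz.2.2
  have h4 : ((univ.filter fun z => z ∈ DD.H ∧ f ∈ DD.J z).card : ℝ) ≤
      ((DD.A f ×ˢ DD.B f).card : ℝ) := by
    exact_mod_cast Finset.card_le_card h3
  refine h4.trans ?_
  rw [Finset.card_product, Nat.cast_mul]
  calc ((DD.A f).card : ℝ) * (DD.B f).card ≤ (K * Real.sqrt N) * (K * Real.sqrt N) :=
        mul_le_mul (hh.cardA f) (hh.cardB f) (Nat.cast_nonneg _) (by positivity)
    _ = K ^ 2 * (Real.sqrt N * Real.sqrt N) := by ring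
    _ = K ^ 2 * N := by rw [Real.mul_self_sqrt hN0]

/-- `B ⊆ {z}` and `B ≠ ∅` give `B = {z}`: one term, at most `|J z| ≤ j0` labels of weight at most one. -/
theorem p6_pos {Q R M : Type} [Fintype Q] [Fintype R] [Fintype M] {DD : SelData Q R M}
    {K N : ℝ} {j0 : ℕ} (hh : SelHyp DD K N j0) (w : M → ℝ) (hw : ∀ f, 0 ≤ w f)
    (hw1 : ∀ f, w f ≤ 1) (π : ℝ) (B : Finset (Q × R)) (hB : B.Nonempty) :
    tf (fun z : Q × R => if z ∈ DD.H then ∑ f ∈ DD.J z, w f else 0) (fun z => {z})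
      (fun _ => π) B ≤ j0 := by
  refine p6_tf_pos _ π j0 ?_ (Nat.cast_nonneg _) B hB
  intro z
  split_ifs with hz
  · refine (Finset.sum_le_card_nsmul _ _ 1 fun f _ => hw1 f).trans ?_
    rw [nsmul_eq_mul, mul_one]
    exact_mod_cast hh.cardJ z hz
  · exact Nat.cast_nonneg _

end Pool.Agent.Lib.H23D
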