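import Pool.Agent.Lib.H23D.P7B
import Pool.Agent.Lib.H23D.L0
import Pool.Agent.Lib.H23D.C5

/-!
# H23D, P8: the generic tail bound

Module C of H93B, see `H93B/PROOF.md` and `README.md`.
-/

set_option autoImplicit false

open Finset
open scoped Classical

namespace Pool.Agent.Lib.H23D

open Pool.Agent.Lib.Prob48
open Pool.Agent.Lib.H93B

variable {V : Type} [Fintype V] {G : SimpleGraph V} {k : ℕ} {φ : V → Option (Fin k)} {c : Cst}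
  {r : ℝ} {D : ℕ} {x C1 C3 L : ℝ}

/-- Apply `hconc` with the exponents `m' = m1 * (36 + 8 * d)` and `r' = m1 * (m + 1)` (gives `C`), `N = r ^ 4`,
`Q0 = B τ`, `Q1 = B L`, `κ2 τ` for `τ`, and the set of all `z` with `z.1 ∈ ball G (6 + 2 * (d + 1)) v` for `L`
(`p7_within`, `p7_trans`). `SelHyp`: `c5 (rs_gs h)`. Its size is at most
`k (D + 1) ^ (8 + 2 d) ≤ r ^ 4 (r ^ 4) ^ (8 + 2 d) = r ^ (36 + 8 d) = Y ^ m'` for `r ≥ 2` (`D + 1 = r ^ 3 + 1 ≤ r ^ 4`).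
Condition `Y ^ c0 (Q0 + Q1) Q1 ≤ (κ2 τ)²`: put `A = Y ^ (c0 + m2 + 1) ≤ Y ^ m1 = r`; `L ≤ A`, `Y ^ c0 L ≤ A`, so the left
side is at most `B² (τ + A) A ≤ B² (τ r + r²)`, and `τ ≥ κ1 r²`: for `r ≥ 2 B² / (κ1 κ2²)` the first part is at most
`κ2² τ² / 2`, for `r² ≥ 2 B² / (κ1² κ2²)` the second. Result: `C / Y ^ (m1 (m + 1)) = C / r ^ (m + 1) ≤ 1 / r ^ m` for
`r ≥ C`. Also `Cw ≤ r ^ 4` for large `r`. -/
theorem p8 (c : Cst) (hc : CstHyp c) (Cw : ℝ) (hCw : 0 ≤ Cw) (nc d c0 m1 m2 : ℕ)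
    (hconc : ConcFor c.K Cw c.j0 nc d c0) (hm : 100 * (c0 + m2 + 1) ≤ m1) (B κ1 κ2 : ℝ)
    (hB : 1 ≤ B) (h1 : 0 < κ1) (h2 : 0 < κ2) (m : ℕ) : ∃ r0 : ℝ,
    ∀ (V : Type) [Fintype V] (k D : ℕ) (r Y : ℝ) (G : SimpleGraph V) (F : Fam V k)
      (φ : V → Option (Fin k)) (om : V × Fin k → ℝ) (x C1 C3 L : ℝ) (s : Sel V (Fin k) (V × V)),
      RS c Cw nc d m1 m2 r Y D G F φ om x C1 C3 L s → r0 ≤ r →
      ∀ (v : V) (T : Type) [Fintype T] (w : T → ℝ) (ρ : T → Finset (V × Fin k))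
        (Z : Finset (V × Fin k) → ℝ), (∀ t, 0 ≤ w t) → (∀ t, (ρ t).card ≤ 4) →
        (∀ t, w t ≠ 0 → ∀ z ∈ ρ t, z ∈ (dat c r G φ).H ∧ z.1 ∈ ball G 6 v) → Lip w ρ Z →
        ∀ τ : ℝ, κ1 * r ^ 2 ≤ τ → tf w ρ (fun _ => Cw / r ^ 4) ∅ ≤ B * τ →
        (∀ B' : Finset (V × Fin k), B'.Nonempty → tf w ρ (fun _ => Cw / r ^ 4) B' ≤ B * L) →
        s.μ.P (fun u => κ2 * τ ≤ |Z (s.S u) - s.μ.E (fun u' => Z (s.S u'))|) ≤ 1 / r ^ m := by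
  obtain ⟨C, hC0, hC⟩ := hconc (m1 * (36 + 8 * d)) (m1 * (m + 1))
  have hB0 : 0 < B := by linarith
  refine ⟨max (max 2 C) (max Cw (max (2 * B ^ 2 / (κ1 * κ2 ^ 2)) (2 * B ^ 2 / (κ1 ^ 2 * κ2 ^ 2)))),
    ?_⟩
  intro V _ k D r Y G F φ om x C1 C3 L s hRS hr v T _ w ρ Z hw hcard hmem hLip τ hτ ht0 ht1
  have hr2 : 2 ≤ r := (le_max_left _ _).trans ((le_max_left _ _).trans hr)
  have hrC : C ≤ r := (le_max_right _ _).trans ((le_max_left _ _).trans hr)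
  have hr' := (le_max_right (max 2 C)
    (max Cw (max (2 * B ^ 2 / (κ1 * κ2 ^ 2)) (2 * B ^ 2 / (κ1 ^ 2 * κ2 ^ 2))))).trans hr
  have hrCw : Cw ≤ r := (le_max_left _ _).trans hr'
  have hrE := (le_max_right Cw
    (max (2 * B ^ 2 / (κ1 * κ2 ^ 2)) (2 * B ^ 2 / (κ1 ^ 2 * κ2 ^ 2)))).trans hr'
  have hrE1 : 2 * B ^ 2 / (κ1 * κ2 ^ 2) ≤ r := (le_max_left _ _).trans hrE
  have hrE2 : 2 * B ^ 2 / (κ1 ^ 2 * κ2 ^ 2) ≤ r := (le_max_right _ _).trans hrE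
  rw [div_le_iff₀ (by positivity)] at hrE1 hrE2
  have hr1 : 1 ≤ r := by linarith
  have hr0 : 0 < r := by linarith
  have hY1 := hRS.Y_one
  have hY0 : 0 < Y := by linarith
  have hL1 := hRS.L_one
  have hL0 : 0 < L := by linarith
  have hτ0 : 0 < τ := lt_of_lt_of_le (by positivity) hτ
  have hr4 : r ≤ r ^ 4 := by
    calc r = r ^ 1 := (pow_one r).symm
      _ ≤ r ^ 4 := pow_le_pow_right₀ hr1 (by norm_num)
  have hm1 : c0 + m2 + 1 ≤ m1 := by omega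
  have hA : Y ^ (c0 + m2 + 1) ≤ r := by
    rw [← hRS.Y_pow]
    exact pow_le_pow_right₀ hY1 hm1
  have hLr : L ≤ r := by
    refine hRS.L_le.trans (le_trans ?_ hA)
    exact pow_le_pow_right₀ hY1 (by omega)
  have hYL : Y ^ c0 * L ≤ r := by
    calc Y ^ c0 * L ≤ Y ^ c0 * Y ^ m2 := mul_le_mul_of_nonneg_left hRS.L_le (by positivity)
      _ = Y ^ (c0 + m2) := (pow_add _ _ _).symm
      _ ≤ Y ^ (c0 + m2 + 1) := pow_le_pow_right₀ hY1 (by omega)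
      _ ≤ r := hA
  obtain ⟨Ls, hLs⟩ : ∃ Ls : Finset (V × Fin k),
      Ls = (ball G (6 + 2 * (d + 1)) v) ×ˢ (univ : Finset (Fin k)) := ⟨_, rfl⟩
  have hmemL : ∀ t, w t ≠ 0 → ∀ z ∈ ρ t, z ∈ (dat c r G φ).H ∧
      ∀ y, (dat c r G φ).Within (d + 1) z y → y ∈ Ls := by
    intro t ht z hz
    obtain ⟨b1, b2⟩ := hmem t ht z hz
    refine ⟨b1, fun y hy => ?_⟩
    rw [hLs, mem_product]
    exact ⟨p7_trans b2 (p7_within hc hy), mem_univ _⟩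
  have hkr : (k : ℝ) ≤ r ^ 4 := by
    have b1 := hRS.k_le
    have b2 := hc.ε_le
    have b3 : 0 < r ^ 4 := by positivity
    nlinarith
  have hDr : ((D : ℝ) + 1) ≤ r ^ 4 := by
    rw [← hRS.r_cube]
    have b2 : (1 : ℝ) ≤ r ^ 3 := one_le_pow₀ hr1
    nlinarith
  have hLcard : (Ls.card : ℝ) ≤ Y ^ (m1 * (36 + 8 * d)) := by
    rw [pow_mul, hRS.Y_pow, hLs, card_product, card_univ, Fintype.card_fin]
    push_cast
    have b1 : ((ball G (6 + 2 * (d + 1)) v).card : ℝ) ≤ ((D : ℝ) + 1) ^ (6 + 2 * (d + 1)) := by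
      exact_mod_cast p7_card hRS.deg (6 + 2 * (d + 1)) v
    have b2 : ((D : ℝ) + 1) ^ (6 + 2 * (d + 1)) ≤ (r ^ 4) ^ (6 + 2 * (d + 1)) :=
      pow_le_pow_left₀ (by positivity) hDr _
    calc ((ball G (6 + 2 * (d + 1)) v).card : ℝ) * (k : ℝ)
        ≤ (r ^ 4) ^ (6 + 2 * (d + 1)) * r ^ 4 :=
          mul_le_mul (b1.trans b2) hkr (by positivity) (by positivity)
      _ = r ^ (36 + 8 * d) := by
          rw [← pow_mul, ← pow_add]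
          congr 1
          ring
  have hcond : Y ^ c0 * ((B * τ + B * L) * (B * L)) ≤ (κ2 * τ) ^ 2 := by
    have b1 : Y ^ c0 * ((B * τ + B * L) * (B * L)) = B ^ 2 * (τ + L) * (Y ^ c0 * L) := by ring
    rw [b1]
    have b2 : B ^ 2 * (τ + L) * (Y ^ c0 * L) ≤ B ^ 2 * (τ + r) * r := by
      refine mul_le_mul ?_ hYL (by positivity) (by positivity)
      exact mul_le_mul_of_nonneg_left (by linarith) (by positivity)
    refine b2.trans ?_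
    have b3 : B ^ 2 * r ≤ κ2 ^ 2 * τ / 2 := by
      have b4 : 2 * B ^ 2 * r ≤ r * (κ1 * κ2 ^ 2) * r := mul_le_mul_of_nonneg_right hrE1 hr0.le
      have b5 : κ2 ^ 2 * (κ1 * r ^ 2) ≤ κ2 ^ 2 * τ := mul_le_mul_of_nonneg_left hτ (by positivity)
      nlinarith
    have b6 : B ^ 2 * r ^ 2 ≤ κ2 ^ 2 * τ ^ 2 / 2 := by
      have b7 : (κ1 * r ^ 2) ^ 2 ≤ τ ^ 2 := pow_le_pow_left₀ (by positivity) hτ 2
      have b8 : κ2 ^ 2 * (κ1 * r ^ 2) ^ 2 ≤ κ2 ^ 2 * τ ^ 2 :=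
        mul_le_mul_of_nonneg_left b7 (by positivity)
      have b9 : 2 * B ^ 2 * r ^ 2 ≤ r * (κ1 ^ 2 * κ2 ^ 2) * r ^ 2 :=
        mul_le_mul_of_nonneg_right hrE2 (by positivity)
      have b10 : r * (κ1 ^ 2 * κ2 ^ 2) * r ^ 2 ≤ κ2 ^ 2 * (κ1 * r ^ 2) ^ 2 := by
        have b11 : r ^ 3 ≤ r ^ 4 := pow_le_pow_right₀ hr1 (by norm_num)
        have b12 : (κ1 ^ 2 * κ2 ^ 2) * r ^ 3 ≤ (κ1 ^ 2 * κ2 ^ 2) * r ^ 4 :=
          mul_le_mul_of_nonneg_left b11 (by positivity)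
        nlinarith
      linarith
    have b13 : B ^ 2 * (τ + r) * r = (B ^ 2 * r) * τ + B ^ 2 * r ^ 2 := by ring
    rw [b13]
    have b14 : (B ^ 2 * r) * τ ≤ (κ2 ^ 2 * τ / 2) * τ := mul_le_mul_of_nonneg_right b3 hτ0.le
    have b15 : (κ2 ^ 2 * τ / 2) * τ + κ2 ^ 2 * τ ^ 2 / 2 = (κ2 * τ) ^ 2 := by ring
    linarith
  have hmain := hC V (Fin k) (V × V) (dat c r G φ) s (r ^ 4) (hrCw.trans hr4) (c5 (rs_gs hRS))
    hRS.base T w ρ Z Ls hw hcard hmemL hLip Y (B * τ) (B * L) (κ2 * τ) hY1 hLcard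
    (by positivity) (by positivity) (by positivity) ht0 ht1 hcond
  refine hmain.trans ?_
  rw [pow_mul, hRS.Y_pow, div_le_div_iff₀ (by positivity) (by positivity), one_mul, pow_succ,
    mul_comm]
  exact mul_le_mul_of_nonneg_left hrC (by positivity)

end Pool.Agent.Lib.H23D
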