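import Pool.Agent.Lib.H23D.P4
import Pool.Agent.Lib.H23D.P5
import Pool.Agent.Lib.H23D.P6
import Pool.Agent.Lib.H23D.P8

/-!
# H23D, P9: tail bounds for tuple families and for the labels

Module C of H93B, see `H93B/PROOF.md` and `README.md`.
-/

set_option autoImplicit false

open Finset
open scoped Classical

namespace Pool.Agent.Lib.H23D

open Pool.Agent.Lib.Prob48
open Pool.Agent.Lib.H93B

variable {V : Type} [Fintype V] {G : SimpleGraph V} {k : ℕ} {φ : V → Option (Fin k)} {c : Cst}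
  {r : ℝ} {D : ℕ} {x C1 C3 L : ℝ}

theorem p9_mem_act {Q R M : Type} [Fintype Q] [Fintype R] (s : Sel Q R M) (u : s.ι → s.Val)
    (z : Q × R) : z ∈ s.act u ↔ ∃ i, s.loc i = Sum.inl z ∧ s.one (u i) := by
  simp [Sel.act]

theorem p9_mem_ρ {X : Type} (F : Tk X) (t : F.T) (z : X) : z ∈ F.ρ t ↔ ∃ j, F.site t j = z := by
  simp [Tk.ρ]

theorem p9_inter {X : Type} (S H : Finset X) (h : S ⊆ H) : S ∩ H = S := inter_eq_left.2 h

theorem p9_congr {X T : Type} [Fintype T] (w w' : T → ℝ) {ρ : T → Finset X} {om : X → ℝ}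
    {B : Finset X} (h : ∀ t, w t = w' t) : tf w ρ om B = tf w' ρ om B := by
  have e : w = w' := funext h
  rw [e]

/-- `p8` with `256 B` for `B`, `w = F'.w`, `ρ = F'.ρ`, `Z = F'.Z = st ..` (`p4_st`); `p5_zero`, `p5_pos`
(`β = B L`); the elements of `ρ t` are the sites. -/
theorem p9 (c : Cst) (hc : CstHyp c) (Cw : ℝ) (hCw : 0 ≤ Cw) (nc d c0 m1 m2 : ℕ)
    (hconc : ConcFor c.K Cw c.j0 nc d c0) (hm : 100 * (c0 + m2 + 1) ≤ m1) (B κ1 κ2 : ℝ)
    (hB : 1 ≤ B) (h1 : 0 < κ1) (h2 : 0 < κ2) (m : ℕ) : ∃ r0 : ℝ,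
    ∀ (V : Type) [Fintype V] (k D : ℕ) (r Y : ℝ) (G : SimpleGraph V) (F : Fam V k)
      (φ : V → Option (Fin k)) (om : V × Fin k → ℝ) (x C1 C3 L : ℝ) (s : Sel V (Fin k) (V × V)),
      RS c Cw nc d m1 m2 r Y D G F φ om x C1 C3 L s → r0 ≤ r →
      ∀ (v : V) (F' : Tk (V × Fin k)) (τ : ℝ), κ1 * r ^ 2 ≤ τ →
        F'.Ok (dat c r G φ).H (Cw / r ^ 4) (B * τ) (B * L) →
        (∀ t, F'.w t ≠ 0 → ∀ j, (F'.site t j).1 ∈ ball G 6 v) →
        s.μ.P (fun u => κ2 * τ ≤ |F'.Z (s.S u) - s.μ.E (fun u' => F'.Z (s.S u'))|) ≤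
          1 / r ^ m := by
  obtain ⟨r0, h0⟩ := p8 c hc Cw hCw nc d c0 m1 m2 hconc hm (256 * B) κ1 κ2 (by linarith) h1 h2 m
  refine ⟨r0, ?_⟩
  intro V _ k D r Y G F φ om x C1 C3 L s hRS hr v F' τ hτ hOk hnear
  have hr0 : 0 < r := by linarith [hRS.r_one]
  have hτ0 : 0 < τ := lt_of_lt_of_le (by positivity) hτ
  have hL1 := hRS.L_one
  have hπ : 0 ≤ Cw / r ^ 4 := by positivity
  refine h0 V k D r Y G F φ om x C1 C3 L s hRS hr v F'.T F'.w F'.ρ (st F'.w F'.ρ) hOk.w_nonneg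
    (fun t => (F'.ρ_card_le t).trans hOk.q_le) ?_ (p4_st _ _ hOk.w_nonneg) τ hτ ?_ ?_
  · intro t ht z hz
    obtain ⟨j, rfl⟩ := (p9_mem_ρ F' t z).1 hz
    exact ⟨hOk.mem t ht j, hnear t ht j⟩
  · rw [p5_zero F' _ hOk.inj]
    refine hOk.c0.trans ?_
    have : 0 ≤ B * τ := by positivity
    nlinarith
  · intro B' hB'
    refine (p5_pos F' (Cw / r ^ 4) (B * L) hOk.q_le hπ (by positivity) hOk.w_nonneg hOk.inj hOk.c1
      B' hB').trans (le_of_eq ?_)
    ring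

/-- `p8` with `Z S = labZ J wlab (S ∩ H)` (`p4_lab`; equal to `labZ J wlab S` for `S = s.S u ⊆ act ⊆ H`, by
`base.act`, `base.locH`), `p6_zero`, `p6_pos` with `π = Cw / r ^ 4`, `N = r ^ 4` (`c5`). Nearness: a token `z ∈ H` has
positive weight only if `z.1` is adjacent to a vertex of `co w w' ⊆ nb w`: `z.1 ∈ ball G 2 w`. -/
theorem p9_lab (c : Cst) (hc : CstHyp c) (Cw : ℝ) (hCw : 0 ≤ Cw) (nc d c0 m1 m2 : ℕ)
    (hconc : ConcFor c.K Cw c.j0 nc d c0) (hm : 100 * (c0 + m2 + 1) ≤ m1) (B κ1 κ2 : ℝ)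
    (hB : 1 ≤ B) (hBj : (c.j0 : ℝ) ≤ B) (hBK : c.K ^ 2 * Cw * c.C3m ≤ B)
    (h1 : 0 < κ1) (h2 : 0 < κ2) (m : ℕ) : ∃ r0 : ℝ,
    ∀ (V : Type) [Fintype V] (k D : ℕ) (r Y : ℝ) (G : SimpleGraph V) (F : Fam V k)
      (φ : V → Option (Fin k)) (om : V × Fin k → ℝ) (x C1 C3 L : ℝ) (s : Sel V (Fin k) (V × V)),
      RS c Cw nc d m1 m2 r Y D G F φ om x C1 C3 L s → r0 ≤ r →
      ∀ w w' : V, κ1 * r ^ 2 ≤ cd G w w' →
        (∑ f, wlab c r G φ w w' f ≤ c.C3m * cd G w w') →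
        s.μ.P (fun u => κ2 * cd G w w' ≤ |labZ (dat c r G φ).J (wlab c r G φ w w') (s.S u) -
          s.μ.E (fun u' => labZ (dat c r G φ).J (wlab c r G φ w w') (s.S u'))|) ≤ 1 / r ^ m := by
  obtain ⟨r0, h0⟩ := p8 c hc Cw hCw nc d c0 m1 m2 hconc hm B κ1 κ2 hB h1 h2 m
  refine ⟨r0, ?_⟩
  intro V _ k D r Y G F φ om x C1 C3 L s hRS hr w w' hcd hsum
  have hr0 : 0 < r := by linarith [hRS.r_one]
  have hL1 := hRS.L_one
  have hπ : 0 ≤ Cw / r ^ 4 := by positivity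
  have hw0 : ∀ f, 0 ≤ wlab c r G φ w w' f := by
    intro f
    unfold wlab
    split_ifs <;> norm_num
  have hw1 : ∀ f, wlab c r G φ w w' f ≤ 1 := by
    intro f
    unfold wlab
    split_ifs <;> norm_num
  have hh := c5 (rs_gs hRS)
  have hSH : ∀ u, s.S u ⊆ (dat c r G φ).H := by
    intro u z hz
    obtain ⟨i, hi, _⟩ := (p9_mem_act s u z).1 (hRS.base.act u hz)
    exact hRS.base.locH i z hi
  have key : ∀ (W : V × Fin k → ℝ) (Z : Finset (V × Fin k) → ℝ),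
      (∀ z ∈ (dat c r G φ).H, W z = ∑ f ∈ (dat c r G φ).J z, wlab c r G φ w w' f) →
      (∀ z, z ∉ (dat c r G φ).H → W z = 0) →
      Lip W (fun z => {z}) Z →
      (∀ S ⊆ (dat c r G φ).H, Z S = labZ (dat c r G φ).J (wlab c r G φ w w') S) →
      s.μ.P (fun u => κ2 * cd G w w' ≤ |labZ (dat c r G φ).J (wlab c r G φ w w') (s.S u) -
          s.μ.E (fun u' => labZ (dat c r G φ).J (wlab c r G φ w w') (s.S u'))|) ≤ 1 / r ^ m := by
    intro W Z hW1 hW2 hLip hZ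
    have hwt : ∀ z : V × Fin k, 0 ≤ W z := by
      intro z
      by_cases hz : z ∈ (dat c r G φ).H
      · rw [hW1 z hz]
        exact sum_nonneg fun f _ => hw0 f
      · rw [hW2 z hz]
    have hmain := h0 V k D r Y G F φ om x C1 C3 L s hRS hr w (V × Fin k) W (fun z => {z}) Z hwt
      (fun z => by rw [card_singleton]; norm_num) ?_ hLip (cd G w w') hcd ?_ ?_
    · have e : (fun u => Z (s.S u)) =
          fun u => labZ (dat c r G φ).J (wlab c r G φ w w') (s.S u) :=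
        funext fun u => hZ _ (hSH u)
      have e2 : ∀ u, Z (s.S u) = labZ (dat c r G φ).J (wlab c r G φ w w') (s.S u) :=
        fun u => hZ _ (hSH u)
      simp only [e2] at hmain
      exact hmain
    · intro t ht z hz
      rw [mem_singleton] at hz
      subst hz
      have hzH : z ∈ (dat c r G φ).H := by
        by_contra hcon
        exact ht (hW2 z hcon)
      refine ⟨hzH, ?_⟩
      rw [hW1 z hzH] at ht
      obtain ⟨f, hf, hf2⟩ := exists_ne_zero_of_sum_ne_zero ht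
      have hf3 : f.1 ∈ co G w w' := by
        by_contra hcon
        apply hf2
        unfold wlab
        rw [if_neg fun h => hcon h.1]
      have b1 : f.1 ∈ ball G 1 w := p7_adj (p7_self 0 w) (mem_co.1 hf3).1
      have b2 : z.1 ∈ ball G 2 w := p7_adj b1 (mem_J'.1 hf).2.1.2.1
      exact p7_mono (by norm_num) w b2
    · refine ((le_of_eq (p9_congr W _ ?_)).trans
        (p6_zero hh (wlab c r G φ w w') hw0 (Cw / r ^ 4) hπ)).trans ?_
      · intro z
        by_cases hz : z ∈ (dat c r G φ).H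
        · rw [if_pos hz, hW1 z hz]
        · rw [if_neg hz, hW2 z hz]
      have b1 : Cw / r ^ 4 * (c.K ^ 2 * r ^ 4) = c.K ^ 2 * Cw := by
        field_simp
      rw [b1]
      have b2 : c.K ^ 2 * Cw * ∑ f, wlab c r G φ w w' f ≤
          c.K ^ 2 * Cw * (c.C3m * cd G w w') := mul_le_mul_of_nonneg_left hsum (by positivity)
      refine b2.trans ?_
      rw [← mul_assoc]
      exact mul_le_mul_of_nonneg_right hBK (cd_nonneg _ _)
    · intro B' hB'
      refine ((le_of_eq (p9_congr W _ ?_)).trans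
        (p6_pos hh (wlab c r G φ w w') hw0 hw1 (Cw / r ^ 4) B' hB')).trans ?_
      · intro z
        by_cases hz : z ∈ (dat c r G φ).H
        · rw [if_pos hz, hW1 z hz]
        · rw [if_neg hz, hW2 z hz]
      have hB0 : 0 ≤ B := by linarith
      nlinarith
  have hfin := p4_lab (dat c r G φ).J (dat c r G φ).H (wlab c r G φ w w') hw0
  refine key _ _ ?_ ?_ hfin ?_
  · intro z hz
    beta_reduce
    rw [if_pos hz]
  · intro z hz
    beta_reduce
    rw [if_neg hz]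
  · intro S hS
    beta_reduce
    rw [p9_inter S _ hS]

end Pool.Agent.Lib.H23D
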