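import Pool.Agent.Lib.H23D.E1
import Pool.Agent.Lib.H23D.M1
import Pool.Agent.Lib.H23D.O1
import Pool.Agent.Lib.H23D.O2
import Pool.Agent.Lib.H23D.P9
import Pool.Agent.Lib.H23D.P10
import Pool.Agent.Lib.H23D.LDefs

/-!
# H23D, I1: (I1) holds with high probability

Module C of H93B, see `H93B/PROOF.md` and `README.md`.
-/

set_option autoImplicit false

open Finset
open scoped Classical

namespace Pool.Agent.Lib.H23D

open Pool.Agent.Lib.Prob48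
open Pool.Agent.Lib.H93B

variable {V : Type} [Fintype V] {G : SimpleGraph V} {k : ℕ} {φ : V → Option (Fin k)} {c : Cst}
  {r : ℝ} {D : ℕ} {x C1 C3 L : ℝ}

theorem i1_act {Q R M : Type} [Fintype Q] [Fintype R] (s : Sel Q R M) (u : s.ι → s.Val)
    (z : Q × R) (hz : z ∈ s.act u) : ∃ i, s.loc i = Sum.inl z ∧ s.one (u i) := by
  unfold Sel.act at hz
  exact (Finset.mem_filter.mp hz).2

theorem i1_sub {Cw : ℝ} {nc d m1 m2 : ℕ} {Y : ℝ} {F : Fam V k} {om : V × Fin k → ℝ}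
    {s : Sel V (Fin k) (V × V)} (h : RS c Cw nc d m1 m2 r Y D G F φ om x C1 C3 L s)
    (u : s.ι → s.Val) : s.S u ⊆ (dat c r G φ).H := by
  intro z hz
  obtain ⟨i, hi, _⟩ := i1_act s u z (h.base.act u hz)
  exact h.base.locH i z hi

/-- Let `σ = sig a`, `κ = σ / 6`, `B` from `exists_BH`. `p9` (exponent `m + 1`, `κ1 = 1`, `κ2 = κ`, `τ = r²`, `v`) for
`W1l` (`o1`, `p10_1l`) and `W1p` (`o2`, `p10_1p`). If neither deviation is `≥ κ r²` then by `e1` (`S ⊆ act ⊆ H`,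
`prob.noconf`), `h.i1`, `m1l`, `m1p` the number of mono pairs is at most
`C1 r² + 2 (σ r² + κ r²) + σ r² + Cw² C1m K0² r + κ r² ≤ C1 r² + 3 σ r² + 3 κ r² + (σ/2) r² = (C1 + 4 σ) r²` for
`r ≥ 2 Cw² C1m K0² / σ`. Union bound: `2 / r ^ (m + 1) ≤ 1 / r ^ m` for `r ≥ 2`. -/
theorem i1 (c : Cst) (hc : CstHyp c) (Cw : ℝ) (hCw : 0 ≤ Cw) (nc d c0 m1 m2 : ℕ)
    (hconc : ConcFor c.K Cw c.j0 nc d c0) (hm : 100 * (c0 + m2 + 1) ≤ m1) (m : ℕ) : ∃ r0 : ℝ,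
    ∀ (V : Type) [Fintype V] (k D : ℕ) (r Y : ℝ) (G : SimpleGraph V) (F : Fam V k)
      (φ : V → Option (Fin k)) (om : V × Fin k → ℝ) (x C1 C3 L : ℝ) (s : Sel V (Fin k) (V × V)),
      RS c Cw nc d m1 m2 r Y D G F φ om x C1 C3 L s → r0 ≤ r →
      ∀ v : V, s.μ.P (fun u => ¬ G1 r G (newφ c r G φ (s.S u)) (C1 + 4 * c.sig * c.a) v) ≤
        1 / r ^ m := by
  obtain ⟨B, hB⟩ := exists_BH hc hCw
  have hσ := sig_a_pos hc
  obtain ⟨r1, h9⟩ := p9 c hc Cw hCw nc d c0 m1 m2 hconc hm B 1 (c.sig * c.a / 6) hB.one one_pos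
    (by positivity) (m + 1)
  refine ⟨max (max r1 2) (2 * (Cw ^ 2 * c.C1m * c.K0 ^ 2) / (c.sig * c.a)), ?_⟩
  intro V _ k D r Y G F φ om x C1 C3 L s h hr v
  have hr2 : 2 ≤ r := ((le_max_right _ _).trans (le_max_left _ _)).trans hr
  have hrr1 : r1 ≤ r := ((le_max_left _ _).trans (le_max_left _ _)).trans hr
  have hr3 : 2 * (Cw ^ 2 * c.C1m * c.K0 ^ 2) / (c.sig * c.a) ≤ r := (le_max_right _ _).trans hr
  rw [div_le_iff₀ hσ] at hr3
  have hr0 : 0 < r := by linarith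
  have hA1 := h9 V k D r Y G F φ om x C1 C3 L s h hrr1 v (W1l c r G φ v) (r ^ 2)
    (by rw [one_mul]) (o1 (rs_gs h) hCw hB v) (fun t ht j => p10_1l v t ht j)
  have hA2 := h9 V k D r Y G F φ om x C1 C3 L s h hrr1 v (W1p c r G φ v) (r ^ 2)
    (by rw [one_mul]) (o2 (rs_gs h) hCw hB v) (fun t ht j => p10_1p v t ht j)
  have hE1 := m1l h hCw v
  have hE2 := m1p h hCw v
  have hsub : ∀ u, ¬ G1 r G (newφ c r G φ (s.S u)) (C1 + 4 * c.sig * c.a) v →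
      (c.sig * c.a / 6 * r ^ 2 ≤
        |(W1l c r G φ v).Z (s.S u) - s.μ.E (fun u' => (W1l c r G φ v).Z (s.S u'))|) ∨
      (c.sig * c.a / 6 * r ^ 2 ≤
        |(W1p c r G φ v).Z (s.S u) - s.μ.E (fun u' => (W1p c r G φ v).Z (s.S u'))|) := by
    intro u hu
    by_contra hcon
    rw [not_or, not_le, not_le] at hcon
    apply hu
    obtain ⟨c1, c2⟩ := hcon
    have d1 := (abs_lt.mp c1).2
    have d2 := (abs_lt.mp c2).2
    have he := e1 (i1_sub h u) (h.prob.noconf u) v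
    have hi := h.state.i1 v
    unfold G1
    have h5 : Cw ^ 2 * c.C1m * c.K0 ^ 2 * r ≤ c.sig * c.a / 2 * r ^ 2 := by
      have : 2 * (Cw ^ 2 * c.C1m * c.K0 ^ 2) * r ≤ r * (c.sig * c.a) * r :=
        mul_le_mul_of_nonneg_right hr3 hr0.le
      nlinarith
    nlinarith
  calc s.μ.P (fun u => ¬ G1 r G (newφ c r G φ (s.S u)) (C1 + 4 * c.sig * c.a) v)
      ≤ s.μ.P (fun u => (c.sig * c.a / 6 * r ^ 2 ≤
        |(W1l c r G φ v).Z (s.S u) - s.μ.E (fun u' => (W1l c r G φ v).Z (s.S u'))|) ∨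
      (c.sig * c.a / 6 * r ^ 2 ≤
        |(W1p c r G φ v).Z (s.S u) - s.μ.E (fun u' => (W1p c r G φ v).Z (s.S u'))|)) :=
        s.μ.P_mono hsub
    _ ≤ 1 / r ^ (m + 1) + 1 / r ^ (m + 1) :=
        (s.μ.P_or_le _ _).trans (add_le_add hA1 hA2)
    _ ≤ 1 / r ^ m := by
        rw [← add_div, div_le_div_iff₀ (by positivity) (by positivity), pow_succ]
        have : 0 < r ^ m := by positivity
        nlinarith

end Pool.Agent.Lib.H23D
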