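import Pool.Agent.Lib.H23D.Toks
import Pool.Agent.Lib.H23D.H15Cnt

/-!
# H23D, N10: total weight of the labels

Module C of H93B, see `H93B/PROOF.md` and `README.md`.
-/

set_option autoImplicit false

open Finset
open scoped Classical

namespace Pool.Agent.Lib.H23D

open Pool.Agent.Lib.Prob48
open Pool.Agent.Lib.H93B

variable {V : Type} [Fintype V] {G : SimpleGraph V} {k : ℕ} {φ : V → Option (Fin k)} {c : Cst}
  {r : ℝ} {D : ℕ} {x C1 C3 L : ℝ}

/-- this is `h.i3` (the definition of `HM`) -/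
theorem n10 (h : Gs c r D G φ x C1 C3 L) {w w' : V} (hw : w ≠ w')
    (hh : c.ρ0 * r ^ 2 ≤ cd G w w') : ∑ f, wlab c r G φ w w' f ≤ C3 * cd G w w' := by
  have h1 : ∑ f, wlab c r G φ w w' f =
      ((univ.filter fun f : V × V => f.1 ∈ co G w w' ∧ HM c r G φ f.1 f.2).card : ℝ) := by
    unfold wlab
    exact h15_ind (fun f : V × V => f.1 ∈ co G w w' ∧ HM c r G φ f.1 f.2)
  rw [h1]
  refine (h15_mono _ _ ?_).trans (h.i3 w w' hw hh)
  rintro f ⟨h2, h3, h4⟩
  exact ⟨h2, h3, h4⟩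

end Pool.Agent.Lib.H23D
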