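import Pool.Agent.Lib.H23D.NBase
import Pool.Agent.Lib.H23D.B5

/-!
# H23D, N3: counts for W2a

Module C of H93B, see `H93B/PROOF.md` and `README.md`.
-/

set_option autoImplicit false

open Finset
open scoped Classical

namespace Pool.Agent.Lib.H23D

open Pool.Agent.Lib.Prob48
open Pool.Agent.Lib.H93B

variable {V : Type} [Fintype V] {G : SimpleGraph V} {k : ℕ} {φ : V → Option (Fin k)} {c : Cst}
  {r : ℝ} {D : ℕ} {x C1 C3 L : ℝ}

/-- `H_unc`: only uncoloured vertices; `k` colours -/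
theorem n3_le (h : Gs c r D G φ x C1 C3 L) (w w' : V) :
    (W2a c r G φ w w').sum ≤ k * ((unc φ ∩ co G w w').card : ℝ) := by
  show (∑ t : V × Fin k, if t.1 ∈ co G w w' ∧ t ∈ (dat c r G φ).H then (1 : ℝ) else 0) ≤ _
  rw [nb_sum1]
  refine (nb_inj _ ((unc φ ∩ co G w w') ×ˢ (univ : Finset (Fin k))) (fun t => t) ?_ fun t _ t' _ e => e).trans ?_
  · intro t ht
    obtain ⟨h1, h2⟩ := (mem_filter.1 ht).2
    exact mem_product.2 ⟨mem_inter.2 ⟨mem_unc.2 (H_unc h2), h1⟩, mem_univ _⟩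
  · rw [card_product, card_univ, Fintype.card_fin, Nat.cast_mul, mul_comm]

/-- Lemma 1.1 (`b5`) for every `v ∈ unc φ ∩ co G w w'` -/
theorem n3_ge (h : Gs c r D G φ x C1 C3 L) (hr : 8 / c.ε ≤ r) (w w' : V) :
    (k : ℝ) / 2 * ((unc φ ∩ co G w w').card : ℝ) ≤ (W2a c r G φ w w').sum := by
  show _ ≤ (∑ t : V × Fin k, if t.1 ∈ co G w w' ∧ t ∈ (dat c r G φ).H then (1 : ℝ) else 0)
  rw [Fintype.sum_prod_type]
  have h1 : (k : ℝ) / 2 * ((unc φ ∩ co G w w').card : ℝ) ≤ ∑ v ∈ unc φ ∩ co G w w',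
      ∑ col : Fin k, (if v ∈ co G w w' ∧ (v, col) ∈ (dat c r G φ).H then (1 : ℝ) else 0) := by
    rw [mul_comm, ← nsmul_eq_mul]
    refine card_nsmul_le_sum _ _ _ fun v hv => ?_
    obtain ⟨h1, h2⟩ := mem_inter.1 hv
    rw [nb_sum1]
    refine (b5 h hr v (mem_unc.1 h1)).trans (Nat.cast_le.2 (card_le_card fun col hcol => ?_))
    exact mem_filter.2 ⟨mem_univ _, h2, (mem_filter.1 hcol).2⟩
  refine h1.trans (sum_le_sum_of_subset_of_nonneg (subset_univ _) fun v _ _ => sum_nonneg fun col _ => ?_)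
  split_ifs
  · exact zero_le_one
  · exact le_rfl

end Pool.Agent.Lib.H23D
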