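import Pool.Agent.Lib.H23D.NBase

/-!
# H23D, N4D: structures with three sites: two or three sites fixed

Module C of H93B, see `H93B/PROOF.md` and `README.md`.
-/

set_option autoImplicit false

open Finset
open scoped Classical

namespace Pool.Agent.Lib.H23D

open Pool.Agent.Lib.Prob48
open Pool.Agent.Lib.H93B

variable {V : Type} [Fintype V] {G : SimpleGraph V} {k : ℕ} {φ : V → Option (Fin k)} {c : Cst}
  {r : ℝ} {D : ℕ} {x C1 C3 L : ℝ}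

/-- `v1, a, v2, b` fixed: `v4 ∈ nb v1 ∩ cl φ b` (at most `L`, `h.nc`), `v3 ∈ co v2 v4`, at most `K0 r²`
(`cd v2 v4 ≤ K0 r²` is part of `C4`). -/
theorem n4d (h : Gs c r D G φ x C1 C3 L) (y z : V × Fin k) :
    ((univ.filter fun t : Tup V k => P3 c r G φ t ∧ t.s1 = y ∧ t.s2 = z).card : ℝ) ≤
      L * (c.K0 * r ^ 2) := by
  have hK := K0_pos h.hc
  have hr : 0 < r := lt_of_lt_of_le one_pos h.r_one
  refine (nb_fib _ ((nb G y.1 ∩ cl φ z.2).filter fun u => cd G z.1 u ≤ c.K0 * r ^ 2) (fun t => t.v4)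
    (fun u => co G z.1 u) (fun t => t.v3) ?_ ?_ ?_).trans ?_
  · intro t ht
    obtain ⟨⟨_, hC, _, h4⟩, rfl, rfl⟩ := (mem_filter.1 ht).2
    exact mem_filter.2 ⟨mem_inter.2 ⟨mem_nb.2 hC.2.2.2.1.symm, mem_cl.2 h4⟩, hC.2.2.2.2.2.2.2⟩
  · intro t ht
    obtain ⟨⟨_, hC, _⟩, rfl, rfl⟩ := (mem_filter.1 ht).2
    exact mem_co.2 ⟨hC.2.1, hC.2.2.1.symm⟩
  · intro t ht t' ht' e1 e2
    obtain ⟨_, hy, hz⟩ := (mem_filter.1 ht).2
    obtain ⟨_, hy', hz'⟩ := (mem_filter.1 ht').2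
    obtain ⟨e3, e4⟩ := Prod.mk.inj (hy.trans hy'.symm)
    obtain ⟨e5, e6⟩ := Prod.mk.inj (hz.trans hz'.symm)
    exact Tup.ext' e3 e5 e2 e1 e4 e6
  · have h1 : ∑ u ∈ (nb G y.1 ∩ cl φ z.2).filter (fun u => cd G z.1 u ≤ c.K0 * r ^ 2), (((co G z.1 u).card : ℕ) : ℝ) ≤
        ∑ u ∈ (nb G y.1 ∩ cl φ z.2).filter (fun u => cd G z.1 u ≤ c.K0 * r ^ 2), (c.K0 * r ^ 2) :=
      sum_le_sum fun u hu => (mem_filter.1 hu).2
    rw [sum_const, nsmul_eq_mul] at h1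
    refine h1.trans (mul_le_mul_of_nonneg_right ?_ (by positivity))
    refine le_trans (Nat.cast_le.2 (card_le_card (filter_subset _ _))) (h.nc y.1 z.2)

/-- by reflection -/
theorem n4d' (h : Gs c r D G φ x C1 C3 L) (y z : V × Fin k) :
    ((univ.filter fun t : Tup V k => P3 c r G φ t ∧ t.s3 = y ∧ t.s2 = z).card : ℝ) ≤
      L * (c.K0 * r ^ 2) := by
  refine (nb_inj _ _ Tup.refl ?_ ?_).trans (n4d h y z)
  · intro t ht
    obtain ⟨h1, h2, h3⟩ := (mem_filter.1 ht).2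
    exact mem_filter.2 ⟨mem_univ _, P3.refl h1, h2, h3⟩
  · intro t _ t' _ e
    exact congrArg Tup.refl e

/-- `v2, v4 ∈ co v1 v3`, `b` is the colour of `v4` -/
theorem n4e (h : Gs c r D G φ x C1 C3 L) (y z : V × Fin k) :
    ((univ.filter fun t : Tup V k => P3 c r G φ t ∧ t.s1 = y ∧ t.s3 = z).card : ℝ) ≤
      (c.K0 * r ^ 2) ^ 2 := by
  have hK := K0_pos h.hc
  have hr : 0 < r := lt_of_lt_of_le one_pos h.r_one
  by_cases hyz : cd G y.1 z.1 ≤ c.K0 * r ^ 2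
  · refine (nb_inj _ (co G y.1 z.1 ×ˢ co G y.1 z.1) (fun t => (t.v2, t.v4)) ?_ ?_).trans ?_
    · intro t ht
      obtain ⟨⟨_, hC, _⟩, rfl, rfl⟩ := (mem_filter.1 ht).2
      exact mem_product.2 ⟨mem_co.2 ⟨hC.1, hC.2.1.symm⟩, mem_co.2 ⟨hC.2.2.2.1.symm, hC.2.2.1⟩⟩
    · intro t ht t' ht' e2
      obtain ⟨⟨_, _, _, h4⟩, hy, hz⟩ := (mem_filter.1 ht).2
      obtain ⟨⟨_, _, _, h4'⟩, hy', hz'⟩ := (mem_filter.1 ht').2
      obtain ⟨e3, e4⟩ := Prod.mk.inj (hy.trans hy'.symm)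
      obtain ⟨e7, e8⟩ := Prod.mk.inj (hz.trans hz'.symm)
      obtain ⟨e5, e6⟩ := Prod.mk.inj e2
      refine Tup.ext' e3 e5 e7 e6 e4 (Option.some_injective _ ?_)
      rw [← h4, ← h4', e6]
    · rw [card_product, Nat.cast_mul, pow_two]
      exact mul_le_mul hyz hyz (Nat.cast_nonneg _) (by positivity)
  · have he : (univ.filter fun t : Tup V k => P3 c r G φ t ∧ t.s1 = y ∧ t.s3 = z) = ∅ := by
      refine eq_empty_of_forall_notMem fun t ht => ?_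
      obtain ⟨⟨_, hC, _⟩, rfl, rfl⟩ := (mem_filter.1 ht).2
      exact hyz hC.2.2.2.2.2.2.1
    rw [he, card_empty, Nat.cast_zero]
    positivity

/-- `v4 ∈ nb v1 ∩ cl φ b` -/
theorem n4f (h : Gs c r D G φ x C1 C3 L) (y z u : V × Fin k) :
    ((univ.filter fun t : Tup V k => P3 c r G φ t ∧ t.s1 = y ∧ t.s2 = z ∧ t.s3 = u).card : ℝ) ≤
      L := by
  refine (nb_inj _ (nb G y.1 ∩ cl φ z.2) (fun t => t.v4) ?_ ?_).trans (h.nc y.1 z.2)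
  · intro t ht
    obtain ⟨⟨_, hC, _, h4⟩, rfl, rfl, rfl⟩ := (mem_filter.1 ht).2
    exact mem_inter.2 ⟨mem_nb.2 hC.2.2.2.1.symm, mem_cl.2 h4⟩
  · intro t ht t' ht' e2
    obtain ⟨_, hy, hz, hu⟩ := (mem_filter.1 ht).2
    obtain ⟨_, hy', hz', hu'⟩ := (mem_filter.1 ht').2
    obtain ⟨e3, e4⟩ := Prod.mk.inj (hy.trans hy'.symm)
    obtain ⟨e5, e6⟩ := Prod.mk.inj (hz.trans hz'.symm)
    obtain ⟨e7, e8⟩ := Prod.mk.inj (hu.trans hu'.symm)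
    exact Tup.ext' e3 e5 e7 e2 e4 e6

end Pool.Agent.Lib.H23D
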