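import Pool.Agent.Lib.H23D.Toks
import Pool.Agent.Lib.H23D.C1
import Pool.Agent.Lib.H23D.N4D
import Pool.Agent.Lib.H23D.H15Cnt

/-!
# H23D, N6A: sharing structures with three sites

Module C of H93B, see `H93B/PROOF.md` and `README.md`.
-/

set_option autoImplicit false

open Finset
open scoped Classical

namespace Pool.Agent.Lib.H23D

open Pool.Agent.Lib.Prob48
open Pool.Agent.Lib.H93B

variable {V : Type} [Fintype V] {G : SimpleGraph V} {k : ℕ} {φ : V → Option (Fin k)} {c : Cst}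
  {r : ℝ} {D : ℕ} {x C1 C3 L : ℝ}

theorem n6a_ext {t t' : Tup V k} (h1 : t.v1 = t'.v1) (h2 : t.v2 = t'.v2) (h3 : t.v3 = t'.v3)
    (h4 : t.v4 = t'.v4) (h5 : t.a = t'.a) (h6 : t.b = t'.b) : t = t' := by
  obtain ⟨a1, a2, a3, a4, a5, a6⟩ := t
  obtain ⟨b1, b2, b3, b4, b5, b6⟩ := t'
  simp only [Prod.mk.injEq]
  exact ⟨h1, h2, h3, h4, h5, h6⟩

theorem n6b_in (h : Gs c r D G φ x C1 C3 L) (z : V × Fin k) (u v : V) :
    ((univ.filter fun t : Tup V k => (P3 c r G φ t ∧ t.s1 = z) ∧ t.v2 = u ∧ t.v4 = v).card : ℝ) ≤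
      c.K0 * r ^ 2 := by
  by_cases hcd : cd G u v ≤ c.K0 * r ^ 2
  · refine h15_inj _ (co G u v) (fun t => t.v3) ?_ ?_ _ hcd
    · rintro t ⟨⟨h1, h2⟩, h3, h4⟩
      have h5 := h1.2.1
      rw [mem_co, ← h3, ← h4]
      exact ⟨h5.2.1, h5.2.2.1.symm⟩
    · rintro t t' ⟨⟨h1, h2⟩, h3, h4⟩ ⟨⟨g1, g2⟩, g3, g4⟩ e
      have h5 : t.v1 = z.1 := congrArg Prod.fst h2
      have h6 : t.a = z.2 := congrArg Prod.snd h2
      have g5 : t'.v1 = z.1 := congrArg Prod.fst g2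
      have g6 : t'.a = z.2 := congrArg Prod.snd g2
      have h7 : φ t.v4 = some t.b := h1.2.2.2
      have g7 : φ t'.v4 = some t'.b := g1.2.2.2
      rw [h4] at h7
      rw [g4, h7] at g7
      exact n6a_ext (h5.trans g5.symm) (h3.trans g3.symm) e (h4.trans g4.symm)
        (h6.trans g6.symm) (Option.some.inj g7)
  · apply h15_empty
    · rintro t ⟨⟨h1, h2⟩, h3, h4⟩
      apply hcd
      rw [← h3, ← h4]
      exact h1.2.1.2.2.2.2.2.2.2
    · have hK := K0_pos h.hc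
      positivity

/-- `Share s1 s3`: a common label `f ∈ J z` (at most `j0`, `J_card`), `v3 ∈ labA f` (at most `K0 r²`, `c1_A`), and
for fixed `s1`, `s3 = (v3, z.2)` at most `(K0 r²)²` tuples (`n4e`). -/
theorem n6a (h : Gs c r D G φ x C1 C3 L) (z : V × Fin k) :
    ((univ.filter fun t : Tup V k => P3 c r G φ t ∧ t.s1 = z ∧
      (dat c r G φ).Share t.s1 t.s3).card : ℝ) ≤ c.j0 * (c.K0 * r ^ 2) ^ 3 := by
  have hK := K0_pos h.hc
  have hr : 0 ≤ r := by linarith [h.r_one]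
  by_cases hz : z ∈ (dat c r G φ).H
  · have e : (c.j0 : ℝ) * (c.K0 * r ^ 2) ^ 3 =
        c.j0 * ((c.K0 * r ^ 2) * (c.K0 * r ^ 2) ^ 2) := by ring
    rw [e]
    refine h15_cov' _ ((dat c r G φ).J z)
      (fun f t => (P3 c r G φ t ∧ t.s1 = z) ∧ t.v3 ∈ labA c r G φ f) ?_ _ _ (by positivity)
      (by exact_mod_cast J_card hz) ?_
    · rintro t ⟨h1, h2, h3⟩
      obtain ⟨f, h4, h5⟩ := share_iff.1 h3
      rw [h2] at h4
      exact ⟨f, h4, ⟨h1, h2⟩, (mem_J.1 h5).1⟩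
    · intro f _
      refine h15_cov' _ (labA c r G φ f)
        (fun v t => P3 c r G φ t ∧ t.s1 = z ∧ t.s3 = (v, z.2)) ?_ _ _ (by positivity)
        (c1_A h f) ?_
      · rintro t ⟨⟨h1, h2⟩, h3⟩
        refine ⟨t.v3, h3, h1, h2, ?_⟩
        have h4 : t.a = z.2 := congrArg Prod.snd h2
        rw [← h4]
      · intro v _
        exact n4e h z (v, z.2)
  · apply h15_empty
    · rintro t ⟨h1, h2, _⟩
      exact hz (h2 ▸ h1.1.1)
    · positivity

/-- `Share s1 s2`: `f ∈ J z` (at most `j0`), `v2 ∈ labA f` (at most `K0 r²`), `v4 ∈ nb v1` (at most `r ^ 3`; `b` is its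
colour), `v3 ∈ co v2 v4` (at most `K0 r²`). -/
theorem n6b (h : Gs c r D G φ x C1 C3 L) (z : V × Fin k) :
    ((univ.filter fun t : Tup V k => P3 c r G φ t ∧ t.s1 = z ∧
      (dat c r G φ).Share t.s1 t.s2).card : ℝ) ≤ c.j0 * (c.K0 * r ^ 2) ^ 2 * r ^ 3 := by
  have hK := K0_pos h.hc
  have hr : 0 ≤ r := by linarith [h.r_one]
  by_cases hz : z ∈ (dat c r G φ).H
  · have e : (c.j0 : ℝ) * (c.K0 * r ^ 2) ^ 2 * r ^ 3 =
        c.j0 * ((c.K0 * r ^ 2) * (r ^ 3 * (c.K0 * r ^ 2))) := by ring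
    rw [e]
    refine h15_cov' _ ((dat c r G φ).J z)
      (fun f t => (P3 c r G φ t ∧ t.s1 = z) ∧ t.v2 ∈ labA c r G φ f) ?_ _ _ (by positivity)
      (by exact_mod_cast J_card hz) ?_
    · rintro t ⟨h1, h2, h3⟩
      obtain ⟨f, h4, h5⟩ := share_iff.1 h3
      rw [h2] at h4
      exact ⟨f, h4, ⟨h1, h2⟩, (mem_J.1 h5).1⟩
    · intro f _
      refine h15_cov' _ (labA c r G φ f)
        (fun v t => (P3 c r G φ t ∧ t.s1 = z) ∧ t.v2 = v) ?_ _ _ (by positivity)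
        (c1_A h f) ?_
      · rintro t ⟨h1, h3⟩
        exact ⟨t.v2, h3, h1, rfl⟩
      · intro u _
        refine h15_cov' _ (nb G z.1)
          (fun v t => (P3 c r G φ t ∧ t.s1 = z) ∧ t.v2 = u ∧ t.v4 = v) ?_ _ _ (by positivity)
          ?_ ?_
        · rintro t ⟨⟨h1, h2⟩, h3⟩
          refine ⟨t.v4, ?_, ⟨h1, h2⟩, h3, rfl⟩
          have h4 : t.v1 = z.1 := congrArg Prod.fst h2
          rw [mem_nb, ← h4]
          exact h1.2.1.2.2.2.1.symm
        · rw [h.r_cube]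
          exact_mod_cast h.deg z.1
        · intro v _
          exact n6b_in h z u v
  · apply h15_empty
    · rintro t ⟨h1, h2, _⟩
      exact hz (h2 ▸ h1.1.1)
    · positivity

end Pool.Agent.Lib.H23D
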