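import Pool.Agent.Lib.H23D.NBase

/-!
# H23D, N5B: structures with four sites: two or more sites fixed

Module C of H93B, see `H93B/PROOF.md` and `README.md`.
-/

set_option autoImplicit false

open Finset
open scoped Classical

namespace Pool.Agent.Lib.H23D

open Pool.Agent.Lib.Prob48
open Pool.Agent.Lib.H93B

variable {V : Type} [Fintype V] {G : SimpleGraph V} {k : ℕ} {φ : V → Option (Fin k)} {c : Cst}
  {r : ℝ} {D : ℕ} {x C1 C3 L : ℝ}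

/-- `b`, `v2, v4 ∈ co v1 v3` -/
theorem n5b (h : Gs c r D G φ x C1 C3 L) (y z : V × Fin k) :
    ((univ.filter fun t : Tup V k => P4 c r G φ t ∧ t.s1 = y ∧ t.s3 = z).card : ℝ) ≤
      k * (c.K0 * r ^ 2) ^ 2 := by
  have hK := K0_pos h.hc
  have hr : 0 < r := lt_of_lt_of_le one_pos h.r_one
  by_cases hyz : cd G y.1 z.1 ≤ c.K0 * r ^ 2
  · refine (nb_inj _ ((univ : Finset (Fin k)) ×ˢ (co G y.1 z.1 ×ˢ co G y.1 z.1)) (fun t => (t.b, t.v2, t.v4)) ?_ ?_).trans ?_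
    · intro t ht
      obtain ⟨⟨_, hC, _⟩, rfl, rfl⟩ := (mem_filter.1 ht).2
      exact mem_product.2 ⟨mem_univ _, mem_product.2 ⟨mem_co.2 ⟨hC.1, hC.2.1.symm⟩, mem_co.2 ⟨hC.2.2.2.1.symm, hC.2.2.1⟩⟩⟩
    · intro t ht t' ht' e2
      obtain ⟨_, hy, hz⟩ := (mem_filter.1 ht).2
      obtain ⟨_, hy', hz'⟩ := (mem_filter.1 ht').2
      obtain ⟨e3, e4⟩ := Prod.mk.inj (hy.trans hy'.symm)
      obtain ⟨e7, e8⟩ := Prod.mk.inj (hz.trans hz'.symm)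
      obtain ⟨e9, e10⟩ := Prod.mk.inj e2
      obtain ⟨e5, e6⟩ := Prod.mk.inj e10
      exact Tup.ext' e3 e5 e7 e6 e4 e9
    · rw [card_product, card_product, card_univ, Fintype.card_fin, Nat.cast_mul, Nat.cast_mul, pow_two]
      exact mul_le_mul_of_nonneg_left (mul_le_mul hyz hyz (Nat.cast_nonneg _) (by positivity)) (Nat.cast_nonneg _)
  · have he : (univ.filter fun t : Tup V k => P4 c r G φ t ∧ t.s1 = y ∧ t.s3 = z) = ∅ := by
      refine eq_empty_of_forall_notMem fun t ht => ?_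
      obtain ⟨⟨_, hC, _⟩, rfl, rfl⟩ := (mem_filter.1 ht).2
      exact hyz hC.2.2.2.2.2.2.1
    rw [he, card_empty, Nat.cast_zero]
    positivity

/-- `v3 ∈ nb v2` (at most `D = r ^ 3`), `v4 ∈ co v1 v3` -/
theorem n5c (h : Gs c r D G φ x C1 C3 L) (y z : V × Fin k) :
    ((univ.filter fun t : Tup V k => P4 c r G φ t ∧ t.s1 = y ∧ t.s2 = z).card : ℝ) ≤
      r ^ 3 * (c.K0 * r ^ 2) := by
  have hK := K0_pos h.hc
  have hr : 0 < r := lt_of_lt_of_le one_pos h.r_one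
  refine (nb_fib _ ((nb G z.1).filter fun u => cd G y.1 u ≤ c.K0 * r ^ 2) (fun t => t.v3)
    (fun u => co G y.1 u) (fun t => t.v4) ?_ ?_ ?_).trans ?_
  · intro t ht
    obtain ⟨⟨_, hC, _⟩, rfl, rfl⟩ := (mem_filter.1 ht).2
    exact mem_filter.2 ⟨mem_nb.2 hC.2.1, hC.2.2.2.2.2.2.1⟩
  · intro t ht
    obtain ⟨⟨_, hC, _⟩, rfl, rfl⟩ := (mem_filter.1 ht).2
    exact mem_co.2 ⟨hC.2.2.2.1.symm, hC.2.2.1⟩
  · intro t ht t' ht' e1 e2
    obtain ⟨_, hy, hz⟩ := (mem_filter.1 ht).2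
    obtain ⟨_, hy', hz'⟩ := (mem_filter.1 ht').2
    obtain ⟨e3, e4⟩ := Prod.mk.inj (hy.trans hy'.symm)
    obtain ⟨e5, e6⟩ := Prod.mk.inj (hz.trans hz'.symm)
    exact Tup.ext' e3 e5 e1 e2 e4 e6
  · have h1 : ∑ u ∈ (nb G z.1).filter (fun u => cd G y.1 u ≤ c.K0 * r ^ 2), (((co G y.1 u).card : ℕ) : ℝ) ≤
        ∑ u ∈ (nb G z.1).filter (fun u => cd G y.1 u ≤ c.K0 * r ^ 2), (c.K0 * r ^ 2) :=
      sum_le_sum fun u hu => (mem_filter.1 hu).2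
    rw [sum_const, nsmul_eq_mul] at h1
    refine h1.trans (mul_le_mul_of_nonneg_right ?_ (by positivity))
    refine le_trans (Nat.cast_le.2 (card_le_card (filter_subset _ _))) ?_
    rw [h.r_cube]
    exact_mod_cast h.deg z.1

/-- `v4 ∈ co v1 v3` -/
theorem n5d (h : Gs c r D G φ x C1 C3 L) (y z u : V × Fin k) :
    ((univ.filter fun t : Tup V k => P4 c r G φ t ∧ t.s1 = y ∧ t.s2 = z ∧ t.s3 = u).card : ℝ) ≤
      c.K0 * r ^ 2 := by
  have hK := K0_pos h.hc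
  have hr : 0 < r := lt_of_lt_of_le one_pos h.r_one
  by_cases hyz : cd G y.1 u.1 ≤ c.K0 * r ^ 2
  · refine (nb_inj _ (co G y.1 u.1) (fun t => t.v4) ?_ ?_).trans hyz
    · intro t ht
      obtain ⟨⟨_, hC, _⟩, rfl, rfl, rfl⟩ := (mem_filter.1 ht).2
      exact mem_co.2 ⟨hC.2.2.2.1.symm, hC.2.2.1⟩
    · intro t ht t' ht' e2
      obtain ⟨_, hy, hz, hu⟩ := (mem_filter.1 ht).2
      obtain ⟨_, hy', hz', hu'⟩ := (mem_filter.1 ht').2
      obtain ⟨e3, e4⟩ := Prod.mk.inj (hy.trans hy'.symm)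
      obtain ⟨e5, e6⟩ := Prod.mk.inj (hz.trans hz'.symm)
      obtain ⟨e7, e8⟩ := Prod.mk.inj (hu.trans hu'.symm)
      exact Tup.ext' e3 e5 e7 e2 e4 e6
  · have he : (univ.filter fun t : Tup V k => P4 c r G φ t ∧ t.s1 = y ∧ t.s2 = z ∧ t.s3 = u) = ∅ := by
      refine eq_empty_of_forall_notMem fun t ht => ?_
      obtain ⟨⟨_, hC, _⟩, rfl, rfl, rfl⟩ := (mem_filter.1 ht).2
      exact hyz hC.2.2.2.2.2.2.1
    rw [he, card_empty, Nat.cast_zero]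
    positivity

/-- `t` is determined by its four sites -/
theorem n5e (y z u u' : V × Fin k) :
    ((univ.filter fun t : Tup V k => P4 c r G φ t ∧ t.s1 = y ∧ t.s2 = z ∧ t.s3 = u ∧
      t.s4 = u').card : ℝ) ≤ 1 := by
  refine (nb_inj _ ({()} : Finset Unit) (fun _ => ()) (fun _ _ => mem_singleton_self _) ?_).trans (by simp)
  intro t ht t' ht' _
  obtain ⟨_, hy, hz, hu, hw⟩ := (mem_filter.1 ht).2
  obtain ⟨_, hy', hz', hu', hw'⟩ := (mem_filter.1 ht').2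
  obtain ⟨e3, e4⟩ := Prod.mk.inj (hy.trans hy'.symm)
  obtain ⟨e5, e6⟩ := Prod.mk.inj (hz.trans hz'.symm)
  obtain ⟨e7, _⟩ := Prod.mk.inj (hu.trans hu'.symm)
  obtain ⟨e9, _⟩ := Prod.mk.inj (hw.trans hw'.symm)
  exact Tup.ext' e3 e5 e7 e9 e4 e6

end Pool.Agent.Lib.H23D
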