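import Pool.Agent.Lib.H23D.Toks
import Pool.Agent.Lib.H23D.C1
import Pool.Agent.Lib.H23D.N5B
import Pool.Agent.Lib.H23D.H15Cnt

/-!
# H23D, N6C: sharing structures with four sites

Module C of H93B, see `H93B/PROOF.md` and `README.md`.
-/

set_option autoImplicit false

open Finset
open scoped Classical

namespace Pool.Agent.Lib.H23D

open Pool.Agent.Lib.Prob48
open Pool.Agent.Lib.H93B

variable {V : Type} [Fintype V] {G : SimpleGraph V} {k : ℕ} {φ : V → Option (Fin k)} {c : Cst}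
  {r : ℝ} {D : ℕ} {x C1 C3 L : ℝ}

/-- `Share s1 s3`: `f ∈ J z` (at most `j0`), `v3 ∈ labA f` (at most `K0 r²`), then `n5b`. -/
theorem n6c (h : Gs c r D G φ x C1 C3 L) (z : V × Fin k) :
    ((univ.filter fun t : Tup V k => P4 c r G φ t ∧ t.s1 = z ∧
      (dat c r G φ).Share t.s1 t.s3).card : ℝ) ≤ c.j0 * (c.K0 * r ^ 2) ^ 3 * k := by
  have hK := K0_pos h.hc
  have hr : 0 ≤ r := by linarith [h.r_one]
  by_cases hz : z ∈ (dat c r G φ).H
  · have e : (c.j0 : ℝ) * (c.K0 * r ^ 2) ^ 3 * k =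
        c.j0 * ((c.K0 * r ^ 2) * (k * (c.K0 * r ^ 2) ^ 2)) := by ring
    rw [e]
    refine h15_cov' _ ((dat c r G φ).J z)
      (fun f t => (P4 c r G φ t ∧ t.s1 = z) ∧ t.v3 ∈ labA c r G φ f) ?_ _ _ (by positivity)
      (by exact_mod_cast J_card hz) ?_
    · rintro t ⟨h1, h2, h3⟩
      obtain ⟨f, h4, h5⟩ := share_iff.1 h3
      rw [h2] at h4
      exact ⟨f, h4, ⟨h1, h2⟩, (mem_J.1 h5).1⟩
    · intro f _
      refine h15_cov' _ (labA c r G φ f)
        (fun v t => P4 c r G φ t ∧ t.s1 = z ∧ t.s3 = (v, z.2)) ?_ _ _ (by positivity)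
        (c1_A h f) ?_
      · rintro t ⟨⟨h1, h2⟩, h3⟩
        refine ⟨t.v3, h3, h1, h2, ?_⟩
        have h4 : t.a = z.2 := congrArg Prod.snd h2
        rw [← h4]
      · intro v _
        exact n5b h z (v, z.2)
  · apply h15_empty
    · rintro t ⟨h1, h2, _⟩
      exact hz (h2 ▸ h1.1.1)
    · positivity

/-- `Share s1 s2`: `f ∈ J z` (at most `j0`), `v2 ∈ labA f`, `b ∈ labB f` (at most `K0 r²` each), then `n5c`. -/
theorem n6d (h : Gs c r D G φ x C1 C3 L) (z : V × Fin k) :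
    ((univ.filter fun t : Tup V k => P4 c r G φ t ∧ t.s1 = z ∧
      (dat c r G φ).Share t.s1 t.s2).card : ℝ) ≤ c.j0 * (c.K0 * r ^ 2) ^ 3 * r ^ 3 := by
  have hK := K0_pos h.hc
  have hr : 0 ≤ r := by linarith [h.r_one]
  by_cases hz : z ∈ (dat c r G φ).H
  · have e : (c.j0 : ℝ) * (c.K0 * r ^ 2) ^ 3 * r ^ 3 =
        c.j0 * ((c.K0 * r ^ 2) * ((c.K0 * r ^ 2) * (r ^ 3 * (c.K0 * r ^ 2)))) := by ring
    rw [e]
    refine h15_cov' _ ((dat c r G φ).J z)
      (fun f t => (P4 c r G φ t ∧ t.s1 = z) ∧ t.v2 ∈ labA c r G φ f ∧ t.b ∈ labB c r G φ f) ?_ _ _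
      (by positivity) (by exact_mod_cast J_card hz) ?_
    · rintro t ⟨h1, h2, h3⟩
      obtain ⟨f, h4, h5⟩ := share_iff.1 h3
      rw [h2] at h4
      exact ⟨f, h4, ⟨h1, h2⟩, mem_J.1 h5⟩
    · intro f _
      refine h15_cov' _ (labA c r G φ f)
        (fun v t => (P4 c r G φ t ∧ t.s1 = z) ∧ t.v2 = v ∧ t.b ∈ labB c r G φ f) ?_ _ _
        (by positivity) (c1_A h f) ?_
      · rintro t ⟨h1, h3, h4⟩
        exact ⟨t.v2, h3, h1, rfl, h4⟩
      · intro u _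
        refine h15_cov' _ (labB c r G φ f)
          (fun b t => P4 c r G φ t ∧ t.s1 = z ∧ t.s2 = (u, b)) ?_ _ _ (by positivity)
          (c1_B h f) ?_
        · rintro t ⟨⟨h1, h2⟩, h3, h4⟩
          refine ⟨t.b, h4, h1, h2, ?_⟩
          rw [← h3]
        · intro b _
          exact n5c h z (u, b)
  · apply h15_empty
    · rintro t ⟨h1, h2, _⟩
      exact hz (h2 ▸ h1.1.1)
    · positivity

end Pool.Agent.Lib.H23D
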