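import Pool.Agent.Lib.H23D.N5A
import Pool.Agent.Lib.H23D.N6C
import Pool.Agent.Lib.H23D.H15Cnt

/-!
# H23D, N8: total weight and sharing weight of W2d

Module C of H93B, see `H93B/PROOF.md` and `README.md`.
-/

set_option autoImplicit false

open Finset
open scoped Classical

namespace Pool.Agent.Lib.H23D

open Pool.Agent.Lib.Prob48
open Pool.Agent.Lib.H93B

variable {V : Type} [Fintype V] {G : SimpleGraph V} {k : ℕ} {φ : V → Option (Fin k)} {c : Cst}
  {r : ℝ} {D : ℕ} {x C1 C3 L : ℝ}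

/-- Sum of `n5a` over the sites `z = t.s1 ∈ H` with `z.1 ∈ co w w'` (at most `k |unc φ ∩ co w w'|`). -/
theorem n8_sum (h : Gs c r D G φ x C1 C3 L) (w w' : V) :
    (W2d c r G φ w w').sum ≤ k * ((unc φ ∩ co G w w').card : ℝ) * (k * (c.K0 * r ^ 8)) := by
  have hK := K0_pos h.hc
  have hr : 0 ≤ r := by linarith [h.r_one]
  have h1 : (W2d c r G φ w w').sum =
      ((univ.filter fun t : Tup V k => t.v1 ∈ co G w w' ∧ P4 c r G φ t ∧
        Des4 c r G φ t.s1 t.s2 t.s3 t.s4).card : ℝ) :=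
    h15_ind (fun t : Tup V k => t.v1 ∈ co G w w' ∧ P4 c r G φ t ∧
      Des4 c r G φ t.s1 t.s2 t.s3 t.s4)
  rw [h1]
  refine h15_cov' _ ((unc φ ∩ co G w w') ×ˢ (univ : Finset (Fin k)))
    (fun z t => P4 c r G φ t ∧ t.s1 = z) ?_ _ _ (by positivity) ?_ ?_
  · rintro t ⟨h2, h3, _⟩
    refine ⟨t.s1, mem_product.2 ⟨mem_inter.2 ⟨?_, h2⟩, mem_univ _⟩, h3, rfl⟩
    exact mem_unc.2 (H_unc h3.1.1)
  · rw [card_product, card_univ, Fintype.card_fin]
    push_cast
    linarith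
  · intro z _
    exact n5a h z

/-- As `n7_sh`, with `n6c`, `n6d`. -/
theorem n8_sh (h : Gs c r D G φ x C1 C3 L) (w w' : V) :
    (W2d c r G φ w w').sh (dat c r G φ).Share ≤
      k * cd G w w' * (c.j0 * (c.K0 * r ^ 2) ^ 3 * k + c.j0 * (c.K0 * r ^ 2) ^ 3 * r ^ 3) := by
  have hK := K0_pos h.hc
  have hr : 0 ≤ r := by linarith [h.r_one]
  have h1 : (W2d c r G φ w w').sh (dat c r G φ).Share =
      ((univ.filter fun t : Tup V k => (∃ i j : Fin 4, i ≠ j ∧
        (dat c r G φ).Share ((![t.s1, t.s2, t.s3, t.s4] : Fin 4 → V × Fin k) i)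
          ((![t.s1, t.s2, t.s3, t.s4] : Fin 4 → V × Fin k) j)) ∧
        (t.v1 ∈ co G w w' ∧ P4 c r G φ t ∧ Des4 c r G φ t.s1 t.s2 t.s3 t.s4)).card : ℝ) :=
    h15_ind2 (fun t : Tup V k => ∃ i j : Fin 4, i ≠ j ∧
        (dat c r G φ).Share ((![t.s1, t.s2, t.s3, t.s4] : Fin 4 → V × Fin k) i)
          ((![t.s1, t.s2, t.s3, t.s4] : Fin 4 → V × Fin k) j))
      (fun t : Tup V k => t.v1 ∈ co G w w' ∧ P4 c r G φ t ∧ Des4 c r G φ t.s1 t.s2 t.s3 t.s4)
  rw [h1]
  have h2 := h15_or (fun t : Tup V k => (∃ i j : Fin 4, i ≠ j ∧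
        (dat c r G φ).Share ((![t.s1, t.s2, t.s3, t.s4] : Fin 4 → V × Fin k) i)
          ((![t.s1, t.s2, t.s3, t.s4] : Fin 4 → V × Fin k) j)) ∧
        (t.v1 ∈ co G w w' ∧ P4 c r G φ t ∧ Des4 c r G φ t.s1 t.s2 t.s3 t.s4))
      (fun t : Tup V k => t.v1 ∈ co G w w' ∧ P4 c r G φ t ∧ (dat c r G φ).Share t.s1 t.s3)
      (fun t : Tup V k => t.v1 ∈ co G w w' ∧ P4 c r G φ t ∧ (dat c r G φ).Share t.s1 t.s2) (by
      rintro t ⟨⟨i, j, hij, hs⟩, h3, h4, h5⟩
      rcases h5 with ⟨a1, a2, a3, a4, a5, a6⟩ | h5 | h5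
      · exfalso
        fin_cases i <;> fin_cases j <;> first
          | exact hij rfl
          | exact a1 hs
          | exact a2 hs
          | exact a3 hs
          | exact a4 hs
          | exact a5 hs
          | exact a6 hs
          | exact a1 (share_symm hs)
          | exact a2 (share_symm hs)
          | exact a3 (share_symm hs)
          | exact a4 (share_symm hs)
          | exact a5 (share_symm hs)
          | exact a6 (share_symm hs)
      · exact Or.inl ⟨h3, h4, h5⟩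
      · exact Or.inr ⟨h3, h4, h5⟩)
  have hcard : ((((co G w w') ×ˢ (univ : Finset (Fin k))).card : ℕ) : ℝ) ≤ k * cd G w w' := by
    rw [card_product, card_univ, Fintype.card_fin]
    unfold cd
    push_cast
    linarith
  have h3 : ((univ.filter fun t : Tup V k => t.v1 ∈ co G w w' ∧ P4 c r G φ t ∧
      (dat c r G φ).Share t.s1 t.s3).card : ℝ) ≤
      k * cd G w w' * (c.j0 * (c.K0 * r ^ 2) ^ 3 * k) := by
    refine h15_cov' _ ((co G w w') ×ˢ (univ : Finset (Fin k)))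
      (fun z t => P4 c r G φ t ∧ t.s1 = z ∧ (dat c r G φ).Share t.s1 t.s3) ?_ _ _
      (by positivity) hcard ?_
    · rintro t ⟨h2, h3, h4⟩
      exact ⟨t.s1, mem_product.2 ⟨h2, mem_univ _⟩, h3, rfl, h4⟩
    · intro z _
      exact n6c h z
  have h4 : ((univ.filter fun t : Tup V k => t.v1 ∈ co G w w' ∧ P4 c r G φ t ∧
      (dat c r G φ).Share t.s1 t.s2).card : ℝ) ≤
      k * cd G w w' * (c.j0 * (c.K0 * r ^ 2) ^ 3 * r ^ 3) := by
    refine h15_cov' _ ((co G w w') ×ˢ (univ : Finset (Fin k)))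
      (fun z t => P4 c r G φ t ∧ t.s1 = z ∧ (dat c r G φ).Share t.s1 t.s2) ?_ _ _
      (by positivity) hcard ?_
    · rintro t ⟨h2, h3, h4⟩
      exact ⟨t.s1, mem_product.2 ⟨h2, mem_univ _⟩, h3, rfl, h4⟩
    · intro z _
      exact n6d h z
  rw [mul_add]
  linarith

end Pool.Agent.Lib.H23D
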