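import Pool.Agent.Lib.H23D.NFam
import Pool.Agent.Lib.H23D.P2
import Pool.Agent.Lib.H23D.P3
import Pool.Agent.Lib.H23D.N3
import Pool.Agent.Lib.H23D.N7
import Pool.Agent.Lib.H23D.N8
import Pool.Agent.Lib.H23D.N10
import Pool.Agent.Lib.H23D.L0

/-!
# H23D, M2: means for (I2)

Module C of H93B, see `H93B/PROOF.md` and `README.md`.
-/

set_option autoImplicit false

open Finset
open scoped Classical

namespace Pool.Agent.Lib.H23D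

open Pool.Agent.Lib.Prob48
open Pool.Agent.Lib.H93B

variable {V : Type} [Fintype V] {G : SimpleGraph V} {k : ℕ} {φ : V → Option (Fin k)} {c : Cst}
  {r : ℝ} {D : ℕ} {x C1 C3 L : ℝ}

/-- `p3_ge`: `(lam a / r ^ 4) (k / 2) U ≥ (lam a / r ^ 4) (ε / 5) r ^ 4 U` (`n3_ge`, `k_ge`). -/
theorem m2a {Cw : ℝ} {nc d m1 m2 : ℕ} {Y : ℝ} {F : Fam V k} {om : V × Fin k → ℝ}
    {s : Sel V (Fin k) (V × V)} (h : RS c Cw nc d m1 m2 r Y D G F φ om x C1 C3 L s)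
    (hCw : 0 ≤ Cw) (hr : 8 / c.ε ≤ r) (w w' : V) :
    c.ε * (c.lam * c.a) / 5 * ((unc φ ∩ co G w w').card : ℝ) ≤
      s.μ.E (fun u => (W2a c r G φ w w').Z (s.S u)) := by
  have hg := rs_gs h
  have hr0 : 0 < r := lt_of_lt_of_le one_pos h.r_one
  have hs := lam_a_pos h.hc
  have h1 := p3_ge h.prob (W2a c r G φ w w') rfl (W2a_nn w w') (W2a_mem w w')
  refine le_trans ?_ h1
  have h2 := n3_ge hg hr w w'
  have h3 : c.ε / 5 * r ^ 4 * ((unc φ ∩ co G w w').card : ℝ) ≤ (W2a c r G φ w w').sum := by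
    refine le_trans (mul_le_mul_of_nonneg_right ?_ (Nat.cast_nonneg _)) h2
    linarith [h.k_ge]
  refine le_trans (le_of_eq ?_) (mul_le_mul_of_nonneg_left h3 (show 0 ≤ c.lam * c.a / r ^ 4 by positivity))
  field_simp

/-- `p2` with `n7_sum`, `n7_sh`: `2 (sig a)³ / r ^ 12 * k U K0 r ^ 8 ≤ ε K0 (sig a)³ U = 64 (sig a)³ U` (`k ≤ (ε/2) r ^ 4`,
`K0_ε`), and `Cw³ / r ^ 12 * k cd (j0 K0³ r ^ 6 + j0 K0² r ^ 7) ≤ Cw³ j0 (K0³ + K0²) cd / r` (`k ≤ r ^ 4`, `r ≥ 1`). -/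
theorem m2b {Cw : ℝ} {nc d m1 m2 : ℕ} {Y : ℝ} {F : Fam V k} {om : V × Fin k → ℝ}
    {s : Sel V (Fin k) (V × V)} (h : RS c Cw nc d m1 m2 r Y D G F φ om x C1 C3 L s)
    (hCw : 0 ≤ Cw) (w w' : V) :
    s.μ.E (fun u => (W2b c r G φ w w').Z (s.S u)) ≤
      64 * (c.sig * c.a) ^ 3 * ((unc φ ∩ co G w w').card : ℝ) +
        Cw ^ 3 * c.j0 * (c.K0 ^ 3 + c.K0 ^ 2) * cd G w w' / r := by
  have hg := rs_gs h
  have hr : 0 < r := lt_of_lt_of_le one_pos h.r_one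
  have hs := sig_a_pos h.hc
  have hK := K0_pos h.hc
  have hKε := K0_ε h.hc
  have hcd := cd_nonneg (G := G) w w'
  have h1 := p2 h.base h.prob (by positivity) hCw hs.le (W2b c r G φ w w') (show (3 : ℕ) ≤ 4 by norm_num) (W2b_nn w w')
    (W2b_inj w w') (W2b_mem w w')
  have e1 : (W2b c r G φ w w').q = 3 := rfl
  rw [e1] at h1
  have hk4 : (k : ℝ) ≤ r ^ 4 := by
    have h8 := h.k_le
    have h9 := h.hc.ε_le
    have h10 : 0 < r ^ 4 := by positivity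
    nlinarith
  obtain ⟨U, hU⟩ : ∃ U : ℝ, U = ((unc φ ∩ co G w w').card : ℝ) := ⟨_, rfl⟩
  have hU0 : 0 ≤ U := by rw [hU]; exact Nat.cast_nonneg _
  have h2 : (W2b c r G φ w w').sum ≤ (c.ε / 2 * r ^ 4) * U * (c.K0 * r ^ 8) := by
    refine (n7_sum hg w w').trans ?_
    rw [← hU]
    have := h.k_le
    gcongr
  have h3 : (W2b c r G φ w w').sh (dat c r G φ).Share ≤
      r ^ 4 * cd G w w' * (c.j0 * (c.K0 ^ 3 + c.K0 ^ 2) * r ^ 7) := by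
    refine (n7_sh hg w w').trans ?_
    have h4 : (c.j0 : ℝ) * (c.K0 * r ^ 2) ^ 3 + c.j0 * (c.K0 * r ^ 2) ^ 2 * r ^ 3 ≤ c.j0 * (c.K0 ^ 3 + c.K0 ^ 2) * r ^ 7 := by
      have h5 : (c.j0 : ℝ) * (c.K0 * r ^ 2) ^ 3 ≤ c.j0 * c.K0 ^ 3 * r ^ 7 := by
        calc (c.j0 : ℝ) * (c.K0 * r ^ 2) ^ 3 = c.j0 * c.K0 ^ 3 * r ^ 6 := by ring
          _ ≤ c.j0 * c.K0 ^ 3 * r ^ 7 := mul_le_mul_of_nonneg_left (pow_le_pow_right₀ h.r_one (by norm_num)) (by positivity)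
      calc _ ≤ c.j0 * c.K0 ^ 3 * r ^ 7 + c.j0 * (c.K0 * r ^ 2) ^ 2 * r ^ 3 := by linarith
        _ = c.j0 * (c.K0 ^ 3 + c.K0 ^ 2) * r ^ 7 := by ring
    gcongr
  rw [← hU]
  refine h1.trans (add_le_add ?_ ?_)
  · calc 2 * (c.sig * c.a / r ^ 4) ^ 3 * (W2b c r G φ w w').sum ≤
          2 * (c.sig * c.a / r ^ 4) ^ 3 * ((c.ε / 2 * r ^ 4) * U * (c.K0 * r ^ 8)) :=
          mul_le_mul_of_nonneg_left h2 (by positivity)
      _ = (c.K0 * c.ε) * (c.sig * c.a) ^ 3 * U := by field_simp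
      _ = 64 * (c.sig * c.a) ^ 3 * U := by rw [hKε]
  · calc (Cw / r ^ 4) ^ 3 * (W2b c r G φ w w').sh (dat c r G φ).Share ≤
          (Cw / r ^ 4) ^ 3 * (r ^ 4 * cd G w w' * (c.j0 * (c.K0 ^ 3 + c.K0 ^ 2) * r ^ 7)) :=
          mul_le_mul_of_nonneg_left h3 (by positivity)
      _ = Cw ^ 3 * c.j0 * (c.K0 ^ 3 + c.K0 ^ 2) * cd G w w' / r := by field_simp

/-- `p2` with `n8_sum`, `n8_sh`: `2 (sig a)⁴ / r ^ 16 * k U k K0 r ^ 8 ≤ 32 ε (sig a)⁴ U ≤ 32 (sig a)³ U`, and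
`Cw⁴ / r ^ 16 * k cd (j0 K0³ r ^ 6 k + j0 K0³ r ^ 9) ≤ 2 Cw⁴ j0 K0³ cd / r²`. -/
theorem m2d {Cw : ℝ} {nc d m1 m2 : ℕ} {Y : ℝ} {F : Fam V k} {om : V × Fin k → ℝ}
    {s : Sel V (Fin k) (V × V)} (h : RS c Cw nc d m1 m2 r Y D G F φ om x C1 C3 L s)
    (hCw : 0 ≤ Cw) (w w' : V) :
    s.μ.E (fun u => (W2d c r G φ w w').Z (s.S u)) ≤
      32 * (c.sig * c.a) ^ 3 * ((unc φ ∩ co G w w').card : ℝ) +
        2 * Cw ^ 4 * c.j0 * c.K0 ^ 3 * cd G w w' / r ^ 2 := by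
  have hg := rs_gs h
  have hr : 0 < r := lt_of_lt_of_le one_pos h.r_one
  have hs := sig_a_pos h.hc
  have hK := K0_pos h.hc
  have hKε := K0_ε h.hc
  have hε := h.hc.ε_pos
  have hcd := cd_nonneg (G := G) w w'
  have h1 := p2 h.base h.prob (by positivity) hCw hs.le (W2d c r G φ w w') (show (4 : ℕ) ≤ 4 by norm_num) (W2d_nn w w')
    (W2d_inj w w') (W2d_mem w w')
  have e1 : (W2d c r G φ w w').q = 4 := rfl
  rw [e1] at h1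
  have hk4 : (k : ℝ) ≤ r ^ 4 := by
    have h8 := h.k_le
    have h9 := h.hc.ε_le
    have h10 : 0 < r ^ 4 := by positivity
    nlinarith
  obtain ⟨U, hU⟩ : ∃ U : ℝ, U = ((unc φ ∩ co G w w').card : ℝ) := ⟨_, rfl⟩
  have hU0 : 0 ≤ U := by rw [hU]; exact Nat.cast_nonneg _
  have h2 : (W2d c r G φ w w').sum ≤ (c.ε / 2 * r ^ 4) * U * ((c.ε / 2 * r ^ 4) * (c.K0 * r ^ 8)) := by
    refine (n8_sum hg w w').trans ?_
    rw [← hU]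
    have := h.k_le
    gcongr
  have h3 : (W2d c r G φ w w').sh (dat c r G φ).Share ≤
      r ^ 4 * cd G w w' * (2 * c.j0 * c.K0 ^ 3 * r ^ 10) := by
    refine (n8_sh hg w w').trans ?_
    have h4 : (c.j0 : ℝ) * (c.K0 * r ^ 2) ^ 3 * k + c.j0 * (c.K0 * r ^ 2) ^ 3 * r ^ 3 ≤ 2 * c.j0 * c.K0 ^ 3 * r ^ 10 := by
      have h5 : (c.j0 : ℝ) * (c.K0 * r ^ 2) ^ 3 * k ≤ c.j0 * c.K0 ^ 3 * r ^ 10 := by
        calc (c.j0 : ℝ) * (c.K0 * r ^ 2) ^ 3 * k ≤ (c.j0 : ℝ) * (c.K0 * r ^ 2) ^ 3 * r ^ 4 :=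
              mul_le_mul_of_nonneg_left hk4 (by positivity)
          _ = c.j0 * c.K0 ^ 3 * r ^ 10 := by ring
      have h6 : (c.j0 : ℝ) * (c.K0 * r ^ 2) ^ 3 * r ^ 3 ≤ c.j0 * c.K0 ^ 3 * r ^ 10 := by
        calc (c.j0 : ℝ) * (c.K0 * r ^ 2) ^ 3 * r ^ 3 = c.j0 * c.K0 ^ 3 * r ^ 9 := by ring
          _ ≤ c.j0 * c.K0 ^ 3 * r ^ 10 := mul_le_mul_of_nonneg_left (pow_le_pow_right₀ h.r_one (by norm_num)) (by positivity)
      linarith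
    gcongr
  rw [← hU]
  refine h1.trans (add_le_add ?_ ?_)
  · calc 2 * (c.sig * c.a / r ^ 4) ^ 4 * (W2d c r G φ w w').sum ≤
          2 * (c.sig * c.a / r ^ 4) ^ 4 * ((c.ε / 2 * r ^ 4) * U * ((c.ε / 2 * r ^ 4) * (c.K0 * r ^ 8))) :=
          mul_le_mul_of_nonneg_left h2 (by positivity)
      _ = (c.K0 * c.ε) / 2 * (c.ε * (c.sig * c.a)) * ((c.sig * c.a) ^ 3 * U) := by field_simp
      _ = 32 * (c.ε * (c.sig * c.a)) * ((c.sig * c.a) ^ 3 * U) := by rw [hKε]; ring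
      _ ≤ 32 * 1 * ((c.sig * c.a) ^ 3 * U) := by
          have := mul_le_one₀ h.hc.ε_le hs.le h.hc.a_sig
          gcongr
      _ = 32 * (c.sig * c.a) ^ 3 * U := by ring
  · calc (Cw / r ^ 4) ^ 4 * (W2d c r G φ w w').sh (dat c r G φ).Share ≤
          (Cw / r ^ 4) ^ 4 * (r ^ 4 * cd G w w' * (2 * c.j0 * c.K0 ^ 3 * r ^ 10)) :=
          mul_le_mul_of_nonneg_left h3 (by positivity)
      _ = 2 * Cw ^ 4 * c.j0 * c.K0 ^ 3 * cd G w w' / r ^ 2 := by field_simp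

/-- `p3_lab`, `n10`, `kill_le` -/
theorem m2c {Cw : ℝ} {nc d m1 m2 : ℕ} {Y : ℝ} {F : Fam V k} {om : V × Fin k → ℝ}
    {s : Sel V (Fin k) (V × V)} (h : RS c Cw nc d m1 m2 r Y D G F φ om x C1 C3 L s)
    (hCw : 0 ≤ Cw) {w w' : V} (hw : w ≠ w') (hh : c.ρ0 * r ^ 2 ≤ cd G w w') :
    s.μ.E (fun u => labZ (dat c r G φ).J (wlab c r G φ w w') (s.S u)) ≤
      c.γ * c.ε * (c.lam * c.a) / 20 * cd G w w' := by
  have hg := rs_gs h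
  have hcd := cd_nonneg (G := G) w w'
  have hnn : ∀ f, 0 ≤ wlab c r G φ w w' f := fun f => nf_nn zero_le_one
  have h1 := p3_lab h.prob (wlab c r G φ w w') hnn
  have hka : 0 ≤ c.kill * c.a := by
    have h2 := Iof_pos c.j0
    have h3 := h.hc.a_pos
    unfold Cst.kill
    positivity
  refine h1.trans ((mul_le_mul_of_nonneg_left (n10 hg hw hh) hka).trans ?_)
  have h2 := kill_le h.hc
  calc c.kill * c.a * (C3 * cd G w w') ≤ c.kill * c.a * (c.C3m * cd G w w') := by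
        have := h.C3_le
        gcongr
    _ = (c.C3m * (c.kill * c.a)) * cd G w w' := by ring
    _ ≤ c.γ * c.ε * (c.lam * c.a) / 20 * cd G w w' := mul_le_mul_of_nonneg_right h2 hcd

end Pool.Agent.Lib.H23D
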