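import Pool.Agent.Lib.H23D.Toks
import Pool.Agent.Lib.H23D.A1
import Pool.Agent.Lib.H23D.H15Cnt

/-!
# H23D, N9A: counts for W3l and W3m

Module C of H93B, see `H93B/PROOF.md` and `README.md`.
-/

set_option autoImplicit false

open Finset
open scoped Classical

namespace Pool.Agent.Lib.H23D

open Pool.Agent.Lib.Prob48
open Pool.Agent.Lib.H93B

variable {V : Type} [Fintype V] {G : SimpleGraph V} {k : ℕ} {φ : V → Option (Fin k)} {c : Cst}
  {r : ℝ} {D : ℕ} {x C1 C3 L : ℝ}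

theorem n9a_heavy (h : Gs c r D G φ x C1 C3 L) (y : V) :
    ((univ.filter fun z => c.ρ0 * r ^ 2 ≤ cd G y z).card : ℝ) ≤ r ^ 4 / c.ρ0 := by
  have hρ := h.hc.ρ0_pos
  have hr : 0 < r := by linarith [h.r_one]
  have h1 := a1_card h.deg h.r_cube y (c.ρ0 * r ^ 2)
  rw [le_div_iff₀ hρ]
  have h2 : 0 < r ^ 2 := by positivity
  apply le_of_mul_le_mul_right _ h2
  calc ((univ.filter fun z => c.ρ0 * r ^ 2 ≤ cd G y z).card : ℝ) * c.ρ0 * r ^ 2
      = c.ρ0 * r ^ 2 * ((univ.filter fun z => c.ρ0 * r ^ 2 ≤ cd G y z).card : ℝ) := by ring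
    _ ≤ r ^ 6 := h1
    _ = r ^ 4 * r ^ 2 := by ring

theorem n9a_col (h : Gs c r D G φ x C1 C3 L) (y : V) :
    ∑ col : Fin k, (((cl φ col).filter fun z => c.ρ0 * r ^ 2 ≤ cd G y z).card : ℝ) ≤
      r ^ 4 / c.ρ0 := by
  refine le_trans ?_ (n9a_heavy h y)
  have h1 : ∑ col : Fin k, ((cl φ col).filter fun z => c.ρ0 * r ^ 2 ≤ cd G y z).card ≤
      (univ.filter fun z => c.ρ0 * r ^ 2 ≤ cd G y z).card := by
    rw [← card_biUnion]
    · apply card_le_card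
      intro z hz
      obtain ⟨col, _, h2⟩ := mem_biUnion.1 hz
      exact mem_filter.2 ⟨mem_univ _, (mem_filter.1 h2).2⟩
    · intro a _ b _ hab
      change Disjoint _ _
      rw [disjoint_left]
      intro z h2 h3
      have h4 := mem_cl.1 (mem_filter.1 h2).1
      have h5 := mem_cl.1 (mem_filter.1 h3).1
      rw [h4] at h5
      exact hab (Option.some.inj h5)
  exact_mod_cast h1

theorem n9a_e3 (h : Gs c r D G φ x C1 C3 L) {t : V × Fin k} (ht : t ∈ (dat c r G φ).H) :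
    (((cl φ t.2).filter fun z => c.ρ0 * r ^ 2 ≤ cd G t.1 z).card : ℝ) ≤ c.K2 / c.ρ0 ^ 2 := by
  have hρ := h.hc.ρ0_pos
  have hr : 0 < r := by linarith [h.r_one]
  have h1 := (mem_H.1 ht).e3
  have h2 : (((cl φ t.2).filter fun z => c.ρ0 * r ^ 2 ≤ cd G t.1 z).card : ℝ) *
      (c.ρ0 * r ^ 2) ^ 2 ≤
      ∑ z ∈ (cl φ t.2).filter fun z => c.ρ0 * r ^ 2 ≤ cd G t.1 z, cd G t.1 z ^ 2 := by
    rw [← nsmul_eq_mul]
    apply card_nsmul_le_sum
    intro z hz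
    have h3 := (mem_filter.1 hz).2
    exact pow_le_pow_left₀ (by positivity) h3 2
  have h3 : ∑ z ∈ (cl φ t.2).filter fun z => c.ρ0 * r ^ 2 ≤ cd G t.1 z, cd G t.1 z ^ 2 ≤
      ∑ z ∈ cl φ t.2, cd G t.1 z ^ 2 :=
    sum_le_sum_of_subset_of_nonneg (filter_subset _ _) fun z _ _ => by positivity
  rw [le_div_iff₀ (by positivity)]
  have h4 : 0 < r ^ 4 := by positivity
  apply le_of_mul_le_mul_right _ h4
  calc (((cl φ t.2).filter fun z => c.ρ0 * r ^ 2 ≤ cd G t.1 z).card : ℝ) * c.ρ0 ^ 2 * r ^ 4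
      = (((cl φ t.2).filter fun z => c.ρ0 * r ^ 2 ≤ cd G t.1 z).card : ℝ) *
        (c.ρ0 * r ^ 2) ^ 2 := by ring
    _ ≤ c.K2 * r ^ 4 := h2.trans (h3.trans h1)

/-- For `y ∈ co w w'`: `∑_col #{z ∈ cl φ col | ρ0 r² ≤ cd y z} ≤ #{z | ρ0 r² ≤ cd y z} ≤ r ^ 6 / (ρ0 r²)`
(`a1_card`). -/
theorem n9_suml (h : Gs c r D G φ x C1 C3 L) (w w' : V) :
    (W3l c r G φ w w').sum ≤ cd G w w' * (r ^ 4 / c.ρ0) := by
  have hK := K0_pos h.hc
  have hρ := h.hc.ρ0_pos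
  have hr : 0 ≤ r := by linarith [h.r_one]
  have h1 : (W3l c r G φ w w').sum = ∑ t : V × Fin k,
      (if t.1 ∈ co G w w' ∧ t ∈ (dat c r G φ).H then
      (((cl φ t.2).filter fun z => c.ρ0 * r ^ 2 ≤ cd G t.1 z).card : ℝ) else 0) := rfl
  rw [h1, Fintype.sum_prod_type]
  have h2 : ∀ y : V, (∑ col : Fin k, (if y ∈ co G w w' ∧ (y, col) ∈ (dat c r G φ).H then
      (((cl φ col).filter fun z => c.ρ0 * r ^ 2 ≤ cd G y z).card : ℝ) else 0)) ≤
      if y ∈ co G w w' then r ^ 4 / c.ρ0 else 0 := by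
    intro y
    by_cases hy : y ∈ co G w w'
    · rw [if_pos hy]
      refine le_trans (sum_le_sum fun col _ => ?_) (n9a_col h y)
      split_ifs
      · exact le_refl _
      · exact Nat.cast_nonneg _
    · rw [if_neg hy]
      apply le_of_eq
      apply sum_eq_zero
      intro col _
      rw [if_neg fun h' => hy h'.1]
  refine (sum_le_sum fun y _ => h2 y).trans (le_of_eq ?_)
  have h3 : (univ.filter fun y => y ∈ co G w w') = co G w w' := by
    ext y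
    simp
  rw [← sum_filter, h3, sum_const, nsmul_eq_mul]
  rfl

/-- `ρ0² r ^ 4 #{z ∈ cl φ t.2 | ρ0 r² ≤ cd t.1 z} ≤ ∑_(z ∈ cl φ t.2) cd t.1 z ^ 2 ≤ K2 r ^ 4` (E3). -/
theorem n9_wl (h : Gs c r D G φ x C1 C3 L) (w w' : V) (t : V × Fin k) :
    (W3l c r G φ w w').w t ≤ c.K2 / c.ρ0 ^ 2 := by
  have hρ := h.hc.ρ0_pos
  have hK2 := K2_pos h.hc
  have h1 : (W3l c r G φ w w').w t = (if t.1 ∈ co G w w' ∧ t ∈ (dat c r G φ).H then
      (((cl φ t.2).filter fun z => c.ρ0 * r ^ 2 ≤ cd G t.1 z).card : ℝ) else 0) := rfl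
  rw [h1]
  split_ifs with hc
  · exact n9a_e3 h hc.2
  · positivity

/-- exchange the sums: for every (coloured) `y ∈ co w w'` the vertices `z` with `ρ0 r² ≤ cd y z`, each with the
single colour `φ y` -/
theorem n9_summ (h : Gs c r D G φ x C1 C3 L) (w w' : V) :
    (W3m c r G φ w w').sum ≤ cd G w w' * (r ^ 4 / c.ρ0) := by
  have hK := K0_pos h.hc
  have hρ := h.hc.ρ0_pos
  have hr : 0 ≤ r := by linarith [h.r_one]
  have h1 : (W3m c r G φ w w').sum = ∑ t : V × Fin k,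
      (if t ∈ (dat c r G φ).H then
      (((co G w w' ∩ cl φ t.2).filter fun y => c.ρ0 * r ^ 2 ≤ cd G y t.1).card : ℝ) else 0) := rfl
  rw [h1]
  have h2 : ∀ t : V × Fin k, (if t ∈ (dat c r G φ).H then
      (((co G w w' ∩ cl φ t.2).filter fun y => c.ρ0 * r ^ 2 ≤ cd G y t.1).card : ℝ) else 0) ≤
      ∑ y ∈ co G w w', (if φ y = some t.2 ∧ c.ρ0 * r ^ 2 ≤ cd G y t.1 then (1 : ℝ) else 0) := by
    intro t
    have h3 : (((co G w w' ∩ cl φ t.2).filter fun y => c.ρ0 * r ^ 2 ≤ cd G y t.1).card : ℝ) =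
        ∑ y ∈ co G w w', (if φ y = some t.2 ∧ c.ρ0 * r ^ 2 ≤ cd G y t.1 then (1 : ℝ) else 0) := by
      rw [← sum_filter, sum_const, nsmul_eq_mul, mul_one]
      congr 2
      ext y
      rw [mem_filter, mem_filter, mem_inter, mem_cl]
      tauto
    split_ifs
    · exact le_of_eq h3
    · rw [← h3]
      exact Nat.cast_nonneg _
  refine (sum_le_sum fun t _ => h2 t).trans ?_
  rw [sum_comm]
  have h4 : ∀ y ∈ co G w w', (∑ t : V × Fin k,
      (if φ y = some t.2 ∧ c.ρ0 * r ^ 2 ≤ cd G y t.1 then (1 : ℝ) else 0)) ≤ r ^ 4 / c.ρ0 := by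
    intro y _
    rw [h15_ind]
    refine h15_inj _ (univ.filter fun z => c.ρ0 * r ^ 2 ≤ cd G y z) (fun t => t.1) ?_ ?_ _
      (n9a_heavy h y)
    · rintro t ⟨_, h5⟩
      exact mem_filter.2 ⟨mem_univ _, h5⟩
    · rintro t t' ⟨h5, _⟩ ⟨h6, _⟩ e
      rw [h5] at h6
      exact Prod.ext e (Option.some.inj h6)
  refine (sum_le_sum h4).trans (le_of_eq ?_)
  rw [sum_const, nsmul_eq_mul]
  rfl

/-- as `n9_wl`, with `cd_comm` -/
theorem n9_wm (h : Gs c r D G φ x C1 C3 L) (w w' : V) (t : V × Fin k) :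
    (W3m c r G φ w w').w t ≤ c.K2 / c.ρ0 ^ 2 := by
  have hρ := h.hc.ρ0_pos
  have hK2 := K2_pos h.hc
  have h1 : (W3m c r G φ w w').w t = (if t ∈ (dat c r G φ).H then
      (((co G w w' ∩ cl φ t.2).filter fun y => c.ρ0 * r ^ 2 ≤ cd G y t.1).card : ℝ) else 0) := rfl
  rw [h1]
  split_ifs with hc
  · refine le_trans ?_ (n9a_e3 h hc)
    have h2 : ((co G w w' ∩ cl φ t.2).filter fun y => c.ρ0 * r ^ 2 ≤ cd G y t.1).card ≤
        ((cl φ t.2).filter fun z => c.ρ0 * r ^ 2 ≤ cd G t.1 z).card := by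
      apply card_le_card
      intro y hy
      obtain ⟨h3, h4⟩ := mem_filter.1 hy
      rw [cd_comm] at h4
      exact mem_filter.2 ⟨(mem_inter.1 h3).2, h4⟩
    exact_mod_cast h2
  · positivity

end Pool.Agent.Lib.H23D
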