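import Pool.Agent.Lib.H23D.NFam
import Pool.Agent.Lib.H23D.N3
import Pool.Agent.Lib.H23D.N9A
import Pool.Agent.Lib.H23D.Consts

/-!
# H23D, O3: W2a, W3l, W3m are admissible

Module C of H93B, see `H93B/PROOF.md` and `README.md`.
-/

set_option autoImplicit false

open Finset
open scoped Classical

namespace Pool.Agent.Lib.H23D

open Pool.Agent.Lib.Prob48
open Pool.Agent.Lib.H93B

variable {V : Type} [Fintype V] {G : SimpleGraph V} {k : ℕ} {φ : V → Option (Fin k)} {c : Cst}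
  {r : ℝ} {D : ℕ} {x C1 C3 L : ℝ}

theorem o3_le1 {P : Prop} (i : Decidable P) : (@ite ℝ P i 1 0) ≤ 1 := by
  split_ifs
  · exact le_rfl
  · exact zero_le_one

theorem o3_k (h : Gs c r D G φ x C1 C3 L) : (k : ℝ) ≤ r ^ 4 := by
  have h8 := h.k_le
  have h9 := h.hc.ε_le
  have hr : 0 < r := lt_of_lt_of_le one_pos h.r_one
  have h10 : 0 < r ^ 4 := by positivity
  nlinarith

theorem o3_c1 (F : Tk (V × Fin k)) (hq : F.q = 1) (hw : ∀ t, 0 ≤ F.w t) {W : ℝ} (hW : ∀ t, F.w t ≤ W) (hW0 : 0 ≤ W)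
    (hinj : ∀ j t t', F.site t j = F.site t' j → t = t') {π : ℝ}
    (P : Finset (Fin F.q)) (hP : P.Nonempty) (b : Fin F.q → V × Fin k) :
    F.cnt P b * π ^ (F.q - P.card) ≤ W := by
  obtain ⟨j, hj⟩ := hP
  have h1 : P.card ≤ F.q := by
    have := card_le_univ P
    rwa [Fintype.card_fin] at this
  have h2 : 0 < P.card := card_pos.2 ⟨j, hj⟩
  have h3 : F.q - P.card = 0 := by omega
  rw [h3, pow_zero, mul_one]
  exact nf_cnt_one F hw hW hW0 P b j hj (hinj j)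

theorem o3_inj1 {X : Type} (a : Fin 1 → X) : Function.Injective a := fun i j _ => Subsingleton.elim i j

/-- `c0`: `k |unc φ ∩ co| (Cw / r ^ 4) ≤ Cw cd` (`n3_le`, `k ≤ r ^ 4`); `c1`: one tuple, weight at most one. -/
theorem o3a (h : Gs c r D G φ x C1 C3 L) {Cw B : ℝ} (hCw : 0 ≤ Cw) (hB : BH c Cw B) (w w' : V) :
    (W2a c r G φ w w').Ok (dat c r G φ).H (Cw / r ^ 4) (B * cd G w w') (B * L) := by
  have hr : 0 < r := lt_of_lt_of_le one_pos h.r_one
  have hcd := cd_nonneg (G := G) w w'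
  have hB1 := hB.one
  have hL1 := h.L_one
  refine ⟨le_rfl, show (1 : ℕ) ≤ 4 by norm_num, W2a_nn w w', fun t _ => o3_inj1 _, W2a_mem w w', ?_, ?_⟩
  · have e1 : (W2a c r G φ w w').q = 1 := rfl
    rw [e1, pow_one]
    have h1 : (W2a c r G φ w w').sum ≤ r ^ 4 * cd G w w' := by
      refine (n3_le h w w').trans (mul_le_mul (o3_k h) ?_ (Nat.cast_nonneg _) (by positivity))
      exact Nat.cast_le.2 (card_le_card inter_subset_right)
    calc (W2a c r G φ w w').sum * (Cw / r ^ 4) ≤ r ^ 4 * cd G w w' * (Cw / r ^ 4) :=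
          mul_le_mul_of_nonneg_right h1 (by positivity)
      _ = Cw * cd G w w' := by field_simp
      _ ≤ B * cd G w w' := mul_le_mul_of_nonneg_right hB.a1 hcd
  · intro P hP b
    refine (o3_c1 (W2a c r G φ w w') rfl (W2a_nn w w') (W := 1) ?_ zero_le_one (fun j t t' e => e) P hP b).trans ?_
    · intro t
      exact o3_le1 _
    · nlinarith

/-- `c0`: `cd (r ^ 4 / ρ0) (Cw / r ^ 4) = (Cw / ρ0) cd` (`n9_suml`); `c1`: `n9_wl`, `hB.g`. -/
theorem o3l (h : Gs c r D G φ x C1 C3 L) {Cw B : ℝ} (hCw : 0 ≤ Cw) (hB : BH c Cw B) (w w' : V) :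
    (W3l c r G φ w w').Ok (dat c r G φ).H (Cw / r ^ 4) (B * cd G w w') (B * L) := by
  have hr : 0 < r := lt_of_lt_of_le one_pos h.r_one
  have hcd := cd_nonneg (G := G) w w'
  have hB1 := hB.one
  have hL1 := h.L_one
  have hρ := h.hc.ρ0_pos
  have hK2 := K2_pos h.hc
  refine ⟨le_rfl, show (1 : ℕ) ≤ 4 by norm_num, W3l_nn w w', fun t _ => o3_inj1 _, W3l_mem w w', ?_, ?_⟩
  · have e1 : (W3l c r G φ w w').q = 1 := rfl
    rw [e1, pow_one]
    calc (W3l c r G φ w w').sum * (Cw / r ^ 4) ≤ cd G w w' * (r ^ 4 / c.ρ0) * (Cw / r ^ 4) :=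
          mul_le_mul_of_nonneg_right (n9_suml h w w') (by positivity)
      _ = Cw / c.ρ0 * cd G w w' := by field_simp
      _ ≤ B * cd G w w' := mul_le_mul_of_nonneg_right hB.f1 hcd
  · intro P hP b
    refine (o3_c1 (W3l c r G φ w w') rfl (W3l_nn w w') (n9_wl h w w') (by positivity) (fun j t t' e => e) P hP b).trans ?_
    have := hB.g
    nlinarith

theorem o3m (h : Gs c r D G φ x C1 C3 L) {Cw B : ℝ} (hCw : 0 ≤ Cw) (hB : BH c Cw B) (w w' : V) :
    (W3m c r G φ w w').Ok (dat c r G φ).H (Cw / r ^ 4) (B * cd G w w') (B * L) := by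
  have hr : 0 < r := lt_of_lt_of_le one_pos h.r_one
  have hcd := cd_nonneg (G := G) w w'
  have hB1 := hB.one
  have hL1 := h.L_one
  have hρ := h.hc.ρ0_pos
  have hK2 := K2_pos h.hc
  refine ⟨le_rfl, show (1 : ℕ) ≤ 4 by norm_num, W3m_nn w w', fun t _ => o3_inj1 _, W3m_mem w w', ?_, ?_⟩
  · have e1 : (W3m c r G φ w w').q = 1 := rfl
    rw [e1, pow_one]
    calc (W3m c r G φ w w').sum * (Cw / r ^ 4) ≤ cd G w w' * (r ^ 4 / c.ρ0) * (Cw / r ^ 4) :=
          mul_le_mul_of_nonneg_right (n9_summ h w w') (by positivity)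
      _ = Cw / c.ρ0 * cd G w w' := by field_simp
      _ ≤ B * cd G w w' := mul_le_mul_of_nonneg_right hB.f1 hcd
  · intro P hP b
    refine (o3_c1 (W3m c r G φ w w') rfl (W3m_nn w w') (n9_wm h w w') (by positivity) (fun j t t' e => e) P hP b).trans ?_
    have := hB.g
    nlinarith

end Pool.Agent.Lib.H23D
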