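import Pool.Agent.Lib.H23D.NBase
import Pool.Agent.Lib.H23D.A1

/-!
# H23D, N4A: structures with three sites: first site fixed

Module C of H93B, see `H93B/PROOF.md` and `README.md`.
-/

set_option autoImplicit false

open Finset
open scoped Classical

namespace Pool.Agent.Lib.H23D

open Pool.Agent.Lib.Prob48
open Pool.Agent.Lib.H93B

variable {V : Type} [Fintype V] {G : SimpleGraph V} {k : ℕ} {φ : V → Option (Fin k)} {c : Cst}
  {r : ℝ} {D : ℕ} {x C1 C3 L : ℝ}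

/-- `v1 = z.1`, `a = z.2` are fixed; `t` is determined by `v3 ∈ {u | cd v1 u ≤ K0 r²}` and
`v2, v4 ∈ co v1 v3` (`b` is the colour of `v4`): at most `∑_(v3) cd(v1, v3)² ≤ K0 r² r ^ 6` (`a1_sq`). -/
theorem n4a (h : Gs c r D G φ x C1 C3 L) (z : V × Fin k) :
    ((univ.filter fun t : Tup V k => P3 c r G φ t ∧ t.s1 = z).card : ℝ) ≤ c.K0 * r ^ 8 := by
  have hK := K0_pos h.hc
  have hr : 0 < r := lt_of_lt_of_le one_pos h.r_one
  refine (nb_fib _ (univ.filter fun u => cd G z.1 u ≤ c.K0 * r ^ 2) (fun t => t.v3)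
    (fun u => co G z.1 u ×ˢ co G z.1 u) (fun t => (t.v2, t.v4)) ?_ ?_ ?_).trans ?_
  · intro t ht
    obtain ⟨⟨_, hC, _⟩, rfl⟩ := (mem_filter.1 ht).2
    exact mem_filter.2 ⟨mem_univ _, hC.2.2.2.2.2.2.1⟩
  · intro t ht
    obtain ⟨⟨_, hC, _⟩, rfl⟩ := (mem_filter.1 ht).2
    exact mem_product.2 ⟨mem_co.2 ⟨hC.1, hC.2.1.symm⟩, mem_co.2 ⟨hC.2.2.2.1.symm, hC.2.2.1⟩⟩
  · intro t ht t' ht' e1 e2
    obtain ⟨⟨_, _, _, h4⟩, hz⟩ := (mem_filter.1 ht).2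
    obtain ⟨⟨_, _, _, h4'⟩, hz'⟩ := (mem_filter.1 ht').2
    obtain ⟨e3, e4⟩ := Prod.mk.inj (hz.trans hz'.symm)
    obtain ⟨e5, e6⟩ := Prod.mk.inj e2
    refine Tup.ext' e3 e5 e1 e6 e4 (Option.some_injective _ ?_)
    rw [← h4, ← h4', e6]
  · have h1 := a1_sq (G := G) h.deg h.r_cube z.1 (c.K0 * r ^ 2) (by positivity)
    refine le_trans (le_of_eq (sum_congr rfl fun u _ => ?_)) (h1.trans (le_of_eq (by ring)))
    rw [card_product, Nat.cast_mul, pow_two]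
    rfl

/-- by reflection (`P3.refl`; `(t.refl).s1 = t.s3` holds by `rfl`) -/
theorem n4a' (h : Gs c r D G φ x C1 C3 L) (z : V × Fin k) :
    ((univ.filter fun t : Tup V k => P3 c r G φ t ∧ t.s3 = z).card : ℝ) ≤ c.K0 * r ^ 8 := by
  refine (nb_inj _ _ Tup.refl ?_ ?_).trans (n4a h z)
  · intro t ht
    obtain ⟨h1, h2⟩ := (mem_filter.1 ht).2
    exact mem_filter.2 ⟨mem_univ _, P3.refl h1, h2⟩
  · intro t _ t' _ e
    exact congrArg Tup.refl e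

end Pool.Agent.Lib.H23D
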