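import Pool.Agent.Lib.H23D.NBase

/-!
# H23D, N4C: structures with three sites: middle site fixed

Module C of H93B, see `H93B/PROOF.md` and `README.md`.
-/

set_option autoImplicit false

open Finset
open scoped Classical

namespace Pool.Agent.Lib.H23D

open Pool.Agent.Lib.Prob48
open Pool.Agent.Lib.H93B

variable {V : Type} [Fintype V] {G : SimpleGraph V} {k : ℕ} {φ : V → Option (Fin k)} {c : Cst}
  {r : ℝ} {D : ℕ} {x C1 C3 L : ℝ}

/-- `v2 = z.1`, `b = z.2`; `t` is determined by `a`, `v4 ∈ cl φ b`, `v1, v3 ∈ co v2 v4`: at most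
`k ∑_(v4 ∈ cl φ b) cd(v2, v4)² ≤ k K2 r ^ 4` by (E3) (`IsCand.e3` for `z ∈ H`; if `z ∉ H` the set is empty). -/
theorem n4c (h : Gs c r D G φ x C1 C3 L) (z : V × Fin k) :
    ((univ.filter fun t : Tup V k => P3 c r G φ t ∧ t.s2 = z).card : ℝ) ≤ k * (c.K2 * r ^ 4) := by
  have hK := K2_pos h.hc
  have hr : 0 < r := lt_of_lt_of_le one_pos h.r_one
  by_cases hz : z ∈ (dat c r G φ).H
  · refine (nb_fib _ ((univ : Finset (Fin k)) ×ˢ cl φ z.2) (fun t => (t.a, t.v4))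
      (fun p => co G z.1 p.2 ×ˢ co G z.1 p.2) (fun t => (t.v1, t.v3)) ?_ ?_ ?_).trans ?_
    · intro t ht
      obtain ⟨⟨_, hC, _, h4⟩, rfl⟩ := (mem_filter.1 ht).2
      exact mem_product.2 ⟨mem_univ _, mem_cl.2 h4⟩
    · intro t ht
      obtain ⟨⟨_, hC, _⟩, rfl⟩ := (mem_filter.1 ht).2
      exact mem_product.2 ⟨mem_co.2 ⟨hC.1.symm, hC.2.2.2.1⟩, mem_co.2 ⟨hC.2.1, hC.2.2.1.symm⟩⟩
    · intro t ht t' ht' e1 e2
      obtain ⟨_, hz⟩ := (mem_filter.1 ht).2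
      obtain ⟨_, hz'⟩ := (mem_filter.1 ht').2
      obtain ⟨e3, e4⟩ := Prod.mk.inj (hz.trans hz'.symm)
      obtain ⟨e5, e6⟩ := Prod.mk.inj e2
      obtain ⟨e7, e8⟩ := Prod.mk.inj e1
      exact Tup.ext' e5 e3 e6 e8 e7 e4
    · have h1 := (mem_H.1 hz).e3
      rw [sum_product]
      have h2 : ∀ a : Fin k, ∑ p ∈ cl φ z.2, (((co G z.1 p ×ˢ co G z.1 p).card : ℕ) : ℝ) ≤ c.K2 * r ^ 4 := by
        intro a
        refine le_trans (le_of_eq (sum_congr rfl fun u _ => ?_)) h1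
        rw [card_product, Nat.cast_mul, pow_two]
        rfl
      refine (sum_le_sum fun a _ => h2 a).trans (le_of_eq ?_)
      rw [sum_const, card_univ, Fintype.card_fin, nsmul_eq_mul]
  · have he : (univ.filter fun t : Tup V k => P3 c r G φ t ∧ t.s2 = z) = ∅ := by
      refine eq_empty_of_forall_notMem fun t ht => ?_
      obtain ⟨⟨h1, _⟩, h2⟩ := (mem_filter.1 ht).2
      exact hz (h2 ▸ h1.2.1)
    rw [he, card_empty, Nat.cast_zero]
    positivity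

end Pool.Agent.Lib.H23D
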