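import Pool.Agent.Lib.H23D.NBase

/-!
# H23D, NFam: elementary properties of the families
-/

set_option autoImplicit false

open Finset
open scoped Classical

namespace Pool.Agent.Lib.H23D

open Pool.Agent.Lib.Prob48
open Pool.Agent.Lib.H93B

theorem nf_ite {P : Prop} [Decidable P] {x : ℝ} (h : (if P then x else 0) ≠ 0) : P := by
  by_contra hP
  exact h (if_neg hP)

theorem nf_nn {P : Prop} [Decidable P] {x : ℝ} (h : 0 ≤ x) : 0 ≤ (if P then x else 0) := by
  split_ifs
  · exact h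
  · exact le_rfl

theorem nf_inj2 {X : Type} {a b : X} (h : a ≠ b) : Function.Injective (![a, b] : Fin 2 → X) := by
  intro i j hij
  fin_cases i <;> fin_cases j
  · rfl
  · exact absurd hij h
  · exact absurd hij.symm h
  · rfl

theorem nf_inj3 {X : Type} {a b c : X} (h1 : a ≠ b) (h2 : a ≠ c) (h3 : b ≠ c) :
    Function.Injective (![a, b, c] : Fin 3 → X) := by
  intro i j hij
  fin_cases i <;> fin_cases j
  · rfl
  · exact absurd hij h1
  · exact absurd hij h2
  · exact absurd hij.symm h1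
  · rfl
  · exact absurd hij h3
  · exact absurd hij.symm h2
  · exact absurd hij.symm h3
  · rfl

theorem nf_inj4 {X : Type} {a b c d : X} (h1 : a ≠ b) (h2 : a ≠ c) (h3 : a ≠ d) (h4 : b ≠ c) (h5 : b ≠ d)
    (h6 : c ≠ d) : Function.Injective (![a, b, c, d] : Fin 4 → X) := by
  intro i j hij
  fin_cases i <;> fin_cases j
  · rfl
  · exact absurd hij h1
  · exact absurd hij h2
  · exact absurd hij h3
  · exact absurd hij.symm h1
  · rfl
  · exact absurd hij h4
  · exact absurd hij h5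
  · exact absurd hij.symm h2
  · exact absurd hij.symm h4
  · rfl
  · exact absurd hij h6
  · exact absurd hij.symm h3
  · exact absurd hij.symm h5
  · exact absurd hij.symm h6
  · rfl

/-- fixed sites: at most the total weight of the tuples in a filter -/
theorem nf_cnt {X : Type} (F : Tk X) (hw : ∀ t, 0 ≤ F.w t) (P : Finset (Fin F.q)) (b : Fin F.q → X)
    (A : F.T → Prop) (hA : ∀ t, (∀ j ∈ P, F.site t j = b j) → A t) :
    F.cnt P b ≤ ∑ t ∈ univ.filter A, F.w t := by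
  unfold Tk.cnt
  rw [sum_filter]
  refine sum_le_sum fun t _ => ?_
  by_cases h : ∀ j ∈ P, F.site t j = b j
  · rw [if_pos h, if_pos (hA t h)]
  · rw [if_neg h]
    exact nf_nn (hw t)

/-- the total weight of the tuples in a filter if the weights are at most indicators -/
theorem nf_cnt_card {X : Type} (F : Tk X) (hw : ∀ t, 0 ≤ F.w t) (hw1 : ∀ t, F.w t ≤ 1) (P : Finset (Fin F.q))
    (b : Fin F.q → X) (S : Finset F.T) (hA : ∀ t, F.w t ≠ 0 → (∀ j ∈ P, F.site t j = b j) → t ∈ S) :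
    F.cnt P b ≤ (S.card : ℝ) := by
  unfold Tk.cnt
  have h1 : (S.card : ℝ) = ∑ t, if t ∈ S then (1 : ℝ) else 0 := by
    rw [sum_ite_mem, univ_inter, sum_const, nsmul_eq_mul, mul_one]
  rw [h1]
  refine sum_le_sum fun t _ => ?_
  by_cases h : ∀ j ∈ P, F.site t j = b j
  · rw [if_pos h]
    by_cases h2 : F.w t = 0
    · rw [h2]
      exact nf_nn zero_le_one
    · rw [if_pos (hA t h2 h)]
      exact hw1 t
  · rw [if_neg h]
    exact nf_nn zero_le_one

theorem nf_cnt_one {X : Type} (F : Tk X) (hw : ∀ t, 0 ≤ F.w t) {W : ℝ} (hW : ∀ t, F.w t ≤ W) (hW0 : 0 ≤ W)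
    (P : Finset (Fin F.q)) (b : Fin F.q → X) (j : Fin F.q) (hj : j ∈ P)
    (hinj : ∀ t t', F.site t j = F.site t' j → t = t') : F.cnt P b ≤ W := by
  refine (nf_cnt F hw P b (fun t => F.site t j = b j) (fun t ht => ht j hj)).trans ?_
  have h1 : ∑ t ∈ univ.filter (fun t => F.site t j = b j), F.w t ≤ ∑ t ∈ univ.filter (fun t => F.site t j = b j), W :=
    sum_le_sum fun t _ => hW t
  rw [sum_const, nsmul_eq_mul] at h1
  refine h1.trans ?_
  have h2 : (univ.filter (fun t => F.site t j = b j)).card ≤ 1 := by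
    refine card_le_one.2 fun t ht t' ht' => ?_
    exact hinj t t' ((mem_filter.1 ht).2.trans (mem_filter.1 ht').2.symm)
  have h3 : ((univ.filter (fun t => F.site t j = b j)).card : ℝ) ≤ 1 := by exact_mod_cast h2
  nlinarith

section

variable {V : Type} [Fintype V] {G : SimpleGraph V} {k : ℕ} {φ : V → Option (Fin k)} {c : Cst}
  {r : ℝ}

theorem W1l_nn (v : V) (t : V × Fin k) : 0 ≤ (W1l c r G φ v).w t := nf_nn (Nat.cast_nonneg _)

theorem W1l_mem (v : V) (t : V × Fin k) (h : (W1l c r G φ v).w t ≠ 0) (j : Fin 1) :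
    (W1l c r G φ v).site t j ∈ (dat c r G φ).H := (nf_ite h).2

theorem W1p_nn (v : V) (t : V × V × Fin k) : 0 ≤ (W1p c r G φ v).w t := nf_nn zero_le_one

theorem W1p_mem (v : V) (t : V × V × Fin k) (h : (W1p c r G φ v).w t ≠ 0) (j : Fin 2) :
    (W1p c r G φ v).site t j ∈ (dat c r G φ).H := by
  have h1 := nf_ite h
  fin_cases j
  · exact h1.2.2.1
  · exact h1.2.2.2

theorem W1p_inj (v : V) (t : V × V × Fin k) (h : (W1p c r G φ v).w t ≠ 0) :
    Function.Injective ((W1p c r G φ v).site t) := by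
  have h1 := nf_ite h
  exact nf_inj2 fun e => h1.1 (Prod.mk.inj e).1

theorem W2a_nn (w w' : V) (t : V × Fin k) : 0 ≤ (W2a c r G φ w w').w t := nf_nn zero_le_one

theorem W2a_mem (w w' : V) (t : V × Fin k) (h : (W2a c r G φ w w').w t ≠ 0) (j : Fin 1) :
    (W2a c r G φ w w').site t j ∈ (dat c r G φ).H := (nf_ite h).2

theorem W2b_nn (w w' : V) (t : Tup V k) : 0 ≤ (W2b c r G φ w w').w t := nf_nn zero_le_one

theorem W2b_P (w w' : V) (t : Tup V k) (h : (W2b c r G φ w w').w t ≠ 0) :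
    t.v1 ∈ co G w w' ∧ P3 c r G φ t ∧ Des3 c r G φ t.s1 t.s2 t.s3 := nf_ite h

theorem W2b_mem (w w' : V) (t : Tup V k) (h : (W2b c r G φ w w').w t ≠ 0) (j : Fin 3) :
    (W2b c r G φ w w').site t j ∈ (dat c r G φ).H := by
  have h1 := (W2b_P w w' t h).2.1.1
  fin_cases j
  · exact h1.1
  · exact h1.2.1
  · exact h1.2.2

theorem W2b_inj (w w' : V) (t : Tup V k) (h : (W2b c r G φ w w').w t ≠ 0) :
    Function.Injective ((W2b c r G φ w w').site t) := by
  obtain ⟨h1, h2, _, _, h5, _⟩ := (W2b_P w w' t h).2.1.2.1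
  exact nf_inj3 (fun e => h1.ne (Prod.mk.inj e).1) (fun e => h5 (Prod.mk.inj e).1) (fun e => h2.ne (Prod.mk.inj e).1)

theorem W2d_nn (w w' : V) (t : Tup V k) : 0 ≤ (W2d c r G φ w w').w t := nf_nn zero_le_one

theorem W2d_P (w w' : V) (t : Tup V k) (h : (W2d c r G φ w w').w t ≠ 0) :
    t.v1 ∈ co G w w' ∧ P4 c r G φ t ∧ Des4 c r G φ t.s1 t.s2 t.s3 t.s4 := nf_ite h

theorem W2d_mem (w w' : V) (t : Tup V k) (h : (W2d c r G φ w w').w t ≠ 0) (j : Fin 4) :
    (W2d c r G φ w w').site t j ∈ (dat c r G φ).H := by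
  have h1 := (W2d_P w w' t h).2.1.1
  fin_cases j
  · exact h1.1
  · exact h1.2.1
  · exact h1.2.2.1
  · exact h1.2.2.2

theorem W2d_inj (w w' : V) (t : Tup V k) (h : (W2d c r G φ w w').w t ≠ 0) :
    Function.Injective ((W2d c r G φ w w').site t) := by
  obtain ⟨h1, h2, h3, h4, h5, h6, _⟩ := (W2d_P w w' t h).2.1.2.1
  exact nf_inj4 (fun e => h1.ne (Prod.mk.inj e).1) (fun e => h5 (Prod.mk.inj e).1) (fun e => h4.ne' (Prod.mk.inj e).1)
    (fun e => h2.ne (Prod.mk.inj e).1) (fun e => h6 (Prod.mk.inj e).1) (fun e => h3.ne (Prod.mk.inj e).1)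

theorem W3l_nn (w w' : V) (t : V × Fin k) : 0 ≤ (W3l c r G φ w w').w t := nf_nn (Nat.cast_nonneg _)

theorem W3l_mem (w w' : V) (t : V × Fin k) (h : (W3l c r G φ w w').w t ≠ 0) (j : Fin 1) :
    (W3l c r G φ w w').site t j ∈ (dat c r G φ).H := (nf_ite h).2

theorem W3m_nn (w w' : V) (t : V × Fin k) : 0 ≤ (W3m c r G φ w w').w t := nf_nn (Nat.cast_nonneg _)

theorem W3m_mem (w w' : V) (t : V × Fin k) (h : (W3m c r G φ w w').w t ≠ 0) (j : Fin 1) :
    (W3m c r G φ w w').site t j ∈ (dat c r G φ).H := nf_ite h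

theorem W3p_nn (w w' : V) (t : V × V × Fin k) : 0 ≤ (W3p c r G φ w w').w t := nf_nn zero_le_one

theorem W3p_mem (w w' : V) (t : V × V × Fin k) (h : (W3p c r G φ w w').w t ≠ 0) (j : Fin 2) :
    (W3p c r G φ w w').site t j ∈ (dat c r G φ).H := by
  have h1 := nf_ite h
  fin_cases j
  · exact h1.2.2.1
  · exact h1.2.2.2

theorem W3p_inj (w w' : V) (t : V × V × Fin k) (h : (W3p c r G φ w w').w t ≠ 0) :
    Function.Injective ((W3p c r G φ w w').site t) := by
  have h1 := nf_ite h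
  exact nf_inj2 fun e => h1.1 (Prod.mk.inj e).1

end

end Pool.Agent.Lib.H23D
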