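import Pool.Agent.Lib.H23D.NCard
import Pool.Agent.Lib.H23D.NFam
import Pool.Agent.Lib.H23D.N4A
import Pool.Agent.Lib.H23D.N4C
import Pool.Agent.Lib.H23D.N4D
import Pool.Agent.Lib.H23D.N7
import Pool.Agent.Lib.H23D.Consts

/-!
# H23D, O4: W2b is admissible

Module C of H93B, see `H93B/PROOF.md` and `README.md`.
-/

set_option autoImplicit false

open Finset
open scoped Classical

namespace Pool.Agent.Lib.H23D

open Pool.Agent.Lib.Prob48
open Pool.Agent.Lib.H93B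

variable {V : Type} [Fintype V] {G : SimpleGraph V} {k : ℕ} {φ : V → Option (Fin k)} {c : Cst}
  {r : ℝ} {D : ℕ} {x C1 C3 L : ℝ}

theorem o4_le1 {P : Prop} (i : Decidable P) : (@ite ℝ P i 1 0) ≤ 1 := by
  split_ifs
  · exact le_rfl
  · exact zero_le_one

theorem o4_gen (h : Gs c r D G φ x C1 C3 L) {Cw B : ℝ} (hCw : 0 ≤ Cw) (hB : BH c Cw B) {W : Tup V k → ℝ}
    (hw0 : ∀ t, 0 ≤ W t) (hw1 : ∀ t, W t ≤ 1) (hwP : ∀ t, W t ≠ 0 → P3 c r G φ t) (P : Finset (Fin 3)) (hP : P.Nonempty)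
    (b : Fin 3 → V × Fin k)
    (inst : ∀ t : Tup V k, Decidable (∀ j ∈ P, (![t.s1, t.s2, t.s3] : Fin 3 → V × Fin k) j = b j)) :
    (∑ t : Tup V k, @ite ℝ (∀ j ∈ P, (![t.s1, t.s2, t.s3] : Fin 3 → V × Fin k) j = b j) (inst t) (W t) 0) *
      (Cw / r ^ 4) ^ (3 - P.card) ≤ B * L := by
  have hr : 0 < r := lt_of_lt_of_le one_pos h.r_one
  have hB1 := hB.one
  have hL1 := h.L_one
  have hB0 : 0 < B := lt_of_lt_of_le one_pos hB1
  have hK := K0_pos h.hc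
  have hK2 := K2_pos h.hc
  have hk4 : (k : ℝ) ≤ r ^ 4 := by
    have h8 := h.k_le
    have h9 := h.hc.ε_le
    have h10 : 0 < r ^ 4 := by positivity
    nlinarith
  have hBL : ∀ y : ℝ, y ≤ B → y ≤ B * L := fun y hy => hy.trans (le_mul_of_one_le_right hB0.le hL1)
  obtain ⟨CN, hCN⟩ : ∃ CN : ℝ, CN = ∑ t : Tup V k, @ite ℝ (∀ j ∈ P, (![t.s1, t.s2, t.s3] : Fin 3 → V × Fin k) j = b j)
    (inst t) (W t) 0 := ⟨_, rfl⟩
  rw [← hCN]
  have key : ∀ S : Finset (Tup V k),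
      (∀ t, P3 c r G φ t → (∀ j ∈ P, (![t.s1, t.s2, t.s3] : Fin 3 → V × Fin k) j = b j) → t ∈ S) →
      CN ≤ (S.card : ℝ) := by
    intro S hS
    have h1 : (S.card : ℝ) = ∑ t : Tup V k, if t ∈ S then (1 : ℝ) else 0 := by
      rw [sum_ite_mem, univ_inter, sum_const, nsmul_eq_mul, mul_one]
    rw [h1, hCN]
    refine sum_le_sum fun t _ => ?_
    by_cases h : ∀ j ∈ P, (![t.s1, t.s2, t.s3] : Fin 3 → V × Fin k) j = b j
    · rw [if_pos h]
      by_cases h2 : W t = 0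
      · rw [h2]
        exact nf_nn zero_le_one
      · rw [if_pos (hS t (hwP t h2) h)]
        exact hw1 t
    · rw [if_neg h]
      exact nf_nn zero_le_one
  have hcard := card3 P
  by_cases p0 : (0 : Fin 3) ∈ P <;> by_cases p1 : (1 : Fin 3) ∈ P <;>
    by_cases p2 : (2 : Fin 3) ∈ P
  · rw [if_pos p0, if_pos p1, if_pos p2] at hcard
    rw [hcard]
    have h1 := (key (univ.filter fun t : Tup V k => P3 c r G φ t ∧ t.s1 = b 0 ∧ t.s2 = b 1 ∧ t.s3 = b 2) fun t ht ht' =>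
      mem_filter.2 ⟨mem_univ _, ht, ht' 0 p0, ht' 1 p1, ht' 2 p2⟩).trans (n4f h (b 0) (b 1) (b 2))
    rw [show 3 - (1 + 1 + 1) = 0 by norm_num, pow_zero, mul_one]
    nlinarith
  · rw [if_pos p0, if_pos p1, if_neg p2] at hcard
    rw [hcard]
    have h1 := (key (univ.filter fun t : Tup V k => P3 c r G φ t ∧ t.s1 = b 0 ∧ t.s2 = b 1) fun t ht ht' =>
      mem_filter.2 ⟨mem_univ _, ht, ht' 0 p0, ht' 1 p1⟩).trans (n4d h (b 0) (b 1))
    rw [show 3 - (1 + 1 + 0) = 1 by norm_num, pow_one]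
    calc CN * (Cw / r ^ 4) ≤ L * (c.K0 * r ^ 2) * (Cw / r ^ 4) :=
          mul_le_mul_of_nonneg_right h1 (by positivity)
      _ = (c.K0 * Cw) * L / r ^ 2 := by field_simp
      _ ≤ (c.K0 * Cw) * L := div_le_self (by positivity) (one_le_pow₀ h.r_one)
      _ ≤ B * L := mul_le_mul_of_nonneg_right hB.b1 (by linarith)
  · rw [if_pos p0, if_neg p1, if_pos p2] at hcard
    rw [hcard]
    have h1 := (key (univ.filter fun t : Tup V k => P3 c r G φ t ∧ t.s1 = b 0 ∧ t.s3 = b 2) fun t ht ht' =>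
      mem_filter.2 ⟨mem_univ _, ht, ht' 0 p0, ht' 2 p2⟩).trans (n4e h (b 0) (b 2))
    rw [show 3 - (1 + 0 + 1) = 1 by norm_num, pow_one]
    refine hBL _ ?_
    calc CN * (Cw / r ^ 4) ≤ (c.K0 * r ^ 2) ^ 2 * (Cw / r ^ 4) :=
          mul_le_mul_of_nonneg_right h1 (by positivity)
      _ = c.K0 ^ 2 * Cw := by field_simp
      _ ≤ B := hB.d1
  · rw [if_pos p0, if_neg p1, if_neg p2] at hcard
    rw [hcard]
    have h1 := (key (univ.filter fun t : Tup V k => P3 c r G φ t ∧ t.s1 = b 0) fun t ht ht' =>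
      mem_filter.2 ⟨mem_univ _, ht, ht' 0 p0⟩).trans (n4a h (b 0))
    rw [show 3 - (1 + 0 + 0) = 2 by norm_num]
    refine hBL _ ?_
    calc CN * (Cw / r ^ 4) ^ 2 ≤ c.K0 * r ^ 8 * (Cw / r ^ 4) ^ 2 :=
          mul_le_mul_of_nonneg_right h1 (by positivity)
      _ = c.K0 * Cw ^ 2 := by field_simp
      _ ≤ B := hB.b2
  · rw [if_neg p0, if_pos p1, if_pos p2] at hcard
    rw [hcard]
    have h1 := (key (univ.filter fun t : Tup V k => P3 c r G φ t ∧ t.s3 = b 2 ∧ t.s2 = b 1) fun t ht ht' =>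
      mem_filter.2 ⟨mem_univ _, ht, ht' 2 p2, ht' 1 p1⟩).trans (n4d' h (b 2) (b 1))
    rw [show 3 - (0 + 1 + 1) = 1 by norm_num, pow_one]
    calc CN * (Cw / r ^ 4) ≤ L * (c.K0 * r ^ 2) * (Cw / r ^ 4) :=
          mul_le_mul_of_nonneg_right h1 (by positivity)
      _ = (c.K0 * Cw) * L / r ^ 2 := by field_simp
      _ ≤ (c.K0 * Cw) * L := div_le_self (by positivity) (one_le_pow₀ h.r_one)
      _ ≤ B * L := mul_le_mul_of_nonneg_right hB.b1 (by linarith)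
  · rw [if_neg p0, if_pos p1, if_neg p2] at hcard
    rw [hcard]
    have h1 := (key (univ.filter fun t : Tup V k => P3 c r G φ t ∧ t.s2 = b 1) fun t ht ht' =>
      mem_filter.2 ⟨mem_univ _, ht, ht' 1 p1⟩).trans (n4c h (b 1))
    rw [show 3 - (0 + 1 + 0) = 2 by norm_num]
    refine hBL _ ?_
    calc CN * (Cw / r ^ 4) ^ 2 ≤ (r ^ 4 * (c.K2 * r ^ 4)) * (Cw / r ^ 4) ^ 2 :=
          mul_le_mul_of_nonneg_right (h1.trans (mul_le_mul_of_nonneg_right hk4 (by positivity))) (by positivity)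
      _ = c.K2 * Cw ^ 2 := by field_simp
      _ ≤ B := hB.e2
  · rw [if_neg p0, if_neg p1, if_pos p2] at hcard
    rw [hcard]
    have h1 := (key (univ.filter fun t : Tup V k => P3 c r G φ t ∧ t.s3 = b 2) fun t ht ht' =>
      mem_filter.2 ⟨mem_univ _, ht, ht' 2 p2⟩).trans (n4a' h (b 2))
    rw [show 3 - (0 + 0 + 1) = 2 by norm_num]
    refine hBL _ ?_
    calc CN * (Cw / r ^ 4) ^ 2 ≤ c.K0 * r ^ 8 * (Cw / r ^ 4) ^ 2 :=
          mul_le_mul_of_nonneg_right h1 (by positivity)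
      _ = c.K0 * Cw ^ 2 := by field_simp
      _ ≤ B := hB.b2
  · exfalso
    rw [if_neg p0, if_neg p1, if_neg p2] at hcard
    have := card_pos.2 hP
    omega


/-- `c0`: `k |unc φ ∩ co| K0 r ^ 8 (Cw / r ^ 4)³ ≤ K0 Cw³ cd` (`n7_sum`, `k ≤ r ^ 4`). `c1`: the seven nonempty `P`; the
weight is at most the indicator of `P3`. `{0}`: `n4a`, `K0 r ^ 8 (Cw / r ^ 4)² = K0 Cw²`; `{2}`: `n4a'`; `{1}`: `n4c`,
`k K2 r ^ 4 (Cw / r ^ 4)² ≤ K2 Cw²`; `{0,1}`: `n4d`, `L K0 r² Cw / r ^ 4 ≤ K0 Cw L`; `{1,2}`: `n4d'`; `{0,2}`: `n4e`,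
`K0² r ^ 4 Cw / r ^ 4`; `univ`: `n4f`, `L`. The three sites are different: `v1 ≠ v3`, and `v2` is adjacent to both. -/
theorem o4 (h : Gs c r D G φ x C1 C3 L) {Cw B : ℝ} (hCw : 0 ≤ Cw) (hB : BH c Cw B) (w w' : V) :
    (W2b c r G φ w w').Ok (dat c r G φ).H (Cw / r ^ 4) (B * cd G w w') (B * L) := by
  have hr : 0 < r := lt_of_lt_of_le one_pos h.r_one
  have hcd := cd_nonneg (G := G) w w'
  have hB1 := hB.one
  have hL1 := h.L_one
  have hB0 : 0 < B := lt_of_lt_of_le one_pos hB1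
  have hK := K0_pos h.hc
  have hK2 := K2_pos h.hc
  have hk4 : (k : ℝ) ≤ r ^ 4 := by
    have h8 := h.k_le
    have h9 := h.hc.ε_le
    have h10 : 0 < r ^ 4 := by positivity
    nlinarith
  have hBL : ∀ y : ℝ, y ≤ B → y ≤ B * L := fun y hy => hy.trans (le_mul_of_one_le_right hB0.le hL1)
  refine ⟨show (1 : ℕ) ≤ 3 by norm_num, show (3 : ℕ) ≤ 4 by norm_num, W2b_nn w w', W2b_inj w w', W2b_mem w w', ?_, ?_⟩
  · have e1 : (W2b c r G φ w w').q = 3 := rfl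
    rw [e1]
    have h1 : (W2b c r G φ w w').sum ≤ r ^ 4 * cd G w w' * (c.K0 * r ^ 8) := by
      refine (n7_sum h w w').trans (mul_le_mul_of_nonneg_right ?_ (by positivity))
      refine mul_le_mul hk4 ?_ (Nat.cast_nonneg _) (by positivity)
      exact Nat.cast_le.2 (card_le_card inter_subset_right)
    calc (W2b c r G φ w w').sum * (Cw / r ^ 4) ^ 3 ≤ r ^ 4 * cd G w w' * (c.K0 * r ^ 8) * (Cw / r ^ 4) ^ 3 :=
          mul_le_mul_of_nonneg_right h1 (by positivity)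
      _ = c.K0 * Cw ^ 3 * cd G w w' := by field_simp
      _ ≤ B * cd G w w' := mul_le_mul_of_nonneg_right hB.b3 hcd
  · intro P hP b
    exact o4_gen h hCw hB (W2b_nn w w') (fun t => o4_le1 _) (fun t ht => (W2b_P w w' t ht).2.1) P hP b _

end Pool.Agent.Lib.H23D
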