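import Pool.Agent.Lib.H23D.O5A
import Pool.Agent.Lib.H23D.N8
import Pool.Agent.Lib.H23D.Consts

/-!
# H23D, O5B: W2d is admissible

Module C of H93B, see `H93B/PROOF.md` and `README.md`.
-/

set_option autoImplicit false

open Finset
open scoped Classical

namespace Pool.Agent.Lib.H23D

open Pool.Agent.Lib.Prob48
open Pool.Agent.Lib.H93B

variable {V : Type} [Fintype V] {G : SimpleGraph V} {k : ℕ} {φ : V → Option (Fin k)} {c : Cst}
  {r : ℝ} {D : ℕ} {x C1 C3 L : ℝ}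

theorem o5b_k (h : Gs c r D G φ x C1 C3 L) : (k : ℝ) ≤ r ^ 4 := by
  have hr : 0 < r := lt_of_lt_of_le one_pos h.r_one
  have h1 := h.k_le
  have h2 := h.hc.ε_le
  have h3 : (0 : ℝ) < r ^ 4 := by positivity
  nlinarith

theorem o5b_ite {P Q : Prop} (i1 : Decidable P) (i2 : Decidable Q) (h : P ↔ Q) (a : ℝ) :
    (@ite ℝ P i1 a 0) = (@ite ℝ Q i2 a 0) := by
  by_cases hP : P
  · rw [if_pos hP, if_pos (h.1 hP)]
  · rw [if_neg hP, if_neg fun h' => hP (h.2 h')]

theorem o5b_P (P : Finset (Fin 4)) (hP : P.Nonempty) : (∃ j, P = {j}) ∨ (∃ j, P = {j, j + 1} ∧ P.card = 2) ∨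
    (∃ j, P = {j, j + 2} ∧ P.card = 2) ∨ (∃ j, P = {j, j + 1, j + 2} ∧ P.card = 3) ∨ P = Finset.univ := by
  revert P
  decide

theorem o5b_cnt (h : Gs c r D G φ x C1 C3 L) {Cw B : ℝ} (hCw : 0 ≤ Cw) (hB : BH c Cw B) (P : Finset (Fin 4)) (hP : P.Nonempty)
    (b : Fin 4 → V × Fin k) : ((univ.filter fun t : Tup V k => P4 c r G φ t ∧ ∀ j ∈ P, st4 t j = b j).card : ℝ) *
      (Cw / r ^ 4) ^ (4 - P.card) ≤ B := by
  have hr : 0 < r := lt_of_lt_of_le one_pos h.r_one
  have hr1 := h.r_one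
  have hk := o5b_k h
  have hK0 := K0_pos h.hc
  have hπ : 0 ≤ Cw / r ^ 4 := by positivity
  have hmono : ∀ (S : Finset (Tup V k)) (X : ℝ), (∀ t, P4 c r G φ t → (∀ j ∈ P, st4 t j = b j) → t ∈ S) → (S.card : ℝ) ≤ X →
      ((univ.filter fun t : Tup V k => P4 c r G φ t ∧ ∀ j ∈ P, st4 t j = b j).card : ℝ) ≤ X := by
    intro S X hS hX
    have h1 : (univ.filter fun t : Tup V k => P4 c r G φ t ∧ ∀ j ∈ P, st4 t j = b j) ⊆ S := by
      intro t ht
      rw [Finset.mem_filter] at ht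
      exact hS t ht.2.1 ht.2.2
    exact le_trans (by exact_mod_cast Finset.card_le_card h1) hX
  rcases o5b_P P hP with ⟨j, hj⟩ | ⟨j, hj, hc⟩ | ⟨j, hj, hc⟩ | ⟨j, hj, hc⟩ | hj
  · have h1 := hmono _ _ (fun t h0 ht => Finset.mem_filter.2 ⟨Finset.mem_univ t, h0, ht j (by rw [hj]; simp)⟩)
      (o5_one h j (b j))
    have hc : P.card = 1 := by rw [hj, Finset.card_singleton]
    rw [hc]
    calc _ ≤ (r ^ 4 * (c.K0 * r ^ 8)) * (Cw / r ^ 4) ^ 3 := by
          refine mul_le_mul_of_nonneg_right (h1.trans ?_) (by positivity)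
          exact mul_le_mul_of_nonneg_right hk (by positivity)
      _ = c.K0 * Cw ^ 3 := by field_simp
      _ ≤ B := hB.b3
  · have h1 := hmono _ _ (fun t h0 ht => Finset.mem_filter.2 ⟨Finset.mem_univ t, h0, ht j (by rw [hj]; simp),
      ht (j + 1) (by rw [hj]; simp)⟩) (o5_adj h j (b j) (b (j + 1)))
    rw [hc]
    calc _ ≤ (r ^ 3 * (c.K0 * r ^ 2)) * (Cw / r ^ 4) ^ 2 := mul_le_mul_of_nonneg_right h1 (by positivity)
      _ = c.K0 * Cw ^ 2 / r ^ 3 := by field_simp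
      _ ≤ c.K0 * Cw ^ 2 := div_le_self (by positivity) (one_le_pow₀ hr1)
      _ ≤ B := hB.b2
  · have h1 := hmono _ _ (fun t h0 ht => Finset.mem_filter.2 ⟨Finset.mem_univ t, h0, ht j (by rw [hj]; simp),
      ht (j + 2) (by rw [hj]; simp)⟩) (o5_opp h j (b j) (b (j + 2)))
    rw [hc]
    calc _ ≤ (r ^ 4 * (c.K0 * r ^ 2) ^ 2) * (Cw / r ^ 4) ^ 2 := by
          refine mul_le_mul_of_nonneg_right (h1.trans ?_) (by positivity)
          exact mul_le_mul_of_nonneg_right hk (by positivity)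
      _ = c.K0 ^ 2 * Cw ^ 2 := by field_simp
      _ ≤ B := hB.d2
  · have h1 := hmono _ _ (fun t h0 ht => Finset.mem_filter.2 ⟨Finset.mem_univ t, h0, ht j (by rw [hj]; simp),
      ht (j + 1) (by rw [hj]; simp), ht (j + 2) (by rw [hj]; simp)⟩) (o5_three h j (b j) (b (j + 1)) (b (j + 2)))
    rw [hc]
    show _ * (Cw / r ^ 4) ^ 1 ≤ B
    rw [pow_one]
    calc _ ≤ (c.K0 * r ^ 2) * (Cw / r ^ 4) := mul_le_mul_of_nonneg_right h1 (by positivity)
      _ = c.K0 * Cw / r ^ 2 := by field_simp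
      _ ≤ c.K0 * Cw := div_le_self (by positivity) (one_le_pow₀ hr1)
      _ ≤ B := hB.b1
  · have h1 := hmono _ _ (fun t h0 ht => Finset.mem_filter.2 ⟨Finset.mem_univ t, h0,
      show st4 t 0 = b 0 from ht 0 (by rw [hj]; exact Finset.mem_univ _),
      show st4 t 1 = b 1 from ht 1 (by rw [hj]; exact Finset.mem_univ _),
      show st4 t 2 = b 2 from ht 2 (by rw [hj]; exact Finset.mem_univ _),
      show st4 t 3 = b 3 from ht 3 (by rw [hj]; exact Finset.mem_univ _)⟩)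
      (n5e (c := c) (r := r) (G := G) (φ := φ) (b 0) (b 1) (b 2) (b 3))
    have hc : P.card = 4 := by rw [hj, Finset.card_univ, Fintype.card_fin]
    rw [hc, Nat.sub_self, pow_zero, mul_one]
    exact h1.trans hB.one

/-- `c0`: `k |unc φ ∩ co| k K0 r ^ 8 (Cw / r ^ 4)⁴ ≤ K0 Cw⁴ cd` (`n8_sum`). `c1`: the weight is at most the indicator of
`P4`; `|P| = 1`: `o5_one`, `k K0 r ^ 8 (Cw / r ^ 4)³ ≤ K0 Cw³`; `|P| = 2`: opposite positions `o5_opp`
(`k K0² r ^ 4 (Cw / r ^ 4)² ≤ K0² Cw²`), adjacent positions `o5_adj` (`K0 r ^ 5 (Cw / r ^ 4)² ≤ K0 Cw²`); `|P| = 3`: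
`o5_three` (`K0 r² Cw / r ^ 4 ≤ K0 Cw`); `P = univ`: `n5e`. The four sites are different: `v1 ≠ v3`, `v2 ≠ v4`,
neighbours on the cycle are different. -/
theorem o5 (h : Gs c r D G φ x C1 C3 L) {Cw B : ℝ} (hCw : 0 ≤ Cw) (hB : BH c Cw B) (w w' : V) :
    (W2d c r G φ w w').Ok (dat c r G φ).H (Cw / r ^ 4) (B * cd G w w') (B * L) := by
  have hr : 0 < r := lt_of_lt_of_le one_pos h.r_one
  have hr1 := h.r_one
  have hL := h.L_one
  have hB1 := hB.one
  have hk := o5b_k h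
  have hK0 := K0_pos h.hc
  have hw : ∀ t : Tup V k, (W2d c r G φ w w').w t ≠ 0 → P4 c r G φ t := by
    intro t ht
    by_contra hn
    apply ht
    show (if t.v1 ∈ co G w w' ∧ P4 c r G φ t ∧ Des4 c r G φ t.s1 t.s2 t.s3 t.s4 then (1 : ℝ) else 0) = 0
    exact if_neg fun h' => hn h'.2.1
  have hw01 : ∀ t : Tup V k, 0 ≤ (W2d c r G φ w w').w t ∧ (W2d c r G φ w w').w t ≤ 1 := by
    intro t
    show 0 ≤ (if t.v1 ∈ co G w w' ∧ P4 c r G φ t ∧ Des4 c r G φ t.s1 t.s2 t.s3 t.s4 then (1 : ℝ) else 0) ∧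
      (if t.v1 ∈ co G w w' ∧ P4 c r G φ t ∧ Des4 c r G φ t.s1 t.s2 t.s3 t.s4 then (1 : ℝ) else 0) ≤ 1
    split_ifs
    · exact ⟨zero_le_one, le_rfl⟩
    · exact ⟨le_rfl, zero_le_one⟩
  refine ⟨by show 1 ≤ 4; norm_num, by show 4 ≤ 4; norm_num, fun t => (hw01 t).1, ?_, ?_, ?_, ?_⟩
  · intro (t : Tup V k) ht
    obtain ⟨-, ⟨-, -, -, -, h13, h24, -, -⟩, hab⟩ := hw t ht
    have h2 : ∀ i j : Fin 4, (![t.s1, t.s2, t.s3, t.s4] : Fin 4 → V × Fin k) i =
        (![t.s1, t.s2, t.s3, t.s4] : Fin 4 → V × Fin k) j → i = j := by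
      intro i j hij
      fin_cases i <;> fin_cases j <;> first
        | rfl
        | exact absurd (congrArg Prod.snd hij) hab
        | exact absurd (congrArg Prod.snd hij).symm hab
        | exact absurd (congrArg Prod.fst hij) h13
        | exact absurd (congrArg Prod.fst hij).symm h13
        | exact absurd (congrArg Prod.fst hij) h24
        | exact absurd (congrArg Prod.fst hij).symm h24
    exact h2
  · intro (t : Tup V k) ht
    obtain ⟨⟨h1, h2, h3, h4⟩, -⟩ := hw t ht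
    have h5 : ∀ j : Fin 4, (![t.s1, t.s2, t.s3, t.s4] : Fin 4 → V × Fin k) j ∈ (dat c r G φ).H := by
      intro j
      fin_cases j
      · exact h1
      · exact h2
      · exact h3
      · exact h4
    exact h5
  · show (W2d c r G φ w w').sum * (Cw / r ^ 4) ^ 4 ≤ B * cd G w w'
    have h1 : ((unc φ ∩ co G w w').card : ℝ) ≤ cd G w w' := by
      unfold cd
      exact_mod_cast Finset.card_le_card Finset.inter_subset_right
    have hcd := cd_nonneg (G := G) w w'
    have hk0 : (0 : ℝ) ≤ k := Nat.cast_nonneg k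
    calc (W2d c r G φ w w').sum * (Cw / r ^ 4) ^ 4
        ≤ (r ^ 4 * cd G w w' * (r ^ 4 * (c.K0 * r ^ 8))) * (Cw / r ^ 4) ^ 4 := by
          refine mul_le_mul_of_nonneg_right ((n8_sum h w w').trans ?_) (by positivity)
          refine mul_le_mul (mul_le_mul hk h1 (by positivity) (by positivity))
            (mul_le_mul_of_nonneg_right hk (by positivity)) (by positivity) (by positivity)
      _ = c.K0 * Cw ^ 4 * cd G w w' := by field_simp
      _ ≤ B * cd G w w' := mul_le_mul_of_nonneg_right hB.b4 hcd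
  · have key : ∀ (P : Finset (Fin 4)), P.Nonempty → ∀ b : Fin 4 → V × Fin k,
        (∑ t : Tup V k, if ∀ j ∈ P, st4 t j = b j then (W2d c r G φ w w').w t else 0) *
          (Cw / r ^ 4) ^ (4 - P.card) ≤ B := by
      intro P hP b
      refine le_trans (mul_le_mul_of_nonneg_right ?_ (by positivity)) (o5b_cnt h hCw hB P hP b)
      have e1 : ((univ.filter fun t : Tup V k => P4 c r G φ t ∧ ∀ j ∈ P, st4 t j = b j).card : ℝ) =
          ∑ t : Tup V k, if P4 c r G φ t ∧ ∀ j ∈ P, st4 t j = b j then (1 : ℝ) else 0 := by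
        rw [Finset.sum_boole]
      rw [e1]
      refine Finset.sum_le_sum fun t _ => ?_
      by_cases h1 : ∀ j ∈ P, st4 t j = b j
      · rw [if_pos h1]
        by_cases h2 : P4 c r G φ t
        · rw [if_pos ⟨h2, h1⟩]
          exact (hw01 t).2
        · rw [if_neg fun h' => h2 h'.1]
          by_contra h3
          exact h2 (hw t fun h4 => h3 h4.le)
      · rw [if_neg h1]
        split_ifs
        · exact zero_le_one
        · exact le_rfl
    intro P hP b
    have h5 : (W2d c r G φ w w').cnt P b * (Cw / r ^ 4) ^ (4 - P.card) ≤ B := by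
      refine le_trans (le_of_eq ?_) (key P hP b)
      congr 1
      refine Finset.sum_congr rfl fun t _ => ?_
      exact o5b_ite _ _ Iff.rfl _
    have h6 : B ≤ B * L := by nlinarith
    exact h5.trans h6

end Pool.Agent.Lib.H23D
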