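import Pool.Agent.Lib.H23D.E2B
import Pool.Agent.Lib.H23D.M2
import Pool.Agent.Lib.H23D.O3
import Pool.Agent.Lib.H23D.O4
import Pool.Agent.Lib.H23D.O5B
import Pool.Agent.Lib.H23D.P9
import Pool.Agent.Lib.H23D.P10
import Pool.Agent.Lib.H23D.LDefs

/-!
# H23D, I2: (I2) holds with high probability

Module C of H93B, see `H93B/PROOF.md` and `README.md`.
-/

set_option autoImplicit false

open Finset
open scoped Classical

namespace Pool.Agent.Lib.H23D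

open Pool.Agent.Lib.Prob48
open Pool.Agent.Lib.H93B

variable {V : Type} [Fintype V] {G : SimpleGraph V} {k : ℕ} {φ : V → Option (Fin k)} {c : Cst}
  {r : ℝ} {D : ℕ} {x C1 C3 L : ℝ}

theorem i2_act {Q R M : Type} [Fintype Q] [Fintype R] (s : Sel Q R M) (u : s.ι → s.Val)
    (z : Q × R) (hz : z ∈ s.act u) : ∃ i, s.loc i = Sum.inl z ∧ s.one (u i) := by
  unfold Sel.act at hz
  exact (Finset.mem_filter.mp hz).2

theorem i2_sub {Cw : ℝ} {nc d m1 m2 : ℕ} {Y : ℝ} {F : Fam V k} {om : V × Fin k → ℝ}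
    {s : Sel V (Fin k) (V × V)} (h : RS c Cw nc d m1 m2 r Y D G F φ om x C1 C3 L s)
    (u : s.ι → s.Val) : s.S u ⊆ (dat c r G φ).H := by
  intro z hz
  obtain ⟨i, hi, _⟩ := i2_act s u z (h.base.act u hz)
  exact h.base.locH i z hi

/-- the final inequality; `lm = lam a`, `ε3 = σ ^ 3` -/
theorem i2_num {U x cd ε lm γ s3 A n za zb zd zl : ℝ} (hcd : 0 ≤ cd)
    (hUx : U ≤ x * cd) (hε0 : 0 < ε) (hε1 : ε ≤ 1) (hl0 : 0 < lm) (hl1 : lm ≤ 1)
    (hγ0 : 0 < γ) (hγx : γ ≤ x) (hs3 : 2000 * s3 ≤ ε * lm) (hA : A ≤ 3 / 100 * (γ * ε * lm))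
    (hn : n ≤ U - za + zb + zd + zl) (hU : 0 ≤ U)
    (ha : ε * lm / 5 * U - γ * ε * lm / 1000 * cd ≤ za)
    (hb : zb ≤ 64 * s3 * U + A / 2 * cd + γ * ε * lm / 1000 * cd)
    (hd : zd ≤ 32 * s3 * U + A / 2 * cd + γ * ε * lm / 1000 * cd)
    (hl : zl ≤ γ * ε * lm / 20 * cd + γ * ε * lm / 1000 * cd) :
    n ≤ x * (1 - ε * lm / 16) * cd := by
  have hel : 0 < ε * lm := mul_pos hε0 hl0
  have hel1 : ε * lm ≤ 1 := by nlinarith
  have h1 : 2000 * s3 * U ≤ ε * lm * U := mul_le_mul_of_nonneg_right hs3 hU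
  have h2 : n ≤ U * (1 - 152 / 1000 * (ε * lm)) + 54 / 1000 * (γ * (ε * lm)) * cd + A * cd := by
    nlinarith
  have h3 : U * (1 - 152 / 1000 * (ε * lm)) ≤ x * cd * (1 - 152 / 1000 * (ε * lm)) :=
    mul_le_mul_of_nonneg_right hUx (by linarith)
  have h4 : A * cd ≤ 3 / 100 * (γ * (ε * lm)) * cd := by
    apply mul_le_mul_of_nonneg_right _ hcd
    linarith
  have h5 : γ * (ε * lm) * cd ≤ x * (ε * lm) * cd := by
    apply mul_le_mul_of_nonneg_right _ hcd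
    exact mul_le_mul_of_nonneg_right hγx hel.le
  have h6 : 0 ≤ x * (ε * lm) * cd := by
    have : 0 ≤ x := by linarith
    positivity
  nlinarith

/-- Let `σ = sig a`, `λ = lam a`, `U = |unc φ ∩ co w w'| ≤ x cd` (`i2`), `κ = γ ε λ / 1000`. `p9` (exponent `m + 1`,
`κ1 = ρ0`, `κ2 = κ`, `τ = cd w w'`, vertex `w`) for `W2a` (`o3a`), `W2b` (`o4`), `W2d` (`o5`) with `p10_2a`, `p10_2b`, `p10_2d`,
and `p9_lab` (`n10`, `C3 ≤ C3m`). Outside the four bad events `e2b` and the means `m2a`, `m2b`, `m2d`, `m2c` give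
`|unc φ' ∩ co| ≤ U - ε λ U / 5 + 96 σ³ U + γ ε λ cd / 20 + 4 κ cd + A cd / r`,
`A = Cw³ j0 (K0³ + K0²) + 2 Cw⁴ j0 K0³`. By `cube_le` `96 σ³ ≤ 0.048 ε λ`; `1 - 0.152 ε λ ≥ 0` (`λ = σ/32 ≤ 1`), so with
`U ≤ x cd` and `γ ≤ x`: at most `x cd (1 - 0.152 ε λ + 0.05 ε λ + 0.004 ε λ) + A cd / r ≤ x cd (1 - ε λ / 16)` as soon as
`A / r ≤ 0.03 γ ε λ`. Union bound: `4 / r ^ (m + 1) ≤ 1 / r ^ m` for `r ≥ 4`. -/
theorem i2 (c : Cst) (hc : CstHyp c) (Cw : ℝ) (hCw : 0 ≤ Cw) (nc d c0 m1 m2 : ℕ)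
    (hconc : ConcFor c.K Cw c.j0 nc d c0) (hm : 100 * (c0 + m2 + 1) ≤ m1) (m : ℕ) : ∃ r0 : ℝ,
    ∀ (V : Type) [Fintype V] (k D : ℕ) (r Y : ℝ) (G : SimpleGraph V) (F : Fam V k)
      (φ : V → Option (Fin k)) (om : V × Fin k → ℝ) (x C1 C3 L : ℝ) (s : Sel V (Fin k) (V × V)),
      RS c Cw nc d m1 m2 r Y D G F φ om x C1 C3 L s → r0 ≤ r →
      ∀ w w' : V, w ≠ w' → c.ρ0 * r ^ 2 ≤ cd G w w' →
        s.μ.P (fun u => ¬ G2 G (newφ c r G φ (s.S u)) (x * (1 - c.ε * c.lam * c.a / 16)) w w') ≤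
          1 / r ^ m := by
  obtain ⟨B, hB⟩ := exists_BH hc hCw
  have hσ := sig_a_pos hc
  have hlamp := lam_a_pos hc
  have hρ := hc.ρ0_pos
  have hγ := hc.γ_pos
  have hε := hc.ε_pos
  obtain ⟨lm, hlm⟩ : ∃ lm, lm = c.lam * c.a := ⟨_, rfl⟩
  rw [← hlm] at hlamp
  have hlm1 : lm ≤ 1 := by
    have h1 := hc.a_sig
    rw [sig_eq] at h1
    rw [hlm]
    nlinarith
  have hκ : 0 < c.γ * c.ε * lm / 1000 := by positivity
  obtain ⟨r1, h9⟩ := p9 c hc Cw hCw nc d c0 m1 m2 hconc hm B c.ρ0 (c.γ * c.ε * lm / 1000)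
    hB.one hρ hκ (m + 1)
  obtain ⟨r2, h9l⟩ := p9_lab c hc Cw hCw nc d c0 m1 m2 hconc hm B c.ρ0 (c.γ * c.ε * lm / 1000)
    hB.one hB.j0 hB.K hρ hκ (m + 1)
  obtain ⟨A1, hA1d⟩ : ∃ A1, A1 = Cw ^ 3 * c.j0 * (c.K0 ^ 3 + c.K0 ^ 2) := ⟨_, rfl⟩
  obtain ⟨A2, hA2d⟩ : ∃ A2, A2 = 2 * Cw ^ 4 * c.j0 * c.K0 ^ 3 := ⟨_, rfl⟩
  have hK0 := K0_pos hc
  have hA10 : 0 ≤ A1 := by
    rw [hA1d]
    positivity
  have hA20 : 0 ≤ A2 := by
    rw [hA2d]
    positivity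
  refine ⟨max (max (max r1 r2) (max 4 (8 / c.ε)))
    (2 * (A1 + A2) / (3 / 100 * (c.γ * c.ε * lm))), ?_⟩
  intro V _ k D r Y G F φ om x C1 C3 L s h hr w w' hww hcd
  have hr4 : 4 ≤ r := ((le_max_left _ _).trans ((le_max_right _ _).trans (le_max_left _ _))).trans hr
  have hr8 : 8 / c.ε ≤ r :=
    ((le_max_right _ _).trans ((le_max_right _ _).trans (le_max_left _ _))).trans hr
  have hrr1 : r1 ≤ r := ((le_max_left _ _).trans ((le_max_left _ _).trans (le_max_left _ _))).trans hr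
  have hrr2 : r2 ≤ r := ((le_max_right _ _).trans ((le_max_left _ _).trans (le_max_left _ _))).trans hr
  have hrA : 2 * (A1 + A2) / (3 / 100 * (c.γ * c.ε * lm)) ≤ r := (le_max_right _ _).trans hr
  have hr0 : 0 < r := by linarith
  have hA : 2 * (A1 + A2) / r ≤ 3 / 100 * (c.γ * c.ε * lm) := by
    rw [div_le_iff₀ (by positivity)] at hrA
    rw [div_le_iff₀ hr0]
    linarith
  have hP1 := h9 V k D r Y G F φ om x C1 C3 L s h hrr1 w (W2a c r G φ w w') (cd G w w')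
    hcd (o3a (rs_gs h) hCw hB w w') (fun t ht j => p10_2a w w' t ht j)
  have hP2 := h9 V k D r Y G F φ om x C1 C3 L s h hrr1 w (W2b c r G φ w w') (cd G w w')
    hcd (o4 (rs_gs h) hCw hB w w') (fun t ht j => p10_2b w w' t ht j)
  have hP3 := h9 V k D r Y G F φ om x C1 C3 L s h hrr1 w (W2d c r G φ w w') (cd G w w')
    hcd (o5 (rs_gs h) hCw hB w w') (fun t ht j => p10_2d w w' t ht j)
  have hcd0 : 0 ≤ cd G w w' := cd_nonneg w w'
  have hP4 := h9l V k D r Y G F φ om x C1 C3 L s h hrr2 w w' hcd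
    ((n10 (rs_gs h) hww hcd).trans (mul_le_mul_of_nonneg_right h.C3_le hcd0))
  have hE1 := m2a h hCw hr8 w w'
  have hE2 := m2b h hCw w w'
  have hE3 := m2d h hCw w w'
  have hE4 := m2c h hCw hww hcd
  rw [← hlm] at hE1 hE4
  rw [← hA1d] at hE2
  rw [← hA2d] at hE3
  have hsub : ∀ u, ¬ G2 G (newφ c r G φ (s.S u)) (x * (1 - c.ε * c.lam * c.a / 16)) w w' →
      ((c.γ * c.ε * lm / 1000 * cd G w w' ≤
        |(W2a c r G φ w w').Z (s.S u) - s.μ.E (fun u' => (W2a c r G φ w w').Z (s.S u'))|) ∨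
      (c.γ * c.ε * lm / 1000 * cd G w w' ≤
        |(W2b c r G φ w w').Z (s.S u) - s.μ.E (fun u' => (W2b c r G φ w w').Z (s.S u'))|)) ∨
      ((c.γ * c.ε * lm / 1000 * cd G w w' ≤
        |(W2d c r G φ w w').Z (s.S u) - s.μ.E (fun u' => (W2d c r G φ w w').Z (s.S u'))|) ∨
      (c.γ * c.ε * lm / 1000 * cd G w w' ≤
        |labZ (dat c r G φ).J (wlab c r G φ w w') (s.S u) -
          s.μ.E (fun u' => labZ (dat c r G φ).J (wlab c r G φ w w') (s.S u'))|)) := by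
    intro u hu
    by_contra hcon
    rw [not_or, not_or, not_or, not_le, not_le, not_le, not_le] at hcon
    apply hu
    obtain ⟨⟨c1, c2⟩, c3, c4⟩ := hcon
    have d1 := (abs_lt.mp c1).1
    have d2 := (abs_lt.mp c2).2
    have d3 := (abs_lt.mp c3).2
    have d4 := (abs_lt.mp c4).2
    have he := e2b (i2_sub h u) (h.prob.noconf u) w w'
    have hi := h.state.i2 w w' hww hcd
    unfold G2
    have hcube := cube_le hc
    rw [← hlm] at hcube
    have e16 : x * (1 - c.ε * c.lam * c.a / 16) = x * (1 - c.ε * lm / 16) := by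
      rw [hlm]
      ring
    rw [e16]
    have hb1 : A1 * cd G w w' / r ≤ 2 * (A1 + A2) / r / 2 * cd G w w' := by
      have e : 2 * (A1 + A2) / r / 2 * cd G w w' = (A1 + A2) * cd G w w' / r := by
        field_simp
      rw [e]
      apply div_le_div_of_nonneg_right _ hr0.le
      apply mul_le_mul_of_nonneg_right _ hcd0
      linarith
    have hb2 : A2 * cd G w w' / r ^ 2 ≤ 2 * (A1 + A2) / r / 2 * cd G w w' := by
      have e : 2 * (A1 + A2) / r / 2 * cd G w w' = (A1 + A2) * cd G w w' / r := by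
        field_simp
      rw [e]
      have h1 : A2 * cd G w w' / r ^ 2 ≤ A2 * cd G w w' / r := by
        apply div_le_div_of_nonneg_left (by positivity) hr0
        nlinarith
      refine h1.trans ?_
      apply div_le_div_of_nonneg_right _ hr0.le
      apply mul_le_mul_of_nonneg_right _ hcd0
      linarith
    refine i2_num (U := ((unc φ ∩ co G w w').card : ℝ)) (γ := c.γ) (s3 := (c.sig * c.a) ^ 3)
      (A := 2 * (A1 + A2) / r) hcd0 hi hε hc.ε_le hlamp hlm1 hγ h.x_ge hcube hA he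
      (Nat.cast_nonneg _) ?_ ?_ ?_ ?_
    · linarith
    · linarith
    · linarith
    · linarith
  calc s.μ.P (fun u => ¬ G2 G (newφ c r G φ (s.S u)) (x * (1 - c.ε * c.lam * c.a / 16)) w w')
      ≤ _ := s.μ.P_mono hsub
    _ ≤ (1 / r ^ (m + 1) + 1 / r ^ (m + 1)) + (1 / r ^ (m + 1) + 1 / r ^ (m + 1)) :=
        (s.μ.P_or_le _ _).trans (add_le_add ((s.μ.P_or_le _ _).trans (add_le_add hP1 hP2))
          ((s.μ.P_or_le _ _).trans (add_le_add hP3 hP4)))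
    _ ≤ 1 / r ^ m := by
        rw [← add_div, ← add_div, div_le_div_iff₀ (by positivity) (by positivity), pow_succ]
        have : 0 < r ^ m := by positivity
        nlinarith

end Pool.Agent.Lib.H23D
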