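import Pool.Agent.Lib.H23D.Toks
import Pool.Agent.Lib.H23D.A1
import Pool.Agent.Lib.H23D.C1
import Pool.Agent.Lib.H23D.H15Cnt

/-!
# H23D, N9B: counts for W3p

Module C of H93B, see `H93B/PROOF.md` and `README.md`.
-/

set_option autoImplicit false

open Finset
open scoped Classical

namespace Pool.Agent.Lib.H23D

open Pool.Agent.Lib.Prob48
open Pool.Agent.Lib.H93B

variable {V : Type} [Fintype V] {G : SimpleGraph V} {k : ℕ} {φ : V → Option (Fin k)} {c : Cst}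
  {r : ℝ} {D : ℕ} {x C1 C3 L : ℝ}

theorem n9b_heavy (h : Gs c r D G φ x C1 C3 L) (y : V) :
    ((univ.filter fun z => c.ρ0 * r ^ 2 ≤ cd G y z).card : ℝ) ≤ r ^ 4 / c.ρ0 := by
  have hρ := h.hc.ρ0_pos
  have hr : 0 < r := by linarith [h.r_one]
  have h1 := a1_card h.deg h.r_cube y (c.ρ0 * r ^ 2)
  rw [le_div_iff₀ hρ]
  have h2 : 0 < r ^ 2 := by positivity
  apply le_of_mul_le_mul_right _ h2
  calc ((univ.filter fun z => c.ρ0 * r ^ 2 ≤ cd G y z).card : ℝ) * c.ρ0 * r ^ 2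
      = c.ρ0 * r ^ 2 * ((univ.filter fun z => c.ρ0 * r ^ 2 ≤ cd G y z).card : ℝ) := by ring
    _ ≤ r ^ 6 := h1
    _ = r ^ 4 * r ^ 2 := by ring

/-- `y ∈ co w w'`, `z` with `ρ0 r² ≤ cd y z` (at most `r ^ 4 / ρ0`, `a1_card`), `k` colours -/
theorem n9_sump (h : Gs c r D G φ x C1 C3 L) (w w' : V) :
    (W3p c r G φ w w').sum ≤ cd G w w' * (r ^ 4 / c.ρ0) * k := by
  have hK := K0_pos h.hc
  have hρ := h.hc.ρ0_pos
  have hr : 0 ≤ r := by linarith [h.r_one]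
  have h1 : (W3p c r G φ w w').sum =
      ((univ.filter fun t : V × V × Fin k => t.1 ≠ t.2.1 ∧
        (t.1 ∈ co G w w' ∧ c.ρ0 * r ^ 2 ≤ cd G t.1 t.2.1) ∧
        (t.1, t.2.2) ∈ (dat c r G φ).H ∧ (t.2.1, t.2.2) ∈ (dat c r G φ).H).card : ℝ) :=
    h15_ind (fun t : V × V × Fin k => t.1 ≠ t.2.1 ∧
        (t.1 ∈ co G w w' ∧ c.ρ0 * r ^ 2 ≤ cd G t.1 t.2.1) ∧
        (t.1, t.2.2) ∈ (dat c r G φ).H ∧ (t.2.1, t.2.2) ∈ (dat c r G φ).H)
  rw [h1, mul_assoc]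
  refine h15_cov' _ (co G w w')
    (fun y t => t.1 = y ∧ c.ρ0 * r ^ 2 ≤ cd G y t.2.1) ?_ _ _ (by positivity) (le_refl _) ?_
  · rintro t ⟨_, ⟨h2, h3⟩, _⟩
    exact ⟨t.1, h2, rfl, h3⟩
  · intro y _
    refine h15_cov' _ (univ.filter fun z => c.ρ0 * r ^ 2 ≤ cd G y z)
      (fun z t => t.1 = y ∧ t.2.1 = z) ?_ _ _ (by positivity) (n9b_heavy h y) ?_
    · rintro t ⟨h2, h3⟩
      exact ⟨t.2.1, mem_filter.2 ⟨mem_univ _, h3⟩, h2, rfl⟩
    · intro z _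
      refine h15_inj _ (univ : Finset (Fin k)) (fun t => t.2.2) (fun _ _ => mem_univ _) ?_ _ ?_
      · rintro t t' ⟨h2, h3⟩ ⟨h4, h5⟩ e
        exact Prod.ext (h2.trans h4.symm) (Prod.ext (h3.trans h5.symm) e)
      · rw [card_univ, Fintype.card_fin]

/-- one site fixed (`j = 0` or `1`): the other vertex has codegree at least `ρ0 r²` with the fixed one -/
theorem n9_one (h : Gs c r D G φ x C1 C3 L) (w w' : V) (j : Fin 2) (z : V × Fin k) :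
    (∑ t : V × V × Fin k, if (![(t.1, t.2.2), (t.2.1, t.2.2)] : Fin 2 → V × Fin k) j = z then
      (W3p c r G φ w w').w t else 0) ≤ r ^ 4 / c.ρ0 := by
  have hρ := h.hc.ρ0_pos
  have h1 : (∑ t : V × V × Fin k, if (![(t.1, t.2.2), (t.2.1, t.2.2)] : Fin 2 → V × Fin k) j = z then
      (W3p c r G φ w w').w t else 0) =
      ((univ.filter fun t : V × V × Fin k =>
        (![(t.1, t.2.2), (t.2.1, t.2.2)] : Fin 2 → V × Fin k) j = z ∧ (t.1 ≠ t.2.1 ∧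
        (t.1 ∈ co G w w' ∧ c.ρ0 * r ^ 2 ≤ cd G t.1 t.2.1) ∧
        (t.1, t.2.2) ∈ (dat c r G φ).H ∧ (t.2.1, t.2.2) ∈ (dat c r G φ).H)).card : ℝ) :=
    h15_ind2 (fun t : V × V × Fin k =>
        (![(t.1, t.2.2), (t.2.1, t.2.2)] : Fin 2 → V × Fin k) j = z)
      (fun t : V × V × Fin k => t.1 ≠ t.2.1 ∧
        (t.1 ∈ co G w w' ∧ c.ρ0 * r ^ 2 ≤ cd G t.1 t.2.1) ∧
        (t.1, t.2.2) ∈ (dat c r G φ).H ∧ (t.2.1, t.2.2) ∈ (dat c r G φ).H)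
  rw [h1]
  have hj : j = 0 ∨ j = 1 := by
    fin_cases j
    · exact Or.inl rfl
    · exact Or.inr rfl
  rcases hj with rfl | rfl
  · refine h15_inj _ (univ.filter fun u => c.ρ0 * r ^ 2 ≤ cd G z.1 u) (fun t => t.2.1) ?_ ?_ _
      (n9b_heavy h z.1)
    · rintro t ⟨h2, _, ⟨_, h3⟩, _⟩
      have h2 : (t.1, t.2.2) = z := h2
      rw [← h2]
      exact mem_filter.2 ⟨mem_univ _, h3⟩
    · rintro t t' ⟨h2, _⟩ ⟨h3, _⟩ e
      have h2 : (t.1, t.2.2) = z := h2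
      have h3 : (t'.1, t'.2.2) = z := h3
      have h4 := h2.trans h3.symm
      exact Prod.ext (Prod.mk.inj h4).1 (Prod.ext e (Prod.mk.inj h4).2)
  · refine h15_inj _ (univ.filter fun u => c.ρ0 * r ^ 2 ≤ cd G z.1 u) (fun t => t.1) ?_ ?_ _
      (n9b_heavy h z.1)
    · rintro t ⟨h2, _, ⟨_, h3⟩, _⟩
      have h2 : (t.2.1, t.2.2) = z := h2
      rw [← h2]
      rw [cd_comm] at h3
      exact mem_filter.2 ⟨mem_univ _, h3⟩
    · rintro t t' ⟨h2, _⟩ ⟨h3, _⟩ e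
      have h2 : (t.2.1, t.2.2) = z := h2
      have h3 : (t'.2.1, t'.2.2) = z := h3
      have h4 := h2.trans h3.symm
      exact Prod.ext e (Prod.ext (Prod.mk.inj h4).1 (Prod.mk.inj h4).2)

/-- both sites fixed: one triple -/
theorem n9_two (w w' : V) (y z : V × Fin k) :
    (∑ t : V × V × Fin k, if (t.1, t.2.2) = y ∧ (t.2.1, t.2.2) = z then
      (W3p c r G φ w w').w t else 0) ≤ 1 := by
  have h1 : (∑ t : V × V × Fin k, if (t.1, t.2.2) = y ∧ (t.2.1, t.2.2) = z then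
      (W3p c r G φ w w').w t else 0) =
      ((univ.filter fun t : V × V × Fin k =>
        ((t.1, t.2.2) = y ∧ (t.2.1, t.2.2) = z) ∧ (t.1 ≠ t.2.1 ∧
        (t.1 ∈ co G w w' ∧ c.ρ0 * r ^ 2 ≤ cd G t.1 t.2.1) ∧
        (t.1, t.2.2) ∈ (dat c r G φ).H ∧ (t.2.1, t.2.2) ∈ (dat c r G φ).H)).card : ℝ) :=
    h15_ind2 (fun t : V × V × Fin k => (t.1, t.2.2) = y ∧ (t.2.1, t.2.2) = z)
      (fun t : V × V × Fin k => t.1 ≠ t.2.1 ∧
        (t.1 ∈ co G w w' ∧ c.ρ0 * r ^ 2 ≤ cd G t.1 t.2.1) ∧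
        (t.1, t.2.2) ∈ (dat c r G φ).H ∧ (t.2.1, t.2.2) ∈ (dat c r G φ).H)
  rw [h1]
  refine h15_inj _ ({0} : Finset ℕ) (fun _ => 0) (fun _ _ => mem_singleton.2 rfl) ?_ _ ?_
  · rintro t t' ⟨⟨h2, h3⟩, _⟩ ⟨⟨h4, h5⟩, _⟩ _
    have h6 := h2.trans h4.symm
    have h7 := h3.trans h5.symm
    exact Prod.ext (Prod.mk.inj h6).1 (Prod.ext (Prod.mk.inj h7).1 (Prod.mk.inj h6).2)
  · rw [card_singleton, Nat.cast_one]

/-- `y ∈ co w w'`, `col`, a common label `f ∈ J (y, col)` (at most `j0`, `J_card`), `z ∈ labA f` (at most `K0 r²`,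
`c1_A`) -/
theorem n9_sh (h : Gs c r D G φ x C1 C3 L) (w w' : V) :
    (W3p c r G φ w w').sh (dat c r G φ).Share ≤ cd G w w' * k * (c.j0 * (c.K0 * r ^ 2)) := by
  have hK := K0_pos h.hc
  have hρ := h.hc.ρ0_pos
  have hr : 0 ≤ r := by linarith [h.r_one]
  have h1 : (W3p c r G φ w w').sh (dat c r G φ).Share =
      ((univ.filter fun t : V × V × Fin k => (∃ i j : Fin 2, i ≠ j ∧
        (dat c r G φ).Share ((![(t.1, t.2.2), (t.2.1, t.2.2)] : Fin 2 → V × Fin k) i)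
          ((![(t.1, t.2.2), (t.2.1, t.2.2)] : Fin 2 → V × Fin k) j)) ∧ (t.1 ≠ t.2.1 ∧
        (t.1 ∈ co G w w' ∧ c.ρ0 * r ^ 2 ≤ cd G t.1 t.2.1) ∧
        (t.1, t.2.2) ∈ (dat c r G φ).H ∧ (t.2.1, t.2.2) ∈ (dat c r G φ).H)).card : ℝ) :=
    h15_ind2 (fun t : V × V × Fin k => ∃ i j : Fin 2, i ≠ j ∧
        (dat c r G φ).Share ((![(t.1, t.2.2), (t.2.1, t.2.2)] : Fin 2 → V × Fin k) i)
          ((![(t.1, t.2.2), (t.2.1, t.2.2)] : Fin 2 → V × Fin k) j))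
      (fun t : V × V × Fin k => t.1 ≠ t.2.1 ∧
        (t.1 ∈ co G w w' ∧ c.ρ0 * r ^ 2 ≤ cd G t.1 t.2.1) ∧
        (t.1, t.2.2) ∈ (dat c r G φ).H ∧ (t.2.1, t.2.2) ∈ (dat c r G φ).H)
  rw [h1]
  refine h15_cov' _ ((co G w w') ×ˢ (univ : Finset (Fin k)))
    (fun p t => (t.1, t.2.2) = p ∧ (dat c r G φ).Share (t.1, t.2.2) (t.2.1, t.2.2) ∧
      (t.1, t.2.2) ∈ (dat c r G φ).H) ?_ _ _ (by positivity) ?_ ?_
  · rintro t ⟨⟨i, j, hij, hs⟩, _, ⟨h2, _⟩, h3, _⟩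
    refine ⟨(t.1, t.2.2), mem_product.2 ⟨h2, mem_univ _⟩, rfl, ?_, h3⟩
    fin_cases i <;> fin_cases j <;> first
      | exact absurd rfl hij
      | exact hs
      | exact share_symm hs
  · rw [card_product, card_univ, Fintype.card_fin]
    unfold cd
    push_cast
    exact le_refl _
  · intro p _
    by_cases hp : p ∈ (dat c r G φ).H
    · refine h15_cov' _ ((dat c r G φ).J p)
        (fun f t => (t.1, t.2.2) = p ∧ t.2.1 ∈ labA c r G φ f) ?_ _ _ (by positivity)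
        (by exact_mod_cast J_card hp) ?_
      · rintro t ⟨h2, h3, _⟩
        obtain ⟨f, h4, h5⟩ := share_iff.1 h3
        rw [h2] at h4
        exact ⟨f, h4, h2, (mem_J.1 h5).1⟩
      · intro f _
        refine h15_inj _ (labA c r G φ f) (fun t => t.2.1) ?_ ?_ _ (c1_A h f)
        · rintro t ⟨_, h2⟩
          exact h2
        · rintro t t' ⟨h2, _⟩ ⟨h3, _⟩ e
          have h4 := h2.trans h3.symm
          exact Prod.ext (Prod.mk.inj h4).1 (Prod.ext e (Prod.mk.inj h4).2)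
    · apply h15_empty
      · rintro t ⟨h2, _, h3⟩
        exact hp (h2 ▸ h3)
      · positivity

end Pool.Agent.Lib.H23D
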