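import Pool.Agent.Lib.H23D.NFam
import Pool.Agent.Lib.H23D.P2
import Pool.Agent.Lib.H23D.P3
import Pool.Agent.Lib.H23D.N9A
import Pool.Agent.Lib.H23D.N9B
import Pool.Agent.Lib.H23D.L0

/-!
# H23D, M3: means for (I3)

Module C of H93B, see `H93B/PROOF.md` and `README.md`.
-/

set_option autoImplicit false

open Finset
open scoped Classical

namespace Pool.Agent.Lib.H23D

open Pool.Agent.Lib.Prob48
open Pool.Agent.Lib.H93B

variable {V : Type} [Fintype V] {G : SimpleGraph V} {k : ℕ} {φ : V → Option (Fin k)} {c : Cst}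
  {r : ℝ} {D : ℕ} {x C1 C3 L : ℝ}

/-- `p3_le`, `n9_suml` -/
theorem m3l {Cw : ℝ} {nc d m1 m2 : ℕ} {Y : ℝ} {F : Fam V k} {om : V × Fin k → ℝ}
    {s : Sel V (Fin k) (V × V)} (h : RS c Cw nc d m1 m2 r Y D G F φ om x C1 C3 L s)
    (hCw : 0 ≤ Cw) (w w' : V) :
    s.μ.E (fun u => (W3l c r G φ w w').Z (s.S u)) ≤ c.sig * c.a / c.ρ0 * cd G w w' := by
  have hg := rs_gs h
  have hr : 0 < r := lt_of_lt_of_le one_pos h.r_one
  have hs := sig_a_pos h.hc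
  have hρ := h.hc.ρ0_pos
  have h1 := p3_le h.prob (W3l c r G φ w w') rfl (W3l_nn w w') (W3l_mem w w')
  refine h1.trans ((mul_le_mul_of_nonneg_left (n9_suml hg w w') (by positivity)).trans (le_of_eq ?_))
  field_simp

theorem m3m {Cw : ℝ} {nc d m1 m2 : ℕ} {Y : ℝ} {F : Fam V k} {om : V × Fin k → ℝ}
    {s : Sel V (Fin k) (V × V)} (h : RS c Cw nc d m1 m2 r Y D G F φ om x C1 C3 L s)
    (hCw : 0 ≤ Cw) (w w' : V) :
    s.μ.E (fun u => (W3m c r G φ w w').Z (s.S u)) ≤ c.sig * c.a / c.ρ0 * cd G w w' := by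
  have hg := rs_gs h
  have hr : 0 < r := lt_of_lt_of_le one_pos h.r_one
  have hs := sig_a_pos h.hc
  have hρ := h.hc.ρ0_pos
  have h1 := p3_le h.prob (W3m c r G φ w w') rfl (W3m_nn w w') (W3m_mem w w')
  refine h1.trans ((mul_le_mul_of_nonneg_left (n9_summ hg w w') (by positivity)).trans (le_of_eq ?_))
  field_simp

/-- `p2`, `n9_sump`, `n9_sh`: `2 (sig a)² / r ^ 8 * cd (r ^ 4 / ρ0) k ≤ ε (sig a)² cd / ρ0 ≤ (sig a / ρ0) cd`, and
`Cw² / r ^ 8 * cd k j0 K0 r² ≤ Cw² j0 K0 cd / r²`. -/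
theorem m3p {Cw : ℝ} {nc d m1 m2 : ℕ} {Y : ℝ} {F : Fam V k} {om : V × Fin k → ℝ}
    {s : Sel V (Fin k) (V × V)} (h : RS c Cw nc d m1 m2 r Y D G F φ om x C1 C3 L s)
    (hCw : 0 ≤ Cw) (w w' : V) :
    s.μ.E (fun u => (W3p c r G φ w w').Z (s.S u)) ≤
      c.sig * c.a / c.ρ0 * cd G w w' + Cw ^ 2 * c.j0 * c.K0 * cd G w w' / r ^ 2 := by
  have hg := rs_gs h
  have hr : 0 < r := lt_of_lt_of_le one_pos h.r_one
  have hs := sig_a_pos h.hc
  have hK := K0_pos h.hc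
  have hρ := h.hc.ρ0_pos
  have hε := h.hc.ε_pos
  have hcd := cd_nonneg (G := G) w w'
  have h1 := p2 h.base h.prob (by positivity) hCw hs.le (W3p c r G φ w w') (show (2 : ℕ) ≤ 4 by norm_num) (W3p_nn w w')
    (W3p_inj w w') (W3p_mem w w')
  have e1 : (W3p c r G φ w w').q = 2 := rfl
  rw [e1] at h1
  have hk4 : (k : ℝ) ≤ r ^ 4 := by
    have h8 := h.k_le
    have h9 := h.hc.ε_le
    have h10 : 0 < r ^ 4 := by positivity
    nlinarith
  have h2 : (W3p c r G φ w w').sum ≤ cd G w w' * (r ^ 4 / c.ρ0) * (c.ε / 2 * r ^ 4) := by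
    refine (n9_sump hg w w').trans ?_
    have := h.k_le
    gcongr
  have h3 : (W3p c r G φ w w').sh (dat c r G φ).Share ≤ cd G w w' * r ^ 4 * (c.j0 * (c.K0 * r ^ 2)) := by
    refine (n9_sh hg w w').trans ?_
    gcongr
  refine h1.trans (add_le_add ?_ ?_)
  · calc 2 * (c.sig * c.a / r ^ 4) ^ 2 * (W3p c r G φ w w').sum ≤
          2 * (c.sig * c.a / r ^ 4) ^ 2 * (cd G w w' * (r ^ 4 / c.ρ0) * (c.ε / 2 * r ^ 4)) :=
          mul_le_mul_of_nonneg_left h2 (by positivity)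
      _ = (c.ε * (c.sig * c.a)) * (c.sig * c.a / c.ρ0 * cd G w w') := by field_simp
      _ ≤ 1 * (c.sig * c.a / c.ρ0 * cd G w w') := by
          refine mul_le_mul_of_nonneg_right ?_ (by positivity)
          exact mul_le_one₀ h.hc.ε_le hs.le h.hc.a_sig
      _ = c.sig * c.a / c.ρ0 * cd G w w' := one_mul _
  · calc (Cw / r ^ 4) ^ 2 * (W3p c r G φ w w').sh (dat c r G φ).Share ≤
          (Cw / r ^ 4) ^ 2 * (cd G w w' * r ^ 4 * (c.j0 * (c.K0 * r ^ 2))) :=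
          mul_le_mul_of_nonneg_left h3 (by positivity)
      _ = Cw ^ 2 * c.j0 * c.K0 * cd G w w' / r ^ 2 := by field_simp

end Pool.Agent.Lib.H23D
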