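import Pool.Agent.Lib.H23D.NCard
import Pool.Agent.Lib.H23D.NFam
import Pool.Agent.Lib.H23D.N9B
import Pool.Agent.Lib.H23D.Consts

/-!
# H23D, O6: W3p is admissible

Module C of H93B, see `H93B/PROOF.md` and `README.md`.
-/

set_option autoImplicit false

open Finset
open scoped Classical

namespace Pool.Agent.Lib.H23D

open Pool.Agent.Lib.Prob48
open Pool.Agent.Lib.H93B

variable {V : Type} [Fintype V] {G : SimpleGraph V} {k : ℕ} {φ : V → Option (Fin k)} {c : Cst}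
  {r : ℝ} {D : ℕ} {x C1 C3 L : ℝ}

theorem o6_gen (h : Gs c r D G φ x C1 C3 L) {Cw B : ℝ} (hCw : 0 ≤ Cw) (hB : BH c Cw B) {W : V × V × Fin k → ℝ}
    (hw0 : ∀ t, 0 ≤ W t)
    (hone : ∀ (j : Fin 2) (z : V × Fin k), (∑ t : V × V × Fin k,
      if (![(t.1, t.2.2), (t.2.1, t.2.2)] : Fin 2 → V × Fin k) j = z then W t else 0) ≤ r ^ 4 / c.ρ0)
    (htwo : ∀ y z : V × Fin k, (∑ t : V × V × Fin k, if (t.1, t.2.2) = y ∧ (t.2.1, t.2.2) = z then W t else 0) ≤ 1)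
    (P : Finset (Fin 2)) (hP : P.Nonempty) (b : Fin 2 → V × Fin k)
    (inst : ∀ t : V × V × Fin k, Decidable (∀ j ∈ P, (![(t.1, t.2.2), (t.2.1, t.2.2)] : Fin 2 → V × Fin k) j = b j)) :
    (∑ t : V × V × Fin k, @ite ℝ (∀ j ∈ P, (![(t.1, t.2.2), (t.2.1, t.2.2)] : Fin 2 → V × Fin k) j = b j) (inst t)
      (W t) 0) * (Cw / r ^ 4) ^ (2 - P.card) ≤ B * L := by
  have hr : 0 < r := lt_of_lt_of_le one_pos h.r_one
  have hB1 := hB.one
  have hL1 := h.L_one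
  have hB0 : 0 < B := lt_of_lt_of_le one_pos hB1
  have hρ := h.hc.ρ0_pos
  have hBL : ∀ y : ℝ, y ≤ B → y ≤ B * L := fun y hy => hy.trans (le_mul_of_one_le_right hB0.le hL1)
  obtain ⟨CN, hCN⟩ : ∃ CN : ℝ, CN = ∑ t : V × V × Fin k, @ite ℝ (∀ j ∈ P, (![(t.1, t.2.2), (t.2.1, t.2.2)] :
    Fin 2 → V × Fin k) j = b j) (inst t) (W t) 0 := ⟨_, rfl⟩
  rw [← hCN]
  have h1 : ∀ j ∈ P, CN ≤ r ^ 4 / c.ρ0 := by
    intro j hj
    refine le_trans ?_ (hone j (b j))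
    rw [hCN]
    refine sum_le_sum fun t _ => ?_
    by_cases h1 : ∀ i ∈ P, (![(t.1, t.2.2), (t.2.1, t.2.2)] : Fin 2 → V × Fin k) i = b i
    · rw [if_pos h1, if_pos (h1 j hj)]
    · rw [if_neg h1]
      exact nf_nn (hw0 t)
  have hcard := card2 P
  by_cases p0 : (0 : Fin 2) ∈ P <;> by_cases p1 : (1 : Fin 2) ∈ P
  · rw [if_pos p0, if_pos p1] at hcard
    rw [hcard]
    have h1 : CN ≤ 1 := by
      refine le_trans ?_ (htwo (b 0) (b 1))
      rw [hCN]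
      refine sum_le_sum fun t _ => ?_
      by_cases h1 : ∀ i ∈ P, (![(t.1, t.2.2), (t.2.1, t.2.2)] : Fin 2 → V × Fin k) i = b i
      · rw [if_pos h1, if_pos ⟨h1 0 p0, h1 1 p1⟩]
      · rw [if_neg h1]
        exact nf_nn (hw0 t)
    rw [show 2 - (1 + 1) = 0 by norm_num, pow_zero, mul_one]
    nlinarith
  · rw [if_pos p0, if_neg p1] at hcard
    rw [hcard, show 2 - (1 + 0) = 1 by norm_num, pow_one]
    refine hBL _ ?_
    calc CN * (Cw / r ^ 4) ≤ r ^ 4 / c.ρ0 * (Cw / r ^ 4) :=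
          mul_le_mul_of_nonneg_right (h1 0 p0) (by positivity)
      _ = Cw / c.ρ0 := by field_simp
      _ ≤ B := hB.f1
  · rw [if_neg p0, if_pos p1] at hcard
    rw [hcard, show 2 - (0 + 1) = 1 by norm_num, pow_one]
    refine hBL _ ?_
    calc CN * (Cw / r ^ 4) ≤ r ^ 4 / c.ρ0 * (Cw / r ^ 4) :=
          mul_le_mul_of_nonneg_right (h1 1 p1) (by positivity)
      _ = Cw / c.ρ0 := by field_simp
      _ ≤ B := hB.f1
  · exfalso
    rw [if_neg p0, if_neg p1] at hcard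
    have := card_pos.2 hP
    omega

/-- `c0`: `cd (r ^ 4 / ρ0) k (Cw / r ^ 4)² ≤ (Cw² / ρ0) cd` (`n9_sump`). `c1`: one element: `(r ^ 4 / ρ0) (Cw / r ^ 4) =
Cw / ρ0` (`n9_one`); two: at most one (`n9_two`). -/
theorem o6 (h : Gs c r D G φ x C1 C3 L) {Cw B : ℝ} (hCw : 0 ≤ Cw) (hB : BH c Cw B) (w w' : V) :
    (W3p c r G φ w w').Ok (dat c r G φ).H (Cw / r ^ 4) (B * cd G w w') (B * L) := by
  have hr : 0 < r := lt_of_lt_of_le one_pos h.r_one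
  have hcd := cd_nonneg (G := G) w w'
  have hB1 := hB.one
  have hL1 := h.L_one
  have hB0 : 0 < B := lt_of_lt_of_le one_pos hB1
  have hρ := h.hc.ρ0_pos
  have hk4 : (k : ℝ) ≤ r ^ 4 := by
    have h8 := h.k_le
    have h9 := h.hc.ε_le
    have h10 : 0 < r ^ 4 := by positivity
    nlinarith
  have hBL : ∀ y : ℝ, y ≤ B → y ≤ B * L := fun y hy => hy.trans (le_mul_of_one_le_right hB0.le hL1)
  refine ⟨show (1 : ℕ) ≤ 2 by norm_num, show (2 : ℕ) ≤ 4 by norm_num, W3p_nn w w', W3p_inj w w', W3p_mem w w', ?_, ?_⟩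
  · have e1 : (W3p c r G φ w w').q = 2 := rfl
    rw [e1]
    have h1 : (W3p c r G φ w w').sum ≤ cd G w w' * (r ^ 4 / c.ρ0) * r ^ 4 :=
      (n9_sump h w w').trans (mul_le_mul_of_nonneg_left hk4 (by positivity))
    calc (W3p c r G φ w w').sum * (Cw / r ^ 4) ^ 2 ≤ cd G w w' * (r ^ 4 / c.ρ0) * r ^ 4 * (Cw / r ^ 4) ^ 2 :=
          mul_le_mul_of_nonneg_right h1 (by positivity)
      _ = Cw ^ 2 / c.ρ0 * cd G w w' := by field_simp
      _ ≤ B * cd G w w' := mul_le_mul_of_nonneg_right hB.f2 hcd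
  · intro P hP b
    exact o6_gen h hCw hB (W3p_nn w w') (n9_one h w w') (n9_two w w') P hP b _

end Pool.Agent.Lib.H23D
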