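import Pool.Agent.Lib.H23D.E3
import Pool.Agent.Lib.H23D.M3
import Pool.Agent.Lib.H23D.O3
import Pool.Agent.Lib.H23D.O6
import Pool.Agent.Lib.H23D.P9
import Pool.Agent.Lib.H23D.P10
import Pool.Agent.Lib.H23D.LDefs

/-!
# H23D, I3: (I3) holds with high probability

Module C of H93B, see `H93B/PROOF.md` and `README.md`.
-/

set_option autoImplicit false

open Finset
open scoped Classical

namespace Pool.Agent.Lib.H23D

open Pool.Agent.Lib.Prob48
open Pool.Agent.Lib.H93B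

variable {V : Type} [Fintype V] {G : SimpleGraph V} {k : ℕ} {φ : V → Option (Fin k)} {c : Cst}
  {r : ℝ} {D : ℕ} {x C1 C3 L : ℝ}

theorem i3_act {Q R M : Type} [Fintype Q] [Fintype R] (s : Sel Q R M) (u : s.ι → s.Val)
    (z : Q × R) (hz : z ∈ s.act u) : ∃ i, s.loc i = Sum.inl z ∧ s.one (u i) := by
  unfold Sel.act at hz
  exact (Finset.mem_filter.mp hz).2

theorem i3_sub {Cw : ℝ} {nc d m1 m2 : ℕ} {Y : ℝ} {F : Fam V k} {om : V × Fin k → ℝ}
    {s : Sel V (Fin k) (V × V)} (h : RS c Cw nc d m1 m2 r Y D G F φ om x C1 C3 L s)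
    (u : s.ι → s.Val) : s.S u ⊆ (dat c r G φ).H := by
  intro z hz
  obtain ⟨i, hi, _⟩ := i3_act s u z (h.base.act u hz)
  exact h.base.locH i z hi

/-- Let `σ = sig a`, `κ = σ / 6 ≤ σ / (6 ρ0)`. `p9` (exponent `m + 1`, `κ1 = ρ0`, `κ2 = κ`, `τ = cd w w'`, vertex `w`) for
`W3l` (`o3l`, `p10_3l`), `W3m` (`o3m`, `p10_3m`), `W3p` (`o6`, `p10_3p`). Outside the bad events by `e3`, `h.i3`, `m3l`, `m3m`,
`m3p` the number is at most `(C3 + 3 σ / ρ0) cd + Cw² j0 K0 cd / r² + 3 κ cd ≤ (C3 + 4 σ / ρ0) cd` when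
`Cw² j0 K0 / r² ≤ σ / 2`. Union bound: `3 / r ^ (m + 1) ≤ 1 / r ^ m` for `r ≥ 3`. -/
theorem i3 (c : Cst) (hc : CstHyp c) (Cw : ℝ) (hCw : 0 ≤ Cw) (nc d c0 m1 m2 : ℕ)
    (hconc : ConcFor c.K Cw c.j0 nc d c0) (hm : 100 * (c0 + m2 + 1) ≤ m1) (m : ℕ) : ∃ r0 : ℝ,
    ∀ (V : Type) [Fintype V] (k D : ℕ) (r Y : ℝ) (G : SimpleGraph V) (F : Fam V k)
      (φ : V → Option (Fin k)) (om : V × Fin k → ℝ) (x C1 C3 L : ℝ) (s : Sel V (Fin k) (V × V)),
      RS c Cw nc d m1 m2 r Y D G F φ om x C1 C3 L s → r0 ≤ r →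
      ∀ w w' : V, w ≠ w' → c.ρ0 * r ^ 2 ≤ cd G w w' →
        s.μ.P (fun u => ¬ G3 c r G (newφ c r G φ (s.S u)) (C3 + 4 * c.sig * c.a / c.ρ0) w w') ≤
          1 / r ^ m := by
  obtain ⟨B, hB⟩ := exists_BH hc hCw
  have hσ := sig_a_pos hc
  have hρ := hc.ρ0_pos
  obtain ⟨r1, h9⟩ := p9 c hc Cw hCw nc d c0 m1 m2 hconc hm B c.ρ0 (c.sig * c.a / 6) hB.one hρ
    (by positivity) (m + 1)
  refine ⟨max (max r1 3) (2 * (Cw ^ 2 * c.j0 * c.K0) / (c.sig * c.a)), ?_⟩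
  intro V _ k D r Y G F φ om x C1 C3 L s h hr w w' hww hcd
  have hr2 : 3 ≤ r := ((le_max_right _ _).trans (le_max_left _ _)).trans hr
  have hrr1 : r1 ≤ r := ((le_max_left _ _).trans (le_max_left _ _)).trans hr
  have hr3 : 2 * (Cw ^ 2 * c.j0 * c.K0) / (c.sig * c.a) ≤ r := (le_max_right _ _).trans hr
  rw [div_le_iff₀ hσ] at hr3
  have hr0 : 0 < r := by linarith
  have hA1 := h9 V k D r Y G F φ om x C1 C3 L s h hrr1 w (W3l c r G φ w w') (cd G w w')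
    hcd (o3l (rs_gs h) hCw hB w w') (fun t ht j => p10_3l w w' t ht j)
  have hA2 := h9 V k D r Y G F φ om x C1 C3 L s h hrr1 w (W3m c r G φ w w') (cd G w w')
    hcd (o3m (rs_gs h) hCw hB w w') (fun t ht j => p10_3m hc h.r_one w w' t ht j)
  have hA3 := h9 V k D r Y G F φ om x C1 C3 L s h hrr1 w (W3p c r G φ w w') (cd G w w')
    hcd (o6 (rs_gs h) hCw hB w w') (fun t ht j => p10_3p hc h.r_one w w' t ht j)
  have hE1 := m3l h hCw w w'
  have hE2 := m3m h hCw w w'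
  have hE3 := m3p h hCw w w'
  have hcd0 : 0 ≤ cd G w w' := cd_nonneg w w'
  have hsub : ∀ u, ¬ G3 c r G (newφ c r G φ (s.S u)) (C3 + 4 * c.sig * c.a / c.ρ0) w w' →
      (c.sig * c.a / 6 * cd G w w' ≤
        |(W3l c r G φ w w').Z (s.S u) - s.μ.E (fun u' => (W3l c r G φ w w').Z (s.S u'))|) ∨
      ((c.sig * c.a / 6 * cd G w w' ≤
        |(W3m c r G φ w w').Z (s.S u) - s.μ.E (fun u' => (W3m c r G φ w w').Z (s.S u'))|) ∨
      (c.sig * c.a / 6 * cd G w w' ≤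
        |(W3p c r G φ w w').Z (s.S u) - s.μ.E (fun u' => (W3p c r G φ w w').Z (s.S u'))|)) := by
    intro u hu
    by_contra hcon
    rw [not_or, not_or, not_le, not_le, not_le] at hcon
    apply hu
    obtain ⟨c1, c2, c3⟩ := hcon
    have d1 := (abs_lt.mp c1).2
    have d2 := (abs_lt.mp c2).2
    have d3 := (abs_lt.mp c3).2
    have he := e3 (i3_sub h u) (h.prob.noconf u) w w'
    have hi := h.state.i3 w w' hww hcd
    unfold G3
    have hσρ : c.sig * c.a ≤ c.sig * c.a / c.ρ0 := by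
      rw [le_div_iff₀ hρ]
      nlinarith [hc.ρ0_le]
    have h5 : Cw ^ 2 * c.j0 * c.K0 * cd G w w' / r ^ 2 ≤ c.sig * c.a / 2 * cd G w w' := by
      rw [div_le_iff₀ (by positivity)]
      have h6 : Cw ^ 2 * c.j0 * c.K0 ≤ c.sig * c.a / 2 * r ^ 2 := by
        have h61 : r * (c.sig * c.a) ≤ r ^ 2 * (c.sig * c.a) :=
          mul_le_mul_of_nonneg_right (by nlinarith) hσ.le
        linarith
      nlinarith
    have h7 : c.sig * c.a * cd G w w' ≤ c.sig * c.a / c.ρ0 * cd G w w' :=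
      mul_le_mul_of_nonneg_right hσρ hcd0
    have h8 : (C3 + 4 * c.sig * c.a / c.ρ0) * cd G w w' =
        C3 * cd G w w' + 4 * (c.sig * c.a / c.ρ0 * cd G w w') := by ring
    rw [h8]
    linarith
  calc s.μ.P (fun u => ¬ G3 c r G (newφ c r G φ (s.S u)) (C3 + 4 * c.sig * c.a / c.ρ0) w w')
      ≤ s.μ.P (fun u => (c.sig * c.a / 6 * cd G w w' ≤
        |(W3l c r G φ w w').Z (s.S u) - s.μ.E (fun u' => (W3l c r G φ w w').Z (s.S u'))|) ∨
      ((c.sig * c.a / 6 * cd G w w' ≤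
        |(W3m c r G φ w w').Z (s.S u) - s.μ.E (fun u' => (W3m c r G φ w w').Z (s.S u'))|) ∨
      (c.sig * c.a / 6 * cd G w w' ≤
        |(W3p c r G φ w w').Z (s.S u) - s.μ.E (fun u' => (W3p c r G φ w w').Z (s.S u'))|))) :=
        s.μ.P_mono hsub
    _ ≤ 1 / r ^ (m + 1) + (1 / r ^ (m + 1) + 1 / r ^ (m + 1)) :=
        (s.μ.P_or_le _ _).trans (add_le_add hA1 ((s.μ.P_or_le _ _).trans (add_le_add hA2 hA3)))
    _ ≤ 1 / r ^ m := by
        rw [← add_div, ← add_div, div_le_div_iff₀ (by positivity) (by positivity), pow_succ]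
        have : 0 < r ^ m := by positivity
        nlinarith

end Pool.Agent.Lib.H23D
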