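import Pool.Agent.Lib.H23D.P7B
import Pool.Agent.Lib.H23D.LDefs

/-!
# H23D, L1: distance along paths

Module C of H93B, see `H93B/PROOF.md` and `README.md`.
-/

set_option autoImplicit false

open Finset
open scoped Classical

namespace Pool.Agent.Lib.H23D

open Pool.Agent.Lib.Prob48
open Pool.Agent.Lib.H93B

variable {V : Type} [Fintype V] {G : SimpleGraph V} {k : ℕ} {φ : V → Option (Fin k)} {c : Cst}
  {r : ℝ}

/-- a location near `z` is in the ball of radius one -/
theorem l1_near {l : (V × Fin k) ⊕ (V × V)} {z : V × Fin k} (h : (dat c r G φ).near l z) :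
    lv l ∈ ball G 1 z.1 := by
  rcases h with h | ⟨f, hf, h⟩
  · rw [h]
    exact p7_self 1 z.1
  · rw [h]
    have h1 := (mem_J'.1 hf).2.1.2.1
    exact p7_adj (p7_self 0 z.1) h1.symm

/-- Induction on `d` (`H93D.Reach`): `near (loc i) z` means that `loc i = inl z` (distance `0`) or `loc i = inr f`
with `f ∈ J z` (`f.1` is adjacent to `z.1`, `mem_J'`); a step of the path is at most two (`p7_Adj`, `p7_trans`). -/
theorem l1 (hc : CstHyp c) {l : (V × Fin k) ⊕ (V × V)} {A : Finset (V × Fin k)} {n : ℕ}
    {z : V × Fin k} (h : H93D.Reach (dat c r G φ).Adj ((dat c r G φ).near l) A n z) :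
    lv l ∈ ball G (2 * n + 1) z.1 := by
  induction n generalizing z with
  | zero => exact l1_near h.2
  | succ n ih =>
    rcases h.2 with h1 | ⟨y, hy, h1⟩
    · exact p7_mono (by omega) _ (l1_near h1)
    · have h2 := ih h1
      have h3 : y.1 ∈ ball G 2 z.1 := p7_Adj hc hy
      have h4 := p7_trans h3 h2
      exact p7_mono (by omega) _ h4

end Pool.Agent.Lib.H23D
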