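import Pool.Agent.Lib.H23D.L1

/-!
# H23D, L2: locality of the selection

Module C of H93B, see `H93B/PROOF.md` and `README.md`.
-/

set_option autoImplicit false

open Finset
open scoped Classical

namespace Pool.Agent.Lib.H23D

open Pool.Agent.Lib.Prob48
open Pool.Agent.Lib.H93B

variable {V : Type} [Fintype V] {G : SimpleGraph V} {k : ℕ} {φ : V → Option (Fin k)} {c : Cst}
  {r : ℝ}

/-- For a finset `I` of coordinates let `u_I i = if i ∈ I then u' i else u i`. By induction on `I`
`z ∈ S u_I ↔ z ∈ S u`: in the step `insert i I` either `u i = u' i` and nothing changes, or `i` is not in the ball; if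
the membership of `z` changed, `hb.path` (the two functions differ only at `i`) and `l1` would put `i` into
the ball. `u_univ = u'`. -/
theorem l2 (hc : CstHyp c) {N Cw : ℝ} {nc d : ℕ} {s : Sel V (Fin k) (V × V)}
    (hb : SelBase (dat c r G φ) s N Cw nc d) (z : V × Fin k) (u u' : s.ι → s.Val)
    (h : ∀ i, lv (s.loc i) ∈ ball G (2 * d + 1) z.1 → u i = u' i) : z ∈ s.S u ↔ z ∈ s.S u' := by
  have key : ∀ I : Finset s.ι, (z ∈ s.S u ↔ z ∈ s.S (fun i => if i ∈ I then u' i else u i)) := by
    intro I
    induction I using Finset.induction_on with
    | empty =>
      have e : (fun i => if i ∈ (∅ : Finset s.ι) then u' i else u i) = u := by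
        funext i
        simp
      rw [e]
    | insert i I hi ih =>
      rw [ih]
      by_contra hcon
      have h1 := hb.path i (fun j => if j ∈ I then u' j else u j)
        (fun j => if j ∈ insert i I then u' j else u j) ?_ z hcon
      · have h2 := l1 hc h1
        have h3 := h i h2
        apply hcon
        have e : (fun j => if j ∈ I then u' j else u j) =
            (fun j => if j ∈ insert i I then u' j else u j) := by
          funext j
          by_cases hj : j = i
          · subst hj
            simp [hi, h3]
          · by_cases hjI : j ∈ I
            · simp [hjI]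
            · simp [hjI, hj]
        rw [e]
      · intro j hj
        by_cases hjI : j ∈ I
        · simp [hjI]
        · simp [hjI, hj]
  have h1 := key univ
  have e : (fun i => if i ∈ (univ : Finset s.ι) then u' i else u i) = u' := by
    funext i
    simp
  rw [e] at h1
  exact h1

end Pool.Agent.Lib.H23D
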