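import Pool.Agent.Lib.H23D.Toks
import Pool.Agent.Lib.H23D.P7

/-!
# H23D, L3: locality of the new colouring

Module C of H93B, see `H93B/PROOF.md` and `README.md`.
-/

set_option autoImplicit false

open Finset
open scoped Classical

namespace Pool.Agent.Lib.H23D

open Pool.Agent.Lib.Prob48
open Pool.Agent.Lib.H93B

variable {V : Type} [Fintype V] {G : SimpleGraph V} {k : ℕ} {φ : V → Option (Fin k)} {c : Cst}
  {r : ℝ}

theorem l3_Sp {S S' : Finset (V × Fin k)} (y : V × Fin k)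
    (h : ∀ z : V × Fin k, z.1 ∈ ball G 2 y.1 → (z ∈ S ↔ z ∈ S')) (hy : y ∈ Sp c r G φ S) :
    y ∈ Sp c r G φ S' := by
  unfold Sp at hy ⊢
  rw [mem_filter] at hy ⊢
  obtain ⟨hyS, v2, v3, v4, b, h2, h3, h4⟩ := hy
  have key : ∀ {u2 u3 u4 : V}, C4 c r G y.1 u2 u3 u4 →
      u2 ∈ ball G 2 y.1 ∧ u3 ∈ ball G 2 y.1 ∧ u4 ∈ ball G 2 y.1 := by
    intro u2 u3 u4 hC
    obtain ⟨a1, a2, a3, a4, _⟩ := hC
    have b2 : u2 ∈ ball G 1 y.1 := p7_adj (p7_self 0 y.1) a1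
    have b4 : u4 ∈ ball G 1 y.1 := p7_adj (p7_self 0 y.1) a4.symm
    exact ⟨p7_mono (by norm_num) _ b2, p7_adj b2 a2, p7_mono (by norm_num) _ b4⟩
  refine ⟨(h y (p7_self 2 y.1)).1 hyS, v2, v3, v4, b, ?_⟩
  rcases h4 with ⟨h5, h6⟩ | ⟨h5, h6, h7⟩
  · obtain ⟨k2, k3, _⟩ := key h6.1
    exact ⟨(h (v2, b) k2).1 h2, (h (v3, y.2) k3).1 h3, Or.inl ⟨h5, h6⟩⟩
  · obtain ⟨k2, k3, k4⟩ := key h7.1
    exact ⟨(h (v2, b) k2).1 h2, (h (v3, y.2) k3).1 h3, Or.inr ⟨(h (v4, b) k4).1 h5, h6, h7⟩⟩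

/-- Membership in `Sp S` of `y` involves only `y` and elements `(v2, b), (v3, y.2), (v4, b)` with `v2, v4` adjacent
to `y.1` and `v3` adjacent to `v2`. -/
theorem l3_Sm {S S' : Finset (V × Fin k)} (y : V × Fin k)
    (h : ∀ z : V × Fin k, z.1 ∈ ball G 2 y.1 → (z ∈ S ↔ z ∈ S')) :
    y ∈ Sm c r G φ S ↔ y ∈ Sm c r G φ S' := by
  rw [mem_Sm, mem_Sm]
  have h1 := h y (p7_self 2 y.1)
  constructor
  · rintro ⟨h2, h3⟩
    exact ⟨h1.1 h2, fun h4 => h3 (l3_Sp y (fun z hz => (h z hz).symm) h4)⟩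
  · rintro ⟨h2, h3⟩
    exact ⟨h1.2 h2, fun h4 => h3 (l3_Sp y h h4)⟩

theorem l3_Killed {S S' : Finset (V × Fin k)} (v : V)
    (h : ∀ z : V × Fin k, z.1 ∈ ball G 3 v → (z ∈ S ↔ z ∈ S'))
    (hk : Killed c r G φ (Sm c r G φ S) v) : Killed c r G φ (Sm c r G φ S') v := by
  obtain ⟨z, y, hy, hz⟩ := hk
  refine ⟨z, y, ?_, hz⟩
  have h1 : G.Adj v y.1 := (mem_J'.1 hz).2.1.2.1
  have h2 : y.1 ∈ ball G 1 v := p7_adj (p7_self 0 v) h1
  exact (l3_Sm y fun w hw => h w (p7_trans h2 hw)).1 hy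

/-- `newφ S v` depends on the predicate `(v, col) ∈ Sm S` and on `Killed (Sm S) v`, i.e. on the elements
`z ∈ Sm S` with `z.1` adjacent to `v` (`mem_J'`); `l3_Sm`. (The two predicates `fun col => (v, col) ∈ Sm S` are equal
by `funext`, so the choices are equal.) -/
theorem l3 {S S' : Finset (V × Fin k)} (v : V)
    (h : ∀ z : V × Fin k, z.1 ∈ ball G 3 v → (z ∈ S ↔ z ∈ S')) :
    newφ c r G φ S v = newφ c r G φ S' v := by
  have e1 : (fun col : Fin k => (v, col) ∈ Sm c r G φ S) = fun col => (v, col) ∈ Sm c r G φ S' := by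
    funext col
    exact propext (l3_Sm (v, col) fun z hz => h z (p7_mono (by norm_num) _ hz))
  have e2 : Killed c r G φ (Sm c r G φ S) v = Killed c r G φ (Sm c r G φ S') v :=
    propext ⟨l3_Killed v h, l3_Killed v fun z hz => (h z hz).symm⟩
  have e3 : ∀ (p q : Fin k → Prop) (hp : p = q) (K K' : Prop) (hK : K = K') (o : Option (Fin k))
      (i1 : Decidable (∃ col, p col)) (i2 : Decidable (∃ col, q col)) (i3 : Decidable K)
      (i4 : Decidable K'),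
      (@dite _ (∃ col, p col) i1 (fun h => some h.choose)
        (fun _ => @ite _ K i3 none o)) =
      (@dite _ (∃ col, q col) i2 (fun h => some h.choose)
        (fun _ => @ite _ K' i4 none o)) := by
    intro p q hp K K' hK o i1 i2 i3 i4
    subst hp
    subst hK
    have := Subsingleton.elim i1 i2
    subst this
    have := Subsingleton.elim i3 i4
    subst this
    rfl
  unfold newφ
  exact e3 _ _ e1 _ _ e2 _ _ _ _ _

end Pool.Agent.Lib.H23D
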