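import Pool.Agent.Lib.H23D.L2
import Pool.Agent.Lib.H23D.L3

/-!
# H23D, L4: locality of the good events

Module C of H93B, see `H93B/PROOF.md` and `README.md`.
-/

set_option autoImplicit false

open Finset
open scoped Classical

namespace Pool.Agent.Lib.H23D

open Pool.Agent.Lib.Prob48
open Pool.Agent.Lib.H93B

variable {V : Type} [Fintype V] {G : SimpleGraph V} {k : ℕ} {φ : V → Option (Fin k)} {c : Cst}
  {r : ℝ} {D : ℕ} {x C1 C3 L : ℝ}

theorem l4_tf {X T : Type} [Fintype T] (w : T → ℝ) (ρ : T → Finset X) (om1 om2 : X → ℝ)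
    (B : Finset X) (h : ∀ t, w t ≠ 0 → ∀ z ∈ ρ t, om1 z = om2 z) :
    tf w ρ om1 B = tf w ρ om2 B := by
  unfold tf
  refine sum_congr rfl fun t _ => ?_
  by_cases hw : w t = 0
  · simp [hw]
  · have e' : ∏ z ∈ ρ t \ B, om1 z = ∏ z ∈ ρ t \ B, om2 z :=
      prod_congr rfl fun z hz => h t hw z (mem_sdiff.1 hz).1
    rw [e']

theorem l4_mem_act {Q R M : Type} [Fintype Q] [Fintype R] (s : Sel Q R M) (u : s.ι → s.Val)
    (z : Q × R) : z ∈ s.act u ↔ ∃ i, s.loc i = Sum.inl z ∧ s.one (u i) := by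
  simp [Sel.act]

/-- `G1`, `G2`, `G3` at `v` only involve vertices of `ball G 3 v` (`G3`: `f.1 ∈ co v w'`, and `f.2` has codegree at
least `ρ0 r² > 0` with `f.1`, `p7_cd`; put `f.2 ∈ ball` into the filter), `G4` only the values of `om` at the
elements of the supports of tokens with `w ≠ 0`, whose vertices are in `ball G 10 (anc f)` (`hF.near`; terms with
`w = 0` vanish). -/
theorem l4_a (hc : CstHyp c) (hr : 1 ≤ r) {F : Fam V k} (hF : FamHyp r G F)
    {φ1 φ2 : V → Option (Fin k)} {om1 om2 : V × Fin k → ℝ} {x C1 C3 L : ℝ} (v : V)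
    (h1 : ∀ y ∈ ball G 3 v, φ1 y = φ2 y)
    (h2 : ∀ z : V × Fin k, z.1 ∈ ball G 10 v → om1 z = om2 z) :
    GoodAt c r G F φ1 om1 x C1 C3 L v ↔ GoodAt c r G F φ2 om2 x C1 C3 L v := by
  have hρ : 0 < c.ρ0 * r ^ 2 := by
    have := hc.ρ0_pos
    positivity
  have hm : ∀ y z : V, y ∈ ball G 3 v → z ∈ ball G 3 v → (Mono φ1 y z ↔ Mono φ2 y z) := by
    intro y z hy hz
    unfold Mono
    rw [h1 y hy, h1 z hz]
  have hnb : ∀ y ∈ nb G v, y ∈ ball G 1 v := fun y hy => p7_adj (p7_self 0 v) (mem_nb.1 hy)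
  have hb : ∀ y ∈ ball G 1 v, y ∈ ball G 3 v := fun y hy => p7_mono (by norm_num) v hy
  have e1 : G1 r G φ1 C1 v ↔ G1 r G φ2 C1 v := by
    unfold G1
    have e : (univ.filter fun f : V × V => f.1 ∈ nb G v ∧ f.2 ∈ nb G v ∧ Mono φ1 f.1 f.2) =
        univ.filter fun f : V × V => f.1 ∈ nb G v ∧ f.2 ∈ nb G v ∧ Mono φ2 f.1 f.2 := by
      ext f
      simp only [mem_filter, mem_univ, true_and]
      constructor
      · rintro ⟨a1, a2, a3⟩
        exact ⟨a1, a2, (hm _ _ (hb _ (hnb _ a1)) (hb _ (hnb _ a2))).1 a3⟩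
      · rintro ⟨a1, a2, a3⟩
        exact ⟨a1, a2, (hm _ _ (hb _ (hnb _ a1)) (hb _ (hnb _ a2))).2 a3⟩
    rw [e]
  have hco : ∀ w' y, y ∈ co G v w' → y ∈ ball G 1 v := fun w' y hy =>
    p7_adj (p7_self 0 v) (mem_co.1 hy).1
  have e2 : ∀ w', G2 G φ1 x v w' ↔ G2 G φ2 x v w' := by
    intro w'
    unfold G2
    have e : unc φ1 ∩ co G v w' = unc φ2 ∩ co G v w' := by
      ext y
      rw [mem_inter, mem_inter, mem_unc, mem_unc]
      constructor
      · rintro ⟨a1, a2⟩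
        exact ⟨by rw [← h1 y (hb _ (hco w' y a2))]; exact a1, a2⟩
      · rintro ⟨a1, a2⟩
        exact ⟨by rw [h1 y (hb _ (hco w' y a2))]; exact a1, a2⟩
    rw [e]
  have e3 : ∀ w', G3 c r G φ1 C3 v w' ↔ G3 c r G φ2 C3 v w' := by
    intro w'
    unfold G3
    have e : (univ.filter fun f : V × V =>
        f.1 ∈ co G v w' ∧ Mono φ1 f.1 f.2 ∧ c.ρ0 * r ^ 2 ≤ cd G f.1 f.2) =
        univ.filter fun f : V × V =>
          f.1 ∈ co G v w' ∧ Mono φ2 f.1 f.2 ∧ c.ρ0 * r ^ 2 ≤ cd G f.1 f.2 := by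
      ext f
      simp only [mem_filter, mem_univ, true_and]
      have key : f.1 ∈ co G v w' → c.ρ0 * r ^ 2 ≤ cd G f.1 f.2 →
          (Mono φ1 f.1 f.2 ↔ Mono φ2 f.1 f.2) := by
        intro a1 a2
        have a3 := hco w' _ a1
        have a4 : f.2 ∈ ball G (1 + 2) v := p7_trans a3 (p7_cd (lt_of_lt_of_le hρ a2))
        exact hm _ _ (hb _ a3) a4
      constructor
      · rintro ⟨a1, a2, a3⟩
        exact ⟨a1, (key a1 a3).1 a2, a3⟩
      · rintro ⟨a1, a2, a3⟩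
        exact ⟨a1, (key a1 a3).2 a2, a3⟩
    rw [e]
  have e4 : G4 F om1 L v ↔ G4 F om2 L v := by
    unfold G4
    refine forall_congr' fun f => forall_congr' fun hf => forall_congr' fun B => ?_
    have e : tf (F.w f) (F.ρ f) om1 B = tf (F.w f) (F.ρ f) om2 B := by
      refine l4_tf _ _ _ _ _ fun t hw z hz => ?_
      have a1 := hF.near f t hw z hz
      rw [hf] at a1
      exact h2 z a1
    rw [e]
  unfold GoodAt
  rw [e1, e4]
  constructor
  · rintro ⟨a1, a2, a3⟩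
    exact ⟨a1, fun w' b1 b2 => ⟨(e2 w').1 (a2 w' b1 b2).1, (e3 w').1 (a2 w' b1 b2).2⟩, a3⟩
  · rintro ⟨a1, a2, a3⟩
    exact ⟨a1, fun w' b1 b2 => ⟨(e2 w').2 (a2 w' b1 b2).1, (e3 w').2 (a2 w' b1 b2).2⟩, a3⟩

/-- `l4_a`, `l3`, `l2`: `y ∈ ball G 3 v`, `z.1 ∈ ball G 3 y`, coordinates in `ball G (2 d + 1) z.1`: altogether in
`ball G (2 d + 7) v`; `z ∈ act u` depends only on the coordinates located at `z`. -/
theorem l4_b (hc : CstHyp c) (hr : 1 ≤ r) {F : Fam V k} (hF : FamHyp r G F) {N Cw : ℝ}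
    {nc d : ℕ} {s : Sel V (Fin k) (V × V)} (hb : SelBase (dat c r G φ) s N Cw nc d)
    {om : V × Fin k → ℝ} {x' C1' C3' L' : ℝ} (v : V) :
    DependsOn (fun u => GoodAt c r G F (newφ c r G φ (s.S u)) (newom om (s.act u)) x' C1' C3' L' v)
      {i | lv (s.loc i) ∈ ball G (2 * d + 20) v} := by
  intro u u' huu
  refine propext (l4_a hc hr hF v ?_ ?_)
  · intro y hy
    refine l3 y fun z hz => ?_
    refine l2 hc hb z u u' fun i hi => huu i ?_
    have a1 := p7_trans (p7_trans hy hz) hi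
    exact p7_mono (by omega) v a1
  · intro z hz
    have e : z ∈ s.act u ↔ z ∈ s.act u' := by
      rw [l4_mem_act, l4_mem_act]
      have key : ∀ i, s.loc i = Sum.inl z → u i = u' i := by
        intro i hi
        refine huu i ?_
        show lv (s.loc i) ∈ ball G (2 * d + 20) v
        rw [hi]
        exact p7_mono (by omega) v hz
      constructor
      · rintro ⟨i, a1, a2⟩
        exact ⟨i, a1, by rw [← key i a1]; exact a2⟩
      · rintro ⟨i, a1, a2⟩
        exact ⟨i, a1, by rw [key i a1]; exact a2⟩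
    unfold newom
    by_cases hz' : z ∈ s.act u
    · rw [if_pos hz', if_pos (e.1 hz')]
    · rw [if_neg hz', if_neg fun h' => hz' (e.2 h')]

end Pool.Agent.Lib.H23D
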