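import Pool.Agent.Lib.H23D.F1
import Pool.Agent.Lib.H23D.P7

/-!
# H23D, L5A: the functionals at one anchor

Module C of H93B, see `H93B/PROOF.md` and `README.md`.
-/

set_option autoImplicit false

open Finset
open scoped Classical

namespace Pool.Agent.Lib.H23D

open Pool.Agent.Lib.Prob48
open Pool.Agent.Lib.H93B

variable {V : Type} [Fintype V] {G : SimpleGraph V} {k : ℕ} {φ : V → Option (Fin k)} {c : Cst}
  {r : ℝ} {D : ℕ} {x C1 C3 L : ℝ}

theorem l5a_tf {X T : Type} [Fintype T] (w : T → ℝ) (ρ : T → Finset X) (om : X → ℝ)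
    (B : Finset X) (b : ℝ) (hb : 0 ≤ b) (h : ¬ tf w ρ om B ≤ b) : ∃ t, w t ≠ 0 ∧ B ⊆ ρ t := by
  by_contra hcon
  apply h
  have h0 : tf w ρ om B = 0 := by
    unfold tf
    apply sum_eq_zero
    intro t _
    by_cases hw : w t = 0
    · rw [hw]
      split_ifs
      · rw [zero_mul]
      · rfl
    · rw [if_neg]
      intro hB
      exact hcon ⟨t, hw, hB⟩
  rw [h0]
  exact hb

/-- the number of subsets with at most `q` elements -/
theorem l5a_count {X : Type} (S : Finset X) (q : ℕ) :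
    (S.powerset.filter fun B => B.card ≤ q).card ≤ (S.card + 1) ^ q := by
  induction q with
  | zero =>
    have h1 : (S.powerset.filter fun B => B.card ≤ 0) ⊆ {∅} := by
      intro B hB
      have h2 := (Finset.mem_filter.mp hB).2
      rw [Finset.mem_singleton]
      exact Finset.card_eq_zero.mp (Nat.le_zero.mp h2)
    calc _ ≤ ({∅} : Finset (Finset X)).card := card_le_card h1
      _ = (S.card + 1) ^ 0 := by simp
  | succ q ih =>
    have hsub : (S.powerset.filter fun B => B.card ≤ q + 1) ⊆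
        Finset.image (fun p : Finset X × Option X =>
          (match p.2 with
          | none => p.1
          | some x => insert x p.1 : Finset X))
          ((S.powerset.filter fun B => B.card ≤ q) ×ˢ insertNone S) := by
      intro B hB
      obtain ⟨hBS, hBc⟩ := Finset.mem_filter.mp hB
      rw [mem_powerset] at hBS
      rw [mem_image]
      by_cases hq : B.card ≤ q
      · refine ⟨(B, none), ?_, rfl⟩
        rw [mem_product]
        exact ⟨Finset.mem_filter.mpr ⟨mem_powerset.mpr hBS, hq⟩, by simp⟩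
      · have hpos : 0 < B.card := by omega
        obtain ⟨y, hy⟩ := card_pos.mp hpos
        refine ⟨(B.erase y, some y), ?_, insert_erase hy⟩
        rw [mem_product]
        refine ⟨Finset.mem_filter.mpr ⟨mem_powerset.mpr ((erase_subset _ _).trans hBS), ?_⟩, ?_⟩
        · rw [card_erase_of_mem hy]
          omega
        · simpa using hBS hy
    calc (S.powerset.filter fun B => B.card ≤ q + 1).card
        ≤ _ := card_le_card hsub
      _ ≤ ((S.powerset.filter fun B => B.card ≤ q) ×ˢ insertNone S).card := card_image_le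
      _ = (S.powerset.filter fun B => B.card ≤ q).card * (S.card + 1) := by
          rw [card_product, card_insertNone]
      _ ≤ (S.card + 1) ^ q * (S.card + 1) := Nat.mul_le_mul_right _ ih
      _ = (S.card + 1) ^ (q + 1) := (pow_succ _ _).symm

/-- If `¬ tf B ≤ L Y β` then `tf B > 0`, so `B ⊆ ρ f t` for some `t` with `w f t ≠ 0`: `B` is a subset of
`X0 = {z | z.1 ∈ ball G 10 (anc f)}` with at most `6` elements. `|X0| ≤ k (D + 1) ^ 10 ≤ r ^ 44` for `r ≥ 2`
(`D + 1 = r ^ 3 + 1 ≤ r ^ 4`, `k ≤ r ^ 4`), there are at most `(|X0| + 1) ^ 6 ≤ (r ^ 45) ^ 6 = r ^ 270` such `B`, and at most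
`r ^ 20` functionals with `anc f = v` (`fam.anc_card`). Union bound with `f1` for the exponent `m + 290`. -/
theorem l5_a (c : Cst) (Cw : ℝ) (hCw : 0 ≤ Cw) (nc d m1 m2 : ℕ)
    (dom : ∀ (q r : ℕ) (C : ℝ), 1 ≤ C → ∃ C' : ℝ, 1 ≤ C' ∧ DomFor q r C C') (m : ℕ) : ∃ r0 : ℝ,
    ∀ (V : Type) [Fintype V] (k D : ℕ) (r Y : ℝ) (G : SimpleGraph V) (F : Fam V k)
      (φ : V → Option (Fin k)) (om : V × Fin k → ℝ) (x C1 C3 L : ℝ) (s : Sel V (Fin k) (V × V)),
      RS c Cw nc d m1 m2 r Y D G F φ om x C1 C3 L s → r0 ≤ r →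
      ∀ v : V, s.μ.P (fun u => ¬ G4 F (newom om (s.act u)) (L * Y) v) ≤ 1 / r ^ m := by
  obtain ⟨r1, hf1⟩ := f1 c Cw hCw nc d m1 m2 dom (m + 290)
  refine ⟨max r1 2, ?_⟩
  intro V _ k D r Y G F φ om x C1 C3 L s h hr v
  have hr2 : 2 ≤ r := (le_max_right _ _).trans hr
  have hrr1 : r1 ≤ r := (le_max_left _ _).trans hr
  have hr0 : 0 < r := by linarith
  have hL0 : 0 < L := by linarith [h.L_one]
  have hY0 : 0 < Y := by linarith [h.Y_one]
  obtain ⟨X0, hX0⟩ : ∃ X0 : Finset (V × Fin k), X0 = ball G 10 v ×ˢ univ := ⟨_, rfl⟩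
  obtain ⟨Bs, hBs⟩ : ∃ Bs : Finset (Finset (V × Fin k)),
      Bs = X0.powerset.filter (fun B => B.card ≤ 6) := ⟨_, rfl⟩
  obtain ⟨Fs, hFs⟩ : ∃ Fs : Finset F.Φ, Fs = univ.filter (fun f => F.anc f = v) := ⟨_, rfl⟩
  have hmono : ∀ u, ¬ G4 F (newom om (s.act u)) (L * Y) v → ∃ p ∈ Fs ×ˢ Bs,
      ¬ tf (F.w p.1) (F.ρ p.1) (newom om (s.act u)) p.2 ≤ L * Y * F.β p.1 := by
    intro u hu
    unfold G4 at hu
    simp only [not_forall] at hu
    obtain ⟨f, hf, B, hB⟩ := hu
    refine ⟨(f, B), ?_, hB⟩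
    have hβ := h.fam.β_pos f
    obtain ⟨t, ht, hBt⟩ := l5a_tf _ _ _ _ _ (by positivity) hB
    rw [mem_product, hFs, hBs]
    refine ⟨Finset.mem_filter.mpr ⟨mem_univ _, hf⟩, Finset.mem_filter.mpr ⟨?_, ?_⟩⟩
    · rw [mem_powerset]
      intro z hz
      have hz1 := h.fam.near f t ht z (hBt hz)
      rw [hf] at hz1
      rw [hX0, mem_product]
      exact ⟨hz1, mem_univ _⟩
    · exact (card_le_card hBt).trans (h.fam.card_le f t)
  have h1 := s.μ.P_exists_le (Fs ×ˢ Bs)
    (fun p u => ¬ tf (F.w p.1) (F.ρ p.1) (newom om (s.act u)) p.2 ≤ L * Y * F.β p.1)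
  refine (s.μ.P_mono hmono).trans (h1.trans ?_)
  have hk : (k : ℝ) ≤ r ^ 4 := by
    refine h.k_le.trans ?_
    have h2 := h.hc.ε_le
    have h3 : 0 < r ^ 4 := by positivity
    nlinarith
  have hD : (D : ℝ) + 1 ≤ r ^ 4 := by
    rw [← h.r_cube]
    have h3 : 1 ≤ r ^ 3 := one_le_pow₀ (by linarith)
    nlinarith
  have hX0c : (X0.card : ℝ) ≤ r ^ 44 := by
    have h2 := p7_card h.deg 10 v
    have h3 : ((ball G 10 v).card : ℝ) ≤ ((D : ℝ) + 1) ^ 10 := by exact_mod_cast h2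
    rw [hX0, card_product, card_univ, Fintype.card_fin, Nat.cast_mul]
    calc ((ball G 10 v).card : ℝ) * k ≤ (r ^ 4) ^ 10 * r ^ 4 := by
          apply mul_le_mul (h3.trans _) hk (by positivity) (by positivity)
          exact pow_le_pow_left₀ (by positivity) hD 10
      _ = r ^ 44 := by ring
  have hX1 : (X0.card : ℝ) + 1 ≤ r ^ 45 := by
    have h2 : 1 ≤ r ^ 44 := one_le_pow₀ (by linarith)
    have h3 : r ^ 45 = r * r ^ 44 := by ring
    rw [h3]
    nlinarith
  have hBc : (Bs.card : ℝ) ≤ r ^ 270 := by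
    have h2 : (Bs.card : ℝ) ≤ ((X0.card : ℝ) + 1) ^ 6 := by
      rw [hBs]
      exact_mod_cast l5a_count X0 6
    calc (Bs.card : ℝ) ≤ ((X0.card : ℝ) + 1) ^ 6 := h2
      _ ≤ (r ^ 45) ^ 6 := pow_le_pow_left₀ (by positivity) hX1 6
      _ = r ^ 270 := by rw [← pow_mul]
  have hFc : (Fs.card : ℝ) ≤ r ^ 20 := by
    rw [hFs]
    exact h.fam.anc_card v
  calc ∑ p ∈ Fs ×ˢ Bs, s.μ.P (fun u =>
        ¬ tf (F.w p.1) (F.ρ p.1) (newom om (s.act u)) p.2 ≤ L * Y * F.β p.1)
      ≤ ∑ p ∈ Fs ×ˢ Bs, 1 / r ^ (m + 290) := by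
        apply sum_le_sum
        intro p _
        exact hf1 V k D r Y G F φ om x C1 C3 L s h hrr1 p.1 p.2
    _ = (Fs.card : ℝ) * Bs.card * (1 / r ^ (m + 290)) := by
        rw [sum_const, card_product, nsmul_eq_mul, Nat.cast_mul]
    _ ≤ r ^ 20 * r ^ 270 * (1 / r ^ (m + 290)) := by
        apply mul_le_mul_of_nonneg_right _ (by positivity)
        exact mul_le_mul hFc hBc (by positivity) (by positivity)
    _ = 1 / r ^ m := by
        rw [← pow_add, pow_add r m 290]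
        field_simp

end Pool.Agent.Lib.H23D
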