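import Pool.Agent.Lib.H23D.I1
import Pool.Agent.Lib.H23D.I2
import Pool.Agent.Lib.H23D.I3
import Pool.Agent.Lib.H23D.L5A
import Pool.Agent.Lib.H23D.A1

/-!
# H23D, L5B: the probability that something is bad at v

Module C of H93B, see `H93B/PROOF.md` and `README.md`.
-/

set_option autoImplicit false

open Finset
open scoped Classical

namespace Pool.Agent.Lib.H23D

open Pool.Agent.Lib.Prob48
open Pool.Agent.Lib.H93B

variable {V : Type} [Fintype V] {G : SimpleGraph V} {k : ℕ} {φ : V → Option (Fin k)} {c : Cst}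
  {r : ℝ} {D : ℕ} {x C1 C3 L : ℝ}

/-- Union bound: `i1` for `v`; `i2`, `i3` for `v` and the at most `r ^ 6 / (ρ0 r²) ≤ r ^ 5` vertices `w'` with
`ρ0 r² ≤ cd v w'` (`a1_card`, `r ≥ 1 / ρ0`); `l5_a`. With the exponent `m + 6` in each:
`(1 + 2 r ^ 5 + 1) / r ^ (m + 6) ≤ 1 / r ^ m` for `r ≥ 4`. -/
theorem l5_b (c : Cst) (hc : CstHyp c) (Cw : ℝ) (hCw : 0 ≤ Cw) (nc d c0 m1 m2 : ℕ)
    (hconc : ConcFor c.K Cw c.j0 nc d c0) (hm : 100 * (c0 + m2 + 1) ≤ m1)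
    (dom : ∀ (q r : ℕ) (C : ℝ), 1 ≤ C → ∃ C' : ℝ, 1 ≤ C' ∧ DomFor q r C C') (m : ℕ) : ∃ r0 : ℝ,
    ∀ (V : Type) [Fintype V] (k D : ℕ) (r Y : ℝ) (G : SimpleGraph V) (F : Fam V k)
      (φ : V → Option (Fin k)) (om : V × Fin k → ℝ) (x C1 C3 L : ℝ) (s : Sel V (Fin k) (V × V)),
      RS c Cw nc d m1 m2 r Y D G F φ om x C1 C3 L s → r0 ≤ r →
      ∀ v : V, s.μ.P (fun u => ¬ GoodAt c r G F (newφ c r G φ (s.S u)) (newom om (s.act u))
        (x * (1 - c.ε * c.lam * c.a / 16)) (C1 + 4 * c.sig * c.a) (C3 + 4 * c.sig * c.a / c.ρ0)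
        (L * Y) v) ≤ 1 / r ^ m := by
  obtain ⟨q1, h1⟩ := i1 c hc Cw hCw nc d c0 m1 m2 hconc hm (m + 6)
  obtain ⟨q2, h2⟩ := i2 c hc Cw hCw nc d c0 m1 m2 hconc hm (m + 6)
  obtain ⟨q3, h3⟩ := i3 c hc Cw hCw nc d c0 m1 m2 hconc hm (m + 6)
  obtain ⟨q4, h4⟩ := l5_a c Cw hCw nc d m1 m2 dom (m + 6)
  refine ⟨max (max q1 q2) (max (max q3 q4) (max 4 (1 / c.ρ0))), ?_⟩
  intro V _ k D r Y G F φ om x C1 C3 L s hRS hr v
  have hr1 : q1 ≤ r := (le_max_left _ _).trans ((le_max_left _ _).trans hr)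
  have hr2 : q2 ≤ r := (le_max_right _ _).trans ((le_max_left _ _).trans hr)
  have hr' := (le_max_right (max q1 q2) (max (max q3 q4) (max 4 (1 / c.ρ0)))).trans hr
  have hr3 : q3 ≤ r := (le_max_left _ _).trans ((le_max_left _ _).trans hr')
  have hr4 : q4 ≤ r := (le_max_right _ _).trans ((le_max_left _ _).trans hr')
  have hr5 : 4 ≤ r := (le_max_left _ _).trans ((le_max_right _ _).trans hr')
  have hr6 : 1 / c.ρ0 ≤ r := (le_max_right _ _).trans ((le_max_right _ _).trans hr')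
  have hr0 : (0 : ℝ) < r := by linarith
  have hρ := hc.ρ0_pos
  obtain ⟨p, hp⟩ : ∃ p : ℝ, p = 1 / r ^ (m + 6) := ⟨_, rfl⟩
  have hp0 : 0 ≤ p := by rw [hp]; positivity
  have k1 := h1 V k D r Y G F φ om x C1 C3 L s hRS hr1 v
  have k2 := h2 V k D r Y G F φ om x C1 C3 L s hRS hr2 v
  have k3 := h3 V k D r Y G F φ om x C1 C3 L s hRS hr3 v
  have k4 := h4 V k D r Y G F φ om x C1 C3 L s hRS hr4 v
  rw [← hp] at k1 k2 k3 k4
  obtain ⟨W, hW⟩ : ∃ W : Finset V, W = univ.filter fun w' => v ≠ w' ∧ c.ρ0 * r ^ 2 ≤ cd G v w' :=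
    ⟨_, rfl⟩
  have hWcard : (W.card : ℝ) ≤ r ^ 5 := by
    have a1 := a1_card hRS.deg hRS.r_cube v (c.ρ0 * r ^ 2)
    have a2 : W.card ≤ (univ.filter fun w => c.ρ0 * r ^ 2 ≤ cd G v w).card := by
      rw [hW]
      refine card_le_card fun w hw => ?_
      rw [mem_filter] at hw ⊢
      exact ⟨hw.1, hw.2.2⟩
    have a3 : (W.card : ℝ) ≤ ((univ.filter fun w => c.ρ0 * r ^ 2 ≤ cd G v w).card : ℝ) := by
      exact_mod_cast a2
    have a4 : c.ρ0 * r ^ 2 * (W.card : ℝ) ≤ r ^ 6 :=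
      (mul_le_mul_of_nonneg_left a3 (by positivity)).trans a1
    have a5 : 1 ≤ c.ρ0 * r := by
      rw [div_le_iff₀ hρ] at hr6
      linarith
    have a6 : r * (W.card : ℝ) ≤ c.ρ0 * r ^ 2 * (W.card : ℝ) := by
      have a7 : r ≤ c.ρ0 * r ^ 2 := by nlinarith
      exact mul_le_mul_of_nonneg_right a7 (by positivity)
    have a8 : r * (W.card : ℝ) ≤ r * r ^ 5 := by
      calc r * (W.card : ℝ) ≤ r ^ 6 := a6.trans a4
        _ = r * r ^ 5 := by ring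
    exact le_of_mul_le_mul_left a8 hr0
  have hsub : s.μ.P (fun u => ¬ GoodAt c r G F (newφ c r G φ (s.S u)) (newom om (s.act u))
        (x * (1 - c.ε * c.lam * c.a / 16)) (C1 + 4 * c.sig * c.a) (C3 + 4 * c.sig * c.a / c.ρ0)
        (L * Y) v) ≤ s.μ.P (fun u => (¬ G1 r G (newφ c r G φ (s.S u)) (C1 + 4 * c.sig * c.a) v ∨
          ∃ w' ∈ W, (¬ G2 G (newφ c r G φ (s.S u)) (x * (1 - c.ε * c.lam * c.a / 16)) v w' ∨
            ¬ G3 c r G (newφ c r G φ (s.S u)) (C3 + 4 * c.sig * c.a / c.ρ0) v w')) ∨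
          ¬ G4 F (newom om (s.act u)) (L * Y) v) := by
    refine s.μ.P_mono fun u hu => ?_
    by_contra hcon
    rw [not_or, not_or, not_not, not_not] at hcon
    apply hu
    refine ⟨hcon.1.1, fun w' b1 b2 => ?_, hcon.2⟩
    have b3 : w' ∈ W := by
      rw [hW, mem_filter]
      exact ⟨mem_univ _, b1, b2⟩
    constructor
    · by_contra b4
      exact hcon.1.2 ⟨w', b3, Or.inl b4⟩
    · by_contra b4
      exact hcon.1.2 ⟨w', b3, Or.inr b4⟩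
  refine hsub.trans ?_
  have hor1 := s.μ.P_or_le (fun u => ¬ G1 r G (newφ c r G φ (s.S u)) (C1 + 4 * c.sig * c.a) v ∨
          ∃ w' ∈ W, (¬ G2 G (newφ c r G φ (s.S u)) (x * (1 - c.ε * c.lam * c.a / 16)) v w' ∨
            ¬ G3 c r G (newφ c r G φ (s.S u)) (C3 + 4 * c.sig * c.a / c.ρ0) v w'))
    (fun u => ¬ G4 F (newom om (s.act u)) (L * Y) v)
  have hor2 := s.μ.P_or_le (fun u => ¬ G1 r G (newφ c r G φ (s.S u)) (C1 + 4 * c.sig * c.a) v)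
    (fun u => ∃ w' ∈ W, (¬ G2 G (newφ c r G φ (s.S u)) (x * (1 - c.ε * c.lam * c.a / 16)) v w' ∨
            ¬ G3 c r G (newφ c r G φ (s.S u)) (C3 + 4 * c.sig * c.a / c.ρ0) v w'))
  have hex := s.μ.P_exists_le W
    (fun w' u => (¬ G2 G (newφ c r G φ (s.S u)) (x * (1 - c.ε * c.lam * c.a / 16)) v w' ∨
            ¬ G3 c r G (newφ c r G φ (s.S u)) (C3 + 4 * c.sig * c.a / c.ρ0) v w'))
  have hsum : ∑ w' ∈ W, s.μ.P
      (fun u => (¬ G2 G (newφ c r G φ (s.S u)) (x * (1 - c.ε * c.lam * c.a / 16)) v w' ∨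
            ¬ G3 c r G (newφ c r G φ (s.S u)) (C3 + 4 * c.sig * c.a / c.ρ0) v w')) ≤
      W.card * (2 * p) := by
    rw [← nsmul_eq_mul]
    refine sum_le_card_nsmul _ _ _ fun w' hw' => ?_
    rw [hW, mem_filter] at hw'
    refine (s.μ.P_or_le _ _).trans ?_
    have b1 := k2 w' hw'.2.1 hw'.2.2
    have b2 := k3 w' hw'.2.1 hw'.2.2
    linarith
  have hW2 : (W.card : ℝ) * (2 * p) ≤ r ^ 5 * (2 * p) :=
    mul_le_mul_of_nonneg_right hWcard (by linarith)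
  have hfin : (2 + 2 * r ^ 5) * p ≤ 1 / r ^ m := by
    rw [hp, mul_one_div, div_le_div_iff₀ (by positivity) (by positivity)]
    have b1 : 2 + 2 * r ^ 5 ≤ r ^ 6 := by
      have b2 : (1 : ℝ) ≤ r ^ 5 := one_le_pow₀ (by linarith)
      have b3 : r ^ 6 = r * r ^ 5 := by ring
      rw [b3]
      nlinarith
    have b4 : r ^ (m + 6) = r ^ 6 * r ^ m := by ring
    rw [b4, one_mul]
    exact mul_le_mul_of_nonneg_right b1 (by positivity)
  nlinarith [hor1, hor2, hex, hsum, hW2, hfin, k1, k4]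

end Pool.Agent.Lib.H23D
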