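import Pool.Agent.Lib.H23D.L4
import Pool.Agent.Lib.H23D.L5B

/-!
# H23D, L6: the local lemma

Module C of H93B, see `H93B/PROOF.md` and `README.md`.
-/

set_option autoImplicit false

open Finset
open scoped Classical

namespace Pool.Agent.Lib.H23D

open Pool.Agent.Lib.Prob48
open Pool.Agent.Lib.H93B

variable {V : Type} [Fintype V] {G : SimpleGraph V} {k : ℕ} {φ : V → Option (Fin k)} {c : Cst}
  {r : ℝ} {D : ℕ} {x C1 C3 L : ℝ}

/-- `Weights.lll_symm` for the events `A v = ¬ GoodAt ..` (`v : V`), with the coordinate sets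
`{i | lv (loc i) ∈ ball G (2 d + 20) v}` (`l4_b`), `p = 1 / r ^ (8 * (2 * d + 20) + 1)` (`l5_b`) and `(D + 1) ^ (2 * (2 * d + 20))`
for `d`: two of the sets meet only if `v' ∈ ball G (2 (2 d + 20)) v` (`p7_symm`, `p7_trans`, `p7_card`);
`4 p (D + 1) ^ (2 R) ≤ 4 (r ^ 4) ^ (2 R) / r ^ (8 R + 1) = 4 / r ≤ 1` (`D + 1 = r ^ 3 + 1 ≤ r ^ 4` for `r ≥ 2`). -/
theorem l6 (c : Cst) (hc : CstHyp c) (Cw : ℝ) (hCw : 0 ≤ Cw) (nc d c0 m1 m2 : ℕ)
    (hconc : ConcFor c.K Cw c.j0 nc d c0) (hm : 100 * (c0 + m2 + 1) ≤ m1)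
    (dom : ∀ (q r : ℕ) (C : ℝ), 1 ≤ C → ∃ C' : ℝ, 1 ≤ C' ∧ DomFor q r C C') : ∃ r0 : ℝ,
    ∀ (V : Type) [Fintype V] (k D : ℕ) (r Y : ℝ) (G : SimpleGraph V) (F : Fam V k)
      (φ : V → Option (Fin k)) (om : V × Fin k → ℝ) (x C1 C3 L : ℝ) (s : Sel V (Fin k) (V × V)),
      RS c Cw nc d m1 m2 r Y D G F φ om x C1 C3 L s → r0 ≤ r →
      ∃ u : s.ι → s.Val, ∀ v : V, GoodAt c r G F (newφ c r G φ (s.S u)) (newom om (s.act u))
        (x * (1 - c.ε * c.lam * c.a / 16)) (C1 + 4 * c.sig * c.a) (C3 + 4 * c.sig * c.a / c.ρ0)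
        (L * Y) v := by
  obtain ⟨r1, h1⟩ := l5_b c hc Cw hCw nc d c0 m1 m2 hconc hm dom (8 * (2 * d + 20) + 1)
  refine ⟨max r1 4, ?_⟩
  intro V _ k D r Y G F φ om x C1 C3 L s hRS hr
  have hr1 : r1 ≤ r := (le_max_left _ _).trans hr
  have hr4 : 4 ≤ r := (le_max_right _ _).trans hr
  have hr0 : (0 : ℝ) < r := by linarith
  obtain ⟨R, hR⟩ : ∃ R : ℕ, R = 2 * d + 20 := ⟨_, rfl⟩
  have hP := h1 V k D r Y G F φ om x C1 C3 L s hRS hr1
  rw [← hR] at hP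
  have hpow4 : (4 : ℝ) ≤ r ^ (8 * R + 1) := by
    calc (4 : ℝ) ≤ r := hr4
      _ = r ^ 1 := (pow_one r).symm
      _ ≤ r ^ (8 * R + 1) := pow_le_pow_right₀ (by linarith) (by omega)
  have hD : ((D : ℝ) + 1) ≤ r ^ 4 := by
    rw [← hRS.r_cube]
    have h2 : 0 < r ^ 3 := by positivity
    have h3 : (1 : ℝ) ≤ r ^ 3 := one_le_pow₀ (by linarith)
    nlinarith
  have hcon := s.μ.lll_symm (ι := V)
    (fun v u => ¬ GoodAt c r G F (newφ c r G φ (s.S u)) (newom om (s.act u))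
        (x * (1 - c.ε * c.lam * c.a / 16)) (C1 + 4 * c.sig * c.a) (C3 + 4 * c.sig * c.a / c.ρ0)
        (L * Y) v)
    (fun v => univ.filter fun i => lv (s.loc i) ∈ ball G R v) ?_ (1 / r ^ (8 * R + 1))
    ((D + 1) ^ (2 * R)) hP ?_ ?_ ?_
  · obtain ⟨u, hu⟩ := hcon
    exact ⟨u, fun v => not_not.1 (hu v)⟩
  · intro v
    have h2 := l4_b (φ := φ) hc hRS.r_one hRS.fam hRS.base (om := om)
      (x' := x * (1 - c.ε * c.lam * c.a / 16)) (C1' := C1 + 4 * c.sig * c.a)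
      (C3' := C3 + 4 * c.sig * c.a / c.ρ0) (L' := L * Y) v
    intro u u' huu
    have h3 := h2 (x := u) (y := u') fun i hi => huu i (by
      rw [mem_coe, mem_filter]
      rw [hR]
      exact ⟨mem_univ i, hi⟩)
    exact congrArg Not h3
  · rw [div_le_div_iff₀ (by positivity) (by norm_num)]
    linarith
  · push_cast
    have h2 : ((D : ℝ) + 1) ^ (2 * R) ≤ (r ^ 4) ^ (2 * R) :=
      pow_le_pow_left₀ (by positivity) hD _
    rw [← pow_mul] at h2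
    have h4 : 4 * (2 * R) = 8 * R := by ring
    rw [h4] at h2
    have h5 : 4 * (1 / r ^ (8 * R + 1)) * ((D : ℝ) + 1) ^ (2 * R) ≤
        4 * (1 / r ^ (8 * R + 1)) * r ^ (8 * R) :=
      mul_le_mul_of_nonneg_left h2 (by positivity)
    refine h5.trans ?_
    rw [pow_succ]
    have h6 : 4 * (1 / (r ^ (8 * R) * r)) * r ^ (8 * R) = 4 / r := by
      field_simp
    rw [h6, div_le_one hr0]
    exact hr4
  · intro v
    have h2 : {v' : V | v' ≠ v ∧ ¬ Disjoint (univ.filter fun i => lv (s.loc i) ∈ ball G R v)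
        (univ.filter fun i => lv (s.loc i) ∈ ball G R v')} ⊆ (ball G (2 * R) v : Set V) := by
      rintro v' ⟨_, h3⟩
      rw [not_disjoint_iff] at h3
      obtain ⟨i, hi, hi'⟩ := h3
      rw [mem_filter] at hi hi'
      have h4 := p7_trans hi.2 (p7_symm hi'.2)
      rw [mem_coe, two_mul]
      exact h4
    have h3 := Set.ncard_le_ncard h2 (finite_toSet _)
    rw [Set.ncard_coe_finset] at h3
    exact h3.trans (p7_card hRS.deg (2 * R) v)

end Pool.Agent.Lib.H23D
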