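import Pool.Agent.Lib.H23D.D7
import Pool.Agent.Lib.H23D.L0
import Pool.Agent.Lib.H23D.LDefs

/-!
# H23D, L7: the new state

Module C of H93B, see `H93B/PROOF.md` and `README.md`.
-/

set_option autoImplicit false

open Finset
open scoped Classical

namespace Pool.Agent.Lib.H23D

open Pool.Agent.Lib.Prob48
open Pool.Agent.Lib.H93B

variable {V : Type} [Fintype V] {G : SimpleGraph V} {k : ℕ} {φ : V → Option (Fin k)} {c : Cst}
  {r : ℝ} {D : ℕ} {x C1 C3 L : ℝ}

theorem l7_mem_act {Q R M : Type} [Fintype Q] [Fintype R] (s : Sel Q R M) (u : s.ι → s.Val)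
    (z : Q × R) : z ∈ s.act u ↔ ∃ i, s.loc i = Sum.inl z ∧ s.one (u i) := by
  simp [Sel.act]

/-- active elements are candidates -/
theorem l7_act {N Cw : ℝ} {nc d : ℕ} {s : Sel V (Fin k) (V × V)}
    (hb : SelBase (dat c r G φ) s N Cw nc d) (u : s.ι → s.Val) : s.act u ⊆ (dat c r G φ).H := by
  intro z hz
  obtain ⟨i, hi, _⟩ := (l7_mem_act s u z).1 hz
  exact hb.locH i z hi

theorem l7_S {N Cw : ℝ} {nc d : ℕ} {s : Sel V (Fin k) (V × V)}
    (hb : SelBase (dat c r G φ) s N Cw nc d) (u : s.ι → s.Val) : s.S u ⊆ (dat c r G φ).H :=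
  (hb.act u).trans (l7_act hb u)

/-- `v1`: `d2`; `v2`: `d7`; `v3`: `d3` (with `s.S u ⊆ act ⊆ H`: `base.act`, `base.locH`; `prob.noconf`; `rs_gs`). `i1`, `i2`, `i3`,
`o3`: `hu`. `o1`: `newom ≥ om`. `o2`: if `newφ v = some col` then `(v, col) ∈ Sm S ⊆ S ⊆ act` and `newom ≥ 0 + 1`, or
`φ v = some col` and `om ≥ 1` (`d1_iff`). -/
theorem l7 {Cw : ℝ} {nc d m1 m2 : ℕ} {Y : ℝ} {F : Fam V k} {om : V × Fin k → ℝ}
    {s : Sel V (Fin k) (V × V)} (h : RS c Cw nc d m1 m2 r Y D G F φ om x C1 C3 L s)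
    {x' C1' C3' L' : ℝ} (u : s.ι → s.Val)
    (hu : ∀ v : V, GoodAt c r G F (newφ c r G φ (s.S u)) (newom om (s.act u)) x' C1' C3' L' v) :
    IsState c r G F (newφ c r G φ (s.S u)) (newom om (s.act u)) x' C1' C3' L' := by
  have hg := rs_gs h
  have hS := l7_S h.base u
  have hno : ∀ y ∈ s.S u, ∀ z ∈ s.S u, ¬ Conf c r G φ y z := h.prob.noconf u
  have hge : ∀ z, om z ≤ newom om (s.act u) z := by
    intro z
    unfold newom
    by_cases hz : z ∈ s.act u
    · rw [if_pos hz]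
      linarith
    · rw [if_neg hz]
      linarith
  refine ⟨fun p q hpq col hp => d2 hg hS hno p q hpq col hp,
    fun p q t w h1 h2 h3 h4 h5 => d7 hg hS hno p q t w h1 h2 h3 h4 h5,
    fun y z hyz => d3 hg hS hno y z hyz, fun v => (hu v).1, ?_, ?_, ?_, ?_, ?_⟩
  · intro w w' hw hh
    exact ((hu w).2.1 w' hw hh).1
  · intro w w' hw hh
    exact ((hu w).2.1 w' hw hh).2
  · intro z
    exact (h.state.o1 z).trans (hge z)
  · intro v col hv
    rcases (d1_iff hS hno v col).1 hv with h1 | ⟨h1, _⟩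
    · have h2 : (v, col) ∈ s.act u := h.base.act u (Sm_sub _ h1)
      unfold newom
      rw [if_pos h2]
      have h3 : 0 ≤ om (v, col) := by
        refine le_trans ?_ (h.state.o1 (v, col))
        have := h.r_one
        positivity
      linarith
    · exact (h.state.o2 v col h1).trans (hge _)
  · intro f B
    exact (hu (F.anc f)).2.2 f rfl B

end Pool.Agent.Lib.H23D
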