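import Pool.Agent.Lib.H23D.L6
import Pool.Agent.Lib.H23D.L7
import Pool.Agent.Lib.H23D.C5

/-!
# H23D, L8: THE ROUND LEMMA

Module C of H93B, see `H93B/PROOF.md` and `README.md`.
-/

set_option autoImplicit false

open Finset
open scoped Classical

namespace Pool.Agent.Lib.H23D

open Pool.Agent.Lib.Prob48
open Pool.Agent.Lib.H93B

/-- `r0` = maximum of `l6`, `N1`, `1`. `SelHyp` of `dat c r G φ`: `c5` with `gs_of_state` (L0).
If `V` is empty: `φ' = φ`, `om' = om`, every clause is vacuous or trivial (`tf .. ≤ L β ≤ L Y β`).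
Otherwise `V × V` is nonempty and `hsel` (with `N = r ^ 4 ≥ N1`) gives `s`; `RS` holds; `l6`, `l7`. -/
theorem roundC (dom : ∀ (q r : ℕ) (C : ℝ), 1 ≤ C → ∃ C' : ℝ, 1 ≤ C' ∧ DomFor q r C C')
    (c : Cst) (hc : CstHyp c) (N1 Cw : ℝ) (nc d c0 : ℕ) (hCw : 0 ≤ Cw)
    (hsel : SelFor c.K c.Λ c.j0 c.a N1 Cw nc d) (hconc : ConcFor c.K Cw c.j0 nc d c0)
    (m1 m2 : ℕ) (hm : 100 * (c0 + m2 + 1) ≤ m1) : ∃ r0, RoundFor c m1 m2 r0 := by
  obtain ⟨r1, h1⟩ := l6 c hc Cw hCw nc d c0 m1 m2 hconc hm dom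
  refine ⟨max r1 (max N1 1), ?_⟩
  intro V _ k D r Y G F φ om x C1 C3 L hr hr3 hY hYr hL hLY hk hk' hdeg hF hst hx hx1 hC1 hC3 hC1m
    hC3m
  have hr1 : r1 ≤ r := (le_max_left _ _).trans hr
  have hrN : N1 ≤ r := (le_max_left _ _).trans ((le_max_right _ _).trans hr)
  have hr0 : 1 ≤ r := (le_max_right _ _).trans ((le_max_right _ _).trans hr)
  by_cases hV : Nonempty V
  · obtain ⟨v0⟩ := hV
    have hg := gs_of_state hc hr0 hr3 hk hk' hdeg hF hst hx hx1 hC1 hC3 hC1m hC3m hL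
    have hNr : N1 ≤ r ^ 4 := by
      refine hrN.trans ?_
      have h2 : r ^ 1 ≤ r ^ 4 := pow_le_pow_right₀ hr0 (by norm_num)
      simpa using h2
    have : Nonempty (V × V) := ⟨(v0, v0)⟩
    obtain ⟨s, hb, hp⟩ := hsel V (Fin k) (V × V) (dat c r G φ) (r ^ 4) hNr (c5 hg)
    have hRS : RS c Cw nc d m1 m2 r Y D G F φ om x C1 C3 L s :=
      ⟨hc, hr0, hr3, hY, hYr, hL, hLY, hk, hk', hdeg, hF, hst, hx, hx1, hC1, hC3, hC1m, hC3m, hb, hp⟩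
    obtain ⟨u, hu⟩ := h1 V k D r Y G F φ om x C1 C3 L s hRS hr1
    exact ⟨_, _, l7 hRS u hu⟩
  · refine ⟨φ, om, ⟨fun u => absurd ⟨u⟩ hV, fun u => absurd ⟨u⟩ hV, fun u => absurd ⟨u⟩ hV,
      fun u => absurd ⟨u⟩ hV, fun u => absurd ⟨u⟩ hV, fun u => absurd ⟨u⟩ hV,
      fun z => absurd ⟨z.1⟩ hV, fun u => absurd ⟨u⟩ hV, fun f B => ?_⟩⟩
    refine (hst.o3 f B).trans ?_
    have hβ := hF.β_pos f
    have h2 : 0 ≤ L * F.β f := by
      have : 0 ≤ L := by linarith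
      positivity
    nlinarith

end Pool.Agent.Lib.H23D
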