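/-
MP_273810_co, H25D (chunk P8): the list of bounces of a dying leaf of the surface of a polygon.
-/
import Mathlib
import Pool.Agent.Lib.H23D.Death
import Pool.Agent.Lib.H26D.Chord

namespace Pool.Agent.Lib.H23D

open Set Metric Filter Topology
open Pool.Agent.Lib.H42I (IsPolygon refl)
open Pool.Agent.H52W (cdet)
open Pool.Agent.Lib.H45Z
open Pool.Agent.Lib.H25D
open Pool.Agent.Lib.H25D.TSurf

/-- a billiard path without perpendicular hit (as `VPath`, with any end points) -/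
structure QPath {n : ℕ} (P : Set ℂ) (v : ZMod n → ℂ) (K : ℕ) (j : ℕ → ZMod n) (b D : ℕ → ℂ) (r : ℕ → ℝ) : Prop where
  pos : ∀ m ≤ K, 0 < r m
  step : ∀ m ≤ K, b (m + 1) = b m + (r m : ℂ) * D m
  fly : ∀ m ≤ K, openSegment ℝ (b m) (b (m + 1)) ⊆ interior P
  side : ∀ m, 1 ≤ m → m ≤ K → b m ∈ openSegment ℝ (v (j m)) (v (j m + 1))
  bounce : ∀ m, 1 ≤ m → m ≤ K → D m = refl (v (j m + 1) - v (j m)) (D (m - 1))
  nperp : ∀ m, 1 ≤ m → m ≤ K → D m ≠ - D (m - 1)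

/-- put a value in front of a sequence -/
def cns {α : Type*} (a : α) (f : ℕ → α) : ℕ → α
  | 0 => a
  | m + 1 => f m

theorem QPath.cons {n : ℕ} {P : Set ℂ} {v : ZMod n → ℂ} {K : ℕ} {j : ℕ → ZMod n} {b D : ℕ → ℂ} {r : ℕ → ℝ}
    (h : QPath P v K j b D r) {q V : ℂ} {i : ZMod n} {s : ℝ} (hs : 0 < s) (h1 : b 0 = q + (s : ℂ) * V)
    (h2 : openSegment ℝ q (b 0) ⊆ interior P) (h3 : b 0 ∈ openSegment ℝ (v i) (v (i + 1)))
    (h4 : D 0 = refl (v (i + 1) - v i) V) (h5 : D 0 ≠ -V) :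
    QPath P v (K + 1) (cns i (cns i fun m => j (m + 1))) (cns q b) (cns V D) (cns s r) := by
  refine ⟨?_, ?_, ?_, ?_, ?_, ?_⟩
  · rintro (_ | m) hm
    · exact hs
    · exact h.pos m (by omega)
  · rintro (_ | m) hm
    · exact h1
    · exact h.step m (by omega)
  · rintro (_ | m) hm
    · exact h2
    · exact h.fly m (by omega)
  · rintro (_ | _ | m) hm hm'
    · omega
    · exact h3
    · exact h.side (m + 1) (by omega) (by omega)
  · rintro (_ | _ | m) hm hm'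
    · omega
    · exact h4
    · exact h.bounce (m + 1) (by omega) (by omega)
  · rintro (_ | _ | m) hm hm'
    · omega
    · exact h5
    · exact h.nperp (m + 1) (by omega) (by omega)

section
variable {n N : ℕ} [NeZero N] {P : Set ℂ} {v : ZMod n → ℂ} {kap : ZMod n → ZMod N}

theorem cdet_fr_rf (hk : Par v kap) (i : ZMod n) (g : Fr N) (u : ℂ) :
    cdet (v (i + 1) - v i) (fr (rf kap i g) u) = - cdet (v (i + 1) - v i) (fr g u) := by
  have h1 := cdet_mir hk i (v i + fr g u)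
  rw [mir_add, mir_side hk i _ (left_mem_segment ℝ _ _), add_sub_cancel_left, add_sub_cancel_left] at h1
  exact h1

theorem fr_rf_refl (hk : Par v kap) (i : ZMod n) (hne : v (i + 1) - v i ≠ 0) (g : Fr N) (u : ℂ) :
    fr (rf kap i g) u = refl (v (i + 1) - v i) (fr g u) := by
  rw [fr_rf]
  unfold Pool.Agent.Lib.H42I.refl
  congr 1
  obtain ⟨r, hr⟩ := hk i
  have hr0 : (r : ℂ) ≠ 0 := by
    intro h0
    rw [hr, h0, zero_mul] at hne
    exact hne rfl
  rw [hr, map_mul, Complex.conj_ofReal, mul_div_mul_left _ _ hr0, E_conj]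
  have h2 : E (2 * kap i) = E (kap i) * E (kap i) := by
    rw [← E_add]
    congr 1
    ring
  have h3 : E (kap i) * E (-kap i) = 1 := by
    rw [← E_add, add_neg_cancel, E_zero]
  rw [eq_div_iff (E_ne_zero _), h2]
  linear_combination (E (kap i)) * h3

/-- what happens at a bounce -/
theorem bounce_local (hP : IsPolygon P v) (hk : Par v kap) {ϑ : ℂ} (hϑ : ‖ϑ‖ = 1) {y : SPt P v N} {i : ZMod n}
    (hy : y.p ∈ openSegment ℝ (v i) (v (i + 1))) {g : Fr N} {δ : ℝ} (hδ : 0 < δ)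
    (hpre : ∀ s ∈ Ioo 0 δ, y.p - (s : ℂ) * fr g ϑ ∈ interior P) (hg : y.g = if g.2 then rf kap i g else g) :
    ∀ s ∈ Ioo 0 (rho2 v y.p), (sadd hP hk y ((s : ℂ) * ϑ)).p ∈ interior P ∧ (sadd hP hk y ((s : ℂ) * ϑ)).g = rf kap i g ∧
      (sadd hP hk y ((s : ℂ) * ϑ)).p = y.p + (s : ℂ) * fr (rf kap i g) ϑ := by
  obtain ⟨hns, hpos, σ, hcut⟩ := ns_open hP hy
  have hnt : ∀ s : ℝ, ‖(s : ℂ) * ϑ‖ = |s| := fun s => by
    rw [norm_mul, hϑ, mul_one, Complex.norm_real, Real.norm_eq_abs]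
  have hy0 : cdet (v (i + 1) - v i) (y.p - v i) = 0 :=
    seg_cdet (openSegment_subset_segment _ _ _ hy) (left_mem_segment ℝ _ _)
  have hcd : ∀ (s : ℝ) (g' : Fr N), cdet (v (i + 1) - v i) (y.p + (s : ℂ) * fr g' ϑ - v i) = s * cdet (v (i + 1) - v i) (fr g' ϑ) := by
    intro s g'
    have e : y.p + (s : ℂ) * fr g' ϑ - v i = (y.p - v i) + (s : ℂ) * fr g' ϑ := by ring
    rw [e, cdet_add, hy0, cdet_real, zero_add]
  have hin : ∀ (s : ℝ) (g' : Fr N), |s| < rho2 v y.p → y.p + (s : ℂ) * fr g' ϑ ∈ ball y.p (rho2 v y.p) := by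
    intro s g' hs
    rw [mem_ball, dist_eq_norm, add_sub_cancel_left, ← fr_real, norm_fr, hnt]
    exact hs
  -- the sign
  have hsign : σ * cdet (v (i + 1) - v i) (fr g ϑ) < 0 := by
    set s := min δ (rho2 v y.p) / 2 with hs
    have hs0 : 0 < s := by
      have := lt_min hδ hpos
      linarith
    have hs1 : s < δ := by
      have := min_le_left δ (rho2 v y.p)
      linarith
    have hs2 : s < rho2 v y.p := by
      have := min_le_right δ (rho2 v y.p)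
      linarith
    have h1 := hpre s ⟨hs0, hs1⟩
    have e : y.p - (s : ℂ) * fr g ϑ = y.p + ((-s : ℝ) : ℂ) * fr g ϑ := by
      push_cast
      ring
    rw [e] at h1
    have h2 := hin (-s) g (by rw [abs_neg, abs_of_pos hs0]; exact hs2)
    have h3 := hcd (-s) g
    rcases hcut.zero_or (y.p + ((-s : ℝ) : ℂ) * fr g ϑ) with h4 | h4 | h4
    · rw [h3] at h4
      nlinarith
    · exact absurd h1 (hcut.side hP h2 h4).2.2
    · exact absurd (interior_subset h1) ((hcut.2 _ h2).2.2 h4)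
  intro s hs
  have hsr : |s| < rho2 v y.p := by rw [abs_of_pos hs.1]; exact hs.2
  have hsu : ‖(s : ℂ) * ϑ‖ < rho2 v y.p := by rw [hnt]; exact hsr
  have hw : y.p + (s : ℂ) * fr (rf kap i g) ϑ ∈ interior P := by
    refine (hcut.2 _ (hin s _ hsr)).1 ?_
    rw [hcd, cdet_fr_rf hk]
    have := mul_neg_of_pos_of_neg hs.1 hsign
    nlinarith
  have hp : (sadd hP hk y ((s : ℂ) * ϑ)).g = rf kap i g ∧
      (sadd hP hk y ((s : ℂ) * ϑ)).p = y.p + (s : ℂ) * fr (rf kap i g) ϑ := by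
    cases hb : g.2
    · rw [hb] at hg
      simp only [Bool.false_eq_true, if_false] at hg
      have hout : y.p + fr y.g ((s : ℂ) * ϑ) ∉ P := by
        rw [hg, fr_real]
        refine (hcut.2 _ (hin s _ hsr)).2.2 ?_
        rw [hcd]
        have := mul_neg_of_pos_of_neg hs.1 hsign
        nlinarith
      obtain ⟨h1, h2⟩ := sadd_out hP hk y _ hsu hout
      rw [hns, hg] at h1 h2
      rw [mir_side hk i _ (openSegment_subset_segment _ _ _ hy), fr_real] at h1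
      exact ⟨h2, h1⟩
    · rw [hb] at hg
      simp only [if_true] at hg
      have hi : y.p + fr y.g ((s : ℂ) * ϑ) ∈ interior P := by
        rw [hg, fr_real]
        exact hw
      obtain ⟨h1, h2⟩ := sadd_int hP hk y _ hsu hi
      rw [hg] at h1 h2
      rw [fr_real] at h1
      exact ⟨h2, h1⟩
  refine ⟨?_, hp.1, hp.2⟩
  rw [hp.2]
  exact hw

/-- the leg up to the next bounce -/
theorem next_bounce (hP : IsPolygon P v) (hk : Par v kap) {ϑ : ℂ} (hϑ : ‖ϑ‖ = 1) {x : SPt P v N} {τ : ℝ}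
    {z : ℝ → SPt P v N} (hz : ∀ t ∈ Ico (0 : ℝ) τ, (H25D.PS hP hk).Seg x ((t : ℂ) * ϑ) (z t)) {t₁ : ℝ} (ht₁ : t₁ ∈ Ico (0 : ℝ) τ)
    {q : ℂ} {g : Fr N} {δ : ℝ} (hδ : 0 < δ)
    (hst : ∀ t ∈ Ioo t₁ (t₁ + δ), t < τ → (z t).p ∈ interior P ∧ (z t).g = g ∧ (z t).p = q + ((t - t₁ : ℝ) : ℂ) * fr g ϑ) :
    ∃ t₂, t₁ < t₂ ∧ t₂ ≤ τ ∧
      (∀ t ∈ Ioo t₁ t₂, (z t).p ∈ interior P ∧ (z t).g = g ∧ (z t).p = q + ((t - t₁ : ℝ) : ℂ) * fr g ϑ) ∧
      (t₂ < τ → (z t₂).p ∉ interior P) := by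
  have hd : ∀ t ∈ Ico (0 : ℝ) τ, ∀ t' ∈ Ico (0 : ℝ) τ, ‖(z t').p - (z t).p‖ ≤ |t' - t| := by
    intro t ht t' ht'
    have h1 := seg_dist hP hk (path_seg hz ht ht')
    rwa [norm_mul, hϑ, mul_one, Complex.norm_real, Real.norm_eq_abs] at h1
  have hnt : ∀ s : ℝ, ‖(s : ℂ) * ϑ‖ = |s| := fun s => by
    rw [norm_mul, hϑ, mul_one, Complex.norm_real, Real.norm_eq_abs]
  set A : Set ℝ := {t | t₁ < t ∧ t ≤ τ ∧ ∀ t' ∈ Ioo t₁ t, (z t').p ∈ interior P} with hA
  have hbdd : BddAbove A := ⟨τ, fun t ht => ht.2.1⟩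
  set m₀ := min (t₁ + δ) τ with hm₀
  have hm1 : t₁ < m₀ := lt_min (by linarith) ht₁.2
  have hm0 : m₀ ∈ A := by
    refine ⟨hm1, min_le_right _ _, fun t' ht' => ?_⟩
    exact (hst t' ⟨ht'.1, ht'.2.trans_le (min_le_left _ _)⟩ (ht'.2.trans_le (min_le_right _ _))).1
  have hle : m₀ ≤ sSup A := le_csSup hbdd hm0
  have hτ2 : sSup A ≤ τ := csSup_le ⟨_, hm0⟩ fun t ht => ht.2.1
  have hin : ∀ t ∈ Ioo t₁ (sSup A), (z t).p ∈ interior P := by
    intro t ht
    obtain ⟨a, ha, hta⟩ := exists_lt_of_lt_csSup ⟨_, hm0⟩ ht.2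
    exact ha.2.2 t ⟨ht.1, hta⟩
  have hsub : ∀ t ∈ Ioo t₁ (sSup A), t ∈ Ico (0 : ℝ) τ := fun t ht => ⟨ht₁.1.trans ht.1.le, ht.2.trans_le hτ2⟩
  have hmid : (t₁ + m₀) / 2 ∈ Ioo t₁ (sSup A) := ⟨by linarith, by linarith⟩
  have hbase := hst ((t₁ + m₀) / 2) ⟨by linarith, by linarith [min_le_left (t₁ + δ) τ]⟩ (by linarith [min_le_right (t₁ + δ) τ])
  have hloc : ∀ t ∈ Ioo t₁ (sSup A), ∃ ε > 0, ∀ t' ∈ Ioo t₁ (sSup A), |t' - t| < ε →
      (z t').g = (z t).g ∧ (z t').p = (z t).p + ((t' - t : ℝ) : ℂ) * fr (z t).g ϑ := by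
    intro t ht
    obtain ⟨ε, hε, hε'⟩ := Metric.isOpen_iff.1 isOpen_interior _ (hin t ht)
    refine ⟨min ε (rho2 v (z t).p), lt_min hε (rho2_pos hP _ (z t).nv), fun t' ht' hlt => ?_⟩
    have h1 : z t' = sadd hP hk (z t) (((t' - t : ℝ) : ℂ) * ϑ) :=
      path_add hϑ hz (hsub t ht) (hsub t' ht') (hlt.trans_le (min_le_right _ _))
    rw [h1]
    obtain ⟨h2, h3⟩ := sadd_int hP hk (z t) (((t' - t : ℝ) : ℂ) * ϑ)
      (by rw [hnt]; exact hlt.trans_le (min_le_right _ _)) (hε' (by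
        rw [mem_ball, dist_eq_norm, add_sub_cancel_left, norm_fr, hnt]
        exact hlt.trans_le (min_le_left _ _)))
    rw [fr_real] at h2
    exact ⟨h3, h2⟩
  have hg : ∀ t ∈ Ioo t₁ (sSup A), (z t).g = g := by
    intro t ht
    rw [← hbase.2.1]
    refine const_on (f := fun t => (z t).g) isPreconnected_Ioo ?_ ht hmid
    intro t ht
    obtain ⟨ε, hε, h1⟩ := hloc t ht
    exact ⟨ε, hε, fun t' ht' hlt => (h1 t' ht' hlt).1⟩
  refine ⟨sSup A, hm1.trans_le hle, hτ2, fun t ht => ⟨hin t ht, hg t ht, ?_⟩, ?_⟩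
  · have h1 : (z t).p - (t : ℂ) * fr g ϑ = (z ((t₁ + m₀) / 2)).p - (((t₁ + m₀) / 2 : ℝ) : ℂ) * fr g ϑ := by
      refine const_on (f := fun t => (z t).p - (t : ℂ) * fr g ϑ) isPreconnected_Ioo ?_ ht hmid
      intro t ht
      obtain ⟨ε, hε, h1⟩ := hloc t ht
      refine ⟨ε, hε, fun t' ht' hlt => ?_⟩
      have h2 := (h1 t' ht' hlt).2
      rw [hg t ht] at h2
      show (z t').p - (t' : ℂ) * fr g ϑ = (z t).p - (t : ℂ) * fr g ϑ
      rw [h2]
      push_cast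
      ring
    have h2 := hbase.2.2
    rw [h2] at h1
    push_cast at h1 ⊢
    linear_combination h1
  · intro hlt hcon
    obtain ⟨ε, hε, hε'⟩ := Metric.isOpen_iff.1 isOpen_interior _ hcon
    have ht2 : sSup A ∈ Ico (0 : ℝ) τ := ⟨by linarith [ht₁.1], hlt⟩
    have h1 : min (sSup A + ε) τ ∈ A := by
      refine ⟨lt_min (by linarith) (by linarith), min_le_right _ _, fun t' ht' => ?_⟩
      rcases lt_trichotomy t' (sSup A) with h2 | h2 | h2
      · exact hin t' ⟨ht'.1, h2⟩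
      · rw [h2]; exact hcon
      · have h3 : t' < sSup A + ε := ht'.2.trans_le (min_le_left _ _)
        have h4 : t' < τ := ht'.2.trans_le (min_le_right _ _)
        refine hε' ?_
        rw [mem_ball, dist_eq_norm]
        refine (hd _ ht2 t' ⟨by linarith [ht2.1], h4⟩).trans_lt ?_
        rw [abs_of_pos (by linarith)]
        linarith
    have h2 := le_csSup hbdd h1
    have h3 : sSup A < min (sSup A + ε) τ := lt_min (by linarith) hlt
    linarith

theorem openSegment_step {q V : ℂ} {s : ℝ} (hs : 0 < s) {S : Set ℂ} (h : ∀ t ∈ Ioo 0 s, q + (t : ℂ) * V ∈ S) :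
    openSegment ℝ q (q + (s : ℂ) * V) ⊆ S := by
  rintro w ⟨a, b, ha, hb, hab, rfl⟩
  have e : a • q + b • (q + (s : ℂ) * V) = q + ((b * s : ℝ) : ℂ) * V := by
    have h1 : a = 1 - b := by linarith
    rw [h1]
    simp only [Complex.real_smul]
    push_cast
    ring
  rw [e]
  refine h _ ⟨mul_pos hb hs, ?_⟩
  have : b < 1 := by linarith
  nlinarith

/-- the legs of a dying leaf -/
theorem legs (hP : IsPolygon P v) (hk : Par v kap) {ϑ : ℂ} (hϑ : ‖ϑ‖ = 1) {x : SPt P v N} {τ : ℝ}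
    {z : ℝ → SPt P v N} (hz : ∀ t ∈ Ico (0 : ℝ) τ, (H25D.PS hP hk).Seg x ((t : ℂ) * ϑ) (z t)) {c : ZMod n} {g₀ : Fr N} {t₀ : ℝ}
    (ht₀ : t₀ ∈ Ico (0 : ℝ) τ)
    (hend : ∀ t ∈ Ico t₀ τ, (z t).p ∈ interior P ∧ (z t).g = g₀ ∧ (z t).p = v c - ((τ - t : ℝ) : ℂ) * fr g₀ ϑ)
    {ρ : ℝ} (hρ : 0 < ρ) (hrad : ∀ t ∈ Icc 0 t₀, ρ ≤ rho2 v (z t).p)
    (hnh : ∀ t ∈ Ico (0 : ℝ) τ, ∀ i, (z t).p ∈ openSegment ℝ (v i) (v (i + 1)) → fr (rf kap i (z t).g) ϑ ≠ - fr (z t).g ϑ) :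
    ∀ k : ℕ, ∀ t₁ ∈ Ico (0 : ℝ) τ, ∀ (q : ℂ) (g : Fr N), t₀ - t₁ ≤ k * ρ →
      (∀ t ∈ Ioo t₁ (t₁ + ρ), t < τ → (z t).p ∈ interior P ∧ (z t).g = g ∧ (z t).p = q + ((t - t₁ : ℝ) : ℂ) * fr g ϑ) →
      ∃ K j b D r, QPath P v K j b D r ∧ b 0 = q ∧ D 0 = fr g ϑ ∧ b (K + 1) = v c := by
  have hd : ∀ t ∈ Ico (0 : ℝ) τ, ∀ t' ∈ Ico (0 : ℝ) τ, ‖(z t').p - (z t).p‖ ≤ |t' - t| := by
    intro t ht t' ht'
    have h1 := seg_dist hP hk (path_seg hz ht ht')
    rwa [norm_mul, hϑ, mul_one, Complex.norm_real, Real.norm_eq_abs] at h1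
  have hnt : ∀ s : ℝ, ‖(s : ℂ) * ϑ‖ = |s| := fun s => by
    rw [norm_mul, hϑ, mul_one, Complex.norm_real, Real.norm_eq_abs]
  -- the last leg
  have hlast : ∀ t₁ ∈ Ico (0 : ℝ) τ, ∀ (q : ℂ) (g : Fr N),
      (∀ t ∈ Ioo t₁ τ, (z t).p ∈ interior P ∧ (z t).g = g ∧ (z t).p = q + ((t - t₁ : ℝ) : ℂ) * fr g ϑ) →
      ∃ K j b D r, QPath P v K j b D r ∧ b 0 = q ∧ D 0 = fr g ϑ ∧ b (K + 1) = v c := by
    intro t₁ ht₁ q g h3
    have h5 : q + ((τ - t₁ : ℝ) : ℂ) * fr g ϑ = v c := by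
      have hm1 : max t₀ t₁ < τ := max_lt ht₀.2 ht₁.2
      have hm2 := le_max_left t₀ t₁
      have hm3 := le_max_right t₀ t₁
      obtain ⟨h6, h7, h8⟩ := h3 ((max t₀ t₁ + τ) / 2) ⟨by linarith, by linarith⟩
      obtain ⟨h9, h10, h11⟩ := hend _ (⟨by linarith, by linarith⟩ : (max t₀ t₁ + τ) / 2 ∈ Ico t₀ τ)
      rw [h7] at h10
      rw [← h10, h8] at h11
      push_cast at h11 ⊢
      linear_combination h11
    refine ⟨0, fun _ => c, cns q fun _ => v c, fun _ => fr g ϑ, fun _ => τ - t₁, ⟨?_, ?_, ?_, ?_, ?_, ?_⟩, rfl, rfl, rfl⟩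
    · intro m hm
      linarith [ht₁.2]
    · intro m hm
      obtain rfl : m = 0 := by omega
      exact h5.symm
    · intro m hm
      obtain rfl : m = 0 := by omega
      show openSegment ℝ q (v c) ⊆ interior P
      rw [← h5]
      refine openSegment_step (by linarith [ht₁.2]) fun t ht => ?_
      have h6 := h3 (t₁ + t) ⟨by linarith [ht.1], by linarith [ht.2]⟩
      rw [add_sub_cancel_left] at h6
      rw [← h6.2.2]
      exact h6.1
    · intro m hm hm'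
      omega
    · intro m hm hm'
      omega
    · intro m hm hm'
      omega
  intro k
  induction k with
  | zero =>
    intro t₁ ht₁ q g hk0 hst
    obtain ⟨t₂, h1, h2, h3, h4⟩ := next_bounce hP hk hϑ hz ht₁ hρ hst
    have hτ2 : t₂ = τ := by
      by_contra hcon
      have h5 : t₂ < τ := lt_of_le_of_ne h2 hcon
      refine h4 h5 (hend t₂ ⟨?_, h5⟩).1
      rw [Nat.cast_zero, zero_mul] at hk0
      linarith
    subst hτ2
    exact hlast t₁ ht₁ q g h3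
  | succ k ih =>
    intro t₁ ht₁ q g hk0 hst
    obtain ⟨t₂, h1, h2, h3, h4⟩ := next_bounce hP hk hϑ hz ht₁ hρ hst
    rcases h2.eq_or_lt with h5 | h5
    · subst h5
      exact hlast t₁ ht₁ q g h3
    have hni := h4 h5
    have ht2 : t₂ ∈ Ico (0 : ℝ) τ := ⟨ht₁.1.trans h1.le, h5⟩
    have ht20 : t₂ < t₀ := by
      by_contra hcon
      exact hni (hend t₂ ⟨not_lt.1 hcon, h5⟩).1
    have ht21 : t₁ + ρ ≤ t₂ := by
      by_contra hcon
      exact hni (hst t₂ ⟨h1, not_le.1 hcon⟩ h5).1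
    -- the side
    have hfr : (z t₂).p ∈ frontier P := ⟨subset_closure (z t₂).mem, hni⟩
    rw [hP.frontier_eq] at hfr
    obtain ⟨i, hi⟩ := mem_iUnion.1 hfr
    have hio : (z t₂).p ∈ openSegment ℝ (v i) (v (i + 1)) :=
      mem_openSegment_of_ne_left_right ((z t₂).nv i).symm ((z t₂).nv (i + 1)).symm hi
    -- the position
    have hpos2 : (z t₂).p = q + ((t₂ - t₁ : ℝ) : ℂ) * fr g ϑ := by
      rw [← sub_eq_zero, ← norm_eq_zero]
      refine le_antisymm ?_ (norm_nonneg _)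
      apply le_of_forall_pos_le_add
      intro ε hε
      obtain ⟨t, ht, ht'⟩ : ∃ t ∈ Ioo t₁ t₂, t₂ - t < ε / 2 := by
        rcases le_total (t₂ - t₁) (ε / 4) with h6 | h6
        · exact ⟨(t₁ + t₂) / 2, ⟨by linarith, by linarith⟩, by linarith⟩
        · exact ⟨t₂ - ε / 4 / 2, ⟨by linarith, by linarith⟩, by linarith⟩
      have h6 := hd t ⟨ht₁.1.trans ht.1.le, ht.2.trans h5⟩ t₂ ht2
      rw [abs_of_pos (by linarith [ht.2])] at h6
      have h7 := (h3 t ht).2.2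
      have e : (z t₂).p - (q + ((t₂ - t₁ : ℝ) : ℂ) * fr g ϑ) = ((z t₂).p - (z t).p) + ((-(t₂ - t) : ℝ) : ℂ) * fr g ϑ := by
        rw [h7]
        push_cast
        ring
      rw [e]
      refine (norm_add_le _ _).trans ?_
      rw [← fr_real, norm_fr, hnt, abs_neg, abs_of_pos (by linarith [ht.2])]
      linarith
    have hpre : ∀ s ∈ Ioo 0 (t₂ - t₁), (z t₂).p - (s : ℂ) * fr g ϑ ∈ interior P := by
      intro s hs
      have h6 := h3 (t₂ - s) ⟨by linarith [hs.2], by linarith [hs.1]⟩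
      have e : (z t₂).p - (s : ℂ) * fr g ϑ = (z (t₂ - s)).p := by
        rw [h6.2.2, hpos2]
        push_cast
        ring
      rw [e]
      exact h6.1
    -- the frame at the bounce
    have hg2 : (z t₂).g = if g.2 then rf kap i g else g := by
      obtain ⟨hns, hpos, -, -⟩ := ns_open hP hio
      set s := min (t₂ - t₁) (rho2 v (z t₂).p / 2) / 2 with hs
      have hs0 : 0 < s := by
        have := lt_min (by linarith : 0 < t₂ - t₁) (by linarith : 0 < rho2 v (z t₂).p / 2)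
        linarith
      have hs1 : s < t₂ - t₁ := by
        have := min_le_left (t₂ - t₁) (rho2 v (z t₂).p / 2)
        linarith
      have hs2 : s < rho2 v (z t₂).p / 2 := by
        have := min_le_right (t₂ - t₁) (rho2 v (z t₂).p / 2)
        linarith
      have htm : t₂ - s ∈ Ico (0 : ℝ) τ := ⟨by linarith [ht₁.1], by linarith⟩
      obtain ⟨h6, h7, h8⟩ := h3 (t₂ - s) ⟨by linarith, by linarith⟩
      have h9 : rho2 v (z t₂).p ≤ rho2 v (z (t₂ - s)).p + s := by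
        have h10 := rho2_le_add hP.three_le v (z t₂).p (z (t₂ - s)).p
        have h11 := hd _ htm _ ht2
        have e : t₂ - (t₂ - s) = s := by ring
        rw [e, abs_of_pos hs0] at h11
        linarith
      have hsr : |t₂ - (t₂ - s)| < rho2 v (z (t₂ - s)).p := by
        have e : t₂ - (t₂ - s) = s := by ring
        rw [e, abs_of_pos hs0]
        linarith
      have h10 : z t₂ = sadd hP hk (z (t₂ - s)) (((t₂ - (t₂ - s) : ℝ) : ℂ) * ϑ) := path_add hϑ hz htm ht2 hsr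
      have hsu : ‖((t₂ - (t₂ - s) : ℝ) : ℂ) * ϑ‖ < rho2 v (z (t₂ - s)).p := by rw [hnt]; exact hsr
      have e2 : (z (t₂ - s)).p + fr (z (t₂ - s)).g (((t₂ - (t₂ - s) : ℝ) : ℂ) * ϑ) = (z t₂).p := by
        rw [h7, h8, hpos2, fr_real]
        push_cast
        ring
      have h11 := (sadd_side hP hk (z (t₂ - s)) _ hsu (by rw [e2]; exact (z t₂).mem) (by rw [e2]; exact hni)).2
      have h12 : ns v (z (t₂ - s)).p = i := by
        refine ns_eq hP.three_le v _ (x := (z t₂).p) ?_ hi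
        rw [← e2]
        exact ball_fr hsu
      rw [← h10, h7, h12] at h11
      exact h11
    have hloc := bounce_local hP hk hϑ hio (by linarith : 0 < t₂ - t₁) hpre hg2
    have hρ2 := hrad t₂ ⟨ht2.1, ht20.le⟩
    obtain ⟨K, j, b, D, r, hQ, hb0, hD0, hbK⟩ := ih t₂ ht2 (z t₂).p (rf kap i g) (by push_cast at hk0; linarith) (by
      intro t ht htτ
      have h6 := hloc (t - t₂) ⟨by linarith [ht.1], by linarith [ht.2]⟩
      have h7 : z t = sadd hP hk (z t₂) (((t - t₂ : ℝ) : ℂ) * ϑ) :=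
        path_add hϑ hz ht2 ⟨by linarith [ht.1, ht2.1], htτ⟩ (by
          rw [abs_of_pos (by linarith [ht.1])]
          show t - t₂ < rho2 v (z t₂).p
          linarith [ht.2])
      rw [← h7] at h6
      exact h6)
    refine ⟨K + 1, cns i (cns i fun m => j (m + 1)), cns q b, cns (fr g ϑ) D, cns (t₂ - t₁) r,
      hQ.cons (by linarith) (by rw [hb0]; exact hpos2) ?_ (by rw [hb0]; exact hio) ?_ ?_, rfl, rfl, ?_⟩
    · rw [hb0, hpos2]
      refine openSegment_step (by linarith) fun t ht => ?_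
      have h6 := h3 (t₁ + t) ⟨by linarith [ht.1], by linarith [ht.2]⟩
      rw [add_sub_cancel_left] at h6
      rw [← h6.2.2]
      exact h6.1
    · rw [hD0]
      exact fr_rf_refl hk i (sub_ne_zero.2 (Pool.Agent.H52W.side_ne_of_polygon hP i).symm) g ϑ
    · rw [hD0]
      have h6 := hnh t₂ ht2 i hio
      rw [hg2] at h6
      cases hb : g.2
      · rw [hb] at h6
        simpa using h6
      · rw [hb] at h6
        simp only [if_true, rf_rf] at h6
        intro h7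
        apply h6
        rw [h7, neg_neg]
    · exact hbK

end

end Pool.Agent.Lib.H23D
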