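import Pool.Agent.Lib.H23D.NBase

/-!
# H23D, N5R: rotation of structures with four sites

Module C of H93B, see `H93B/PROOF.md` and `README.md`.
-/

set_option autoImplicit false

open Finset
open scoped Classical

namespace Pool.Agent.Lib.H23D

open Pool.Agent.Lib.Prob48
open Pool.Agent.Lib.H93B

variable {V : Type} [Fintype V] {G : SimpleGraph V} {k : ℕ} {φ : V → Option (Fin k)} {c : Cst}
  {r : ℝ} {D : ℕ} {x C1 C3 L : ℝ}

/-- The rotation is a permutation of the tuples and preserves `P4` (`P4.rot`; the inverse is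
`rot.rot.rot`, `t.rot.rot.rot.rot = t` by `rfl`). -/
theorem n5r (A : Tup V k → Prop) :
    (univ.filter fun t : Tup V k => P4 c r G φ t ∧ A t.rot).card =
      (univ.filter fun t : Tup V k => P4 c r G φ t ∧ A t).card := by
  refine card_bij' (fun t _ => t.rot) (fun t _ => t.rot.rot.rot) ?_ ?_ ?_ ?_
  · intro t ht
    obtain ⟨h1, h2⟩ := (mem_filter.1 ht).2
    exact mem_filter.2 ⟨mem_univ _, P4.rot h1, h2⟩
  · intro t ht
    obtain ⟨h1, h2⟩ := (mem_filter.1 ht).2
    exact mem_filter.2 ⟨mem_univ _, P4.rot (P4.rot (P4.rot h1)), h2⟩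
  · intro t _
    rfl
  · intro t _
    rfl

end Pool.Agent.Lib.H23D
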