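import Pool.Agent.Lib.H23D.Toks

/-!
# H23D, NBase: counting lemmas
-/

set_option autoImplicit false

open Finset
open scoped Classical

namespace Pool.Agent.Lib.H23D

open Pool.Agent.Lib.Prob48
open Pool.Agent.Lib.H93B

/-- counting by fibres -/
theorem nb_fib {τ α β : Type} (S : Finset τ) (A : Finset α) (f : τ → α) (B : α → Finset β) (g : τ → β)
    (h1 : ∀ t ∈ S, f t ∈ A) (h2 : ∀ t ∈ S, g t ∈ B (f t))
    (h3 : ∀ t ∈ S, ∀ t' ∈ S, f t = f t' → g t = g t' → t = t') :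
    (S.card : ℝ) ≤ ∑ a ∈ A, ((B a).card : ℝ) := by
  have h4 : S.card ≤ (A.sigma B).card := by
    refine card_le_card_of_injOn (fun t => (⟨f t, g t⟩ : Σ _ : α, β)) ?_ ?_
    · intro t ht
      exact mem_sigma.2 ⟨h1 t ht, h2 t ht⟩
    · intro t ht t' ht' e
      have e' : (⟨f t, g t⟩ : Σ _ : α, β) = ⟨f t', g t'⟩ := e
      obtain ⟨e1, e2⟩ := Sigma.mk.inj_iff.1 e'
      exact h3 t ht t' ht' e1 (eq_of_heq e2)
  rw [card_sigma] at h4
  exact_mod_cast h4

theorem nb_inj {τ β : Type} (S : Finset τ) (B : Finset β) (g : τ → β) (h2 : ∀ t ∈ S, g t ∈ B)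
    (h3 : ∀ t ∈ S, ∀ t' ∈ S, g t = g t' → t = t') : (S.card : ℝ) ≤ (B.card : ℝ) := by
  exact_mod_cast card_le_card_of_injOn g h2 fun t ht t' ht' e => h3 t ht t' ht' e

/-- a sum of weights at most one -/
theorem nb_sum {τ : Type} [Fintype τ] (P Q : τ → Prop) [DecidablePred P] [DecidablePred Q] :
    (∑ t, if P t then (if Q t then (1 : ℝ) else 0) else 0) = ((univ.filter fun t => P t ∧ Q t).card : ℝ) := by
  rw [← nsmul_one, ← sum_const, sum_filter]
  refine sum_congr rfl fun t _ => ?_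
  by_cases h1 : P t
  · by_cases h2 : Q t
    · rw [if_pos h1, if_pos h2, if_pos ⟨h1, h2⟩]
    · rw [if_pos h1, if_neg h2, if_neg fun h => h2 h.2]
  · rw [if_neg h1, if_neg fun h => h1 h.1]

theorem nb_sum1 {τ : Type} [Fintype τ] (Q : τ → Prop) [DecidablePred Q] :
    (∑ t, if Q t then (1 : ℝ) else 0) = ((univ.filter fun t => Q t).card : ℝ) := by
  rw [← nsmul_one, ← sum_const, sum_filter]

theorem Tup.ext' {V : Type} {k : ℕ} {t t' : Tup V k} (h1 : t.v1 = t'.v1) (h2 : t.v2 = t'.v2) (h3 : t.v3 = t'.v3)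
    (h4 : t.v4 = t'.v4) (h5 : t.a = t'.a) (h6 : t.b = t'.b) : t = t' :=
  Prod.ext h1 (Prod.ext h2 (Prod.ext h3 (Prod.ext h4 (Prod.ext h5 h6))))

end Pool.Agent.Lib.H23D
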