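import Mathlib

/-!
# H23D, NCard: cardinalities of subsets of `Fin 2`, `Fin 3`, `Fin 4`
-/

set_option autoImplicit false

namespace Pool.Agent.Lib.H23D

theorem card2 (P : Finset (Fin 2)) : P.card = (if (0 : Fin 2) ∈ P then 1 else 0) + (if (1 : Fin 2) ∈ P then 1 else 0) := by
  revert P
  decide

theorem card3 (P : Finset (Fin 3)) : P.card = (if (0 : Fin 3) ∈ P then 1 else 0) + (if (1 : Fin 3) ∈ P then 1 else 0) +
    (if (2 : Fin 3) ∈ P then 1 else 0) := by
  revert P
  decide

theorem card4 (P : Finset (Fin 4)) : P.card = (if (0 : Fin 4) ∈ P then 1 else 0) + (if (1 : Fin 4) ∈ P then 1 else 0) +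
    (if (2 : Fin 4) ∈ P then 1 else 0) + (if (3 : Fin 4) ∈ P then 1 else 0) := by
  revert P
  decide

end Pool.Agent.Lib.H23D
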