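import Pool.Agent.Lib.H23D.N5A
import Pool.Agent.Lib.H23D.N5B
import Pool.Agent.Lib.H23D.N5R

/-!
# H23D, O5A: counts of structures with four sites, all positions

Module C of H93B, see `H93B/PROOF.md` and `README.md`.
-/

set_option autoImplicit false

open Finset
open scoped Classical

namespace Pool.Agent.Lib.H23D

open Pool.Agent.Lib.Prob48
open Pool.Agent.Lib.H93B

variable {V : Type} [Fintype V] {G : SimpleGraph V} {k : ℕ} {φ : V → Option (Fin k)} {c : Cst}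
  {r : ℝ} {D : ℕ} {x C1 C3 L : ℝ}

/-- the four sites -/
abbrev st4 (t : Tup V k) : Fin 4 → V × Fin k := ![t.s1, t.s2, t.s3, t.s4]

theorem o5_rot0 {A B : Tup V k → Prop} {X : ℝ} {i1 : DecidablePred fun t : Tup V k => P4 c r G φ t ∧ A t}
    {i2 : DecidablePred fun t : Tup V k => P4 c r G φ t ∧ B t}
    (h0 : ((@Finset.filter _ (fun t : Tup V k => P4 c r G φ t ∧ A t) i1 univ).card : ℝ) ≤ X)
    (hB : ∀ t, B t → A t) :
    ((@Finset.filter _ (fun t : Tup V k => P4 c r G φ t ∧ B t) i2 univ).card : ℝ) ≤ X := by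
  refine le_trans (Nat.cast_le.2 (card_le_card fun t ht => ?_)) h0
  obtain ⟨h2, h3⟩ := (mem_filter.1 ht).2
  exact mem_filter.2 ⟨mem_univ _, h2, hB t h3⟩

theorem o5_rot1 {A B : Tup V k → Prop} {X : ℝ} {i1 : DecidablePred fun t : Tup V k => P4 c r G φ t ∧ A t}
    {i2 : DecidablePred fun t : Tup V k => P4 c r G φ t ∧ B t}
    (h0 : ((@Finset.filter _ (fun t : Tup V k => P4 c r G φ t ∧ A t) i1 univ).card : ℝ) ≤ X)
    (hB : ∀ t, B t → A t.rot) :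
    ((@Finset.filter _ (fun t : Tup V k => P4 c r G φ t ∧ B t) i2 univ).card : ℝ) ≤ X := by
  have h1 : ((univ.filter fun t : Tup V k => P4 c r G φ t ∧ A t.rot).card : ℝ) ≤ X := by
    have h2 := n5r (c := c) (r := r) (G := G) (φ := φ) A
    refine (congrArg (fun n : ℕ => (n : ℝ)) h2).le.trans ?_
    exact o5_rot0 (A := A) (B := A) h0 fun t ht => ht
  exact o5_rot0 (A := fun t => A t.rot) h1 hB

theorem o5_rot2 {A B : Tup V k → Prop} {X : ℝ} {i1 : DecidablePred fun t : Tup V k => P4 c r G φ t ∧ A t}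
    {i2 : DecidablePred fun t : Tup V k => P4 c r G φ t ∧ B t}
    (h0 : ((@Finset.filter _ (fun t : Tup V k => P4 c r G φ t ∧ A t) i1 univ).card : ℝ) ≤ X)
    (hB : ∀ t, B t → A t.rot.rot) :
    ((@Finset.filter _ (fun t : Tup V k => P4 c r G φ t ∧ B t) i2 univ).card : ℝ) ≤ X := by
  have h1 : ((univ.filter fun t : Tup V k => P4 c r G φ t ∧ A t.rot).card : ℝ) ≤ X :=
    o5_rot1 (A := A) (B := fun t => A t.rot) h0 fun t ht => ht
  exact o5_rot1 (A := fun t => A t.rot) (B := B) h1 hB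

theorem o5_rot3 {A B : Tup V k → Prop} {X : ℝ} {i1 : DecidablePred fun t : Tup V k => P4 c r G φ t ∧ A t}
    {i2 : DecidablePred fun t : Tup V k => P4 c r G φ t ∧ B t}
    (h0 : ((@Finset.filter _ (fun t : Tup V k => P4 c r G φ t ∧ A t) i1 univ).card : ℝ) ≤ X)
    (hB : ∀ t, B t → A t.rot.rot.rot) :
    ((@Finset.filter _ (fun t : Tup V k => P4 c r G φ t ∧ B t) i2 univ).card : ℝ) ≤ X := by
  have h1 : ((univ.filter fun t : Tup V k => P4 c r G φ t ∧ A t.rot.rot).card : ℝ) ≤ X :=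
    o5_rot2 (A := A) (B := fun t => A t.rot.rot) h0 fun t ht => ht
  exact o5_rot1 (A := fun t => A t.rot.rot) (B := B) h1 hB

/-- rotation by `j` (`n5r`): `(t.rot)` has the sites `s2, s3, s4, s1`. -/
theorem o5_one (h : Gs c r D G φ x C1 C3 L) (j : Fin 4) (z : V × Fin k) :
    ((univ.filter fun t : Tup V k => P4 c r G φ t ∧ st4 t j = z).card : ℝ) ≤
      k * (c.K0 * r ^ 8) := by
  match j with
  | 0 => exact o5_rot0 (A := fun t => t.s1 = z) (B := fun t => st4 t 0 = z) (n5a h z) fun t (ht : t.s1 = z) => ht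
  | 1 => exact o5_rot1 (A := fun t => t.s1 = z) (B := fun t => st4 t 1 = z) (n5a h z) fun t (ht : t.s2 = z) => ht
  | 2 => exact o5_rot2 (A := fun t => t.s1 = z) (B := fun t => st4 t 2 = z) (n5a h z) fun t (ht : t.s3 = z) => ht
  | 3 => exact o5_rot3 (A := fun t => t.s1 = z) (B := fun t => st4 t 3 = z) (n5a h z) fun t (ht : t.s4 = z) => ht

theorem o5_opp (h : Gs c r D G φ x C1 C3 L) (j : Fin 4) (y z : V × Fin k) :
    ((univ.filter fun t : Tup V k => P4 c r G φ t ∧ st4 t j = y ∧ st4 t (j + 2) = z).card : ℝ) ≤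
      k * (c.K0 * r ^ 2) ^ 2 := by
  match j with
  | 0 => exact o5_rot0 (A := fun t => t.s1 = y ∧ t.s3 = z) (B := fun t => st4 t 0 = y ∧ st4 t (0 + 2) = z) (n5b h y z) fun t (ht : t.s1 = y ∧ t.s3 = z) => ht
  | 1 => exact o5_rot1 (A := fun t => t.s1 = y ∧ t.s3 = z) (B := fun t => st4 t 1 = y ∧ st4 t (1 + 2) = z) (n5b h y z) fun t (ht : t.s2 = y ∧ t.s4 = z) => ht
  | 2 => exact o5_rot2 (A := fun t => t.s1 = y ∧ t.s3 = z) (B := fun t => st4 t 2 = y ∧ st4 t (2 + 2) = z) (n5b h y z) fun t (ht : t.s3 = y ∧ t.s1 = z) => ht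
  | 3 => exact o5_rot3 (A := fun t => t.s1 = y ∧ t.s3 = z) (B := fun t => st4 t 3 = y ∧ st4 t (3 + 2) = z) (n5b h y z) fun t (ht : t.s4 = y ∧ t.s2 = z) => ht

theorem o5_adj (h : Gs c r D G φ x C1 C3 L) (j : Fin 4) (y z : V × Fin k) :
    ((univ.filter fun t : Tup V k => P4 c r G φ t ∧ st4 t j = y ∧ st4 t (j + 1) = z).card : ℝ) ≤
      r ^ 3 * (c.K0 * r ^ 2) := by
  match j with
  | 0 => exact o5_rot0 (A := fun t => t.s1 = y ∧ t.s2 = z) (B := fun t => st4 t 0 = y ∧ st4 t (0 + 1) = z) (n5c h y z) fun t (ht : t.s1 = y ∧ t.s2 = z) => ht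
  | 1 => exact o5_rot1 (A := fun t => t.s1 = y ∧ t.s2 = z) (B := fun t => st4 t 1 = y ∧ st4 t (1 + 1) = z) (n5c h y z) fun t (ht : t.s2 = y ∧ t.s3 = z) => ht
  | 2 => exact o5_rot2 (A := fun t => t.s1 = y ∧ t.s2 = z) (B := fun t => st4 t 2 = y ∧ st4 t (2 + 1) = z) (n5c h y z) fun t (ht : t.s3 = y ∧ t.s4 = z) => ht
  | 3 => exact o5_rot3 (A := fun t => t.s1 = y ∧ t.s2 = z) (B := fun t => st4 t 3 = y ∧ st4 t (3 + 1) = z) (n5c h y z) fun t (ht : t.s4 = y ∧ t.s1 = z) => ht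

theorem o5_three (h : Gs c r D G φ x C1 C3 L) (j : Fin 4) (y z u : V × Fin k) :
    ((univ.filter fun t : Tup V k => P4 c r G φ t ∧ st4 t j = y ∧ st4 t (j + 1) = z ∧
      st4 t (j + 2) = u).card : ℝ) ≤ c.K0 * r ^ 2 := by
  match j with
  | 0 => exact o5_rot0 (A := fun t => t.s1 = y ∧ t.s2 = z ∧ t.s3 = u) (B := fun t => st4 t 0 = y ∧ st4 t (0 + 1) = z ∧ st4 t (0 + 2) = u) (n5d h y z u) fun t (ht : t.s1 = y ∧ t.s2 = z ∧ t.s3 = u) => ht
  | 1 => exact o5_rot1 (A := fun t => t.s1 = y ∧ t.s2 = z ∧ t.s3 = u) (B := fun t => st4 t 1 = y ∧ st4 t (1 + 1) = z ∧ st4 t (1 + 2) = u) (n5d h y z u) fun t (ht : t.s2 = y ∧ t.s3 = z ∧ t.s4 = u) => ht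
  | 2 => exact o5_rot2 (A := fun t => t.s1 = y ∧ t.s2 = z ∧ t.s3 = u) (B := fun t => st4 t 2 = y ∧ st4 t (2 + 1) = z ∧ st4 t (2 + 2) = u) (n5d h y z u) fun t (ht : t.s3 = y ∧ t.s4 = z ∧ t.s1 = u) => ht
  | 3 => exact o5_rot3 (A := fun t => t.s1 = y ∧ t.s2 = z ∧ t.s3 = u) (B := fun t => st4 t 3 = y ∧ st4 t (3 + 1) = z ∧ st4 t (3 + 2) = u) (n5d h y z u) fun t (ht : t.s4 = y ∧ t.s1 = z ∧ t.s2 = u) => ht

end Pool.Agent.Lib.H23D
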