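import Pool.Agent.Lib.H23D.Toks

/-!
# H23D, P1: probability that given elements are active

Module C of H93B, see `H93B/PROOF.md` and `README.md`.
-/

set_option autoImplicit false

open Finset
open scoped Classical

namespace Pool.Agent.Lib.H23D

open Pool.Agent.Lib.Prob48
open Pool.Agent.Lib.H93B

variable {V : Type} [Fintype V] {G : SimpleGraph V} {k : ℕ} {φ : V → Option (Fin k)} {c : Cst}
  {r : ℝ} {D : ℕ} {x C1 C3 L : ℝ}

variable {Q R M : Type} [Fintype Q] [Fintype R] [Fintype M] {DD : SelData Q R M} {s : Sel Q R M}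
  {N Cw a lam sig kill : ℝ} {nc d : ℕ}


theorem p1_mem (v : s.ι → s.Val) (z : Q × R) :
    z ∈ s.act v ↔ ∃ i, s.loc i = Sum.inl z ∧ s.one (v i) := by
  unfold Sel.act
  rw [Finset.mem_filter]
  exact ⟨fun h => h.2, fun h => ⟨Finset.mem_univ _, h⟩⟩

theorem p1_dep (z : Q × R) : DependsOn (fun v => z ∈ s.act v)
    ((Finset.univ.filter fun i => s.loc i = Sum.inl z : Finset s.ι) : Set s.ι) := by
  intro v v' h
  simp only [eq_iff_iff]
  rw [p1_mem, p1_mem]
  refine exists_congr fun i => and_congr_right fun hi => ?_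
  have h1 : v i = v' i := h i (by simp [hi])
  rw [h1]

theorem p1_dep' (Mk : Finset (Q × R)) : DependsOn (fun v => Mk ⊆ s.act v)
    {i | ∃ z ∈ Mk, s.loc i = Sum.inl z} := by
  intro v v' h
  simp only [eq_iff_iff]
  have h1 : ∀ z ∈ Mk, (z ∈ s.act v ↔ z ∈ s.act v') := by
    intro z hz
    rw [p1_mem, p1_mem]
    refine exists_congr fun i => and_congr_right fun hi => ?_
    have h1 : v i = v' i := h i ⟨z, hz, hi⟩
    rw [h1]
  exact ⟨fun h2 z hz => (h1 z hz).1 (h2 hz), fun h2 z hz => (h1 z hz).2 (h2 hz)⟩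

/-- marginal of one coordinate -/
theorem p1_marg {ι : Type} [Fintype ι] [DecidableEq ι] {α : ι → Type} [∀ i, Fintype (α i)]
    (μ : Weights α) (i : ι) (A : α i → Prop) :
    μ.P (fun ω => A (ω i)) = ∑ a, if A a then μ.w i a else 0 := by
  unfold Weights.P
  rw [← μ.E_avg i]
  have h1 : μ.avg i (fun ω => if A (ω i) then (1 : ℝ) else 0) =
      fun _ => ∑ a, if A a then μ.w i a else 0 := by
    funext ω
    unfold Weights.avg
    refine Finset.sum_congr rfl fun a _ => ?_
    simp only [Function.update_self]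
    split_ifs <;> simp
  rw [h1, μ.E_const]

theorem p1_one (hb : SelBase DD s N Cw nc d) (z : Q × R) :
    s.μ.P (fun v => z ∈ s.act v) ≤ Cw / N := by
  refine le_trans ?_ (hb.rate z)
  have h1 : s.μ.P (fun v => z ∈ s.act v) ≤
      s.μ.P (fun v => ∃ i ∈ univ.filter (fun i => s.loc i = Sum.inl z), s.one (v i)) := by
    refine s.μ.P_mono fun v hv => ?_
    obtain ⟨i, hi, hv⟩ := (p1_mem v z).1 hv
    exact ⟨i, Finset.mem_filter.2 ⟨Finset.mem_univ _, hi⟩, hv⟩
  refine h1.trans ((s.μ.P_exists_le _ fun i v => s.one (v i)).trans ?_)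
  refine Finset.sum_le_sum fun i _ => ?_
  rw [p1_marg s.μ i s.one, Finset.sum_filter]

/-- Induction on `Mk`. For `insert z Mk'`: the event `z ∈ act` depends only on the coordinates located at `z`
(`DependsOn` on the finset `{i | loc i = inl z}`), the event `Mk' ⊆ act` only on the coordinates located at
elements of `Mk'`: independent (`Weights.P_and_of_dependsOn`). `P(z ∈ act) ≤ ∑_(i : loc i = inl z) P(one (v i))`
(union bound) and `P(one (v i)) = ∑_(b : one b) μ.w i b` (`Weights.E_avg`: the average over the coordinate `i`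
of a function of the coordinate `i` is constant; `E_const`); so at most `Cw / N` by `hb.rate`. -/
theorem p1 (hb : SelBase DD s N Cw nc d) (hN : 0 < N) (hC : 0 ≤ Cw) (Mk : Finset (Q × R)) :
    s.μ.P (fun v => Mk ⊆ s.act v) ≤ (Cw / N) ^ Mk.card := by
  have hcn : 0 ≤ Cw / N := div_nonneg hC hN.le
  induction Mk using Finset.induction_on with
  | empty =>
    rw [Finset.card_empty, pow_zero]
    exact s.μ.P_le_one _
  | insert z Mk hz ih =>
    have h1 : s.μ.P (fun v => insert z Mk ⊆ s.act v) =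
        s.μ.P (fun v => z ∈ s.act v ∧ Mk ⊆ s.act v) := by
      refine s.μ.P_congr fun v => ?_
      rw [Finset.insert_subset_iff]
    rw [h1, s.μ.P_and_of_dependsOn (Finset.univ.filter fun i => s.loc i = Sum.inl z)
      {i | ∃ y ∈ Mk, s.loc i = Sum.inl y} ?_ (p1_dep z) (p1_dep' Mk),
      Finset.card_insert_of_notMem hz, pow_succ']
    · exact mul_le_mul (p1_one hb z) ih (s.μ.P_nonneg _) hcn
    · rintro i hi ⟨y, hy, hiy⟩
      rw [Finset.mem_filter] at hi
      rw [hi.2] at hiy
      have h2 : z = y := by simpa using hiy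
      exact hz (h2 ▸ hy)

end Pool.Agent.Lib.H23D
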