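import Pool.Agent.Lib.H23D.Toks

/-!
# H23D, P4: Lipschitz properties

Module C of H93B, see `H93B/PROOF.md` and `README.md`.
-/

set_option autoImplicit false

open Finset
open scoped Classical

namespace Pool.Agent.Lib.H23D

open Pool.Agent.Lib.Prob48
open Pool.Agent.Lib.H93B

variable {V : Type} [Fintype V] {G : SimpleGraph V} {k : ℕ} {φ : V → Option (Fin k)} {c : Cst}
  {r : ℝ} {D : ℕ} {x C1 C3 L : ℝ}

/-- A token contributes to `st S - st S'` only if `ρ t` is contained in exactly one of `S`, `S'`; then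
`ρ t ⊆ S ∪ S'` and some element of `ρ t` is in the symmetric difference. -/
theorem p4_st {X T : Type} [Fintype T] (w : T → ℝ) (ρ : T → Finset X) (hw : ∀ t, 0 ≤ w t) :
    Lip w ρ (st w ρ) := by
  intro S S'
  unfold st
  rw [← Finset.sum_sub_distrib]
  refine (Finset.abs_sum_le_sum_abs _ _).trans (Finset.sum_le_sum fun t _ => ?_)
  by_cases h1 : ρ t ⊆ S <;> by_cases h2 : ρ t ⊆ S'
  · rw [if_pos h1, if_pos h2, sub_self, abs_zero]
    split_ifs
    · exact hw t
    · exact le_rfl
  · rw [if_pos h1, if_neg h2, sub_zero, abs_of_nonneg (hw t), if_pos]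
    refine ⟨h1.trans Finset.subset_union_left, ?_⟩
    rw [Finset.not_subset] at h2
    obtain ⟨x, hx, hx'⟩ := h2
    exact ⟨x, hx, Finset.mem_symmDiff.2 (Or.inl ⟨h1 hx, hx'⟩)⟩
  · rw [if_neg h1, if_pos h2, zero_sub, abs_neg, abs_of_nonneg (hw t), if_pos]
    refine ⟨h2.trans Finset.subset_union_right, ?_⟩
    rw [Finset.not_subset] at h1
    obtain ⟨x, hx, hx'⟩ := h1
    exact ⟨x, hx, Finset.mem_symmDiff.2 (Or.inr ⟨h2 hx, hx'⟩)⟩
  · rw [if_neg h1, if_neg h2, sub_zero, abs_zero]
    split_ifs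
    · exact hw t
    · exact le_rfl

/-- The label `f` contributes to the difference only if it is hit by exactly one of the two sets, so there is
an element `z` of the symmetric difference with `z ∈ H`, `f ∈ J z`; charge `w f` to this `z`
(`∑_z ∑_(f ∈ J z) w f` over the `z ∈ H` in the symmetric difference). -/
theorem p4_lab {X M : Type} [Fintype X] [Fintype M] (J : X → Finset M) (H : Finset X) (w : M → ℝ)
    (hw : ∀ f, 0 ≤ w f) :
    Lip (fun z : X => if z ∈ H then ∑ f ∈ J z, w f else 0) (fun z => {z})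
      (fun S => labZ J w (S ∩ H)) := by
  intro S S'
  simp only [labZ]
  rw [← Finset.sum_sub_distrib]
  -- the right hand side
  have h0 : (∑ z : X, if ({z} : Finset X) ⊆ S ∪ S' ∧ ∃ x ∈ ({z} : Finset X), x ∈ symmDiff S S' then
      (if z ∈ H then ∑ f ∈ J z, w f else 0) else 0) =
      ∑ f, w f * (((symmDiff S S' ∩ H).filter fun z => f ∈ J z).card : ℝ) := by
    have h1 : ∀ z : X, (if ({z} : Finset X) ⊆ S ∪ S' ∧ ∃ x ∈ ({z} : Finset X), x ∈ symmDiff S S' then
        (if z ∈ H then ∑ f ∈ J z, w f else 0) else 0) =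
        ∑ f, if z ∈ symmDiff S S' ∩ H ∧ f ∈ J z then w f else 0 := by
      intro z
      by_cases hz : z ∈ symmDiff S S'
      · rw [if_pos]
        · by_cases hz' : z ∈ H
          · rw [if_pos hz']
            have : ∀ f, (z ∈ symmDiff S S' ∩ H ∧ f ∈ J z) ↔ f ∈ J z := by
              intro f
              simp [hz, hz']
            simp only [this]
            rw [Finset.sum_ite_mem, Finset.univ_inter]
          · rw [if_neg hz']
            symm
            refine Finset.sum_eq_zero fun f _ => ?_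
            rw [if_neg]
            simp [hz']
        · refine ⟨?_, z, Finset.mem_singleton_self z, hz⟩
          rw [Finset.singleton_subset_iff, Finset.mem_union]
          rw [Finset.mem_symmDiff] at hz
          tauto
      · rw [if_neg]
        · symm
          refine Finset.sum_eq_zero fun f _ => ?_
          rw [if_neg]
          rw [Finset.mem_inter]
          tauto
        · rintro ⟨_, x, hx, hx'⟩
          rw [Finset.mem_singleton] at hx
          exact hz (hx ▸ hx')
    simp only [h1]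
    rw [Finset.sum_comm]
    refine Finset.sum_congr rfl fun f _ => ?_
    rw [← Finset.sum_filter, Finset.sum_const, nsmul_eq_mul, mul_comm]
    congr 3
    ext z
    simp
  rw [h0]
  refine (Finset.abs_sum_le_sum_abs _ _).trans (Finset.sum_le_sum fun f _ => ?_)
  rw [← mul_sub, abs_mul, abs_of_nonneg (hw f)]
  refine mul_le_mul_of_nonneg_left ?_ (hw f)
  by_cases h1 : (∃ z ∈ S ∩ H, f ∈ J z) ↔ (∃ z ∈ S' ∩ H, f ∈ J z)
  · have h2 : (if ∃ z ∈ S ∩ H, f ∈ J z then (1 : ℝ) else 0) -
        (if ∃ z ∈ S' ∩ H, f ∈ J z then (1 : ℝ) else 0) = 0 := by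
      by_cases h3 : ∃ z ∈ S ∩ H, f ∈ J z
      · rw [if_pos h3, if_pos (h1.1 h3), sub_self]
      · rw [if_neg h3, if_neg fun h => h3 (h1.2 h), sub_self]
    rw [h2, abs_zero]
    exact Nat.cast_nonneg _
  · have h2 : |(if ∃ z ∈ S ∩ H, f ∈ J z then (1 : ℝ) else 0) -
        (if ∃ z ∈ S' ∩ H, f ∈ J z then (1 : ℝ) else 0)| ≤ 1 := by
      split_ifs <;> norm_num
    refine h2.trans ?_
    have h3 : 1 ≤ ((symmDiff S S' ∩ H).filter fun z => f ∈ J z).card := by
      rw [Nat.one_le_iff_ne_zero, ← Nat.pos_iff_ne_zero, Finset.card_pos]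
      by_cases h4 : ∃ z ∈ S ∩ H, f ∈ J z
      · obtain ⟨z, hz, hz'⟩ := h4
        rw [Finset.mem_inter] at hz
        have h5 : z ∉ S' := fun h => h1 ⟨fun _ => ⟨z, Finset.mem_inter.2 ⟨h, hz.2⟩, hz'⟩,
          fun _ => ⟨z, Finset.mem_inter.2 hz, hz'⟩⟩
        exact ⟨z, Finset.mem_filter.2 ⟨Finset.mem_inter.2
          ⟨Finset.mem_symmDiff.2 (Or.inl ⟨hz.1, h5⟩), hz.2⟩, hz'⟩⟩
      · have h5 : ∃ z ∈ S' ∩ H, f ∈ J z := by
          by_contra h6
          exact h1 ⟨fun h => (h4 h).elim, fun h => (h6 h).elim⟩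
        obtain ⟨z, hz, hz'⟩ := h5
        rw [Finset.mem_inter] at hz
        have h6 : z ∉ S := fun h => h4 ⟨z, Finset.mem_inter.2 ⟨h, hz.2⟩, hz'⟩
        exact ⟨z, Finset.mem_filter.2 ⟨Finset.mem_inter.2
          ⟨Finset.mem_symmDiff.2 (Or.inr ⟨hz.1, h6⟩), hz.2⟩, hz'⟩⟩
    exact_mod_cast h3

end Pool.Agent.Lib.H23D
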