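import Pool.Agent.Lib.H23D.P7

/-!
# H23D, P7B: adjacent candidates are near

Module C of H93B, see `H93B/PROOF.md` and `README.md`.
-/

set_option autoImplicit false

open Finset
open scoped Classical

namespace Pool.Agent.Lib.H23D

open Pool.Agent.Lib.Prob48
open Pool.Agent.Lib.H93B

variable {V : Type} [Fintype V] {G : SimpleGraph V} {k : ℕ} {φ : V → Option (Fin k)} {c : Cst}
  {r : ℝ} {D : ℕ} {x C1 C3 L : ℝ}

/-- Conflict (a): the same vertex; (b): adjacent, or positive codegree (`K0 r² ≥ 0`), or common neighbours;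
(c): adjacent; a common label `(y, z)`: both vertices are adjacent to `y`. -/
theorem p7_Adj (hc : CstHyp c) {y z : V × Fin k} (h : (dat c r G φ).Adj y z) :
    z.1 ∈ ball G 2 y.1 := by
  have h01 : ∀ {u w : V}, G.Adj u w → w ∈ ball G 2 u := fun huw =>
    p7_mono (by norm_num) _ (p7_adj (p7_self 0 _) huw)
  have h11 : ∀ {u v w : V}, G.Adj u v → G.Adj v w → w ∈ ball G 2 u := fun huv hvw =>
    p7_adj (p7_adj (p7_self 0 _) huv) hvw
  obtain ⟨_, _, h | h | h⟩ := h
  · rw [h]
    exact p7_self 2 _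
  · obtain ⟨_, h1 | ⟨_, h1 | h1 | ⟨p, hp, _, _, _⟩⟩ | ⟨w, w', _, _, h1, _⟩⟩ := h
    · rw [h1]
      exact p7_self 2 _
    · exact h01 h1
    · refine p7_cd (lt_of_le_of_lt ?_ h1)
      have := K0_pos hc
      positivity
    · obtain ⟨h1, h2⟩ := mem_co.1 hp
      exact h11 h1 h2.symm
    · exact h01 h1
  · obtain ⟨f, h1, h2⟩ := share_iff.1 h
    have h3 := (mem_J'.1 h1).2.1.2.1
    have h4 := (mem_J'.1 h2).2.1.2.1
    exact h11 h3.symm h4

/-- induction on `n` -/
theorem p7_within (hc : CstHyp c) {n : ℕ} {y z : V × Fin k} (h : (dat c r G φ).Within n y z) :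
    z.1 ∈ ball G (2 * n) y.1 := by
  induction n generalizing y with
  | zero =>
    have h1 : y = z := h
    rw [h1]
    exact p7_self _ _
  | succ n ih =>
    rcases h with h1 | ⟨u, h1, h2⟩
    · rw [h1]
      exact p7_self _ _
    · have h3 := p7_trans (p7_Adj hc h1) (ih h2)
      have e : 2 + 2 * n = 2 * (n + 1) := by ring
      rwa [e] at h3

end Pool.Agent.Lib.H23D
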