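/-
MP_273810_co, H25D (chunk P8): no leaf from vertex to vertex without perpendicular hit.
-/
import Mathlib
import Pool.Agent.Lib.H23D.Legs
import Pool.Agent.Lib.H23D.A1P
import Pool.Agent.Lib.H25D.PEnds
import Pool.Agent.Lib.H25D.PRefl

namespace Pool.Agent.Lib.H23D

open Set Metric Filter Topology
open Pool.Agent.Lib.H42I (IsPolygon refl)
open Pool.Agent.H52W (cdet)
open Pool.Agent.Lib.H45Z
open Pool.Agent.Lib.H25D
open Pool.Agent.Lib.H25D.TSurf
open Pool.Agent.Lib.H26D (VPath)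

section
variable {n N : ℕ} [NeZero n] [NeZero N] {P : Set ℂ} {v : ZMod n → ℂ} {kap : ZMod n → ZMod N}

private theorem st_cast {X : Type} {M : TSurf X} {x y : X} {W W' : ℂ} (h : M.Seg x W y) (e : W = W') : M.Seg x W' y := e ▸ h

theorem fr_IE (g : Fr N) (e : ZMod N) : fr g (Complex.I * E e) =
    ((if g.2 then -1 else 1 : ℝ) : ℂ) * (Complex.I * E (if g.2 then g.1 - e else g.1 + e)) := by
  unfold fr
  cases hg : g.2
  · simp only [Bool.false_eq_true, if_false]
    rw [E_add]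
    push_cast
    ring
  · simp only [if_true]
    rw [map_mul, Complex.conj_I, E_conj, sub_eq_add_neg, E_add]
    push_cast
    ring

theorem E_inj {a b : ZMod N} (h : E a = E b) : a = b := ZMod.injective_stdAddChar h

/-- replace the start of a path by a vertex behind it -/
theorem QPath.start {K : ℕ} {j : ℕ → ZMod n} {b D : ℕ → ℂ} {r : ℕ → ℝ} (h : QPath P v K j b D r) {a c : ZMod n} {s : ℝ}
    (hs : 0 < s) (h1 : b 0 = v a + (s : ℂ) * D 0) (h2 : ∀ t ∈ Ioc 0 s, v a + (t : ℂ) * D 0 ∈ interior P)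
    (hc : b (K + 1) = v c) :
    VPath P v K j (cns (v a) fun m => b (m + 1)) D (cns (r 0 + s) fun m => r (m + 1)) := by
  have hr0 := h.pos 0 (Nat.zero_le K)
  have hst0 := h.step 0 (Nat.zero_le K)
  rw [zero_add] at hst0
  have hfly0 := h.fly 0 (Nat.zero_le K)
  rw [zero_add] at hfly0
  have e1 : b 1 = v a + ((r 0 + s : ℝ) : ℂ) * D 0 := by
    rw [hst0, h1]
    push_cast
    ring
  refine ⟨?_, ?_, ?_, ?_, ?_, ?_, ⟨a, rfl⟩, ⟨c, hc⟩⟩
  · rintro (_ | m) hm
    · show 0 < r 0 + s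
      linarith
    · exact h.pos (m + 1) hm
  · rintro (_ | m) hm
    · exact e1
    · exact h.step (m + 1) hm
  · rintro (_ | m) hm
    · show openSegment ℝ (v a) (b 1) ⊆ interior P
      rw [e1]
      refine openSegment_step (by linarith) fun t ht => ?_
      rcases le_or_gt t s with h3 | h3
      · exact h2 t ⟨ht.1, h3⟩
      · apply hfly0
        have e2 : v a + (t : ℂ) * D 0 = b 0 + (((t - s) / r 0 : ℝ) : ℂ) * (b 1 - b 0) := by
          rw [hst0, h1, add_sub_cancel_left]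
          have : (r 0 : ℂ) ≠ 0 := by exact_mod_cast hr0.ne'
          push_cast
          field_simp
          ring
        rw [e2]
        exact Pool.Agent.H52W.param_mem_openSegment _ _ _ (div_pos (by linarith) hr0) ((div_lt_one hr0).2 (by linarith [ht.2]))
    · exact h.fly (m + 1) hm
  · rintro (_ | m) hm hm'
    · omega
    · exact h.side (m + 1) (by omega) hm'
  · exact h.bounce
  · exact h.nperp

theorem star (hP : IsPolygon P v) (hg : Gon v kap) (e : ZMod N) :
    ∀ (x : SPt P v N) (T T' : ℝ), 0 < T → 0 < T' →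
      (H25D.PS hP (par_of_gon hg)).Dead (Complex.I * E e) x T →
      (H25D.PS hP (par_of_gon hg)).Dead (Complex.I * E e) x (-T') →
      ∃ t : ℝ, -T' < t ∧ t < T ∧ (H25D.PS hP (par_of_gon hg)).Hit (Complex.I * E e) (pg kap e) x t := by
  intro x T T' hT hT' hd hd'
  by_contra hno
  push Not at hno
  set hk := par_of_gon hg with hkdef
  set θ : ℂ := Complex.I * E e with hθdef
  have hθ : ‖θ‖ = 1 := by rw [hθdef, norm_mul, Complex.norm_I, norm_E, one_mul]
  have htr : Tr v N θ := fun i g => transv_dir hg e g i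
  have hθ' : ‖-θ‖ = 1 := by rw [norm_neg, hθ]
  have htr' : Tr v N (-θ) := by
    intro i g
    have h1 : fr g (-θ) = ((-1 : ℝ) : ℂ) * fr g θ := by
      rw [fr_neg]
      push_cast
      ring
    rw [h1, cdet_real]
    exact mul_ne_zero (by norm_num) (htr i g)
  have hnt : ∀ s : ℝ, ‖(s : ℂ) * θ‖ = |s| := fun s => by
    rw [norm_mul, hθ, mul_one, Complex.norm_real, Real.norm_eq_abs]
  -- the end of the backward leaf
  have hdb : (H25D.PS hP hk).Dead (-θ) x T' := by
    rintro ⟨y, hy⟩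
    exact hd' ⟨y, st_cast hy (by push_cast; ring)⟩
  obtain ⟨τ', hτ', hτT', z', hz'0, hz', hr'⟩ := death_path hθ' hT' hdb
  obtain ⟨c', g', t₀', ht₀', hend'⟩ := death_end hP hk hθ' htr' hτ' hz' hr'
  obtain ⟨hyi, hyg, hyp⟩ := hend' t₀' ⟨le_rfl, ht₀'.2⟩
  set y := z' t₀' with hy
  set s₀ := τ' - t₀' with hs₀
  have hs0 : 0 < s₀ := by linarith [ht₀'.2]
  have hyp2 : y.p = v c' + (s₀ : ℂ) * fr g' θ := by
    rw [hyp, fr_neg, hs₀]
    ring
  have hint : ∀ t ∈ Ioc 0 s₀, v c' + (t : ℂ) * fr g' θ ∈ interior P := by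
    intro t ht
    obtain ⟨h1, -, h2⟩ := hend' (τ' - t) ⟨by linarith [ht.2], by linarith [ht.1]⟩
    rw [h2, fr_neg] at h1
    have e1 : v c' - ((τ' - (τ' - t) : ℝ) : ℂ) * -fr g' θ = v c' + (t : ℂ) * fr g' θ := by
      push_cast
      ring
    rwa [e1] at h1
  have hxy : (H25D.PS hP hk).Seg x (((-t₀' : ℝ) : ℂ) * θ) y := st_cast (hz' t₀' ht₀') (by push_cast; ring)
  -- the forward leaf from `y`
  have hT2 : 0 < t₀' + T := by linarith [ht₀'.1]
  have hdy : (H25D.PS hP hk).Dead θ y (t₀' + T) := by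
    rintro ⟨w, hw⟩
    exact hd ⟨w, st_cast (seg_line hxy hw) (by push_cast; ring)⟩
  obtain ⟨τ, hτ, hτT, z, hz0, hz, hr⟩ := death_path hθ hT2 hdy
  obtain ⟨c, g₀, t₀, ht₀, hend⟩ := death_end hP hk hθ htr hτ hz hr
  -- no perpendicular bounce
  have hnh : ∀ t ∈ Ico (0 : ℝ) τ, ∀ i, (z t).p ∈ openSegment ℝ (v i) (v (i + 1)) →
      fr (rf kap i (z t).g) θ ≠ - fr (z t).g θ := by
    intro t ht i hi heq
    refine hno (t - t₀') (by linarith [ht.1, ht₀'.2]) (by linarith [ht.2]) ?_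
    refine ⟨z t, st_cast (seg_line hxy (hz t ht)) (by push_cast; ring), ?_⟩
    rw [pg_fixed_iff hP hg]
    refine ⟨i, hi, ?_⟩
    have hni : (z t).p ∉ interior P := (side_mem hP (openSegment_subset_segment _ _ _ hi)).2
    have hbit := (z t).bit hni
    have h1 : E (2 * kap i - (z t).g.1 - e) = E ((z t).g.1 + e) := by
      have h2 := heq
      rw [hθdef, fr_IE, fr_IE] at h2
      have h3 : (rf kap i (z t).g).2 = true := by
        show (!(z t).g.2) = true
        rw [hbit]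
        rfl
      have h4 : (rf kap i (z t).g).1 = 2 * kap i - (z t).g.1 := rfl
      rw [h3, h4, hbit] at h2
      simp only [if_true, Bool.false_eq_true, if_false] at h2
      push_cast at h2
      have hI := Complex.I_ne_zero
      have h5 : Complex.I * E (2 * kap i - (z t).g.1 - e) = Complex.I * E ((z t).g.1 + e) := by linear_combination -h2
      exact mul_left_cancel₀ hI h5
    have h2 := E_inj h1
    have h3 : (2 : ZMod N) * ((z t).g.1 + e) = 2 * kap i := by linear_combination -h2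
    exact two_cancel hg.prime hg.odd h3
  -- the constants
  have hdist : ∀ t ∈ Ico (0 : ℝ) τ, ∀ t' ∈ Ico (0 : ℝ) τ, ‖(z t').p - (z t).p‖ ≤ |t' - t| := by
    intro t ht t' ht'
    have h1 := seg_dist hP hk (path_seg hz ht ht')
    rwa [hnt] at h1
  obtain ⟨ρ₁, hρ₁, hρ₁'⟩ : ∃ ρ > 0, ∀ t ∈ Icc 0 t₀, ρ ≤ rho2 v (z t).p := by
    have hc1 : ContinuousOn (fun t => rho2 v (z t).p) (Icc 0 t₀) := by
      refine (rho2_continuous hP.three_le v).comp_continuousOn ?_
      have hL : LipschitzOnWith 1 (fun t => (z t).p) (Icc 0 t₀) := by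
        refine LipschitzOnWith.of_dist_le_mul fun t ht t' ht' => ?_
        rw [dist_eq_norm, Real.dist_eq, NNReal.coe_one, one_mul]
        exact hdist t' ⟨ht'.1, ht'.2.trans_lt ht₀.2⟩ t ⟨ht.1, ht.2.trans_lt ht₀.2⟩
      exact hL.continuousOn
    obtain ⟨m, hm, hmin⟩ := isCompact_Icc.exists_isMinOn (nonempty_Icc.2 ht₀.1) hc1
    exact ⟨rho2 v (z m).p, rho2_pos hP _ (z m).nv, fun t ht => hmin ht⟩
  obtain ⟨δ, hδ, hδ'⟩ := Metric.isOpen_iff.1 isOpen_interior _ hyi
  have hypos := rho2_pos hP _ y.nv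
  set ρ := min ρ₁ (min δ (rho2 v y.p)) with hρdef
  have hρ : 0 < ρ := lt_min hρ₁ (lt_min hδ hypos)
  have hρ1 : ρ ≤ ρ₁ := min_le_left _ _
  have hρ2 : ρ ≤ δ := (min_le_right _ _).trans (min_le_left _ _)
  have hρ3 : ρ ≤ rho2 v y.p := (min_le_right _ _).trans (min_le_right _ _)
  obtain ⟨k, hkk⟩ := exists_nat_gt (t₀ / ρ)
  have h0τ : (0 : ℝ) ∈ Ico (0 : ℝ) τ := ⟨le_rfl, hτ⟩
  obtain ⟨K, j, b, D, r, hQ, hb0, hD0, hbK⟩ := legs hP hk hθ hz ht₀ hend hρ (fun t ht => hρ1.trans (hρ₁' t ht)) hnh k 0 h0τ y.p g'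
    (by
      rw [sub_zero]
      exact ((div_lt_iff₀ hρ).1 hkk).le) (by
      intro t ht htτ
      rw [zero_add] at ht
      have hta : |t - 0| = t := by rw [sub_zero, abs_of_pos ht.1]
      have h1 : z t = sadd hP hk (z 0) (((t - 0 : ℝ) : ℂ) * θ) :=
        path_add hθ hz h0τ ⟨ht.1.le, htτ⟩ (by
          rw [hta, hz0]
          exact ht.2.trans_le hρ3)
      rw [hz0] at h1
      have hu : ‖((t - 0 : ℝ) : ℂ) * θ‖ < rho2 v y.p := by
        rw [hnt, hta]
        exact ht.2.trans_le hρ3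
      have hin : y.p + fr y.g (((t - 0 : ℝ) : ℂ) * θ) ∈ interior P := by
        apply hδ'
        rw [mem_ball, dist_eq_norm, add_sub_cancel_left, norm_fr, hnt, hta]
        exact ht.2.trans_le hρ2
      obtain ⟨h2, h3⟩ := sadd_int hP hk y _ hu hin
      rw [← h1] at h2 h3
      rw [fr_real, hyg] at h2
      rw [hyg] at h3
      refine ⟨?_, h3, h2⟩
      rw [h2, ← fr_real, ← hyg]
      exact hin)
  have hV := hQ.start (a := c') (c := c) hs0 (by rw [hb0, hD0, hyp2]) (fun t ht => by rw [hD0]; exact hint t ht) hbK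
  refine no_vertex_path hP hg hV (a := c') (c := c) rfl hbK
    (e0 := if g'.2 then g'.1 - e else g'.1 + e) (s0 := if g'.2 then -1 else 1) ?_ ?_
  · split_ifs <;> norm_num
  · rw [hD0, hθdef, fr_IE]

end

end Pool.Agent.Lib.H23D
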